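import Pool.Agent.Lib.MP_db6a6f_al.Exp

set_option autoImplicit false

/-! A subgroup of bounded exponent of a finite power of `ℚ / ℤ` is its own double annihilator. -/

namespace Pool.Agent.Lib.MP_db6a6f_al

open Finset

theorem ann : AnnStmt := by
  intro ι _ H N hN hH g hg
  classical
  by_contra hgH
  have hne : ((g : ι → QZ) : (ι → QZ) ⧸ H) ≠ 0 := by
    intro h
    exact hgH ((QuotientAddGroup.eq_zero_iff g).mp h)
  obtain ⟨c0, hc0⟩ := CharacterModule.exists_character_apply_ne_zero_of_ne_zero hne
  let c : (ι → QZ) →+ QZ := AddMonoidHom.comp (c0 : ((ι → QZ) ⧸ H) →+ QZ) (QuotientAddGroup.mk' H)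
  have hcH : ∀ h ∈ H, c h = 0 := by
    intro h hh
    have h0 : QuotientAddGroup.mk' H h = 0 := (QuotientAddGroup.eq_zero_iff h).mpr hh
    change (c0 : ((ι → QZ) ⧸ H) →+ QZ) (QuotientAddGroup.mk' H h) = 0
    rw [h0]
    exact map_zero (c0 : ((ι → QZ) ⧸ H) →+ QZ)
  have hcg : c g ≠ 0 := hc0
  obtain ⟨q, hq⟩ : ∃ q : QZ, q = ((1 / N : ℚ) : QZ) := ⟨_, rfl⟩
  have hNq : N • q = 0 := by
    rw [hq, ← QuotientAddGroup.mk_nsmul, QuotientAddGroup.eq_zero_iff]
    refine AddSubgroup.mem_zmultiples_iff.mpr ⟨1, ?_⟩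
    have hN' : (N : ℚ) ≠ 0 := by exact_mod_cast hN.ne'
    rw [one_zsmul, nsmul_eq_mul, mul_one_div, div_self hN']
  have h1 : ∀ i : ι, ∃ n : ℤ, c (Pi.single i q) = n • q := by
    intro i
    rw [hq]
    apply exists_zsmul_of_nsmul hN
    rw [← hq, ← map_nsmul, ← Pi.single_smul, hNq, Pi.single_zero, map_zero]
  choose n hn using h1
  have key : ∀ h : ι → QZ, N • h = 0 → c h = ∑ i, n i • h i := by
    intro h hh
    have h2 : ∀ i, ∃ k : ℤ, h i = k • q := by
      intro i
      rw [hq]
      exact exists_zsmul_of_nsmul hN (congrFun hh i)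
    choose k hk using h2
    have h3 : h = ∑ i, k i • Pi.single i q := by
      funext j
      rw [Finset.sum_apply, Finset.sum_eq_single j]
      · rw [Pi.smul_apply, Pi.single_eq_same, hk]
      · intro i _ hij
        rw [Pi.smul_apply, Pi.single_eq_of_ne (Ne.symm hij), smul_zero]
      · intro hj
        exact absurd (Finset.mem_univ j) hj
    calc c h = ∑ i, k i • c (Pi.single i q) := by
          conv_lhs => rw [h3]
          rw [map_sum]
          exact Finset.sum_congr rfl (fun i _ => map_zsmul c (k i) _)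
      _ = ∑ i, n i • h i := by
          apply Finset.sum_congr rfl
          intro i _
          rw [hn, hk, smul_smul, smul_smul, mul_comm]
  have hNg : N • g = 0 := by
    funext i
    have h4 := hg (Pi.single i (N : ℤ)) (by
      intro h hh
      rw [Finset.sum_eq_single i]
      · rw [Pi.single_eq_same, natCast_zsmul]
        exact congrFun (hH h hh) i
      · intro j _ hj
        rw [Pi.single_eq_of_ne hj, zero_smul]
      · intro hj
        exact absurd (Finset.mem_univ i) hj)
    rw [Finset.sum_eq_single i] at h4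
    · rw [Pi.single_eq_same, natCast_zsmul] at h4
      exact h4
    · intro j _ hj
      rw [Pi.single_eq_of_ne hj, zero_smul]
    · intro hj
      exact absurd (Finset.mem_univ i) hj
  refine hcg ?_
  rw [key g hNg]
  refine hg n (fun h hh => ?_)
  rw [← key h (hH h hh)]
  exact hcH h hh

end Pool.Agent.Lib.MP_db6a6f_al
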