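import Pool.Agent.Lib.MP_db6a6f_al.Stmts

set_option autoImplicit false

/-! Module A2: the augmentation lemma. -/

namespace Pool.Agent.Lib.MP_db6a6f_al

open Finset

namespace Aug

variable {X : Type} [AddCommGroup X]

lemma char_mem (χ : AddChar X ℂ) : (χ : X → ℂ) ∈ Lam X :=
  Subring.subset_closure ⟨χ, rfl⟩

lemma char_ne (χ : AddChar X ℂ) (φ : X) : χ φ ≠ 0 := by
  intro h
  have h1 : χ (φ + -φ) = χ φ * χ (-φ) := AddChar.map_add_eq_mul _ _ _
  rw [h, zero_mul, add_neg_cancel, AddChar.map_zero_eq_one] at h1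
  exact one_ne_zero h1

lemma map_neg (χ : AddChar X ℂ) (φ : X) : χ (-φ) = (χ φ)⁻¹ := by
  have h1 : χ (φ + -φ) = χ φ * χ (-φ) := AddChar.map_add_eq_mul _ _ _
  rw [add_neg_cancel, AddChar.map_zero_eq_one] at h1
  exact eq_inv_of_mul_eq_one_right h1.symm

lemma zpow_mem (χ : AddChar X ℂ) (n : ℤ) : (fun φ => (χ φ) ^ n : X → ℂ) ∈ Lam X := by
  obtain ⟨k, rfl | rfl⟩ := n.eq_nat_or_neg
  · have h : (fun φ => (χ φ) ^ ((k : ℕ) : ℤ) : X → ℂ) = (χ : X → ℂ) ^ k := by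
      funext φ
      simp
    rw [h]
    exact Subring.pow_mem _ (char_mem χ) k
  · have h : (fun φ => (χ φ) ^ (-((k : ℕ) : ℤ)) : X → ℂ) = ((χ⁻¹ : AddChar X ℂ) : X → ℂ) ^ k := by
      funext φ
      rw [Pi.pow_apply, AddChar.inv_apply, map_neg, zpow_neg, zpow_natCast, inv_pow]
    rw [h]
    exact Subring.pow_mem _ (char_mem χ⁻¹) k

lemma single (χ : AddChar X ℂ) (n : ℤ) : ∃ r : X → ℂ, r ∈ Lam X ∧ r 0 = (n : ℂ) ∧
    ∀ φ, r φ * (χ φ - 1) = (χ φ) ^ n - 1 := by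
  have key : ∀ k : ℕ, (∑ j ∈ range k, (χ : X → ℂ) ^ j) ∈ Lam X ∧
      (∑ j ∈ range k, (χ : X → ℂ) ^ j) 0 = (k : ℂ) ∧
      ∀ φ, (∑ j ∈ range k, (χ : X → ℂ) ^ j) φ * (χ φ - 1) = (χ φ) ^ k - 1 := by
    intro k
    refine ⟨Subring.sum_mem _ fun j _ => Subring.pow_mem _ (char_mem χ) j, ?_, fun φ => ?_⟩
    · simp [Finset.sum_apply]
    · rw [Finset.sum_apply]
      simp only [Pi.pow_apply]
      exact geom_sum_mul _ _
  obtain ⟨k, rfl | rfl⟩ := n.eq_nat_or_neg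
  · obtain ⟨h1, h2, h3⟩ := key k
    exact ⟨_, h1, by rw [h2]; simp, fun φ => by rw [h3 φ]; simp⟩
  · obtain ⟨h1, h2, h3⟩ := key k
    refine ⟨-((fun φ => (χ φ) ^ (-((k : ℕ) : ℤ)) : X → ℂ) * ∑ j ∈ range k, (χ : X → ℂ) ^ j),
      Subring.neg_mem _ (Subring.mul_mem _ (zpow_mem χ _) h1), ?_, fun φ => ?_⟩
    · rw [Pi.neg_apply, Pi.mul_apply, h2]
      simp
    · have hne := char_ne χ φ
      rw [Pi.neg_apply, Pi.mul_apply, neg_mul, mul_assoc, h3 φ]
      rw [zpow_neg, zpow_natCast, mul_sub, inv_mul_cancel₀ (pow_ne_zero _ hne)]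
      ring

lemma main (ι : Type) (χ : ι → AddChar X ℂ) (n : ι → ℤ) (s : Finset ι) :
    ∃ ρ : ι → X → ℂ, (∀ i, ρ i ∈ Lam X) ∧ (∀ i, ρ i 0 = (n i : ℂ)) ∧
      ∀ φ, ∑ i ∈ s, ρ i φ * (χ i φ - 1) = ∏ i ∈ s, (χ i φ) ^ (n i) - 1 := by
  classical
  induction s using Finset.induction_on with
  | empty =>
    refine ⟨fun i => ((n i : ℤ) : X → ℂ), fun i => intCast_mem _ _, fun i => by simp, ?_⟩
    intro φ
    simp
  | insert a s ha ih =>
    obtain ⟨ρ, h1, h2, h3⟩ := ih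
    obtain ⟨r, r1, r2, r3⟩ := single (χ a) (n a)
    have hY : (∏ i ∈ s, (fun φ => (χ i φ) ^ (n i) : X → ℂ)) ∈ Lam X :=
      Subring.prod_mem _ fun i _ => zpow_mem _ _
    set Y : X → ℂ := ∏ i ∈ s, (fun φ => (χ i φ) ^ (n i) : X → ℂ) with hYd
    have hYa : ∀ φ, Y φ = ∏ i ∈ s, (χ i φ) ^ (n i) := by
      intro φ
      rw [hYd, Finset.prod_apply]
    refine ⟨Function.update ρ a (r * Y), fun i => ?_, fun i => ?_, fun φ => ?_⟩
    · by_cases hi : i = a
      · subst hi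
        rw [Function.update_self]
        exact Subring.mul_mem _ r1 hY
      · rw [Function.update_of_ne hi]
        exact h1 i
    · by_cases hi : i = a
      · subst hi
        rw [Function.update_self, Pi.mul_apply, r2, hYa]
        simp
      · rw [Function.update_of_ne hi]
        exact h2 i
    · rw [Finset.sum_insert ha, Finset.prod_insert ha, Function.update_self]
      have hs : ∑ i ∈ s, Function.update ρ a (r * Y) i φ * (χ i φ - 1) =
          ∑ i ∈ s, ρ i φ * (χ i φ - 1) := by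
        refine Finset.sum_congr rfl fun i hi => ?_
        have hne : i ≠ a := by
          rintro rfl
          exact ha hi
        rw [Function.update_of_ne hne]
      rw [hs, h3 φ, Pi.mul_apply, hYa φ]
      have := r3 φ
      linear_combination (∏ i ∈ s, (χ i φ) ^ (n i)) * this

end Aug

theorem aug : AugStmt := by
  intro X ι _ s χ n h
  obtain ⟨ρ, h1, h2, h3⟩ := Aug.main ι χ n s
  exact ⟨ρ, h1, h2, fun φ => by rw [h3 φ, h φ, sub_self]⟩

end Pool.Agent.Lib.MP_db6a6f_al
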