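import Pool.Agent.Lib.MP_db6a6f_al.Cox

set_option autoImplicit false

/-! The Davis complex of a Coxeter group and its cohomology with compact supports. -/

namespace Pool.Agent.Lib.MP_db6a6f_al

open Finset

variable {m : ℕ}

/-- The special subgroup generated by the set `T` of generators. -/
def WT (M : CoxeterMatrix (Fin m)) (T : Finset (Fin m)) : Subgroup M.Group :=
  Subgroup.closure (M.simple '' (T : Set (Fin m)))

/-- The left coset `w W_T`, as a set. -/
def cs (M : CoxeterMatrix (Fin m)) (T : Finset (Fin m)) (w : M.Group) : Set M.Group :=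
  {g | w⁻¹ * g ∈ WT M T}

/-- The cells of the Davis complex: the pairs `(T, D)` with `T` spherical and `D` a left coset of
the special subgroup `W_T`. The dimension of the cell is the cardinality of `T`. -/
def IsCell (M : CoxeterMatrix (Fin m)) (T : Finset (Fin m)) (D : Set M.Group) : Prop :=
  T ∈ nerve M ∧ ∃ w : M.Group, D = cs M T w

/-- The cellular coboundary: the faces of codimension one of the cell `(T, D)` are the cells
`(T ∖ {t}, D')` with `t ∈ T` and `D' ⊆ D`. The cell `(T, w W_T)` is oriented by `(-1) ^ ℓ(w)` times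
the translate by `w` of the standard orientation of the Coxeter cell of `W_T`; with this choice the
incidence number of `(T, D)` and `(T ∖ {t}, D')` is the sign of `t` in `T`. -/
noncomputable def cob {R : Type} [AddCommGroup R] (M : CoxeterMatrix (Fin m))
    (F : Finset (Fin m) → Set M.Group → R) (T : Finset (Fin m)) (D : Set M.Group) : R :=
  ∑ t ∈ T, sg t T • ∑ᶠ (D' : Set M.Group) (_ : IsCell M (T.erase t) D' ∧ D' ⊆ D),
    F (T.erase t) D'

/-- The cochain `F` of degree `k` has compact (finite) support. -/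
def CSupp {R : Type} [AddCommGroup R] (M : CoxeterMatrix (Fin m))
    (F : Finset (Fin m) → Set M.Group → R) (k : ℕ) : Prop :=
  {p : Finset (Fin m) × Set M.Group | IsCell M p.1 p.2 ∧ p.1.card = k ∧ F p.1 p.2 ≠ 0}.Finite

/-- The cohomology with compact supports of the Davis complex, with coefficients in `R`, vanishes
in degree `k`. -/
def HcZero (R : Type) [AddCommGroup R] (M : CoxeterMatrix (Fin m)) (k : ℕ) : Prop :=
  ∀ F : Finset (Fin m) → Set M.Group → R, CSupp M F k →
    (∀ T D, IsCell M T D → T.card = k + 1 → cob M F T D = 0) →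
    ∃ G : Finset (Fin m) → Set M.Group → R, CSupp M G (k - 1) ∧
      ∀ T D, IsCell M T D → T.card = k → F T D = cob M G T D

/-- The boundary of the Coxeter group has cohomological dimension `n` over `R`: the largest degree
in which the compactly supported cohomology of the Davis complex is not zero is `n + 1`. -/
def HasBoundaryDim (R : Type) [AddCommGroup R] (M : CoxeterMatrix (Fin m)) (n : ℕ) : Prop :=
  ¬ HcZero R M (n + 1) ∧ ∀ k : ℕ, n < k → HcZero R M (k + 1)

section basics

variable {M : CoxeterMatrix (Fin m)}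

theorem mem_cs {T : Finset (Fin m)} {w g : M.Group} : g ∈ cs M T w ↔ w⁻¹ * g ∈ WT M T := Iff.rfl

theorem self_mem_cs (T : Finset (Fin m)) (w : M.Group) : w ∈ cs M T w := by
  rw [mem_cs, inv_mul_cancel]; exact (WT M T).one_mem

theorem cs_eq_of_mem {T : Finset (Fin m)} {w g : M.Group} (h : g ∈ cs M T w) :
    cs M T g = cs M T w := by
  ext x
  rw [mem_cs] at *
  rw [mem_cs]
  constructor
  · intro hx
    have := (WT M T).mul_mem h hx
    rwa [show w⁻¹ * g * (g⁻¹ * x) = w⁻¹ * x by group] at this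
  · intro hx
    have := (WT M T).mul_mem ((WT M T).inv_mem h) hx
    rwa [show (w⁻¹ * g)⁻¹ * (w⁻¹ * x) = g⁻¹ * x by group] at this

theorem mul_mem_cs {T : Finset (Fin m)} {w g a : M.Group} (h : g ∈ cs M T w) (ha : a ∈ WT M T) :
    g * a ∈ cs M T w := by
  rw [mem_cs, ← mul_assoc]; exact (WT M T).mul_mem h ha

theorem WT_mono {U T : Finset (Fin m)} (h : U ⊆ T) : WT M U ≤ WT M T :=
  Subgroup.closure_mono (Set.image_mono (by exact_mod_cast h))

theorem cs_mono {U T : Finset (Fin m)} (h : U ⊆ T) (w : M.Group) : cs M U w ⊆ cs M T w :=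
  fun _ hg => WT_mono h hg

theorem simple_mem_WT {T : Finset (Fin m)} {t : Fin m} (ht : t ∈ T) : M.simple t ∈ WT M T :=
  Subgroup.subset_closure ⟨t, by exact_mod_cast ht, rfl⟩

theorem isCell_cs {T : Finset (Fin m)} (hT : T ∈ nerve M) (w : M.Group) : IsCell M T (cs M T w) :=
  ⟨hT, w, rfl⟩

theorem IsCell.eq_cs {T : Finset (Fin m)} {D : Set M.Group} (h : IsCell M T D) {g : M.Group}
    (hg : g ∈ D) : D = cs M T g := by
  obtain ⟨_, w, rfl⟩ := h
  exact (cs_eq_of_mem hg).symm

theorem IsCell.nonempty {T : Finset (Fin m)} {D : Set M.Group} (h : IsCell M T D) :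
    D.Nonempty := by
  obtain ⟨_, w, rfl⟩ := h
  exact ⟨w, self_mem_cs T w⟩

theorem finite_cs {T : Finset (Fin m)} (hT : T ∈ nerve M) (w : M.Group) :
    (cs M T w).Finite := by
  have h : Finite (WT M T : Set M.Group) := mem_nerve.mp hT
  have h2 : (WT M T : Set M.Group).Finite := Set.toFinite _
  refine (h2.image (fun a => w * a)).subset ?_
  intro g hg
  exact ⟨w⁻¹ * g, hg, by simp⟩

theorem IsCell.finite {T : Finset (Fin m)} {D : Set M.Group} (h : IsCell M T D) : D.Finite := by
  obtain ⟨hT, w, rfl⟩ := h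
  exact finite_cs hT w

theorem erase_mem_nerve {T : Finset (Fin m)} (hT : T ∈ nerve M) (t : Fin m) :
    T.erase t ∈ nerve M := isCx_nerve M _ hT _ (erase_subset _ _)

/-- The faces of type `U` of the set `D`. -/
noncomputable def faces (M : CoxeterMatrix (Fin m)) (U : Finset (Fin m)) (D : Set M.Group) :
    Finset (Set M.Group) :=
  open Classical in
  if h : {D' : Set M.Group | IsCell M U D' ∧ D' ⊆ D}.Finite then h.toFinset else ∅

theorem mem_faces {U : Finset (Fin m)} {D : Set M.Group} (hD : D.Finite) {D' : Set M.Group} :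
    D' ∈ faces M U D ↔ IsCell M U D' ∧ D' ⊆ D := by
  have h : {D' : Set M.Group | IsCell M U D' ∧ D' ⊆ D}.Finite :=
    hD.finite_subsets.subset (fun D' h => h.2)
  unfold faces
  rw [dif_pos h]; simp

theorem finsum_faces {R : Type} [AddCommGroup R] {U : Finset (Fin m)} {D : Set M.Group}
    (hD : D.Finite) (f : Set M.Group → R) :
    ∑ᶠ (D' : Set M.Group) (_ : IsCell M U D' ∧ D' ⊆ D), f D' = ∑ D' ∈ faces M U D, f D' := by
  rw [← finsum_mem_finset_eq_sum]
  apply finsum_congr
  intro D'
  rw [mem_faces hD]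

/-- The coboundary as a finite sum. -/
theorem cob_eq {R : Type} [AddCommGroup R] (F : Finset (Fin m) → Set M.Group → R)
    {T : Finset (Fin m)} {D : Set M.Group} (hD : D.Finite) :
    cob M F T D = ∑ t ∈ T, sg t T • ∑ D' ∈ faces M (T.erase t) D, F (T.erase t) D' := by
  unfold cob
  exact sum_congr rfl (fun t _ => by rw [finsum_faces hD])

/-- Every element of a cell lies in exactly one face of type `U`. -/
theorem faces_cover {U T : Finset (Fin m)} {D : Set M.Group} (hU : U ⊆ T) (hD : IsCell M T D)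
    {g : M.Group} (hg : g ∈ D) : cs M U g ∈ faces M U D := by
  rw [mem_faces hD.finite]
  refine ⟨isCell_cs (isCx_nerve M _ hD.1 _ hU) g, ?_⟩
  rw [hD.eq_cs hg]
  exact cs_mono hU g

/-- A sum over a cell is the sum of the sums over its faces of a given type. -/
theorem sum_faces_sum {R : Type} [AddCommGroup R] {U T : Finset (Fin m)} {D : Set M.Group}
    (hU : U ⊆ T) (hD : IsCell M T D) (f : M.Group → R) :
    ∑ D' ∈ faces M U D, ∑ᶠ (y : M.Group) (_ : y ∈ D'), f y = ∑ᶠ (y : M.Group) (_ : y ∈ D), f y := by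
  classical
  have hfin := hD.finite
  have h1 : ∀ D' ∈ faces M U D, ∑ᶠ (y : M.Group) (_ : y ∈ D'), f y =
      ∑ y ∈ hfin.toFinset, if cs M U y = D' then f y else 0 := by
    intro D' hD'
    rw [mem_faces hfin] at hD'
    rw [finsum_mem_eq_finite_toFinset_sum f hD'.1.finite, ← sum_filter]
    apply sum_congr
    · ext y
      simp only [Set.Finite.mem_toFinset, mem_filter]
      constructor
      · intro hy; exact ⟨hD'.2 hy, (hD'.1.eq_cs hy).symm⟩
      · rintro ⟨_, hy⟩; rw [← hy]; exact self_mem_cs U y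
    · intro _ _; rfl
  rw [sum_congr rfl h1, sum_comm, finsum_mem_eq_finite_toFinset_sum f hfin]
  apply sum_congr rfl
  intro y hy
  rw [Set.Finite.mem_toFinset] at hy
  rw [sum_ite_eq, if_pos (faces_cover hU hD hy)]

/-- Faces of faces. -/
theorem sum_faces_faces {R : Type} [AddCommGroup R] {U V T : Finset (Fin m)} {D : Set M.Group}
    (hU : U ⊆ V) (hV : V ⊆ T) (hD : IsCell M T D) (f : Set M.Group → R) :
    ∑ D' ∈ faces M V D, ∑ D'' ∈ faces M U D', f D'' = ∑ D'' ∈ faces M U D, f D'' := by
  classical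
  have hfin := hD.finite
  have h1 : ∀ D' ∈ faces M V D, ∑ D'' ∈ faces M U D', f D'' =
      ∑ D'' ∈ faces M U D, if D'' ⊆ D' then f D'' else 0 := by
    intro D' hD'
    rw [mem_faces hfin] at hD'
    rw [← sum_filter]
    apply sum_congr
    · ext E
      rw [mem_filter, mem_faces hD'.1.finite, mem_faces hfin]
      constructor
      · rintro ⟨h1, h2⟩; exact ⟨⟨h1, h2.trans hD'.2⟩, h2⟩
      · rintro ⟨⟨h1, _⟩, h2⟩; exact ⟨h1, h2⟩
    · intro _ _; rfl
  rw [sum_congr rfl h1, sum_comm]
  apply sum_congr rfl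
  intro E hE
  rw [mem_faces hfin] at hE
  obtain ⟨g, hg⟩ := hE.1.nonempty
  have hgD : g ∈ D := hE.2 hg
  have hE' : E = cs M U g := hE.1.eq_cs hg
  rw [Finset.sum_eq_single (cs M V g)]
  · rw [if_pos]; rw [hE']; exact cs_mono hU g
  · intro D' hD' hne
    rw [if_neg]
    intro hsub
    rw [mem_faces hfin] at hD'
    exact hne (hD'.1.eq_cs (hsub hg))
  · intro h
    exact absurd (faces_cover hV hD hgD) h

/-- The coboundary squares to zero. -/
theorem cob_cob {R : Type} [AddCommGroup R] (F : Finset (Fin m) → Set M.Group → R)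
    {T : Finset (Fin m)} {D : Set M.Group} (hD : IsCell M T D) : cob M (cob M F) T D = 0 := by
  rw [cob_eq _ hD.finite]
  have h1 : ∀ t ∈ T, sg t T • ∑ D' ∈ faces M (T.erase t) D, cob M F (T.erase t) D' =
      ∑ s ∈ T.erase t, (sg t T * sg s (T.erase t)) •
        ∑ D'' ∈ faces M ((T.erase t).erase s) D, F ((T.erase t).erase s) D'' := by
    intro t _
    have h2 : ∀ D' ∈ faces M (T.erase t) D, cob M F (T.erase t) D' =
        ∑ s ∈ T.erase t, sg s (T.erase t) • ∑ D'' ∈ faces M ((T.erase t).erase s) D',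
          F ((T.erase t).erase s) D'' := by
      intro D' hD'
      rw [mem_faces hD.finite] at hD'
      exact cob_eq F hD'.1.finite
    rw [sum_congr rfl h2, sum_comm, smul_sum]
    apply sum_congr rfl
    intro s _
    rw [← smul_sum, sum_faces_faces (erase_subset _ _) (erase_subset _ _) hD, smul_smul]
  rw [sum_congr rfl h1]
  apply sum_antisymm_zero
  intro a ha b hb hab
  rw [sg_sg ha hb hab, neg_smul, erase_right_comm]

theorem cob_sub {R : Type} [AddCommGroup R] (F G : Finset (Fin m) → Set M.Group → R)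
    {T : Finset (Fin m)} {D : Set M.Group} (hD : D.Finite) :
    cob M (fun T D => F T D - G T D) T D = cob M F T D - cob M G T D := by
  rw [cob_eq _ hD, cob_eq _ hD, cob_eq _ hD, ← sum_sub_distrib]
  exact sum_congr rfl (fun t _ => by rw [sum_sub_distrib, smul_sub])

theorem cob_add {R : Type} [AddCommGroup R] (F G : Finset (Fin m) → Set M.Group → R)
    {T : Finset (Fin m)} {D : Set M.Group} (hD : D.Finite) :
    cob M (fun T D => F T D + G T D) T D = cob M F T D + cob M G T D := by
  rw [cob_eq _ hD, cob_eq _ hD, cob_eq _ hD, ← sum_add_distrib]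
  exact sum_congr rfl (fun t _ => by rw [sum_add_distrib, smul_add])

theorem CSupp.sub {R : Type} [AddCommGroup R] {F G : Finset (Fin m) → Set M.Group → R} {k : ℕ}
    (hF : CSupp M F k) (hG : CSupp M G k) : CSupp M (fun T D => F T D - G T D) k := by
  refine (hF.union hG).subset ?_
  rintro ⟨T, D⟩ ⟨h1, h2, h3⟩
  by_cases h : F T D = 0
  · right
    refine ⟨h1, h2, fun h' => h3 ?_⟩
    simp only [h, h', sub_zero]
  · exact Or.inl ⟨h1, h2, h⟩

theorem CSupp.add {R : Type} [AddCommGroup R] {F G : Finset (Fin m) → Set M.Group → R} {k : ℕ}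
    (hF : CSupp M F k) (hG : CSupp M G k) : CSupp M (fun T D => F T D + G T D) k := by
  refine (hF.union hG).subset ?_
  rintro ⟨T, D⟩ ⟨h1, h2, h3⟩
  by_cases h : F T D = 0
  · right
    refine ⟨h1, h2, fun h' => h3 ?_⟩
    simp only [h, h', add_zero]
  · exact Or.inl ⟨h1, h2, h⟩

end basics

/-- B1: the exchange condition. -/
def ExchStmt : Prop :=
  ∀ (m : ℕ) (M : CoxeterMatrix (Fin m)) (ω : List (Fin m)) (i : Fin m),
    M.toCoxeterSystem.length (M.toCoxeterSystem.wordProd ω * M.simple i) <
      M.toCoxeterSystem.length (M.toCoxeterSystem.wordProd ω) →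
    ∃ j < ω.length, M.toCoxeterSystem.wordProd ω * M.simple i =
      M.toCoxeterSystem.wordProd (ω.eraseIdx j)

/-- B2: elements of special subgroups have reduced words in the generators of the subgroup. -/
def RedStmt : Prop :=
  ∀ (m : ℕ) (M : CoxeterMatrix (Fin m)) (T : Finset (Fin m)) (w : M.Group), w ∈ WT M T →
    ∃ ω : List (Fin m), (∀ i ∈ ω, i ∈ T) ∧ M.toCoxeterSystem.IsReduced ω ∧
      w = M.toCoxeterSystem.wordProd ω

/-- B3: the descents of an element generate a finite subgroup. -/
def DescStmt : Prop :=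
  ∀ (m : ℕ) (M : CoxeterMatrix (Fin m)) (w : M.Group) (T : Finset (Fin m)),
    (∀ i ∈ T, M.toCoxeterSystem.length (w * M.simple i) < M.toCoxeterSystem.length w) →
    T ∈ nerve M

/-- B4: an element without descents in `T` is strictly shorter than the other elements of its
coset. -/
def MinStmt : Prop :=
  ∀ (m : ℕ) (M : CoxeterMatrix (Fin m)) (T : Finset (Fin m)) (v : M.Group),
    (∀ i ∈ T, ¬ M.toCoxeterSystem.length (v * M.simple i) < M.toCoxeterSystem.length v) →
    ∀ a ∈ WT M T, a ≠ 1 → M.toCoxeterSystem.length v < M.toCoxeterSystem.length (v * a)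

/-- B5: special subgroups of disjoint sets of generators have only elements of even length in
common. -/
def ParStmt : Prop :=
  ∀ (m : ℕ) (M : CoxeterMatrix (Fin m)) (T U : Finset (Fin m)) (w : M.Group), Disjoint T U →
    w ∈ WT M T → w ∈ WT M U → Even (M.toCoxeterSystem.length w)

/-- B6: the easy half of the formula of Davis, over the rationals. -/
def LowStmt : Prop :=
  ∀ (m : ℕ) (M : CoxeterMatrix (Fin m)) (k : ℕ), HcZero ℚ M (k + 1) → ∀ T ∈ nerve M,
    Ex ℚ (LD (nerve M) ∅ T) (k + 1)

/-- B7: the other half of the formula of Davis. -/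
def HighStmt : Prop :=
  ∀ (m : ℕ) (M : CoxeterMatrix (Fin m)) (R : Type) [AddCommGroup R] (k : ℕ),
    (∀ T ∈ nerve M, Ex R (LD (nerve M) ∅ T) (k + 1)) → HcZero R M (k + 1)

/-- B8: the theorem. -/
theorem davis (hFold : FoldStmt) (hHer : HerStmt) (hInt : IntStmt) (hLow : LowStmt)
    (hHigh : HighStmt) : ∀ n : ℕ, 3 ≤ n → ∀ (m : ℕ) (M : CoxeterMatrix (Fin m)),
      ¬ (HasBoundaryDim ℤ M n ∧ HasBoundaryDim ℚ M 1) := by
  rintro n hn m M ⟨⟨h1, _⟩, ⟨_, h2⟩⟩
  apply h1
  apply hHigh
  intro T hT
  have hp : StrictMono (fun i : Fin m => ((i : ℕ) : ℚ)) := fun a b hab => by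
    simpa using hab
  exact int_of_rat hFold hHer hInt hp (isCx_nerve M)
    (fun σ hσ k hk => by
      obtain ⟨j, rfl⟩ : ∃ j, k = j + 1 := ⟨k - 1, by omega⟩
      exact hLow m M j (h2 j (by omega)) σ hσ) T hT (n + 1) (by omega)

end Pool.Agent.Lib.MP_db6a6f_al
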