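import Pool.Agent.Lib.MP_db6a6f_al.Exp

set_option autoImplicit false

/-! Module C11: the decomposition, from the core and the reduction to comparable orders. -/

namespace Pool.Agent.Lib.MP_db6a6f_al

open Finset

namespace DecP

variable {α : Type} [LinearOrder α]

/-- pairs -/
def isP (K : Finset (Finset α)) (u v : α) (f ξ : Finset α → QZ) : Prop :=
  Z1 (LD K ∅ {u, v}) f ∧ ∀ ρ ∈ Ed (LD K {u, v} ∅), f ρ = dl ξ ρ

/-- unramified pairs -/
def isZ (K : Finset (Finset α)) (u v : α) (f ξ : Finset α → QZ) : Prop :=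
  ∃ s : Finset α → QZ, (∀ ρ ∈ Ed (LD K {u} {v}), f ρ = dl s ρ) ∧
    ∀ c : α, {c} ∈ LD K {u, v} ∅ → s {c} = ξ {c}

/-- the cochain with `f` off `u` and `u`-part `ξ` -/
def mk (u : α) (f ξ : Finset α → QZ) (σ : Finset α) : QZ :=
  if u ∈ σ then sg u σ • ξ (σ.erase u) else f σ

lemma mk_off {u : α} {f ξ : Finset α → QZ} {σ : Finset α} (h : u ∉ σ) : mk u f ξ σ = f σ :=
  if_neg h

lemma Pt_mk {u : α} {f ξ : Finset α → QZ} {ρ : Finset α} (h : u ∉ ρ) :
    Pt u (mk u f ξ) ρ = ξ ρ := by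
  unfold Pt mk
  rw [if_pos (mem_insert_self u ρ), sg_sq_smul, erase_insert h]

lemma eq_Pt (u : α) (f : Finset α → QZ) (ρ : Finset α) :
    f (insert u ρ) = sg u (insert u ρ) • Pt u f ρ := by
  unfold Pt; rw [sg_sq_smul]

lemma Pt_congr {u : α} {f g : Finset α → QZ} {ρ : Finset α} (h : f (insert u ρ) = g (insert u ρ)) :
    Pt u f ρ = Pt u g ρ := by
  unfold Pt; rw [h]

lemma card_two {u : α} {σ : Finset α} (h : σ.card = 2) (hu : u ∈ σ) :
    ∃ c : α, c ≠ u ∧ σ = insert u {c} := by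
  have h1 : (σ.erase u).card = 1 := by rw [card_erase_of_mem hu, h]
  obtain ⟨c, hc⟩ := card_eq_one.mp h1
  refine ⟨c, ?_, ?_⟩
  · have : c ∈ σ.erase u := by rw [hc]; exact mem_singleton_self c
    exact (mem_erase.mp this).1
  · rw [← hc, insert_erase hu]

lemma dl_const {ρ : Finset α} (h : ρ.card = 2) (c : QZ) : dl (fun _ => c) ρ = 0 := by
  obtain ⟨a, b, hab, rfl⟩ := card_eq_two.mp h
  rcases lt_or_gt_of_ne hab with h' | h'
  · rw [dl_pair _ h', sub_self]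
  · rw [pair_comm, dl_pair _ h', sub_self]

lemma dl_cyc {u : α} {f : Finset α → QZ} {ρ : Finset α} (h : u ∉ ρ) (h0 : dl f (insert u ρ) = 0) :
    f ρ = dl (Pt u f) ρ := by
  rw [dl_insert u f h] at h0
  have h1 := congrArg (fun x => sg u (insert u ρ) • x) h0
  simp only [sg_sq_smul, smul_zero] at h1
  exact sub_eq_zero.mp h1

variable {K : Finset (Finset α)} {u v : α}

lemma mem_link2 {ρ : Finset α} : ρ ∈ LD K {u, v} ∅ ↔
    ρ ∈ K ∧ u ∉ ρ ∧ v ∉ ρ ∧ insert v (insert u ρ) ∈ K := by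
  rw [mem_LD]
  simp only [disjoint_insert_right, disjoint_singleton_right, disjoint_empty_right, true_and]
  have e : ρ ∪ {u, v} = insert v (insert u ρ) := by
    ext x; simp only [mem_union, mem_insert, mem_singleton]; tauto
  rw [e]; tauto

lemma mem_del2 {ρ : Finset α} : ρ ∈ LD K ∅ {u, v} ↔ ρ ∈ K ∧ u ∉ ρ ∧ v ∉ ρ := by
  rw [mem_LD]
  simp only [disjoint_insert_right, disjoint_singleton_right, disjoint_empty_right, true_and,
    union_empty]
  tauto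

lemma mem_lk {ρ : Finset α} : ρ ∈ LD K {u} {v} ↔ ρ ∈ K ∧ u ∉ ρ ∧ v ∉ ρ ∧ insert u ρ ∈ K := by
  rw [mem_LD]
  simp only [disjoint_singleton_right]
  have e : ρ ∪ {u} = insert u ρ := by
    ext x; simp only [mem_union, mem_insert, mem_singleton]; tauto
  rw [e]

lemma mem_lk1 {ρ : Finset α} : ρ ∈ LD K {v} ∅ ↔ ρ ∈ K ∧ v ∉ ρ ∧ insert v ρ ∈ K := by
  rw [mem_LD]
  simp only [disjoint_singleton_right, disjoint_empty_right, true_and]
  have e : ρ ∪ {v} = insert v ρ := by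
    ext x; simp only [mem_union, mem_insert, mem_singleton]; tauto
  rw [e]

lemma mem_del1 {ρ : Finset α} : ρ ∈ LD K ∅ {v} ↔ ρ ∈ K ∧ v ∉ ρ := by
  rw [mem_LD]
  simp only [disjoint_singleton_right, disjoint_empty_right, true_and, union_empty]
  tauto

lemma isZ_congr {f g ξ η : Finset α → QZ} (h : isZ K u v f ξ)
    (h1 : ∀ ρ ∈ Ed (LD K {u} {v}), g ρ = f ρ) (h2 : ∀ c : α, {c} ∈ LD K {u, v} ∅ → η {c} = ξ {c}) :
    isZ K u v g η := by
  obtain ⟨s, hs1, hs2⟩ := h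
  exact ⟨s, fun ρ hρ => by rw [h1 ρ hρ, hs1 ρ hρ], fun c hc => by rw [h2 c hc, hs2 c hc]⟩

/-- the cochain attached to a pair is a cocycle -/
lemma z1_mk (hK : IsCx K) {f ξ : Finset α → QZ} (h : isP K u v f ξ) :
    Z1 (Fu K u v) (mk u f ξ) := by
  intro τ hτ hc
  rw [mem_Fu] at hτ
  obtain ⟨hτK, hv, huv⟩ := hτ
  by_cases hu : u ∈ τ
  · have hu' : u ∉ τ.erase u := notMem_erase u τ
    have e : τ = insert u (τ.erase u) := (insert_erase hu).symm
    have hmem : τ.erase u ∈ Ed (LD K {u, v} ∅) := by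
      rw [mem_Ed, mem_link2, ← e]
      refine ⟨⟨hK τ hτK _ (erase_subset _ _), hu', fun h' => hv (mem_of_mem_erase h'), huv hu⟩, ?_⟩
      rw [card_erase_of_mem hu, hc]
    rw [e, dl_insert u _ hu', mk_off hu', h.2 _ hmem]
    rw [dl_congr (f := Pt u (mk u f ξ)) (g := ξ) (fun a _ => Pt_mk (fun h' =>
      hu' (mem_of_mem_erase h'))), sub_self, smul_zero]
  · rw [dl_congr (f := mk u f ξ) (g := f) (fun a _ => mk_off (fun h' =>
      hu (mem_of_mem_erase h')))]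
    exact h.1 τ (mem_del2.mpr ⟨hτK, hu, hv⟩) hc

/-- a cocycle gives a pair -/
lemma isP_of (hK : IsCx K) (huv : u ≠ v) {φ : Finset α → QZ} (h : Z1 (Fu K u v) φ) :
    isP K u v φ (Pt u φ) := by
  refine ⟨fun τ hτ hc => ?_, fun ρ hρ => ?_⟩
  · rw [mem_del2] at hτ
    exact h τ (mem_Fu.mpr ⟨hτ.1, hτ.2.2, fun h' => absurd h' hτ.2.1⟩) hc
  · rw [mem_Ed, mem_link2] at hρ
    obtain ⟨⟨h1, h2, h3, h4⟩, h5⟩ := hρ
    refine dl_cyc h2 (h _ (mem_Fu.mpr ⟨hK _ h4 _ (subset_insert _ _), ?_, fun _ => h4⟩) ?_)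
    · rw [mem_insert]; rintro (h' | h')
      · exact huv h'.symm
      · exact h3 h'
    · rw [card_insert_of_notMem h2, h5]

/-- ramification at `v` -/
lemma zv_iff (hK : IsCx K) (huv : u ≠ v) (φ : Finset α → QZ) :
    inZv K v φ ↔ isZ K v u φ (Pt u φ) := by
  constructor
  · rintro ⟨s, hs⟩
    refine ⟨fun σ => s σ - s {u}, fun ρ hρ => ?_, fun c hc => ?_⟩
    · rw [mem_Ed, mem_lk] at hρ
      obtain ⟨⟨h1, h2, h3, h4⟩, h5⟩ := hρ
      rw [hs ρ (mem_Ed.mpr ⟨mem_lk1.mpr ⟨h1, h2, h4⟩, h5⟩), dl_sub s (fun _ => s {u}),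
        dl_const h5, sub_zero]
    · rw [mem_link2] at hc
      obtain ⟨h1, h2, h3, h4⟩ := hc
      have hcu : c ≠ u := by
        rintro rfl; exact h3 (mem_singleton_self _)
      have hcv : c ≠ v := by
        rintro rfl; exact h2 (mem_singleton_self _)
      have hv' : v ∉ insert u ({c} : Finset α) := by
        simp [Ne.symm huv, Ne.symm hcv]
      have h4' : insert v (insert u ({c} : Finset α)) ∈ K := by rwa [Finset.insert_comm]
      have hmem : insert u ({c} : Finset α) ∈ Ed (LD K {v} ∅) := by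
        rw [mem_Ed, mem_lk1]
        refine ⟨⟨hK _ h4' _ (subset_insert _ _), hv', h4'⟩, ?_⟩
        rw [card_insert_of_notMem h3, card_singleton]
      have h6 := Pt_congr (hs _ hmem)
      rw [h6, Pt_dl u s h3, dl_singleton, Pt_empty]
  · rintro ⟨s, hs1, hs2⟩
    refine ⟨fun σ => if σ = {u} then 0 else s σ, fun σ hσ => ?_⟩
    rw [mem_Ed, mem_lk1] at hσ
    obtain ⟨⟨h1, h2, h3⟩, h4⟩ := hσ
    by_cases hu : u ∈ σ
    · obtain ⟨c, hcu, rfl⟩ := card_two h4 hu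
      have hu' : u ∉ ({c} : Finset α) := by simp [Ne.symm hcu]
      have hvc : v ∉ ({c} : Finset α) := fun h => h2 (mem_insert_of_mem h)
      rw [dl_insert u _ hu', dl_singleton, Pt_empty, if_pos rfl, sub_zero,
        if_neg (fun h => hcu (singleton_injective h)), eq_Pt u φ {c}, hs2 c]
      rw [mem_link2]
      exact ⟨hK _ h1 _ (subset_insert _ _), hvc, hu', by rwa [Finset.insert_comm]⟩
    · rw [hs1 σ (mem_Ed.mpr ⟨mem_lk.mpr ⟨h1, h2, hu, h3⟩, h4⟩)]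
      refine dl_congr fun a _ => ?_
      rw [if_neg]
      intro h
      apply hu
      have : u ∈ σ.erase a := by rw [h]; exact mem_singleton_self u
      exact mem_of_mem_erase this

/-- ramification at `u` -/
lemma zu_iff (hK : IsCx K) (huv : u ≠ v) {φ : Finset α → QZ} (hφ : Z1 (Fu K u v) φ) :
    inZu K u v φ ↔ isZ K u v φ (Pt u φ) := by
  constructor
  · rintro ⟨ψ, hψ, hs⟩
    refine ⟨Pt u ψ, fun ρ hρ => ?_, fun c hc => ?_⟩
    · rw [mem_Ed, mem_lk] at hρ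
      obtain ⟨⟨h1, h2, h3, h4⟩, h5⟩ := hρ
      rw [← hs ρ (mem_Ed.mpr ⟨mem_Fu.mpr ⟨h1, h3, fun h => absurd h h2⟩, h5⟩)]
      refine dl_cyc h2 (hψ _ (mem_del1.mpr ⟨h4, ?_⟩) ?_)
      · rw [mem_insert]; rintro (h' | h')
        · exact huv h'.symm
        · exact h3 h'
      · rw [card_insert_of_notMem h2, h5]
    · rw [mem_link2] at hc
      obtain ⟨h1, h2, h3, h4⟩ := hc
      refine Pt_congr (hs _ (mem_Ed.mpr ⟨mem_Fu.mpr ⟨hK _ h4 _ (subset_insert _ _), ?_,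
        fun _ => h4⟩, ?_⟩))
      · rw [mem_insert]; rintro (h' | h')
        · exact huv h'.symm
        · exact h3 h'
      · rw [card_insert_of_notMem h2, card_singleton]
  · rintro ⟨s, hs1, hs2⟩
    refine ⟨mk u φ s, fun τ hτ hc => ?_, fun σ hσ => ?_⟩
    · rw [mem_del1] at hτ
      obtain ⟨hτK, hv⟩ := hτ
      by_cases hu : u ∈ τ
      · have hu' : u ∉ τ.erase u := notMem_erase u τ
        have e : τ = insert u (τ.erase u) := (insert_erase hu).symm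
        have hmem : τ.erase u ∈ Ed (LD K {u} {v}) := by
          rw [mem_Ed, mem_lk, ← e]
          refine ⟨⟨hK τ hτK _ (erase_subset _ _), hu', fun h' => hv (mem_of_mem_erase h'), hτK⟩, ?_⟩
          rw [card_erase_of_mem hu, hc]
        rw [e, dl_insert u _ hu', mk_off hu', hs1 _ hmem]
        rw [dl_congr (f := Pt u (mk u φ s)) (g := s) (fun a _ => Pt_mk (fun h' =>
          hu' (mem_of_mem_erase h'))), sub_self, smul_zero]
      · rw [dl_congr (f := mk u φ s) (g := φ) (fun a _ => mk_off (fun h' =>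
          hu (mem_of_mem_erase h')))]
        exact hφ τ (mem_Fu.mpr ⟨hτK, hv, fun h => absurd h hu⟩) hc
    · rw [mem_Ed, mem_Fu] at hσ
      obtain ⟨⟨h1, h2, h3⟩, h4⟩ := hσ
      by_cases hu : u ∈ σ
      · obtain ⟨c, hcu, rfl⟩ := card_two h4 hu
        have hu' : u ∉ ({c} : Finset α) := by simp [Ne.symm hcu]
        have hvc : v ∉ ({c} : Finset α) := fun h => h2 (mem_insert_of_mem h)
        rw [eq_Pt u (mk u φ s) {c}, eq_Pt u φ {c}, Pt_mk hu', hs2 c]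
        exact mem_link2.mpr ⟨hK _ h1 _ (subset_insert _ _), hu', hvc, h3 hu⟩
      · exact mk_off hu

/-- the subgroup of pairs -/
def PP (K : Finset (Finset α)) (u v : α) : AddSubgroup ((Finset α → QZ) × (Finset α → QZ)) where
  carrier := {z | isP K u v z.1 z.2}
  zero_mem' := ⟨fun τ _ _ => dl_zero τ, fun ρ _ => (dl_zero ρ).symm⟩
  add_mem' := by
    rintro z w ⟨h1, h2⟩ ⟨h3, h4⟩
    refine ⟨fun τ hτ hc => ?_, fun ρ hρ => ?_⟩
    · exact (dl_add z.1 w.1 τ).trans (by rw [h1 τ hτ hc, h3 τ hτ hc, add_zero])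
    · exact (congrArg₂ (· + ·) (h2 ρ hρ) (h4 ρ hρ)).trans (dl_add z.2 w.2 ρ).symm
  neg_mem' := by
    rintro z ⟨h1, h2⟩
    refine ⟨fun τ hτ hc => ?_, fun ρ hρ => ?_⟩
    · exact (dl_neg z.1 τ).trans (by rw [h1 τ hτ hc, neg_zero])
    · exact (congrArg Neg.neg (h2 ρ hρ)).trans (dl_neg z.2 ρ).symm

/-- the subgroup of unramified pairs -/
def ZZ (K : Finset (Finset α)) (u v a b : α) (hab : ({a, b} : Finset α) = {u, v}) :
    AddSubgroup ((Finset α → QZ) × (Finset α → QZ)) where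
  carrier := {z | isP K u v z.1 z.2 ∧ isZ K a b z.1 z.2}
  zero_mem' := ⟨(PP K u v).zero_mem, fun _ => 0, fun ρ _ => (dl_zero ρ).symm, fun _ _ => rfl⟩
  add_mem' := by
    rintro z w ⟨h1, s, h2, h3⟩ ⟨h4, t, h5, h6⟩
    refine ⟨(PP K u v).add_mem h1 h4, fun σ => s σ + t σ, fun ρ hρ => ?_, fun c hc => ?_⟩
    · exact (congrArg₂ (· + ·) (h2 ρ hρ) (h5 ρ hρ)).trans (dl_add s t ρ).symm
    · exact congrArg₂ (· + ·) (h3 c hc) (h6 c hc)
  neg_mem' := by
    rintro z ⟨h1, s, h2, h3⟩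
    refine ⟨(PP K u v).neg_mem h1, fun σ => - s σ, fun ρ hρ => ?_, fun c hc => ?_⟩
    · exact (congrArg Neg.neg (h2 ρ hρ)).trans (dl_neg s ρ).symm
    · exact congrArg Neg.neg (h3 c hc)

/-- the comparable case -/
lemma comp_case (hc : CoreStmt) (hK : IsCx K) (hL : Ler K) (huv : u ≠ v) (he : {u, v} ∈ K)
    (hu : Ex ℚ (LD K {u} ∅) 1) (hv : Ex ℚ (LD K {v} ∅) 1) {f ξ : Finset α → QZ}
    (hP : isP K u v f ξ)
    (hm : ∀ m : ℕ, isZ K v u (fun σ => m • f σ) (fun σ => m • ξ σ) →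
      isZ K u v (fun σ => m • f σ) (fun σ => m • ξ σ)) :
    ∃ f₁ ξ₁ : Finset α → QZ, isP K u v f₁ ξ₁ ∧ isZ K u v f₁ ξ₁ ∧
      isZ K v u (fun σ => f σ - f₁ σ) (fun σ => ξ σ - ξ₁ σ) := by
  have hz := z1_mk hK hP
  have hmz : ∀ m : ℕ, Z1 (Fu K u v) (fun σ => m • mk u f ξ σ) := by
    intro m τ hτ hc'
    rw [dl_nsmul, hz τ hτ hc', smul_zero]
  have hPt : ∀ (m : ℕ) (c : α), u ∉ ({c} : Finset α) →
      Pt u (fun σ => m • mk u f ξ σ) {c} = m • ξ {c} := by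
    intro m c h
    have e : Pt u (fun σ => m • mk u f ξ σ) {c} = m • Pt u (mk u f ξ) {c} := by
      unfold Pt; exact smul_comm _ _ _
    rw [e, Pt_mk h]
  obtain ⟨φ₁, φ₂, z₁, z₂, i₁, i₂, hs⟩ := hc α K u v (mk u f ξ) hK hL huv he hu hv hz (by
    intro m h
    rw [zv_iff hK huv] at h
    rw [zu_iff hK huv (hmz m)]
    have h' : isZ K v u (fun σ => m • f σ) (fun σ => m • ξ σ) := by
      refine isZ_congr h (fun ρ hρ => ?_) (fun c hc' => ?_)
      · rw [mem_Ed, mem_lk] at hρ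
        rw [mk_off hρ.1.2.2.1]
      · rw [mem_link2] at hc'
        rw [hPt m c hc'.2.2.1]
    refine isZ_congr (hm m h') (fun ρ hρ => ?_) (fun c hc' => ?_)
    · rw [mem_Ed, mem_lk] at hρ
      rw [mk_off hρ.1.2.1]
    · rw [mem_link2] at hc'
      rw [hPt m c hc'.2.1])
  refine ⟨φ₁, Pt u φ₁, isP_of hK huv z₁, (zu_iff hK huv z₁).mp i₁, ?_⟩
  refine isZ_congr ((zv_iff hK huv φ₂).mp i₂) (fun ρ hρ => ?_) (fun c hc' => ?_)
  · rw [mem_Ed, mem_lk] at hρ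
    obtain ⟨⟨h1, h2, h3, h4⟩, h5⟩ := hρ
    have h6 := hs ρ (mem_Ed.mpr ⟨mem_Fu.mpr ⟨h1, h2, fun h => absurd h h3⟩, h5⟩)
    rw [mk_off h3] at h6
    rw [h6, add_sub_cancel_left]
  · rw [mem_link2] at hc'
    obtain ⟨h1, h2, h3, h4⟩ := hc'
    rw [Finset.insert_comm] at h4
    have h5 : insert u ({c} : Finset α) ∈ Ed (Fu K u v) := by
      refine mem_Ed.mpr ⟨mem_Fu.mpr ⟨hK _ h4 _ (subset_insert _ _), ?_, fun _ => h4⟩, ?_⟩
      · rw [mem_insert]; rintro (h' | h')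
        · exact huv h'.symm
        · exact h2 h'
      · rw [card_insert_of_notMem h3, card_singleton]
    have h6 : Pt u (mk u f ξ) {c} = Pt u φ₁ {c} + Pt u φ₂ {c} := by
      unfold Pt
      rw [hs _ h5, smul_add]
    rw [Pt_mk h3] at h6
    rw [h6, add_sub_cancel_left]

end DecP

open DecP

/-- C11: the decomposition. -/
theorem dec (hc : CoreStmt) (hg : GroupStmt) : DecStmt := by
  intro α _ K u v hK hL huv he hu hv f ξ hf hξ
  have hsw : ({v, u} : Finset α) = {u, v} := pair_comm v u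
  have key : PP K u v ≤ ZZ K u v u v rfl ⊔ ZZ K u v v u hsw := by
    refine hg _ (PP K u v) (ZZ K u v u v rfl) (ZZ K u v v u hsw) (fun z h => h.1) (fun z h => h.1)
      ?_ ?_ ?_
    · intro z hz
      obtain ⟨n, hn, h1⟩ := exists_common_nsmul K z.1
      obtain ⟨m, hm, h2⟩ := exists_common_nsmul K z.2
      have h1' : ∀ ρ ∈ K, (n * m) • z.1 ρ = 0 := fun ρ hρ => by
        rw [mul_nsmul, h1 ρ hρ, smul_zero]
      have h2' : ∀ ρ ∈ K, (n * m) • z.2 ρ = 0 := fun ρ hρ => by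
        rw [mul_nsmul', h2 ρ hρ, smul_zero]
      have h3 : ∀ a b : α, isZ K a b ((n * m) • z.1) ((n * m) • z.2) := by
        intro a b
        refine ⟨fun _ => 0, fun ρ hρ => ?_, fun c hc' => ?_⟩
        · rw [dl_zero]
          exact h1' ρ (mem_lk.mp (mem_Ed.mp hρ).1).1
        · exact (h2' {c} (mem_link2.mp hc').1).symm
      have h4 := (PP K u v).nsmul_mem hz (n * m)
      exact ⟨n * m, Nat.mul_pos hn hm, ⟨h4, h3 u v⟩, ⟨h4, h3 v u⟩⟩
    · intro z hz hm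
      obtain ⟨f₁, ξ₁, h1, h2, h3⟩ := comp_case hc hK hL huv he hu hv hz (fun m h =>
        (hm m ⟨(PP K u v).nsmul_mem hz m, h⟩).2)
      have h4 : ((f₁, ξ₁) : (Finset α → QZ) × (Finset α → QZ)) ∈ ZZ K u v u v rfl := ⟨h1, h2⟩
      have h5 : z - (f₁, ξ₁) ∈ ZZ K u v v u hsw := ⟨(PP K u v).sub_mem hz h1, h3⟩
      exact AddSubgroup.mem_sup.mpr ⟨_, h4, _, h5, by abel⟩
    · intro z hz hm
      have hz' : isP K v u z.1 z.2 := by
        unfold isP; rw [hsw]; exact hz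
      obtain ⟨f₁, ξ₁, h1, h2, h3⟩ := comp_case hc hK hL huv.symm (by rw [hsw]; exact he) hv hu hz'
        (fun m h => (hm m ⟨(PP K u v).nsmul_mem hz m, h⟩).2)
      have h1' : isP K u v f₁ ξ₁ := by
        unfold isP at h1; rw [hsw] at h1; exact h1
      have h4 : ((f₁, ξ₁) : (Finset α → QZ) × (Finset α → QZ)) ∈ ZZ K u v v u hsw := ⟨h1', h2⟩
      have h5 : z - (f₁, ξ₁) ∈ ZZ K u v u v rfl := ⟨(PP K u v).sub_mem hz h1', h3⟩
      exact AddSubgroup.mem_sup.mpr ⟨_, h5, _, h4, by abel⟩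
  have hmem : ((f, ξ) : (Finset α → QZ) × (Finset α → QZ)) ∈ PP K u v := ⟨hf, hξ⟩
  obtain ⟨z₁, ⟨⟨p1, -⟩, s₁, a1, a2⟩, z₂, ⟨⟨p2, -⟩, s₂, b1, b2⟩, hs⟩ :=
    AddSubgroup.mem_sup.mp (key hmem)
  have e1 : f = z₁.1 + z₂.1 := (congrArg Prod.fst hs).symm
  have e2 : ξ = z₁.2 + z₂.2 := (congrArg Prod.snd hs).symm
  refine ⟨z₁.1, s₁, z₂.1, s₂, p1, p2, a1, b1, fun ρ _ => by rw [e1]; rfl, fun a ha => ?_⟩
  rw [a2 a ha, b2 a (by rw [hsw]; exact ha), e2]
  rfl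

end Pool.Agent.Lib.MP_db6a6f_al
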