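import Pool.Agent.Lib.MP_db6a6f_al.Stmts

set_option autoImplicit false

/-! The determinant lemma (A1). -/

namespace Pool.Agent.Lib.MP_db6a6f_al

open Finset

/-- Evaluation of the elements of the ring of characters. -/
noncomputable def evLam {X : Type} [AddCommGroup X] (φ : X) : Lam X →+* ℂ :=
  (Pi.evalRingHom (fun _ : X => ℂ) φ).comp (Lam X).subtype

theorem evLam_apply {X : Type} [AddCommGroup X] (φ : X) (f : Lam X) :
    evLam φ f = (f : X → ℂ) φ := rfl

/-- The sum of the values of an element of the ring of characters is divisible by the order. -/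
theorem sum_Lam {X : Type} [AddCommGroup X] [Fintype X] (f : X → ℂ) (hf : f ∈ Lam X) :
    ∃ k : ℤ, ∑ φ, f φ = (k : ℂ) * (Fintype.card X : ℂ) := by
  classical
  unfold Lam at hf
  rw [Subring.mem_closure_iff] at hf
  induction hf using AddSubgroup.closure_induction with
  | mem f hf =>
    have h1 : ∃ ψ : AddChar X ℂ, (ψ : X → ℂ) = f := by
      induction hf using Submonoid.closure_induction with
      | mem f hf => exact hf
      | one => exact ⟨1, by ext x; simp⟩
      | mul f g _ _ hf hg =>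
        obtain ⟨ψ, rfl⟩ := hf
        obtain ⟨χ, rfl⟩ := hg
        exact ⟨ψ * χ, by ext x; simp⟩
    obtain ⟨ψ, rfl⟩ := h1
    rw [AddChar.sum_eq_ite]
    split_ifs
    · exact ⟨1, by simp⟩
    · exact ⟨0, by simp⟩
  | zero => exact ⟨0, by simp⟩
  | add f g _ _ hf hg =>
    obtain ⟨k, hk⟩ := hf
    obtain ⟨l, hl⟩ := hg
    refine ⟨k + l, ?_⟩
    simp only [Pi.add_apply, sum_add_distrib, hk, hl]
    push_cast
    ring
  | neg f _ hf =>
    obtain ⟨k, hk⟩ := hf
    refine ⟨-k, ?_⟩
    simp only [Pi.neg_apply, sum_neg_distrib, hk]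
    push_cast
    ring

/-- A basis of a subgroup of finite index. -/
theorem exists_det (ι : Type) [Fintype ι] [DecidableEq ι] (S : AddSubgroup (ι → ℤ))
    (hS : Finite ((ι → ℤ) ⧸ S)) :
    ∃ b : ι → ι → ℤ, (∀ i, b i ∈ S) ∧
      (Matrix.of b).det.natAbs = Nat.card ((ι → ℤ) ⧸ S) := by
  let N : Submodule ℤ (ι → ℤ) := AddSubgroup.toIntSubmodule S
  have hN : Finite ((ι → ℤ) ⧸ N) := hS
  have hr : Module.finrank ℤ N = Module.finrank ℤ (ι → ℤ) := (Submodule.finiteQuotient_iff N).mp hN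
  rw [Module.finrank_fintype_fun_eq_card] at hr
  let b0 := Module.Free.chooseBasis ℤ N
  have hc : Fintype.card (Module.Free.ChooseBasisIndex ℤ N) = Fintype.card ι := by
    rw [← Module.finrank_eq_card_chooseBasisIndex, hr]
  let bN : Module.Basis ι ℤ N := b0.reindex (Fintype.equivOfCardEq hc)
  have h1 := Submodule.natAbs_det_basis_change (Pi.basisFun ℤ ι) N bN
  refine ⟨fun i => (bN i : ι → ℤ), fun i => (bN i).2, ?_⟩
  have h2 : (Pi.basisFun ℤ ι).det (Subtype.val ∘ bN) = (Matrix.of fun i => (bN i : ι → ℤ)).det := by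
    rw [Pi.basisFun_det_apply]
    rfl
  rw [← h2]
  exact h1

theorem det : DetStmt := by
  intro X ι _ _ _ S x hx hS hfin
  classical
  have : Fintype X := Fintype.ofFinite X
  obtain ⟨b, hbS, hdet⟩ := exists_det ι S hfin
  choose r hrL hr0 hrx using fun i => hS (b i) (hbS i)
  -- the matrix over the ring of characters
  let M : Matrix ι ι (Lam X) := Matrix.of fun i j => ⟨r i j, hrL i j⟩
  have hev : ∀ φ : X, evLam φ M.det = (Matrix.of fun i j => r i j φ).det := by
    intro φ
    rw [RingHom.map_det]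
    rfl
  have hne : ∀ φ : X, φ ≠ 0 → evLam φ M.det = 0 := by
    intro φ hφ
    rw [hev φ, ← Matrix.exists_mulVec_eq_zero_iff]
    refine ⟨x φ, hx φ hφ, ?_⟩
    ext i
    exact hrx i φ hφ
  have h0 : evLam (0 : X) M.det = (((Matrix.of b).det : ℤ) : ℂ) := by
    rw [hev 0]
    have h1 : (Matrix.of fun i j => r i j 0) = (Matrix.of b).map (Int.castRingHom ℂ) := by
      ext i j
      simp [hr0]
    rw [h1, ← RingHom.mapMatrix_apply, ← RingHom.map_det]
    rfl
  obtain ⟨k, hk⟩ := sum_Lam (M.det : X → ℂ) M.det.2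
  have h2 : ∑ φ, (M.det : X → ℂ) φ = (((Matrix.of b).det : ℤ) : ℂ) := by
    rw [← h0, Finset.sum_eq_single (0 : X)]
    · rfl
    · intro φ _ hφ
      exact hne φ hφ
    · intro h; exact absurd (mem_univ _) h
  rw [h2] at hk
  have h3 : (Matrix.of b).det = k * (Fintype.card X : ℤ) := by exact_mod_cast hk
  have hpos : 0 < Nat.card ((ι → ℤ) ⧸ S) := Nat.card_pos
  rw [← hdet] at hpos ⊢
  rw [h3, Int.natAbs_mul, Int.natAbs_natCast] at hpos ⊢
  rw [Nat.card_eq_fintype_card]
  exact Nat.le_mul_of_pos_left _ (Nat.pos_of_mul_pos_right hpos)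

end Pool.Agent.Lib.MP_db6a6f_al
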