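import Pool.Agent.Lib.MP_db6a6f_al.Stmts

set_option autoImplicit false

/-! The number of solutions of the system `∑ s_i g_i = 0` over `ℚ / ℤ`. -/

namespace Pool.Agent.Lib.MP_db6a6f_al

open Finset

namespace DualAux

theorem eQ_mk (t : ℚ) : eQ (QuotientAddGroup.mk t : QZ) =
    Complex.exp (2 * Real.pi * Complex.I * (t : ℂ)) := rfl

theorem eQ_zero' : eQ 0 = 1 := by
  have h := eQ_mk 0
  rw [QuotientAddGroup.mk_zero] at h
  rw [h]; simp

theorem eQ_add' (a b : QZ) : eQ (a + b) = eQ a * eQ b := by
  induction a using QuotientAddGroup.induction_on with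
  | H x =>
    induction b using QuotientAddGroup.induction_on with
    | H y =>
      rw [← QuotientAddGroup.mk_add, eQ_mk, eQ_mk, eQ_mk, ← Complex.exp_add]
      congr 1; push_cast; ring

/-- `eQ` as a character. -/
noncomputable def ch : AddChar QZ ℂ where
  toFun := eQ
  map_zero_eq_one' := eQ_zero'
  map_add_eq_mul' := eQ_add'

theorem ch_apply (t : QZ) : ch t = eQ t := rfl

theorem char_sum {A : Type} [AddCommGroup A] {ι : Type} (ψ : AddChar A ℂ) (s : Finset ι)
    (f : ι → A) : ψ (∑ i ∈ s, f i) = ∏ i ∈ s, ψ (f i) := by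
  classical
  induction s using Finset.induction_on with
  | empty => simp
  | insert a s ha ih => rw [sum_insert ha, prod_insert ha, AddChar.map_add_eq_mul, ih]

theorem eQ_inj' : Function.Injective eQ := by
  intro a b h
  induction a using QuotientAddGroup.induction_on with
  | H x =>
    induction b using QuotientAddGroup.induction_on with
    | H y =>
      rw [eQ_mk, eQ_mk, Complex.exp_eq_exp_iff_exists_int] at h
      obtain ⟨n, hn⟩ := h
      have h2 : (2 * (Real.pi : ℂ) * Complex.I) ≠ 0 := Complex.two_pi_I_ne_zero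
      have h3 : (x : ℂ) = (y : ℂ) + (n : ℂ) := by
        apply mul_left_cancel₀ h2
        rw [hn]; ring
      have h4 : x = y + n := by
        have : ((x : ℚ) : ℂ) = ((y + n : ℚ) : ℂ) := by rw [h3]; push_cast; ring
        exact_mod_cast this
      apply QuotientAddGroup.eq.mpr
      rw [AddSubgroup.mem_zmultiples_iff]
      refine ⟨-n, ?_⟩
      rw [h4]; simp

theorem eQ_surj' {N : ℕ} (hN : 0 < N) {z : ℂ} (hz : z ^ N = 1) : ∃ t : QZ, eQ t = z := by
  have : NeZero N := ⟨hN.ne'⟩
  obtain ⟨i, _, hi⟩ := (Complex.isPrimitiveRoot_exp N hN.ne').eq_pow_of_pow_eq_one hz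
  refine ⟨QuotientAddGroup.mk ((i : ℚ) / N), ?_⟩
  rw [eQ_mk, ← hi, ← Complex.exp_nat_mul]
  congr 1
  push_cast
  ring

theorem finite_tors {N : ℕ} (hN : 0 < N) : Set.Finite {t : QZ | N • t = 0} := by
  have h1 : Set.Finite {z : ℂ | z ^ N = 1} := by
    have : {z : ℂ | z ^ N = 1} ⊆ (↑(Polynomial.nthRootsFinset N (1 : ℂ)) : Set ℂ) := by
      intro z hz
      rw [Finset.mem_coe, Polynomial.mem_nthRootsFinset hN]
      exact hz
    exact (Finset.finite_toSet _).subset this
  refine Set.Finite.of_finite_image (f := eQ) (h1.subset ?_) (eQ_inj'.injOn)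
  rintro _ ⟨t, ht, rfl⟩
  show eQ t ^ N = 1
  rw [← ch_apply, ← AddChar.map_nsmul_eq_pow]
  have ht' : N • t = 0 := ht
  rw [ht', ch_apply, eQ_zero']

end DualAux

open DualAux

theorem dual : DualStmt := by
  intro ι _ S hfin
  classical
  have := hfin
  set G := (ι → ℤ) ⧸ S with hG
  have : Fintype G := Fintype.ofFinite G
  set N := Nat.card G with hNdef
  have hN : 0 < N := Nat.card_pos
  -- the standard generators
  let e : ι → (ι → ℤ) := fun i => Pi.single i 1
  have hNG : ∀ x : G, N • x = 0 := by
    intro x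
    rw [hNdef, Nat.card_eq_fintype_card]
    exact card_nsmul_eq_zero
  have hsum : ∀ s : ι → ℤ, s = ∑ i, s i • e i := by
    intro s
    funext j
    simp [e, Finset.sum_apply, Pi.single_apply]
  have hTfin : Finite {g : ι → QZ // ∀ s ∈ S, ∑ i, s i • g i = 0} := by
    have h1 : Set.Finite {g : ι → QZ | ∀ i, N • g i = 0} := by
      have := Set.Finite.pi (ι := ι) (t := fun _ => {t : QZ | N • t = 0})
        (fun _ => finite_tors hN)
      refine this.subset ?_
      intro g hg
      rw [Set.mem_univ_pi]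
      exact hg
    have h2 : Set.Finite {g : ι → QZ | ∀ s ∈ S, ∑ i, s i • g i = 0} := by
      refine h1.subset ?_
      intro g hg i
      have hm : N • e i ∈ S := by
        rw [← QuotientAddGroup.eq_zero_iff, QuotientAddGroup.mk_nsmul]
        exact hNG _
      have := hg _ hm
      rw [Finset.sum_eq_single i] at this
      · simpa [e] using this
      · intro j _ hj
        simp [e, Pi.single_eq_of_ne hj]
      · intro h; exact absurd (Finset.mem_univ i) h
    exact h2.to_subtype
  refine ⟨hTfin, ?_⟩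
  -- the map from the characters
  have hval : ∀ (ψ : AddChar G ℂ) (i : ι), ∃ t : QZ, eQ t = ψ (QuotientAddGroup.mk (e i)) := by
    intro ψ i
    apply eQ_surj' hN
    rw [← AddChar.map_nsmul_eq_pow, hNG, AddChar.map_zero_eq_one]
  choose T hT using hval
  have hchar : ∀ (ψ : AddChar G ℂ) (s : ι → ℤ),
      eQ (∑ i, s i • T ψ i) = ψ (QuotientAddGroup.mk s) := by
    intro ψ s
    have h1 : (QuotientAddGroup.mk s : G) = ∑ i, s i • (QuotientAddGroup.mk (e i) : G) := by
      conv_lhs => rw [hsum s]
      rw [QuotientAddGroup.mk_sum]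
      exact Finset.sum_congr rfl (fun i _ => QuotientAddGroup.mk_zsmul _ _ _)
    rw [h1, ← ch_apply, char_sum, char_sum]
    apply Finset.prod_congr rfl
    intro i _
    rw [AddChar.map_zsmul_eq_zpow, AddChar.map_zsmul_eq_zpow, ch_apply, hT]
  let F : AddChar G ℂ → {g : ι → QZ // ∀ s ∈ S, ∑ i, s i • g i = 0} := fun ψ =>
    ⟨T ψ, by
      intro s hs
      apply eQ_inj'
      rw [hchar, eQ_zero', (QuotientAddGroup.eq_zero_iff s).mpr hs, AddChar.map_zero_eq_one]⟩
  have hF : Function.Injective F := by
    intro ψ χ h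
    have h' : T ψ = T χ := congrArg Subtype.val h
    ext x
    induction x using QuotientAddGroup.induction_on with
    | H s => rw [← hchar, ← hchar, h']
  have hc : Nat.card (AddChar G ℂ) = Nat.card G := by
    rw [Nat.card_eq_fintype_card, Nat.card_eq_fintype_card]
    exact AddChar.card_eq
  rw [hNdef, ← hc]
  exact Nat.card_le_card_of_injective F hF

end Pool.Agent.Lib.MP_db6a6f_al
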