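import Pool.Agent.Lib.MP_db6a6f_al.Stmts

set_option autoImplicit false

/-! C9: connectivity and extension of cocycles. -/

namespace Pool.Agent.Lib.MP_db6a6f_al

open Finset

theorem conn : ConnStmt := by
  intro α _ X B g _ hE hg a c ha hc
  classical
  let f : Finset α → ℚ := fun τ => if ∀ x ∈ τ, g x = g a then 1 else 0
  have hf1 : ∀ x : α, f {x} = if g x = g a then 1 else 0 := by
    intro x
    simp only [f, mem_singleton, forall_eq]
  obtain ⟨G, hG⟩ := hE f (by
    intro τ hτ hcard
    obtain ⟨x, y, hxy, rfl⟩ := card_eq_two.mp hcard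
    have h1 : g x = g y := hg x y hτ
    rcases lt_or_gt_of_ne hxy with h | h
    · rw [dl_pair f h, hf1, hf1, h1, sub_self]
    · rw [pair_comm, dl_pair f h, hf1, hf1, h1, sub_self])
  have e1 := hG {a} ha (card_singleton a)
  have e2 := hG {c} hc (card_singleton c)
  rw [dl_singleton, hf1] at e1 e2
  rw [if_pos rfl] at e1
  by_contra hne
  rw [if_neg (fun h => hne h.symm), ← e1] at e2
  exact absurd e2 (by norm_num)

theorem dl_const_pair {α : Type} [LinearOrder α] {A : Type} [AddCommGroup A] (c : A)
    {ρ : Finset α} (h : ρ.card = 2) : dl (fun _ => c) ρ = 0 := by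
  obtain ⟨x, y, hxy, rfl⟩ := card_eq_two.mp h
  rcases lt_or_gt_of_ne hxy with h | h
  · rw [dl_pair _ h, sub_self]
  · rw [pair_comm, dl_pair _ h, sub_self]

theorem glue : GlueStmt := by
  intro α _ A _ K u v φ ψ s hK huv _ hψ hφ hs
  let κ : Finset α → A := fun σ =>
    if v ∈ σ then sg v σ • (s (σ.erase v) - s {u}) else ψ σ
  have k1 : ∀ σ, v ∈ σ → κ σ = sg v σ • (s (σ.erase v) - s {u}) := fun σ h => if_pos h
  have k2 : ∀ σ, v ∉ σ → κ σ = ψ σ := fun σ h => if_neg h
  refine ⟨κ, ?_, ?_, ?_⟩
  · intro τ hτ hcard
    by_cases hv : v ∈ τ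
    · have hρ : v ∉ τ.erase v := notMem_erase v τ
      have hins : insert v (τ.erase v) = τ := insert_erase hv
      have hc2 : (τ.erase v).card = 2 := by
        rw [card_erase_of_mem hv, hcard]
      have hρK : τ.erase v ∈ K := hK τ hτ _ (erase_subset v τ)
      rw [← hins, dl_insert v κ hρ, k2 _ hρ]
      have h1 : dl (Pt v κ) (τ.erase v) = dl (fun σ => s σ - s {u}) (τ.erase v) := by
        apply dl_congr
        intro a _
        have hv2 : v ∉ (τ.erase v).erase a := fun h => hρ (mem_of_mem_erase h)
        unfold Pt
        rw [k1 _ (mem_insert_self v _), erase_insert hv2, sg_sq_smul]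
      rw [h1, dl_sub, dl_const_pair _ hc2, sub_zero]
      have h2 : ψ (τ.erase v) = φ (τ.erase v) := by
        apply hφ
        rw [mem_Ed, mem_Fu]
        exact ⟨⟨hρK, hρ, fun _ => by rw [hins]; exact hτ⟩, hc2⟩
      have h3 : φ (τ.erase v) = dl s (τ.erase v) := by
        apply hs
        rw [mem_Ed, mem_LD]
        refine ⟨⟨hρK, by simp, by simp, ?_⟩, hc2⟩
        have : τ.erase v ∪ {v} = τ := by
          rw [union_comm]
          exact hins
        rw [this]
        exact hτ
      rw [h2, h3, sub_self, smul_zero]
    · have h1 : dl κ τ = dl ψ τ := by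
        apply dl_congr
        intro a _
        exact k2 _ (fun h => hv (mem_of_mem_erase h))
      rw [h1]
      apply hψ τ _ hcard
      rw [mem_LD]
      refine ⟨hτ, by simp, by simpa using hv, by simpa using hτ⟩
  · rw [k1 _ (by simp)]
    have : ({u, v} : Finset α).erase v = {u} := by
      ext x
      simp only [mem_erase, mem_insert, mem_singleton]
      constructor
      · rintro ⟨h1, rfl | rfl⟩
        · rfl
        · exact absurd rfl h1
      · rintro rfl
        exact ⟨huv, Or.inl rfl⟩
    rw [this, sub_self, smul_zero]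
  · intro σ hσ
    rw [← hφ σ hσ]
    rw [mem_Ed, mem_Fu] at hσ
    exact k2 σ hσ.1.2.1

theorem inj : InjStmt := by
  intro α _ A _ K u v ψ hK huv huvK hE hψ h0 σ hσ hv
  rw [mem_Ed] at hσ
  by_cases hu : u ∈ σ
  swap
  · apply h0
    rw [mem_Ed, mem_Fu]
    exact ⟨⟨hσ.1, hv, fun h => absurd h hu⟩, hσ.2⟩
  · -- the edge `{u, a}`
    have hc : (σ.erase u).card = 1 := by rw [card_erase_of_mem hu, hσ.2]
    obtain ⟨a, ha⟩ := card_eq_one.mp hc
    have hσ2 : insert u {a} = σ := by rw [← ha]; exact insert_erase hu
    have hau : a ≠ u := by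
      rintro rfl
      have : a ∈ σ.erase a := by rw [ha]; exact mem_singleton_self a
      exact notMem_erase a σ this
    have hav : a ≠ v := by
      rintro rfl
      exact hv (by rw [← hσ2]; simp)
    let g : α → A := fun x => if x = v then 0 else Pt u ψ {x}
    have g1 : g v = 0 := if_pos rfl
    have g2 : ∀ x, x ≠ v → g x = Pt u ψ {x} := fun x h => if_neg h
    -- for an edge `{v, c}` of the link of `u`
    have aux : ∀ c : α, c ≠ v → ({v, c} : Finset α) ∈ LD K {u} ∅ → g c = 0 := by
      intro c hcv hm
      rw [mem_LD] at hm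
      obtain ⟨m1, m2, _, m4⟩ := hm
      rw [disjoint_singleton_right] at m2
      have huc : u ≠ c := fun h => m2 (by rw [h]; simp)
      rw [g2 c hcv]
      unfold Pt
      have : ψ (insert u {c}) = 0 := by
        apply h0
        rw [mem_Ed, mem_Fu]
        have e1 : ({v, c} : Finset α) ∪ {u} = insert v (insert u {c}) := by
          ext x
          simp only [mem_union, mem_insert, mem_singleton]
          tauto
        rw [e1] at m4
        refine ⟨⟨hK _ m4 _ (subset_insert v _), ?_, fun _ => m4⟩, card_pair huc⟩
        simp only [mem_insert, mem_singleton, not_or]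
        exact ⟨huv.symm, fun h => hcv h.symm⟩
      rw [this, smul_zero]
    have hg : ∀ x y : α, ({x, y} : Finset α) ∈ LD K {u} ∅ → g x = g y := by
      intro x y hm
      by_cases hxy : x = y
      · rw [hxy]
      by_cases hx : x = v
      · subst hx
        rw [g1, aux y (fun h => hxy h.symm) hm]
      by_cases hy : y = v
      · subst hy
        rw [g1, aux x hxy (by rw [pair_comm]; exact hm)]
      rw [g2 x hx, g2 y hy]
      rw [mem_LD] at hm
      obtain ⟨m1, m2, _, m4⟩ := hm
      rw [disjoint_singleton_right] at m2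
      have hcard : ({x, y} : Finset α).card = 2 := card_pair hxy
      have hvxy : v ∉ ({x, y} : Finset α) := by
        simp only [mem_insert, mem_singleton, not_or]
        exact ⟨fun h => hx h.symm, fun h => hy h.symm⟩
      have p1 : ψ {x, y} = 0 := by
        apply h0
        rw [mem_Ed, mem_Fu]
        exact ⟨⟨m1, hvxy, fun h => absurd h m2⟩, hcard⟩
      have e1 : ({x, y} : Finset α) ∪ {u} = insert u {x, y} := by
        rw [union_comm]
        rfl
      rw [e1] at m4
      have p2 : dl ψ (insert u {x, y}) = 0 := by
        apply hψ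
        · rw [mem_LD]
          refine ⟨m4, by simp, ?_, by simpa using m4⟩
          rw [disjoint_singleton_right, mem_insert, not_or]
          exact ⟨huv.symm, hvxy⟩
        · rw [card_insert_of_notMem m2, hcard]
      have p3 := Pt_dl u ψ m2
      unfold Pt at p3
      rw [p2, smul_zero, p1, zero_sub] at p3
      have p4 : dl (Pt u ψ) {x, y} = 0 := by
        have := p3.symm
        rw [neg_eq_zero] at this
        exact this
      rcases lt_or_gt_of_ne hxy with h | h
      · rw [dl_pair _ h, sub_eq_zero] at p4
        exact p4.symm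
      · rw [pair_comm, dl_pair _ h, sub_eq_zero] at p4
        exact p4
    have hfin := conn α (LD K {u} ∅) A g (isCx_LD hK _ _) hE hg a v (by
      rw [mem_LD]
      refine ⟨hK σ hσ.1 _ (by rw [← hσ2]; simp), by simpa using hau, by simp, ?_⟩
      have : ({a} : Finset α) ∪ {u} = σ := by
        rw [union_comm]
        exact hσ2
      rw [this]
      exact hσ.1) (by
      rw [mem_LD]
      refine ⟨hK _ huvK _ (by simp), by simpa using huv.symm, by simp, ?_⟩
      have : ({v} : Finset α) ∪ {u} = {u, v} := by
        rw [union_comm]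
        rfl
      rw [this]
      exact huvK)
    rw [g1, g2 a hav] at hfin
    unfold Pt at hfin
    have := sg_sq_smul u (insert u {a}) (ψ (insert u {a}))
    rw [hfin, smul_zero] at this
    rw [← hσ2]
    exact this.symm

theorem sep : SepStmt := by
  intro α _ A _ K u v κ hK huv huvK hEu hEv hκ h00 h0
  have first : ∀ σ ∈ Ed K, v ∉ σ → κ σ = 0 := by
    apply inj α A K u v κ hK huv huvK hEu _ h0
    intro τ hτ hcard
    rw [mem_LD] at hτ
    exact hκ τ hτ.1 hcard
  have second : ∀ σ ∈ Ed K, u ∉ σ → κ σ = 0 := by
    apply inj α A K v u κ hK huv.symm (by rw [pair_comm]; exact huvK) hEv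
    · intro τ hτ hcard
      rw [mem_LD] at hτ
      exact hκ τ hτ.1 hcard
    · intro σ hσ
      rw [mem_Ed, mem_Fu] at hσ
      obtain ⟨⟨m1, m2, m3⟩, m4⟩ := hσ
      by_cases hv : v ∈ σ
      · have h3 := m3 hv
        have h4 := hκ _ h3 (by rw [card_insert_of_notMem m2, m4])
        rw [dl_insert u κ m2] at h4
        have h5 : κ σ - dl (Pt u κ) σ = 0 := by
          have := sg_sq_smul u (insert u σ) (κ σ - dl (Pt u κ) σ)
          rw [h4, smul_zero] at this
          exact this.symm
        rw [sub_eq_zero] at h5
        rw [h5]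
        unfold dl
        apply sum_eq_zero
        intro a ha
        have hca : (σ.erase a).card = 1 := by rw [card_erase_of_mem ha, m4]
        obtain ⟨b, hb⟩ := card_eq_one.mp hca
        have hbσ : b ∈ σ := by
          have : b ∈ σ.erase a := by rw [hb]; exact mem_singleton_self b
          exact mem_of_mem_erase this
        have hub : u ≠ b := fun h => m2 (by rw [h]; exact hbσ)
        have hz : κ (insert u (σ.erase a)) = 0 := by
          rw [hb]
          by_cases hbv : b = v
          · rw [hbv]
            exact h00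
          · apply first
            · rw [mem_Ed]
              refine ⟨hK _ h3 _ ?_, card_pair hub⟩
              exact insert_subset_insert u (singleton_subset_iff.2 hbσ)
            · simp only [mem_insert, mem_singleton, not_or]
              exact ⟨huv.symm, fun h => hbv h.symm⟩
        unfold Pt
        rw [hz, smul_zero, smul_zero]
      · exact first σ (by rw [mem_Ed]; exact ⟨m1, m4⟩) hv
  intro σ hσ
  by_cases hv : v ∈ σ
  swap
  · exact first σ hσ hv
  by_cases hu : u ∈ σ
  swap
  · exact second σ hσ hu
  have hσ' := hσ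
  rw [mem_Ed] at hσ'
  have : σ = {u, v} := by
    symm
    apply eq_of_subset_of_card_le
    · intro x hx
      rw [mem_insert, mem_singleton] at hx
      rcases hx with rfl | rfl
      · exact hu
      · exact hv
    · rw [hσ'.2, card_pair huv]
  rw [this]
  exact h00

end Pool.Agent.Lib.MP_db6a6f_al
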