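import Pool.Agent.Lib.MP_db6a6f_al.Stmts

set_option autoImplicit false

/-! Subgroups of a free group with trivial rational annihilator have finite index. -/

namespace Pool.Agent.Lib.MP_db6a6f_al

open Finset

section
variable {ι : Type} [Fintype ι] (S : AddSubgroup (ι → ℤ))

/-- rational multiples of elements of `S` -/
def ratHull : Submodule ℚ (ι → ℚ) where
  carrier := {x | ∃ N : ℕ, 0 < N ∧ ∃ s ∈ S, ∀ i, (N : ℚ) * x i = (s i : ℚ)}
  zero_mem' := ⟨1, one_pos, 0, S.zero_mem, fun i => by simp⟩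
  add_mem' := by
    rintro x y ⟨N, hN, s, hs, hx⟩ ⟨M, hM, t, ht, hy⟩
    refine ⟨N * M, Nat.mul_pos hN hM, M • s + N • t,
      S.add_mem (S.nsmul_mem hs M) (S.nsmul_mem ht N), fun i => ?_⟩
    have h1 := hx i
    have h2 := hy i
    have h3 : (((M • s + N • t) i : ℤ) : ℚ) = (M : ℚ) * (s i : ℚ) + (N : ℚ) * (t i : ℚ) := by
      rw [Pi.add_apply, Pi.smul_apply, Pi.smul_apply, nsmul_eq_mul, nsmul_eq_mul]
      push_cast
      rfl
    rw [h3, ← h1, ← h2, Pi.add_apply]
    push_cast
    ring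
  smul_mem' := by
    rintro q x ⟨N, hN, s, hs, hx⟩
    refine ⟨N * q.den, Nat.mul_pos hN q.den_pos, q.num • s, S.zsmul_mem hs _, fun i => ?_⟩
    have h1 := hx i
    have h2 : (q.den : ℚ) * q = q.num := by
      rw [mul_comm]
      exact Rat.mul_den_eq_num q
    simp only [Pi.smul_apply, smul_eq_mul]
    push_cast
    rw [← h1, ← h2]
    ring

theorem ratHull_top
    (h : ∀ κ : ι → ℚ, (∀ s ∈ S, ∑ i, (s i : ℚ) * κ i = 0) → κ = 0) : ratHull S = ⊤ := by
  classical
  by_contra hne
  obtain ⟨f, hf, hker⟩ := Submodule.exists_le_ker_of_lt_top (ratHull S) (lt_top_iff_ne_top.mpr hne)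
  apply hf
  have hκ : (fun i => f (fun j => if i = j then (1 : ℚ) else 0)) = 0 := by
    apply h
    intro s hs
    have h1 : (fun i => (s i : ℚ)) ∈ ratHull S := ⟨1, one_pos, s, hs, fun i => by simp⟩
    have h2 : f (fun i => (s i : ℚ)) = 0 := hker h1
    rw [LinearMap.pi_apply_eq_sum_univ] at h2
    simpa [smul_eq_mul] using h2
  ext x
  rw [LinearMap.zero_comp, LinearMap.zero_apply]
  have := congrFun hκ x
  simp only [Pi.zero_apply] at this
  rw [LinearMap.comp_apply]
  convert this using 2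
  ext j
  simp [Pi.single_apply, eq_comm]

end

theorem finInd : FinIndStmt := by
  classical
  intro ι _ S h
  have htop := ratHull_top S h
  have hbase : ∀ i : ι, ∃ N : ℕ, 0 < N ∧ N • (fun j => if i = j then (1 : ℤ) else 0) ∈ S := by
    intro i
    have h1 : (fun j => if i = j then (1 : ℚ) else 0) ∈ ratHull S := by
      rw [htop]; exact Submodule.mem_top
    obtain ⟨N, hN, s, hs, hx⟩ := h1
    refine ⟨N, hN, ?_⟩
    have h2 : N • (fun j => if i = j then (1 : ℤ) else 0) = s := by
      funext j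
      have h3 := hx j
      simp only [Pi.smul_apply, nsmul_eq_mul]
      have h4 : ((N * (if i = j then (1 : ℤ) else 0) : ℤ) : ℚ) = (s j : ℚ) := by
        rw [← h3]
        push_cast
        rfl
      exact_mod_cast h4
    rw [h2]
    exact hs
  choose N hN hNS using hbase
  have hM : 0 < ∏ i, N i := Finset.prod_pos (fun i _ => hN i)
  have hall : ∀ x : ι → ℤ, (∏ i, N i) • x ∈ S := by
    intro x
    rw [pi_eq_sum_univ x, Finset.smul_sum]
    apply S.sum_mem
    intro i _
    obtain ⟨k, hk⟩ := Finset.dvd_prod_of_mem N (Finset.mem_univ i)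
    rw [hk]
    have h1 : (N i * k) • ((x i) • fun j => if i = j then (1 : ℤ) else 0) =
        (x i) • (k • (N i • fun j => if i = j then (1 : ℤ) else 0)) := by
      rw [smul_comm, mul_comm (N i) k, mul_smul]
    rw [h1]
    exact S.zsmul_mem (S.nsmul_mem (hNS i) k) _
  refine ⟨⟨_, hM, hall⟩, ?_⟩
  have hfin : Module.Finite ℤ ((ι → ℤ) ⧸ S) := by
    have h1 : Function.Surjective (QuotientAddGroup.mk' S).toIntLinearMap :=
      QuotientAddGroup.mk'_surjective S
    exact Module.Finite.of_surjective _ h1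
  apply Module.finite_of_fg_torsion
  intro y
  obtain ⟨x, rfl⟩ := QuotientAddGroup.mk_surjective y
  refine ⟨⟨((∏ i, N i : ℕ) : ℤ), ?_⟩, ?_⟩
  · exact mem_nonZeroDivisors_of_ne_zero (by exact_mod_cast hM.ne')
  · have h1 := hall x
    rw [← QuotientAddGroup.eq_zero_iff] at h1
    rw [Submonoid.mk_smul, natCast_zsmul]
    exact h1

end Pool.Agent.Lib.MP_db6a6f_al
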