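import Pool.Agent.Lib.MP_db6a6f_al.Stmts

set_option autoImplicit false

/-! C13: foldings of complexes. -/

namespace Pool.Agent.Lib.MP_db6a6f_al

open Finset

section
variable {α β : Type} [LinearOrder α] [LinearOrder β] {p : β → α}

theorem fold_erase {τ : Finset β} (hp : StrictMonoOn p (τ : Set β)) {a : β} (ha : a ∈ τ) :
    (τ.erase a).image p = (τ.image p).erase (p a) := by
  ext x
  simp only [mem_image, mem_erase]
  constructor
  · rintro ⟨b, ⟨hb, hb'⟩, rfl⟩
    exact ⟨fun h => hb (hp.injOn hb' ha h), b, hb', rfl⟩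
  · rintro ⟨hx, b, hb, rfl⟩
    exact ⟨b, ⟨fun h => hx (by rw [h]), hb⟩, rfl⟩

theorem fold_card {τ : Finset β} (hp : StrictMonoOn p (τ : Set β)) :
    (τ.image p).card = τ.card := card_image_of_injOn hp.injOn

theorem fold_sg {τ : Finset β} (hp : StrictMonoOn p (τ : Set β)) {a : β} (ha : a ∈ τ) :
    sg (p a) (τ.image p) = sg a τ := by
  unfold sg
  have h : (τ.image p).filter (fun b => b < p a) = (τ.filter (fun b => b < a)).image p := by
    ext x
    simp only [mem_filter, mem_image]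
    constructor
    · rintro ⟨⟨b, hb, rfl⟩, hx⟩
      exact ⟨b, ⟨hb, (hp.lt_iff_lt hb ha).mp hx⟩, rfl⟩
    · rintro ⟨b, ⟨hb, hb'⟩, rfl⟩
      exact ⟨⟨b, hb, rfl⟩, hp hb ha hb'⟩
  rw [h, card_image_of_injOn]
  exact hp.injOn.mono (by
    intro x hx
    exact mem_coe.mpr (mem_filter.mp (mem_coe.mp hx)).1)

theorem fold_dl {A : Type} [AddCommGroup A] (g : Finset α → A) {τ : Finset β}
    (hp : StrictMonoOn p (τ : Set β)) : dl g (τ.image p) = dl (fun σ => g (σ.image p)) τ := by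
  unfold dl
  rw [sum_image (fun x hx y hy h => hp.injOn (mem_coe.mpr hx) (mem_coe.mpr hy) h)]
  exact sum_congr rfl (fun a ha => by
    show _ = sg a τ • g ((τ.erase a).image p)
    rw [fold_sg hp ha, fold_erase hp ha])

end

/-- C13. -/
theorem fold : FoldStmt := by
  intro α β _ _ p m k X' X A _ hX' hX hF hmk
  classical
  obtain ⟨hF1, hF2⟩ := hF
  -- the lift of a cochain of `X'`
  let L : (Finset β → A) → Finset α → A := fun f σ =>
    if h : σ ∈ X ∧ m ≤ σ.card then f (hF2 σ h.1 h.2).choose else 0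
  have hL : ∀ (f : Finset β → A) (τ : Finset β), τ ∈ X' → m ≤ τ.card →
      L f (τ.image p) = f τ := by
    intro f τ hτ hm
    have h1 : τ.image p ∈ X ∧ m ≤ (τ.image p).card :=
      ⟨(hF1 τ hτ).2, by rw [fold_card (hF1 τ hτ).1]; exact hm⟩
    have h2 : L f (τ.image p) = f (hF2 _ h1.1 h1.2).choose := dif_pos h1
    rw [h2]
    have h3 := (hF2 _ h1.1 h1.2).choose_spec
    rw [← h3.2 τ ⟨hτ, rfl⟩]
  have hLdl : ∀ (f : Finset β → A) (τ : Finset β), τ ∈ X' → m + 1 ≤ τ.card →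
      dl (L f) (τ.image p) = dl f τ := by
    intro f τ hτ hm
    rw [fold_dl _ (hF1 τ hτ).1]
    apply dl_congr
    intro a ha
    exact hL f _ (hX' τ hτ _ (erase_subset _ _)) (by rw [card_erase_of_mem ha]; omega)
  constructor
  · intro hE f hf
    obtain ⟨g, hg⟩ := hE (L f) (by
      intro τ hτ hc
      obtain ⟨τ', ⟨h1, h2⟩, -⟩ := hF2 τ hτ (by omega)
      have h3 : τ'.card = k + 1 := by rw [← fold_card (hF1 τ' h1).1, h2, hc]
      rw [← h2, hLdl f τ' h1 (by omega)]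
      exact hf τ' h1 h3)
    refine ⟨fun σ => g (σ.image p), ?_⟩
    intro σ hσ hc
    rw [← fold_dl g (hF1 σ hσ).1, ← hg _ (hF1 σ hσ).2 (by rw [fold_card (hF1 σ hσ).1, hc])]
    exact (hL f σ hσ (by omega)).symm
  · intro hE f hf
    obtain ⟨g, hg⟩ := hE (fun σ => f (σ.image p)) (by
      intro τ hτ hc
      rw [← fold_dl f (hF1 τ hτ).1]
      exact hf _ (hF1 τ hτ).2 (by rw [fold_card (hF1 τ hτ).1, hc]))
    refine ⟨L g, ?_⟩
    intro σ hσ hc
    obtain ⟨σ', ⟨h1, h2⟩, -⟩ := hF2 σ hσ (by omega)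
    have h3 : σ'.card = k := by rw [← fold_card (hF1 σ' h1).1, h2, hc]
    rw [← h2, hLdl g σ' h1 (by omega)]
    exact hg σ' h1 h3

end Pool.Agent.Lib.MP_db6a6f_al
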