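import Pool.Agent.Lib.MP_db6a6f_al.Stmts

set_option autoImplicit false

/-! The abstract group lemma and the maximal coordinate set. -/

namespace Pool.Agent.Lib.MP_db6a6f_al

open Finset

namespace GroupAux

theorem gcd_mem {Z : Type} [AddCommGroup Z] (H : AddSubgroup Z) (z : Z) (a b : ℕ)
    (ha : a • z ∈ H) (hb : b • z ∈ H) : (Nat.gcd a b) • z ∈ H := by
  have h : ((Nat.gcd a b : ℕ) : ℤ) • z ∈ H := by
    rw [Nat.gcd_eq_gcd_ab, add_smul, mul_comm (a : ℤ), mul_comm (b : ℤ), mul_smul, mul_smul]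
    refine H.add_mem (H.zsmul_mem ?_ _) (H.zsmul_mem ?_ _)
    · rwa [natCast_zsmul]
    · rwa [natCast_zsmul]
  rwa [natCast_zsmul] at h

/-- The prime power case. -/
theorem pp {Z : Type} [AddCommGroup Z] (Zu Zv : AddSubgroup Z) (z : Z) (p k : ℕ)
    (hp : p.Prime) (hu : p ^ k • z ∈ Zu) (hv : p ^ k • z ∈ Zv) :
    (∀ m : ℕ, m • z ∈ Zv → m • z ∈ Zu) ∨ (∀ m : ℕ, m • z ∈ Zu → m • z ∈ Zv) := by
  by_contra hcon
  push Not at hcon
  obtain ⟨⟨a, ha1, ha2⟩, ⟨b, hb1, hb2⟩⟩ := hcon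
  have h1 := gcd_mem Zv z a (p ^ k) ha1 hv
  have h2 := gcd_mem Zu z b (p ^ k) hb1 hu
  obtain ⟨i, _, hi⟩ := (Nat.dvd_prime_pow hp).mp (Nat.gcd_dvd_right a (p ^ k))
  obtain ⟨j, _, hj⟩ := (Nat.dvd_prime_pow hp).mp (Nat.gcd_dvd_right b (p ^ k))
  rw [hi] at h1
  rw [hj] at h2
  have hda : p ^ i ∣ a := hi ▸ Nat.gcd_dvd_left a (p ^ k)
  have hdb : p ^ j ∣ b := hj ▸ Nat.gcd_dvd_left b (p ^ k)
  rcases le_total i j with hij | hij
  · -- p^i divides b, so b • z in Zv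
    obtain ⟨c, rfl⟩ := (pow_dvd_pow p hij).trans hdb
    apply hb2
    rw [mul_comm, mul_smul]
    exact Zv.nsmul_mem h1 c
  · obtain ⟨c, rfl⟩ := (pow_dvd_pow p hij).trans hda
    apply ha2
    rw [mul_comm, mul_smul]
    exact Zu.nsmul_mem h2 c

end GroupAux

theorem groupLemma : GroupStmt := by
  intro Z _ P Zu Zv _ _ hfin h1 h2
  have key : ∀ N : ℕ, 0 < N → ∀ z ∈ P, N • z ∈ Zu → N • z ∈ Zv → z ∈ Zu ⊔ Zv := by
    intro N
    induction N using Nat.recOnPosPrimePosCoprime with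
    | zero => intro h; exact absurd h (lt_irrefl 0)
    | one =>
      intro _ z _ hu _
      rw [one_smul] at hu
      exact AddSubgroup.mem_sup_left hu
    | prime_pow p n hp _ =>
      intro _ z hz hu hv
      rcases GroupAux.pp Zu Zv z p n hp hu hv with h | h
      · exact h1 z hz h
      · exact h2 z hz h
    | coprime a b ha hb hab iha ihb =>
      intro _ z hz hu hv
      have e1 : a • z ∈ Zu ⊔ Zv := by
        refine ihb (by omega) (a • z) (P.nsmul_mem hz a) ?_ ?_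
        · rw [← mul_smul, mul_comm b a]; exact hu
        · rw [← mul_smul, mul_comm b a]; exact hv
      have e2 : b • z ∈ Zu ⊔ Zv := by
        refine iha (by omega) (b • z) (P.nsmul_mem hz b) ?_ ?_
        · rw [← mul_smul]; exact hu
        · rw [← mul_smul]; exact hv
      have e3 := GroupAux.gcd_mem (Zu ⊔ Zv) z a b e1 e2
      rw [hab, one_smul] at e3
      exact e3
  intro z hz
  obtain ⟨N, hN, hu, hv⟩ := hfin z hz
  exact key N hN z hz hu hv

theorem maxSel : MaxStmt := by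
  classical
  intro ι _ U T₀ I hT₀ h₀
  let good : Finset ι → Prop := fun T => T₀ ⊆ T ∧ ∀ c : ι → ℚ, ∃ κ ∈ U, ∀ i ∈ T, κ i = c i
  have hne : (I.powerset.filter good).Nonempty := ⟨T₀, by simp [good, hT₀, h₀]⟩
  obtain ⟨T, hT, hmax⟩ := Finset.exists_max_image _ Finset.card hne
  rw [mem_filter, mem_powerset] at hT
  obtain ⟨hTI, hT1, hT2⟩ := hT
  refine ⟨T, hT1, hTI, hT2, ?_⟩
  intro κ hκ hκ0 i hi
  by_contra hne0
  have hiT : i ∉ T := fun h => hne0 (hκ0 i h)
  have hbig : insert i T ∈ I.powerset.filter good := by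
    rw [mem_filter, mem_powerset]
    refine ⟨insert_subset hi hTI, hT1.trans (subset_insert _ _), fun c => ?_⟩
    obtain ⟨μ, hμ, hμ2⟩ := hT2 c
    refine ⟨μ + ((c i - μ i) / κ i) • κ, U.add_mem hμ (U.smul_mem _ hκ), ?_⟩
    intro j hj
    rcases mem_insert.mp hj with rfl | hj
    · simp only [Pi.add_apply, Pi.smul_apply, smul_eq_mul]
      rw [div_mul_cancel₀ _ hne0]; ring
    · simp only [Pi.add_apply, Pi.smul_apply, smul_eq_mul]
      rw [hκ0 j hj, mul_zero, add_zero, hμ2 j hj]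
  have := hmax _ hbig
  rw [card_insert_of_notMem hiT] at this
  omega

end Pool.Agent.Lib.MP_db6a6f_al
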