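import Pool.Agent.Lib.MP_db6a6f_al.Stmts

set_option autoImplicit false

/-! C2: the Leray property from the deletions of faces, and from the links of faces. -/

namespace Pool.Agent.Lib.MP_db6a6f_al

open Finset

namespace HerAux

variable {α : Type} [LinearOrder α]

theorem ex_of_empty {A : Type} [AddCommGroup A] {K : Finset (Finset α)} (hK : K = ∅) (k : ℕ) :
    Ex A K k := by
  intro f _
  refine ⟨fun _ => 0, fun σ hσ => ?_⟩
  rw [hK] at hσ
  exact absurd hσ (notMem_empty σ)

theorem LD_empty_of_notMem {K : Finset (Finset α)} (hK : IsCx K) {σ : Finset α} (A : Finset α)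
    (hσ : σ ∉ K) : LD K σ A = ∅ := by
  rw [eq_empty_iff_forall_notMem]
  intro τ hτ
  rw [mem_LD] at hτ
  exact hσ (hK _ hτ.2.2.2 _ subset_union_right)

theorem LD_insert_of_mem (K : Finset (Finset α)) {σ A : Finset α} {v : α} (hv : v ∈ σ) :
    LD K σ (insert v A) = LD K σ A := by
  ext τ
  rw [mem_LD, mem_LD]
  constructor
  · rintro ⟨h1, h2, h3, h4⟩
    exact ⟨h1, h2, Disjoint.mono_right (subset_insert v A) h3, h4⟩
  · rintro ⟨h1, h2, h3, h4⟩
    refine ⟨h1, h2, ?_, h4⟩
    rw [disjoint_insert_right]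
    exact ⟨fun h => (disjoint_left.mp h2) h hv, h3⟩

theorem claimA (h : MVStmt) {K : Finset (Finset α)} (hK : IsCx K)
    (h0 : ∀ σ ∈ K, ∀ k : ℕ, 3 ≤ k → Ex ℚ (LD K ∅ σ) k) (σ : Finset α) :
    ∀ τ : Finset α, Disjoint σ τ → σ ∪ τ ∈ K → ∀ k : ℕ, 3 ≤ k → Ex ℚ (LD K σ τ) k := by
  induction σ using Finset.induction_on with
  | empty =>
    intro τ _ hτ k hk
    rw [empty_union] at hτ
    exact h0 τ hτ k hk
  | insert v σ hv ih =>
    intro τ hd hτ k hk
    rw [disjoint_insert_left] at hd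
    obtain ⟨hvτ, hd⟩ := hd
    have hmem : σ ∪ insert v τ ∈ K := by
      have e : σ ∪ insert v τ = insert v σ ∪ τ := by
        ext x; simp only [mem_union, mem_insert]; tauto
      rwa [e]
    have hmem2 : σ ∪ τ ∈ K := hK _ hτ _ (union_subset_union_left (subset_insert v σ))
    have hd2 : Disjoint σ (insert v τ) := by
      rw [disjoint_insert_right]; exact ⟨hv, hd⟩
    have key := (h α ℚ (LD K σ τ) v k (isCx_LD hK σ τ)).2.2
    rw [LD_LD hK σ τ ∅ {v} (disjoint_empty_left _) (disjoint_empty_left _),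
      LD_LD hK σ τ {v} ∅ (by simpa using hv) (by simpa using hvτ)] at key
    have e1 : σ ∪ ∅ = σ := union_empty σ
    have e2 : τ ∪ {v} = insert v τ := by ext x; simp only [mem_union, mem_insert, mem_singleton]; tauto
    have e3 : σ ∪ {v} = insert v σ := by ext x; simp only [mem_union, mem_insert, mem_singleton]; tauto
    have e4 : τ ∪ ∅ = τ := union_empty τ
    rw [e1, e2, e3, e4] at key
    exact key (ih (insert v τ) hd2 hmem k hk) (ih τ hd hmem2 (k + 1) (by omega))

theorem claimB (h : MVStmt) {K : Finset (Finset α)} (hK : IsCx K)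
    (h0 : ∀ σ ∈ K, ∀ k : ℕ, 3 ≤ k → Ex ℚ (LD K σ ∅) k) (A : Finset α) :
    ∀ σ : Finset α, ∀ k : ℕ, 3 ≤ k → Ex ℚ (LD K σ A) k := by
  induction A using Finset.induction_on with
  | empty =>
    intro σ k hk
    by_cases hσ : σ ∈ K
    · exact h0 σ hσ k hk
    · exact ex_of_empty (LD_empty_of_notMem hK ∅ hσ) k
  | insert v A hv ih =>
    intro σ k hk
    by_cases hvσ : v ∈ σ
    · rw [LD_insert_of_mem K hvσ]; exact ih σ k hk
    have key := (h α ℚ (LD K σ A) v k (isCx_LD hK σ A)).2.1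
    rw [LD_LD hK σ A ∅ {v} (disjoint_empty_left _) (disjoint_empty_left _),
      LD_LD hK σ A {v} ∅ (by simpa using hvσ) (by simpa using hv)] at key
    have e1 : σ ∪ ∅ = σ := union_empty σ
    have e2 : A ∪ {v} = insert v A := by ext x; simp only [mem_union, mem_insert, mem_singleton]; tauto
    have e4 : A ∪ ∅ = A := union_empty A
    rw [e1, e2, e4] at key
    exact key (ih σ k hk) (ih (σ ∪ {v}) k hk)

end HerAux

theorem her (h : MVStmt) : HerStmt := by
  intro α _ K hK
  refine ⟨fun h0 => ?_, fun h0 σ A k hk => HerAux.claimB h hK h0 A σ k hk⟩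
  intro σ A k hk
  refine HerAux.claimB h hK (fun σ hσ k hk => ?_) A σ k hk
  exact HerAux.claimA h hK h0 σ ∅ (disjoint_empty_right _) (by rwa [union_empty]) k hk

end Pool.Agent.Lib.MP_db6a6f_al
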