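import Pool.Agent.Lib.MP_db6a6f_al.Stmts

set_option autoImplicit false

/-! Higher degrees and integer coefficients. -/

namespace Pool.Agent.Lib.MP_db6a6f_al

open Finset

namespace IntC

variable {α : Type} [LinearOrder α]

/-- The Leray property passes to links and full subcomplexes. -/
theorem ler_sub {K : Finset (Finset α)} (hK : IsCx K) (hL : Ler K) (σ A : Finset α) :
    Ler (LD K σ A) := by
  intro σ' A' k hk
  by_cases h : Disjoint σ' σ ∧ Disjoint σ' A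
  · rw [LD_LD hK σ A σ' A' h.1 h.2]
    exact hL _ _ k hk
  · intro f _
    refine ⟨f, fun τ hτ _ => absurd ?_ h⟩
    have h1 := (mem_LD.mp (mem_LD.mp hτ).2.2.2)
    exact ⟨Disjoint.mono_left subset_union_right h1.2.1,
      Disjoint.mono_left subset_union_right h1.2.2.1⟩

/-- The number of vertices. -/
def nv (K : Finset (Finset α)) : ℕ := (K.biUnion id).card

theorem nv_lt {K L : Finset (Finset α)} {v : α} (hKv : ∃ σ ∈ K, v ∈ σ) (hL : ∀ τ ∈ L, τ ∈ K)
    (hv : ∀ τ ∈ L, v ∉ τ) : nv L < nv K := by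
  unfold nv
  apply card_lt_card
  refine ⟨?_, ?_⟩
  · intro x hx
    simp only [mem_biUnion, id] at hx ⊢
    obtain ⟨τ, hτ, hxτ⟩ := hx
    exact ⟨τ, hL τ hτ, hxτ⟩
  · intro h
    have h1 : v ∈ K.biUnion id := by
      obtain ⟨σ, hσ, hvσ⟩ := hKv
      exact mem_biUnion.mpr ⟨σ, hσ, hvσ⟩
    obtain ⟨τ, hτ, hvτ⟩ := mem_biUnion.mp (h h1)
    exact hv τ hτ hvτ

/-- Coefficients in `ℚ / ℤ`, all degrees `≥ 2`. -/
theorem exQZ (hm : MainStmt) (hv : MVStmt) : ∀ n : ℕ, ∀ K : Finset (Finset ℚ), IsCx K → Ler K →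
    nv K = n → ∀ k : ℕ, 3 ≤ k → Ex QZ K k := by
  intro n
  induction n using Nat.strong_induction_on with
  | _ n ih =>
    intro K hK hL hn k hk
    rcases hk.lt_or_eq with hk | rfl
    · obtain ⟨m, rfl⟩ : ∃ m, k = m + 1 := ⟨k - 1, by omega⟩
      by_cases hne : ∃ v : ℚ, ∃ σ ∈ K, v ∈ σ
      · obtain ⟨v, hvK⟩ := hne
        refine (hv ℚ QZ K v m hK).1 ?_ ?_
        · refine ih (nv (LD K {v} ∅)) ?_ (LD K {v} ∅) (isCx_LD hK _ _) (ler_sub hK hL _ _) rfl m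
            (by omega)
          rw [← hn]
          refine nv_lt hvK (fun τ hτ => (mem_LD.mp hτ).1) (fun τ hτ => ?_)
          exact disjoint_singleton_right.mp (mem_LD.mp hτ).2.1
        · refine ih (nv (LD K ∅ {v})) ?_ (LD K ∅ {v}) (isCx_LD hK _ _) (ler_sub hK hL _ _) rfl
            (m + 1) (by omega)
          rw [← hn]
          refine nv_lt hvK (fun τ hτ => (mem_LD.mp hτ).1) (fun τ hτ => ?_)
          exact disjoint_singleton_right.mp (mem_LD.mp hτ).2.2.1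
      · intro f _
        refine ⟨f, fun σ hσ hc => ?_⟩
        exfalso
        apply hne
        have hpos : 0 < σ.card := by omega
        obtain ⟨v, hvσ⟩ := card_pos.mp hpos
        exact ⟨v, σ, hσ, hvσ⟩
    · exact hm K hK hL

end IntC

/-- C16. -/
theorem int (hm : MainStmt) (hv : MVStmt) : IntStmt := by
  intro K hK hL k hk z hz
  obtain ⟨m, rfl⟩ : ∃ m, k = m + 1 := ⟨k - 1, by omega⟩
  have hQ : Ex ℚ K (m + 1) := by
    have h := hL ∅ ∅ (m + 1) (by omega)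
    rwa [LD_empty] at h
  have hdz : ∀ (w : Finset ℚ → ℤ) (τ : Finset ℚ),
      dl (fun σ => ((w σ : ℤ) : ℚ)) τ = ((dl w τ : ℤ) : ℚ) := fun w τ =>
    dl_map (Int.castAddHom ℚ) w τ
  have hdq : ∀ (w : Finset ℚ → ℚ) (τ : Finset ℚ),
      dl (fun σ => ((w σ : ℚ) : QZ)) τ = ((dl w τ : ℚ) : QZ) := fun w τ =>
    dl_map (QuotientAddGroup.mk' (AddSubgroup.zmultiples (1 : ℚ))) w τ
  obtain ⟨q, hq⟩ := hQ (fun σ => ((z σ : ℤ) : ℚ)) (fun τ hτ hc => by
    rw [hdz, hz τ hτ hc, Int.cast_zero])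
  obtain ⟨t, ht⟩ := IntC.exQZ hm hv _ K hK hL rfl m (by omega) (fun σ => ((q σ : ℚ) : QZ))
    (fun τ hτ hc => by
      rw [hdq, ← hq τ hτ hc, QuotientAddGroup.eq_zero_iff]
      exact AddSubgroup.mem_zmultiples_iff.mpr ⟨z τ, by simp⟩)
  have hlift : ∀ σ : Finset ℚ, ∃ x : ℚ, (x : QZ) = t σ := fun σ =>
    QuotientAddGroup.mk_surjective (t σ)
  choose s hs using hlift
  have hts : t = fun σ => ((s σ : ℚ) : QZ) := funext fun σ => (hs σ).symm
  have hint : ∀ σ : Finset ℚ, ∃ n : ℤ, σ ∈ K → σ.card = m → q σ - dl s σ = (n : ℚ) := by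
    intro σ
    by_cases h : σ ∈ K ∧ σ.card = m
    · have h1 := ht σ h.1 h.2
      rw [hts, hdq] at h1
      have h2 : ((q σ - dl s σ : ℚ) : QZ) = 0 := by
        rw [QuotientAddGroup.mk_sub]
        exact sub_eq_zero.mpr h1
      rw [QuotientAddGroup.eq_zero_iff] at h2
      obtain ⟨n, hn⟩ := AddSubgroup.mem_zmultiples_iff.mp h2
      exact ⟨n, fun _ _ => by rw [← hn]; simp⟩
    · exact ⟨0, fun h1 h2 => absurd ⟨h1, h2⟩ h⟩
  choose w hw using hint
  refine ⟨w, fun τ hτ hc => ?_⟩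
  have h3 : ((z τ : ℤ) : ℚ) = ((dl w τ : ℤ) : ℚ) := by
    rw [← hdz]
    calc ((z τ : ℤ) : ℚ) = dl q τ := hq τ hτ hc
      _ = dl q τ - dl (dl s) τ := by rw [dl_dl, sub_zero]
      _ = dl (fun σ => q σ - dl s σ) τ := (dl_sub _ _ _).symm
      _ = dl (fun σ => ((w σ : ℤ) : ℚ)) τ := by
        apply dl_congr
        intro a ha
        exact hw (τ.erase a) (hK τ hτ _ (erase_subset _ _)) (by rw [card_erase_of_mem ha, hc]; rfl)
  exact_mod_cast h3

end Pool.Agent.Lib.MP_db6a6f_al
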