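import Pool.Agent.Lib.MP_db6a6f_al.Stmts

set_option autoImplicit false

/-! Mayer-Vietoris for simplicial cochains. -/

namespace Pool.Agent.Lib.MP_db6a6f_al

open Finset

namespace MV

variable {α : Type} [LinearOrder α] {A : Type} [AddCommGroup A]

theorem mem_lk {K : Finset (Finset α)} {v : α} {τ : Finset α} :
    τ ∈ LD K {v} ∅ ↔ τ ∈ K ∧ v ∉ τ ∧ insert v τ ∈ K := by
  rw [mem_LD]
  have e : τ ∪ {v} = insert v τ := by
    ext x; simp only [mem_union, mem_singleton, mem_insert]; tauto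
  rw [e]
  simp only [disjoint_singleton_right, disjoint_empty_right, true_and]

theorem mem_del {K : Finset (Finset α)} {v : α} {τ : Finset α} :
    τ ∈ LD K ∅ {v} ↔ τ ∈ K ∧ v ∉ τ := by
  rw [mem_LD]
  simp only [disjoint_singleton_right, disjoint_empty_right, true_and, union_empty]
  tauto

/-- The cochain equal to `f` off `v` and with `v`-part `h`. -/
def gl (v : α) (h f : Finset α → A) (σ : Finset α) : A :=
  if v ∈ σ then sg v σ • h (σ.erase v) else f σ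

theorem gl_off {v : α} (h f : Finset α → A) {σ : Finset α} (hv : v ∉ σ) : gl v h f σ = f σ :=
  if_neg hv

theorem Pt_gl {v : α} (h f : Finset α → A) {ρ : Finset α} (hv : v ∉ ρ) :
    Pt v (gl v h f) ρ = h ρ := by
  unfold Pt gl
  rw [if_pos (mem_insert_self v ρ), sg_sq_smul, erase_insert hv]

theorem dl_gl_off {v : α} (h f : Finset α → A) {τ : Finset α} (hv : v ∉ τ) :
    dl (gl v h f) τ = dl f τ :=
  dl_congr fun _ _ => gl_off h f fun hh => hv (mem_of_mem_erase hh)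

theorem Pt_dl_gl {v : α} (h f : Finset α → A) {ρ : Finset α} (hv : v ∉ ρ) :
    Pt v (dl (gl v h f)) ρ = f ρ - dl h ρ := by
  rw [Pt_dl v _ hv, gl_off h f hv]
  congr 1
  exact dl_congr fun _ _ => Pt_gl h f fun hh => hv (mem_of_mem_erase hh)

/-- Cancellation of the sign. -/
theorem eq_of_Pt {v : α} {f g : Finset α → A} {ρ : Finset α} (h : Pt v f ρ = Pt v g ρ) :
    f (insert v ρ) = g (insert v ρ) := by
  unfold Pt at h
  have h2 := congrArg (fun x => sg v (insert v ρ) • x) h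
  simp only [sg_sq_smul] at h2
  exact h2

theorem Pt_eq_zero {v : α} {f : Finset α → A} {ρ : Finset α} (h : f (insert v ρ) = 0) :
    Pt v f ρ = 0 := by
  unfold Pt; rw [h, smul_zero]

theorem zero_of_Pt {v : α} {f : Finset α → A} {ρ : Finset α} (h : Pt v f ρ = 0) :
    f (insert v ρ) = 0 := by
  have h2 : Pt v f ρ = Pt v (fun _ => (0 : A)) ρ := by
    rw [h, Pt_eq_zero rfl]
  exact eq_of_Pt h2

theorem part1 (K : Finset (Finset α)) (v : α) (k : ℕ) (hK : IsCx K)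
    (h1 : Ex A (LD K {v} ∅) k) (h2 : Ex A (LD K ∅ {v}) (k + 1)) : Ex A K (k + 1) := by
  intro f hf
  obtain ⟨g1, hg1⟩ := h2 f (fun τ hτ hc => hf τ (mem_del.mp hτ).1 hc)
  set f' : Finset α → A := fun σ => f σ - dl g1 σ with hf'
  have hoff : ∀ σ ∈ K, v ∉ σ → σ.card = k + 1 → f' σ = 0 := by
    intro σ hσ hv hc
    rw [hf']
    show f σ - dl g1 σ = 0
    rw [hg1 σ (mem_del.mpr ⟨hσ, hv⟩) hc, sub_self]
  obtain ⟨q, hq⟩ := h1 (Pt v f') (by
    intro ρ hρ hc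
    obtain ⟨m1, m2, m3⟩ := mem_lk.mp hρ
    have e := Pt_dl v f' m2
    rw [hoff ρ m1 m2 hc] at e
    have e2 : dl f' (insert v ρ) = 0 := by
      have e3 : dl f' (insert v ρ) = dl f (insert v ρ) - dl (dl g1) (insert v ρ) := dl_sub _ _ _
      rw [e3, dl_dl, hf _ m3 (by rw [card_insert_of_notMem m2, hc]), sub_zero]
    rw [Pt_eq_zero e2, zero_sub] at e
    exact neg_eq_zero.mp e.symm)
  refine ⟨fun σ => g1 σ + gl v (fun ρ => - q ρ) (fun _ => 0) σ, fun σ hσ hc => ?_⟩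
  rw [dl_add]
  by_cases hv : v ∈ σ
  · have hi : insert v (σ.erase v) = σ := insert_erase hv
    have hn : v ∉ σ.erase v := notMem_erase v σ
    have hl : σ.erase v ∈ LD K {v} ∅ :=
      mem_lk.mpr ⟨hK σ hσ _ (erase_subset _ _), hn, by rw [hi]; exact hσ⟩
    have e1 : Pt v (dl (gl v (fun ρ => - q ρ) (fun _ => (0 : A)))) (σ.erase v) =
        Pt v f' (σ.erase v) := by
      rw [Pt_dl_gl _ _ hn, dl_neg, zero_sub, neg_neg,
        hq _ hl (by rw [card_erase_of_mem hv, hc]; rfl)]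
    have e2 := eq_of_Pt e1
    rw [hi] at e2
    rw [e2, hf']
    show f σ = dl g1 σ + (f σ - dl g1 σ)
    abel
  · rw [dl_gl_off _ _ hv, dl_zero, add_zero]
    exact hg1 σ (mem_del.mpr ⟨hσ, hv⟩) hc

theorem part2 (K : Finset (Finset α)) (v : α) (k : ℕ) (hK : IsCx K)
    (h1 : Ex A K k) (h2 : Ex A (LD K {v} ∅) k) : Ex A (LD K ∅ {v}) k := by
  intro f hf
  obtain ⟨h, hh⟩ := h2 f (fun τ hτ hc =>
    hf τ (mem_del.mpr ⟨(mem_lk.mp hτ).1, (mem_lk.mp hτ).2.1⟩) hc)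
  obtain ⟨g, hg⟩ := h1 (gl v h f) (by
    intro τ hτ hc
    by_cases hv : v ∈ τ
    · have hi : insert v (τ.erase v) = τ := insert_erase hv
      have hn : v ∉ τ.erase v := notMem_erase v τ
      have hl : τ.erase v ∈ LD K {v} ∅ :=
        mem_lk.mpr ⟨hK τ hτ _ (erase_subset _ _), hn, by rw [hi]; exact hτ⟩
      have e : Pt v (dl (gl v h f)) (τ.erase v) = 0 := by
        rw [Pt_dl_gl _ _ hn, hh _ hl (by rw [card_erase_of_mem hv, hc]; rfl), sub_self]
      have e2 := zero_of_Pt e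
      rwa [hi] at e2
    · rw [dl_gl_off _ _ hv]
      exact hf τ (mem_del.mpr ⟨hτ, hv⟩) hc)
  refine ⟨g, fun σ hσ hc => ?_⟩
  obtain ⟨m1, m2⟩ := mem_del.mp hσ
  rw [← hg σ m1 hc, gl_off _ _ m2]

theorem part3 (K : Finset (Finset α)) (v : α) (k : ℕ) (hK : IsCx K)
    (h1 : Ex A (LD K ∅ {v}) k) (h2 : Ex A K (k + 1)) : Ex A (LD K {v} ∅) k := by
  intro h hh
  obtain ⟨g, hg⟩ := h2 (gl v h (fun _ => 0)) (by
    intro τ hτ hc
    by_cases hv : v ∈ τ
    · have hi : insert v (τ.erase v) = τ := insert_erase hv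
      have hn : v ∉ τ.erase v := notMem_erase v τ
      have hl : τ.erase v ∈ LD K {v} ∅ :=
        mem_lk.mpr ⟨hK τ hτ _ (erase_subset _ _), hn, by rw [hi]; exact hτ⟩
      have e : Pt v (dl (gl v h (fun _ => 0))) (τ.erase v) = 0 := by
        rw [Pt_dl_gl _ _ hn, hh _ hl (by rw [card_erase_of_mem hv, hc]; rfl), sub_self]
      have e2 := zero_of_Pt e
      rwa [hi] at e2
    · rw [dl_gl_off _ _ hv, dl_zero])
  obtain ⟨g', hg'⟩ := h1 g (by
    intro τ hτ hc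
    obtain ⟨m1, m2⟩ := mem_del.mp hτ
    rw [← hg τ m1 hc, gl_off _ _ m2])
  refine ⟨fun σ => g' σ - Pt v g σ, fun ρ hρ hc => ?_⟩
  obtain ⟨m1, m2, m3⟩ := mem_lk.mp hρ
  have e1 : Pt v (gl v h (fun _ => 0)) ρ = Pt v (dl g) ρ := by
    unfold Pt
    rw [hg _ m3 (by rw [card_insert_of_notMem m2, hc])]
  rw [Pt_gl _ _ m2, Pt_dl v g m2, hg' ρ (mem_del.mpr ⟨m1, m2⟩) hc] at e1
  rw [dl_sub]
  exact e1

end MV

theorem mv : MVStmt := fun _ _ _ _ K v k hK =>
  ⟨MV.part1 K v k hK, MV.part2 K v k hK, MV.part3 K v k hK⟩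

end Pool.Agent.Lib.MP_db6a6f_al
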