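import Pool.Agent.Lib.MP_db6a6f_al.Stmts

set_option autoImplicit false

/-! C6: the vector of a ramified cocycle. -/

namespace Pool.Agent.Lib.MP_db6a6f_al

open Finset

namespace RamAux

theorem eQ_coe (t : ℚ) :
    eQ ((t : ℚ) : QZ) = Complex.exp (2 * Real.pi * Complex.I * (t : ℂ)) := rfl

theorem eQ_add' (s t : QZ) : eQ (s + t) = eQ s * eQ t := by
  induction s using QuotientAddGroup.induction_on with
  | H s =>
    induction t using QuotientAddGroup.induction_on with
    | H t =>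
      have h : ((s : ℚ) : QZ) + ((t : ℚ) : QZ) = ((s + t : ℚ) : QZ) := rfl
      rw [h, eQ_coe, eQ_coe, eQ_coe, ← Complex.exp_add]
      congr 1
      push_cast
      ring

theorem eQ_ne' (t : QZ) : eQ t ≠ 0 := by
  induction t using QuotientAddGroup.induction_on with
  | H t => rw [eQ_coe]; exact Complex.exp_ne_zero _

theorem eQ_zero' : eQ 0 = 1 := by
  have h := eQ_add' 0 0
  rw [add_zero] at h
  exact (mul_right_cancel₀ (eQ_ne' 0) (by rw [one_mul]; exact h)).symm

theorem eQ_one' (t : QZ) (h : eQ t = 1) : t = 0 := by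
  induction t using QuotientAddGroup.induction_on with
  | H t =>
    rw [eQ_coe, Complex.exp_eq_one_iff] at h
    obtain ⟨n, hn⟩ := h
    have h2 : (t : ℂ) = (n : ℂ) := by
      have h3 : (2 * Real.pi * Complex.I : ℂ) ≠ 0 := Complex.two_pi_I_ne_zero
      apply mul_left_cancel₀ h3
      rw [hn]; ring
    have h4 : t = (n : ℚ) := by exact_mod_cast h2
    rw [h4]
    exact (QuotientAddGroup.eq_zero_iff _).mpr
      (AddSubgroup.mem_zmultiples_iff.mpr ⟨n, by simp⟩)

variable {α : Type} [LinearOrder α]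

theorem bp_mem {u v : α} {σ : Finset α} (h : ((σ.erase u).erase v).Nonempty) :
    bp u v σ ∈ σ := by
  unfold bp
  rw [dif_pos h]
  exact mem_of_mem_erase (mem_of_mem_erase (min'_mem _ h))

theorem bp_insert_v {u v : α} {σ : Finset α} :
    bp u v (insert v σ) = bp u v σ := by
  have h : ((insert v σ).erase u).erase v = (σ.erase u).erase v := by
    ext x
    simp only [mem_erase, mem_insert]
    tauto
  unfold bp
  simp only [h]

theorem bp_singleton {u v a : α} (hav : a ≠ v) : bp u v {a} = a := by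
  by_cases hau : a = u
  · subst hau
    unfold bp
    rw [dif_neg]
    rintro ⟨x, hx⟩
    simp only [mem_erase, mem_singleton] at hx
    exact hx.2.1 hx.2.2
  · have hne : ((({a} : Finset α).erase u).erase v).Nonempty := ⟨a, by simp [hau, hav]⟩
    exact mem_singleton.mp (bp_mem hne)

theorem bp_pair_mem {u v a c : α} (hac : a ≠ c) (hav : a ≠ v) (hcv : c ≠ v) :
    bp u v {a, c} = a ∨ bp u v {a, c} = c := by
  have hne : ((({a, c} : Finset α).erase u).erase v).Nonempty := by
    by_cases hau : a = u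
    · exact ⟨c, mem_erase.mpr ⟨hcv, mem_erase.mpr ⟨fun h => hac (hau.trans h.symm), by simp⟩⟩⟩
    · exact ⟨a, mem_erase.mpr ⟨hav, mem_erase.mpr ⟨hau, by simp⟩⟩⟩
  have := bp_mem hne
  simpa using this

/-- The twisted cocycle relation on the link of `v`. -/
theorem rel {K : Finset (Finset α)} {u v : α} {φ : Finset α → QZ} {x : Finset α → ℂ}
    (hx : ∀ τ ∈ K, τ.card = 3 → dt u v φ x τ = 0) {a c : α} (hac : a < c)
    (h : ({a, c} : Finset α) ∈ LD K {v} ∅) :
    x {a, c} = eQ (asy φ c (bp u v {a, c})) * Pt v x {c} -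
      eQ (asy φ a (bp u v {a, c})) * Pt v x {a} := by
  rw [mem_LD] at h
  obtain ⟨h1, h2, -, h4⟩ := h
  have hv : v ∉ ({a, c} : Finset α) := by
    rw [disjoint_singleton_right] at h2; exact h2
  have hva : a ≠ v := fun e => hv (by simp [e])
  have hvc : c ≠ v := fun e => hv (by simp [e])
  have hτ : insert v ({a, c} : Finset α) ∈ K := by
    rwa [union_comm, ← insert_eq] at h4
  have hcard : (insert v ({a, c} : Finset α)).card = 3 := by
    rw [card_insert_of_notMem hv, card_pair hac.ne]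
  have h0 := hx _ hτ hcard
  set b := bp u v {a, c} with hb
  have hbτ : bp u v (insert v ({a, c} : Finset α)) = b := bp_insert_v
  set F : Finset α → ℂ := fun σ => eQ (asy φ (bp u v σ) b) * x σ with hF
  have h5 : dl F (insert v ({a, c} : Finset α)) = 0 := by
    rw [← h0]
    unfold dl dt
    refine sum_congr rfl fun w _ => ?_
    rw [hbτ, zsmul_eq_mul]
  have h6 := Pt_dl v F hv
  have h7 : Pt v (dl F) ({a, c} : Finset α) = 0 := by
    unfold Pt; rw [h5, smul_zero]
  rw [h7, dl_pair _ hac] at h6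
  have h8 : F {a, c} = x {a, c} := by
    show eQ (asy φ (bp u v {a, c}) b) * x {a, c} = x {a, c}
    rw [← hb, asy_self, eQ_zero', one_mul]
  have h9 : ∀ w : α, w ≠ v → Pt v F {w} = eQ (asy φ w b) * Pt v x {w} := by
    intro w hw
    show sg v (insert v {w}) • (eQ (asy φ (bp u v (insert v {w})) b) * x (insert v {w})) = _
    rw [bp_insert_v, bp_singleton hw]
    unfold Pt
    rw [zsmul_eq_mul, zsmul_eq_mul]
    ring
  rw [h8, h9 a hva, h9 c hvc] at h6
  linear_combination -h6

end RamAux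

open RamAux in
/-- C6. -/
theorem ram : RamStmt := by
  intro α _ K u v φ T x hK huv huvK _ hT hconn hφT hram hdt hxT hx
  have hpairv : ∀ {a c : α}, ({a, c} : Finset α) ∈ LD K {v} ∅ → a ≠ v ∧ c ≠ v := by
    intro a c h
    rw [mem_LD] at h
    have hv : v ∉ ({a, c} : Finset α) := by
      have := h.2.1
      rw [disjoint_singleton_right] at this; exact this
    exact ⟨fun e => hv (by simp [e]), fun e => hv (by simp [e])⟩
  have hsing : ∀ {a c : α}, ({a, c} : Finset α) ∈ LD K {v} ∅ →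
      ({a} : Finset α) ∈ LD K {v} ∅ ∧ ({c} : Finset α) ∈ LD K {v} ∅ := by
    intro a c h
    exact ⟨isCx_LD hK _ _ _ h _ (by simp), isCx_LD hK _ _ _ h _ (by simp)⟩
  -- the edges of `T`
  have hedge : ∀ a c : α, a < c → ({a, c} : Finset α) ∈ T → ({a, c} : Finset α) ∈ LD K {v} ∅ →
      Pt v x {a} = Pt v x {c} := by
    intro a c hac h1 h2
    have h3 := rel hdt hac h2
    have h4 : φ {a, c} = 0 := hφT _ h1
    obtain ⟨hav, hcv⟩ := hpairv h2
    have h5 : asy φ a c = 0 := by rw [asy_of_lt _ hac, h4]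
    have h6 : asy φ c a = 0 := by rw [asy_swap φ a c, h5, neg_zero]
    have h7 : asy φ a (bp u v {a, c}) = 0 ∧ asy φ c (bp u v {a, c}) = 0 := by
      rcases bp_pair_mem (u := u) hac.ne hav hcv with e | e
      · rw [e]; exact ⟨asy_self _ _, h6⟩
      · rw [e]; exact ⟨h5, asy_self _ _⟩
    rw [hxT _ h1, h7.1, h7.2, eQ_zero', one_mul, one_mul] at h3
    linear_combination h3
  have hg := hconn (fun w => Pt v x {w}) (by
    intro a c h1 h2
    have hne : a ≠ c := by
      intro e
      have := (mem_Ed.mp (hT h1)).2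
      rw [e] at this
      simp at this
    rcases lt_or_gt_of_ne hne with h | h
    · exact hedge a c h h1 h2
    · rw [pair_comm] at h1 h2
      exact (hedge c a h h1 h2).symm)
  obtain ⟨σ₀, hσ₀, hφσ₀⟩ := hram
  rw [mem_Ed] at hσ₀
  obtain ⟨a₀, c₀, hac₀, hσ₀'⟩ : ∃ a c, a < c ∧ σ₀ = {a, c} := by
    obtain ⟨a, c, hne, e⟩ := card_eq_two.mp hσ₀.2
    rcases lt_or_gt_of_ne hne with h | h
    · exact ⟨a, c, h, e⟩
    · exact ⟨c, a, h, by rw [e, pair_comm]⟩
  subst hσ₀'
  set s : ℂ := Pt v x {a₀} with hs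
  have ha₀ := (hsing hσ₀.1).1
  have hconst : ∀ a : α, ({a} : Finset α) ∈ LD K {v} ∅ → Pt v x {a} = s :=
    fun a ha => hg a a₀ ha ha₀
  have hform : ∀ a c : α, a < c → ({a, c} : Finset α) ∈ LD K {v} ∅ →
      x {a, c} = eQ (asy φ a (bp u v {a, c})) * (eQ (-(φ {a, c})) - 1) * s := by
    intro a c hac h
    have h3 := rel hdt hac h
    obtain ⟨hav, hcv⟩ := hpairv h
    obtain ⟨ha, hc⟩ := hsing h
    rw [hconst a ha, hconst c hc] at h3
    have h4 : asy φ c (bp u v {a, c}) = -(φ {a, c}) + asy φ a (bp u v {a, c}) := by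
      rcases bp_pair_mem (u := u) hac.ne hav hcv with e | e
      · rw [e, asy_self, add_zero, asy_of_gt _ hac, pair_comm]
      · rw [e, asy_self, asy_of_lt _ hac, neg_add_cancel]
    rw [h3, h4, eQ_add']
    ring
  refine ⟨s, fun τ hτ _ hcard => hdt τ hτ hcard, hxT, ?_, hform⟩
  by_cases hs0 : s = 0
  · obtain ⟨σ, hσ, hxσ⟩ := hx
    refine ⟨σ, hσ, ?_, hxσ⟩
    intro hvσ
    rw [mem_Ed] at hσ
    have hcard : (σ.erase v).card = 1 := by rw [card_erase_of_mem hvσ, hσ.2]
    obtain ⟨w, hw⟩ := card_eq_one.mp hcard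
    have hins : insert v ({w} : Finset α) = σ := by rw [← hw, insert_erase hvσ]
    have hwv : v ∉ ({w} : Finset α) := by rw [← hw]; exact notMem_erase v σ
    have hwL : ({w} : Finset α) ∈ LD K {v} ∅ := by
      rw [mem_LD]
      refine ⟨hK _ hσ.1 _ ?_, ?_, disjoint_empty_right _, ?_⟩
      · rw [← hins]; exact subset_insert _ _
      · rw [disjoint_singleton_right]; exact hwv
      · rw [union_comm, ← insert_eq, hins]; exact hσ.1
    have h1 := hconst w hwL
    rw [hs0] at h1
    unfold Pt at h1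
    rw [hins] at h1
    apply hxσ
    have h2 := sg_sq_smul (A := ℂ) v σ (x σ)
    rw [h1, smul_zero] at h2
    exact h2.symm
  · obtain ⟨hav, hcv⟩ := hpairv hσ₀.1
    have hσK := hσ₀.1
    rw [mem_LD] at hσK
    refine ⟨{a₀, c₀}, mem_Ed.mpr ⟨hσK.1, hσ₀.2⟩, ?_, ?_⟩
    · have := hσK.2.1
      rwa [disjoint_singleton_right] at this
    · rw [hform a₀ c₀ hac₀ hσ₀.1]
      refine mul_ne_zero (mul_ne_zero (eQ_ne' _) ?_) hs0
      intro h
      apply hφσ₀
      have h2 := eQ_one' _ (sub_eq_zero.mp h)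
      exact neg_eq_zero.mp h2

end Pool.Agent.Lib.MP_db6a6f_al
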