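import Pool.Agent.Lib.MP_db6a6f_al.Stmts

set_option autoImplicit false

/-! C3: change of coefficients. -/

namespace Pool.Agent.Lib.MP_db6a6f_al

open Finset

theorem scalar : ScalarStmt := by
  classical
  intro α _ K k V _ _ hEx f hf
  let B := Module.Basis.ofVectorSpace ℚ V
  have hc : ∀ j, ∃ g : Finset α → ℚ, ∀ σ ∈ K, σ.card = k → B.coord j (f σ) = dl g σ := by
    intro j
    refine hEx (fun σ => B.coord j (f σ)) (fun τ hτ hk => ?_)
    have h1 := dl_map (B.coord j).toAddMonoidHom f τ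
    rw [hf τ hτ hk, map_zero] at h1
    exact h1
  choose g hg using hc
  let J := K.biUnion (fun σ => (B.repr (f σ)).support)
  refine ⟨fun σ => ∑ j ∈ J, g j σ • B j, fun σ hσ hk => ?_⟩
  have h2 : f σ = ∑ j ∈ J, B.coord j (f σ) • B j := by
    conv_lhs => rw [← B.linearCombination_repr (f σ)]
    rw [Finsupp.linearCombination_apply, Finsupp.sum_of_support_subset _ (s := J) ?_ _ (by simp)]
    · rfl
    · intro j hj
      exact mem_biUnion.mpr ⟨σ, hσ, hj⟩
  rw [h2, dl_sum J (fun j σ => g j σ • B j) σ]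
  refine sum_congr rfl (fun j _ => ?_)
  rw [hg j σ hσ hk]
  exact (dl_map (LinearMap.toSpanSingleton ℚ V (B j)).toAddMonoidHom (g j) σ).symm

end Pool.Agent.Lib.MP_db6a6f_al
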