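import Pool.Agent.Lib.MP_db6a6f_al.Stmts

set_option autoImplicit false

/-! The choice of the set `T` of edges. -/

namespace Pool.Agent.Lib.MP_db6a6f_al

open Finset

namespace Sel

variable {α : Type} [LinearOrder α]

theorem dl_smul' (c : ℚ) (f : Finset α → ℚ) (τ : Finset α) :
    dl (fun σ => c * f σ) τ = c * dl f τ :=
  dl_map (AddMonoidHom.mulLeft c) f τ

/-- The coboundaries. -/
def U1 (α : Type) [LinearOrder α] : Submodule ℚ (Finset α → ℚ) where
  carrier := {κ | ∃ s : Finset α → ℚ, ∀ σ, κ σ = dl s σ}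
  zero_mem' := ⟨fun _ => 0, fun σ => by rw [dl_zero]; rfl⟩
  add_mem' := by
    rintro a b ⟨s, hs⟩ ⟨t, ht⟩
    exact ⟨fun σ => s σ + t σ, fun σ => by rw [dl_add, ← hs, ← ht]; rfl⟩
  smul_mem' := by
    rintro c a ⟨s, hs⟩
    exact ⟨fun σ => c * s σ, fun σ => by rw [dl_smul', ← hs]; rfl⟩

/-- The cocycles vanishing on the edge `{u, v}`. -/
def U2 (K : Finset (Finset α)) (u v : α) : Submodule ℚ (Finset α → ℚ) where
  carrier := {κ | Z1 K κ ∧ κ {u, v} = 0}
  zero_mem' := ⟨fun τ _ _ => dl_zero τ, rfl⟩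
  add_mem' := by
    rintro a b ⟨ha, ha'⟩ ⟨hb, hb'⟩
    refine ⟨fun τ h1 h2 => ?_, ?_⟩
    · have := dl_add a b τ
      rw [ha τ h1 h2, hb τ h1 h2, add_zero] at this
      exact this
    · show a {u, v} + b {u, v} = 0
      rw [ha', hb', add_zero]
  smul_mem' := by
    rintro c a ⟨ha, ha'⟩
    refine ⟨fun τ h1 h2 => ?_, ?_⟩
    · have := dl_smul' c a τ
      rw [ha τ h1 h2, mul_zero] at this
      exact this
    · show c * a {u, v} = 0
      rw [ha', mul_zero]

/-- Edges of the link of `v` are edges of `F`. -/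
theorem link_sub {K : Finset (Finset α)} {u v : α} {τ : Finset α}
    (h : τ ∈ Ed (LD K {v} ∅)) : τ ∈ Ed (Fu K u v) := by
  rw [mem_Ed, mem_LD] at h
  obtain ⟨⟨h1, h2, -, h4⟩, h5⟩ := h
  rw [mem_Ed, mem_Fu]
  refine ⟨⟨h1, by simpa using h2, fun _ => ?_⟩, h5⟩
  rwa [insert_eq, union_comm]

theorem link_not {K : Finset (Finset α)} {v : α} {τ : Finset α}
    (h : τ ∈ Ed (LD K {v} ∅)) : v ∉ τ := by
  rw [mem_Ed, mem_LD] at h
  simpa using h.1.2.1

end Sel

/-- C8: the choice of `T`. -/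
theorem sel (h7 : MaxStmt) (hc : ConnStmt) (hs : SepStmt) : SelStmt := by
  intro α _ K u v hK huv huvK hu1 hv1
  obtain ⟨Tv, -, hTvI, hTvA, hTvM⟩ := h7 (Finset α) (Sel.U1 α) ∅ (Ed (LD K {v} ∅))
    (empty_subset _) (fun c => ⟨0, Submodule.zero_mem _, by simp⟩)
  have hTvF : Tv ⊆ Ed (Fu K u v) := fun τ hτ => Sel.link_sub (hTvI hτ)
  have hext : ∀ c : Finset α → ℚ, ∃ κ ∈ Sel.U2 K u v, ∀ i ∈ Tv, κ i = c i := by
    intro c
    obtain ⟨κ, ⟨s, hs'⟩, hκ⟩ := hTvA c
    refine ⟨dl (fun σ => if σ = {v} then s {u} else s σ), ⟨fun τ _ _ => dl_dl _ τ, ?_⟩, ?_⟩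
    · rcases lt_or_gt_of_ne huv with h | h
      · rw [dl_pair _ h]; simp
      · rw [pair_comm, dl_pair _ h]; simp
    · intro σ hσ
      rw [← hκ σ hσ, hs']
      apply dl_congr
      intro a _
      rw [if_neg]
      intro h
      apply Sel.link_not (hTvI hσ)
      have : v ∈ σ.erase a := by rw [h]; exact mem_singleton_self v
      exact mem_of_mem_erase this
  obtain ⟨T, hT0, hTI, hTA, hTM⟩ := h7 (Finset α) (Sel.U2 K u v) Tv (Ed (Fu K u v)) hTvF hext
  refine ⟨T, hTI, ?_, ?_, ?_⟩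
  · intro c
    obtain ⟨κ, ⟨h1, h2⟩, h3⟩ := hTA c
    exact ⟨κ, h1, h2, h3⟩
  · intro g hg
    refine hc α (LD K {v} ∅) ℂ g (isCx_LD hK _ _) hv1 ?_
    intro a c hac
    by_cases hne : a = c
    · rw [hne]
    classical
    set s : Finset α → ℚ := fun σ => if ∃ x, σ = {x} ∧ g x = g a then 1 else 0 with hsdef
    have hs1 : ∀ x : α, s {x} = if g x = g a then 1 else 0 := by
      intro x
      have : (∃ y, ({x} : Finset α) = {y} ∧ g y = g a) ↔ g x = g a := by
        constructor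
        · rintro ⟨y, hy, h⟩
          rw [singleton_inj.mp hy]; exact h
        · intro h; exact ⟨x, rfl, h⟩
      simp only [hsdef, this]
    have hpair : ∀ x y : α, x < y → g x = g y → dl s {x, y} = 0 := by
      intro x y hxy h
      rw [dl_pair s hxy, hs1, hs1, h, sub_self]
    have hzero : ∀ σ ∈ Tv, dl s σ = 0 := by
      intro σ hσ
      have hσ2 := hTvI hσ
      obtain ⟨hσL, hσc⟩ := mem_Ed.mp hσ2
      obtain ⟨x, y, hxy, rfl⟩ := card_eq_two.mp hσc
      have hgxy : g x = g y := hg x y (hT0 hσ) hσL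
      rcases lt_or_gt_of_ne hxy with h | h
      · exact hpair x y h hgxy
      · rw [pair_comm]; exact hpair y x h hgxy.symm
    have hall := hTvM (dl s) ⟨s, fun σ => rfl⟩ hzero {a, c}
      (mem_Ed.mpr ⟨hac, card_pair hne⟩)
    have hsac : s {c} = s {a} := by
      rcases lt_or_gt_of_ne hne with h | h
      · rw [dl_pair s h] at hall; linarith
      · rw [pair_comm, dl_pair s h] at hall; linarith
    rw [hs1, hs1, if_pos rfl] at hsac
    by_contra hcon
    rw [if_neg (fun h => hcon h.symm)] at hsac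
    exact zero_ne_one hsac
  · intro κ h1 h2 h3 σ hσ
    exact hs α ℚ K u v κ hK huv huvK hu1 hv1 h1 h2 (hTM κ ⟨h1, h2⟩ h3) σ hσ

end Pool.Agent.Lib.MP_db6a6f_al
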