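import Pool.Agent.Lib.MP_db6a6f_al.Stmts

set_option autoImplicit false

/-! Splitting a vertex whose link is not connected. -/

namespace Pool.Agent.Lib.MP_db6a6f_al

open Finset

namespace Split

/-- The split complex: the faces of the star of `v` with the other vertices in `B` are moved to the
new vertex `v'`. -/
def spl (K : Finset (Finset ℚ)) (B : Finset ℚ) (v v' : ℚ) : Finset (Finset ℚ) :=
  K.filter (fun τ => v ∉ τ ∨ Disjoint τ B) ∪
    (K.filter (fun τ => v ∈ τ ∧ τ.erase v ⊆ B)).image (fun τ => insert v' (τ.erase v))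

/-- The folding map. -/
def pp (v v' : ℚ) (x : ℚ) : ℚ := if x = v' then v else x

structure SpD (K : Finset (Finset ℚ)) (B : Finset ℚ) (v v' : ℚ) : Prop where
  cx : IsCx K
  vB : v ∉ B
  lt : v < v'
  gap : ∀ τ ∈ K, ∀ x ∈ τ, v < x → v' < x
  dich : ∀ τ ∈ K, v ∈ τ → τ.erase v ⊆ B ∨ Disjoint τ B

variable {K : Finset (Finset ℚ)} {B : Finset ℚ} {v v' : ℚ}

theorem SpD.notMem (h : SpD K B v v') {τ : Finset ℚ} (hτ : τ ∈ K) : v' ∉ τ :=
  fun hv => lt_irrefl _ (h.gap τ hτ v' hv h.lt)

theorem SpD.ne (h : SpD K B v v') : v ≠ v' := h.lt.ne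

theorem mem_spl (h : SpD K B v v') {τ : Finset ℚ} :
    τ ∈ spl K B v v' ↔ (τ ∈ K ∧ (v ∉ τ ∨ Disjoint τ B)) ∨
      (v' ∈ τ ∧ τ.erase v' ⊆ B ∧ insert v (τ.erase v') ∈ K) := by
  unfold spl
  rw [mem_union, mem_filter, mem_image]
  constructor
  · rintro (h1 | ⟨τ0, h1, rfl⟩)
    · exact Or.inl h1
    · right
      rw [mem_filter] at h1
      obtain ⟨h1, h2, h3⟩ := h1
      have h4 : v' ∉ τ0.erase v := fun h5 => h.notMem h1 (mem_of_mem_erase h5)
      refine ⟨mem_insert_self _ _, ?_, ?_⟩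
      · rw [erase_insert h4]; exact h3
      · rw [erase_insert h4, insert_erase h2]; exact h1
  · rintro (h1 | ⟨h1, h2, h3⟩)
    · exact Or.inl h1
    · right
      have h4 : v ∉ τ.erase v' := fun h5 => h.vB (h2 h5)
      refine ⟨insert v (τ.erase v'), ?_, ?_⟩
      · rw [mem_filter, erase_insert h4]
        exact ⟨h3, mem_insert_self _ _, h2⟩
      · rw [erase_insert h4, insert_erase h1]

theorem isCx_spl (h : SpD K B v v') : IsCx (spl K B v v') := by
  intro τ hτ ρ hρ
  rw [mem_spl h] at hτ ⊢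
  rcases hτ with ⟨h1, h2⟩ | ⟨h1, h2, h3⟩
  · left
    refine ⟨h.cx τ h1 ρ hρ, ?_⟩
    rcases h2 with h2 | h2
    · exact Or.inl (fun h4 => h2 (hρ h4))
    · exact Or.inr (Disjoint.mono_left hρ h2)
  · by_cases h4 : v' ∈ ρ
    · right
      exact ⟨h4, (erase_subset_erase _ hρ).trans h2,
        h.cx _ h3 _ (insert_subset_insert _ (erase_subset_erase _ hρ))⟩
    · left
      have h5 : ρ ⊆ τ.erase v' := fun x hx =>
        mem_erase.mpr ⟨fun h6 => h4 (h6 ▸ hx), hρ hx⟩
      exact ⟨h.cx _ h3 _ (h5.trans (subset_insert _ _)), Or.inl (fun h6 => h.vB (h2 (h5 h6)))⟩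

theorem image_of_notMem {τ : Finset ℚ} (hτ : v' ∉ τ) : τ.image (pp v v') = τ := by
  ext x
  simp only [mem_image]
  constructor
  · rintro ⟨y, hy, rfl⟩
    have : pp v v' y = y := by unfold pp; rw [if_neg]; rintro rfl; exact hτ hy
    rw [this]; exact hy
  · intro hx
    refine ⟨x, hx, ?_⟩
    unfold pp; rw [if_neg]; rintro rfl; exact hτ hx

theorem image_of_mem {τ : Finset ℚ} (hτ : v' ∈ τ) :
    τ.image (pp v v') = insert v (τ.erase v') := by
  have h1 : τ = insert v' (τ.erase v') := (insert_erase hτ).symm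
  conv_lhs => rw [h1]
  rw [image_insert, image_of_notMem (notMem_erase _ _)]
  congr 1
  unfold pp; rw [if_pos rfl]

theorem mono_of_notMem {τ : Finset ℚ} (hτ : v' ∉ τ) : StrictMonoOn (pp v v') τ := by
  intro x hx y hy hxy
  have h1 : pp v v' x = x := by
    unfold pp; rw [if_neg]; rintro rfl; exact hτ (mem_coe.mp hx)
  have h2 : pp v v' y = y := by
    unfold pp; rw [if_neg]; rintro rfl; exact hτ (mem_coe.mp hy)
  rw [h1, h2]; exact hxy

theorem mono_of_mem (h : SpD K B v v') {τ : Finset ℚ} (h2 : τ.erase v' ⊆ B)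
    (h3 : insert v (τ.erase v') ∈ K) : StrictMonoOn (pp v v') τ := by
  intro x hx y hy hxy
  have hx' := mem_coe.mp hx
  have hy' := mem_coe.mp hy
  by_cases h4 : x = v'
  · have h5 : y ≠ v' := fun h6 => by subst h4; subst h6; exact lt_irrefl _ hxy
    have e1 : pp v v' x = v := by unfold pp; rw [if_pos h4]
    have e2 : pp v v' y = y := by unfold pp; rw [if_neg h5]
    rw [e1, e2]
    have := h.lt
    rw [h4] at hxy
    exact this.trans hxy
  · have e1 : pp v v' x = x := by unfold pp; rw [if_neg h4]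
    rw [e1]
    by_cases h5 : y = v'
    · have e2 : pp v v' y = v := by unfold pp; rw [if_pos h5]
      rw [e2]
      have h6 : x ∈ τ.erase v' := mem_erase.mpr ⟨h4, hx'⟩
      have h7 : x ≠ v := fun h8 => h.vB (h8 ▸ h2 h6)
      by_contra h8
      have h9 : v < x := lt_of_le_of_ne (not_lt.mp h8) (Ne.symm h7)
      have h10 := h.gap _ h3 x (mem_insert_of_mem h6) h9
      rw [h5] at hxy
      exact lt_asymm hxy h10
    · have e2 : pp v v' y = y := by unfold pp; rw [if_neg h5]
      rw [e2]; exact hxy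

theorem fold_spl (h : SpD K B v v') {σ : Finset ℚ} (hv : v ∉ σ) (hv' : v' ∉ σ) :
    Fold (pp v v') 2 (LD (spl K B v v') σ ∅) (LD K σ ∅) := by
  constructor
  · intro τ hτ
    rw [mem_LD] at hτ
    obtain ⟨h1, h2, _, h3⟩ := hτ
    rw [mem_spl h] at h1 h3
    by_cases h4 : v' ∈ τ
    · have h5 : v' ∈ τ ∪ σ := mem_union_left _ h4
      obtain ⟨_, h7, h8⟩ := h3.resolve_left (fun h6 => h.notMem h6.1 h5)
      obtain ⟨_, h10, h11⟩ := h1.resolve_left (fun h6 => h.notMem h6.1 h4)
      refine ⟨mono_of_mem h h10 h11, ?_⟩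
      rw [image_of_mem h4, mem_LD]
      refine ⟨h11, ?_, disjoint_empty_right _, ?_⟩
      · rw [disjoint_insert_left]
        exact ⟨hv, Disjoint.mono_left (erase_subset _ _) h2⟩
      · have e : insert v (τ.erase v') ∪ σ = insert v ((τ ∪ σ).erase v') := by
          rw [insert_union]
          congr 1
          ext x
          simp only [mem_union, mem_erase]
          constructor
          · rintro (⟨h12, h13⟩ | h12)
            · exact ⟨h12, Or.inl h13⟩
            · exact ⟨fun h13 => hv' (h13 ▸ h12), Or.inr h12⟩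
          · rintro ⟨h12, h13 | h13⟩
            · exact Or.inl ⟨h12, h13⟩
            · exact Or.inr h13
        rw [e]; exact h8
    · refine ⟨mono_of_notMem h4, ?_⟩
      rw [image_of_notMem h4, mem_LD]
      obtain ⟨h5, _⟩ := h1.resolve_right (fun h6 => h4 h6.1)
      have h7 : v' ∉ τ ∪ σ := by
        rw [mem_union]; rintro (h8 | h8)
        · exact h4 h8
        · exact hv' h8
      obtain ⟨h8, _⟩ := h3.resolve_right (fun h6 => h7 h6.1)
      exact ⟨h5, h2, disjoint_empty_right _, h8⟩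
  · intro ρ hρ hc
    rw [mem_LD] at hρ
    obtain ⟨h1, h2, _, h3⟩ := hρ
    have hvρ' : v' ∉ ρ := h.notMem h1
    have hvρσ' : v' ∉ ρ ∪ σ := h.notMem h3
    -- a lift not containing the new vertex is `ρ` itself
    have huniq : ∀ τ : Finset ℚ, v' ∉ τ → τ.image (pp v v') = ρ → τ = ρ := by
      intro τ h4 h5
      rw [image_of_notMem h4] at h5; exact h5
    -- a lift containing the new vertex
    have huniq' : ∀ τ : Finset ℚ, v' ∈ τ → τ.erase v' ⊆ B → τ.image (pp v v') = ρ →
        v ∈ ρ ∧ τ.erase v' = ρ.erase v := by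
      intro τ h4 h5 h6
      rw [image_of_mem h4] at h6
      rw [← h6]
      exact ⟨mem_insert_self _ _, by rw [erase_insert (fun h7 => h.vB (h5 h7))]⟩
    by_cases hvρ : v ∈ ρ
    · have hne : (ρ.erase v).Nonempty := by
        rw [← card_pos, card_erase_of_mem hvρ]; omega
      obtain ⟨b, hb⟩ := hne
      have hbρ : b ∈ ρ := mem_of_mem_erase hb
      rcases h.dich _ h3 (mem_union_left _ hvρ) with h4 | h4
      · -- everything inside `B`
        have h5 : ρ.erase v ⊆ B := fun x hx => h4 (by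
          rw [mem_erase] at hx ⊢; exact ⟨hx.1, mem_union_left _ hx.2⟩)
        have h6 : v' ∉ ρ.erase v := fun h7 => hvρ' (mem_of_mem_erase h7)
        refine ⟨insert v' (ρ.erase v), ⟨?_, ?_⟩, ?_⟩
        · rw [mem_LD, mem_spl h, mem_spl h]
          refine ⟨Or.inr ⟨mem_insert_self _ _, ?_, ?_⟩, ?_, disjoint_empty_right _,
            Or.inr ⟨mem_union_left _ (mem_insert_self _ _), ?_, ?_⟩⟩
          · rw [erase_insert h6]; exact h5
          · rw [erase_insert h6, insert_erase hvρ]; exact h1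
          · rw [disjoint_insert_left]
            exact ⟨hv', Disjoint.mono_left (erase_subset _ _) h2⟩
          · intro x hx
            rw [mem_erase, mem_union, mem_insert] at hx
            obtain ⟨h7, (h8 | h8) | h8⟩ := hx
            · exact absurd h8 h7
            · exact h5 h8
            · exact h4 (mem_erase.mpr ⟨fun h9 => hv (h9 ▸ h8), mem_union_right _ h8⟩)
          · have e : insert v ((insert v' (ρ.erase v) ∪ σ).erase v') = ρ ∪ σ := by
              ext x
              simp only [mem_insert, mem_erase, mem_union]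
              constructor
              · rintro (rfl | ⟨h7, (h8 | h8) | h8⟩)
                · exact Or.inl hvρ
                · exact absurd h8 h7
                · exact Or.inl h8.2
                · exact Or.inr h8
              · intro h7
                by_cases h8 : x = v
                · exact Or.inl h8
                · refine Or.inr ⟨?_, ?_⟩
                  · rintro rfl
                    exact hvρσ' (mem_union.mpr h7)
                  · rcases h7 with h7 | h7
                    · exact Or.inl (Or.inr ⟨h8, h7⟩)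
                    · exact Or.inr h7
            rw [e]; exact h3
        · rw [image_of_mem (mem_insert_self _ _), erase_insert h6, insert_erase hvρ]
        · rintro τ ⟨h7, h8⟩
          rw [mem_LD, mem_spl h, mem_spl h] at h7
          obtain ⟨h9, _, _, _⟩ := h7
          by_cases h10 : v' ∈ τ
          · obtain ⟨_, h12, _⟩ := h9.resolve_left (fun h6 => h.notMem h6.1 h10)
            obtain ⟨_, h14⟩ := huniq' τ h10 h12 h8
            rw [← h14, insert_erase h10]
          · exfalso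
            have h11 := huniq τ h10 h8
            obtain ⟨_, h12⟩ := h9.resolve_right (fun h6 => h10 h6.1)
            rw [h11] at h12
            rcases h12 with h12 | h12
            · exact h12 hvρ
            · exact (disjoint_left.mp h12 hbρ) (h5 hb)
      · -- disjoint from `B`
        have h5 : Disjoint ρ B := Disjoint.mono_left subset_union_left h4
        refine ⟨ρ, ⟨?_, image_of_notMem hvρ'⟩, ?_⟩
        · rw [mem_LD, mem_spl h, mem_spl h]
          exact ⟨Or.inl ⟨h1, Or.inr h5⟩, h2, disjoint_empty_right _, Or.inl ⟨h3, Or.inr h4⟩⟩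
        · rintro τ ⟨h7, h8⟩
          rw [mem_LD, mem_spl h, mem_spl h] at h7
          obtain ⟨h9, _, _, _⟩ := h7
          by_cases h10 : v' ∈ τ
          · exfalso
            obtain ⟨_, h12, _⟩ := h9.resolve_left (fun h6 => h.notMem h6.1 h10)
            obtain ⟨_, h14⟩ := huniq' τ h10 h12 h8
            rw [h14] at h12
            exact (disjoint_left.mp h5 hbρ) (h12 hb)
          · exact huniq τ h10 h8
    · refine ⟨ρ, ⟨?_, image_of_notMem hvρ'⟩, ?_⟩
      · rw [mem_LD, mem_spl h, mem_spl h]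
        refine ⟨Or.inl ⟨h1, Or.inl hvρ⟩, h2, disjoint_empty_right _, Or.inl ⟨h3, Or.inl ?_⟩⟩
        rw [mem_union]; rintro (h4 | h4)
        · exact hvρ h4
        · exact hv h4
      · rintro τ ⟨h7, h8⟩
        rw [mem_LD, mem_spl h, mem_spl h] at h7
        obtain ⟨h9, _, _, _⟩ := h7
        by_cases h10 : v' ∈ τ
        · exfalso
          obtain ⟨_, h12, _⟩ := h9.resolve_left (fun h6 => h.notMem h6.1 h10)
          exact hvρ (huniq' τ h10 h12 h8).1
        · exact huniq τ h10 h8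

/-- The link of a face containing `v`. -/
theorem link_v (h : SpD K B v v') {σ : Finset ℚ} (hσ : σ ∈ spl K B v v') (hv : v ∈ σ) :
    LD (spl K B v v') σ ∅ = LD K σ B := by
  have hσ' := hσ
  rw [mem_spl h] at hσ
  obtain ⟨h1, h2⟩ := hσ.resolve_right (fun h3 => h.vB (h3.2.1 (mem_erase.mpr ⟨h.ne, hv⟩)))
  have h3 : Disjoint σ B := h2.resolve_left (fun h4 => h4 hv)
  ext τ
  rw [mem_LD, mem_LD, mem_spl h, mem_spl h]
  constructor
  · rintro ⟨_, h5, _, h6⟩
    obtain ⟨h7, h8⟩ := h6.resolve_right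
      (fun h9 => h.vB (h9.2.1 (mem_erase.mpr ⟨h.ne, mem_union_right _ hv⟩)))
    have h9 : Disjoint (τ ∪ σ) B := h8.resolve_left (fun h9 => h9 (mem_union_right _ hv))
    exact ⟨h.cx _ h7 _ subset_union_left, h5, Disjoint.mono_left subset_union_left h9, h7⟩
  · rintro ⟨h4, h5, h6, h7⟩
    refine ⟨Or.inl ⟨h4, Or.inr h6⟩, h5, disjoint_empty_right _, Or.inl ⟨h7, Or.inr ?_⟩⟩
    rw [disjoint_union_left]; exact ⟨h6, h3⟩

/-- The link of a face containing `v'`. -/
theorem link_v' (h : SpD K B v v') {σ : Finset ℚ} (hσ : σ ∈ spl K B v v') (hv : v' ∈ σ) :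
    LD (spl K B v v') σ ∅ = LD K (insert v (σ.erase v')) (K.biUnion id \ B) := by
  rw [mem_spl h] at hσ
  obtain ⟨_, h1, h2⟩ := hσ.resolve_left (fun h3 => h.notMem h3.1 hv)
  ext τ
  rw [mem_LD, mem_LD, mem_spl h, mem_spl h]
  constructor
  · rintro ⟨h4, h5, _, h6⟩
    obtain ⟨_, h7, h8⟩ := h6.resolve_left (fun h9 => h.notMem h9.1 (mem_union_right _ hv))
    have hvτ : v' ∉ τ := fun h9 => (disjoint_left.mp h5 h9) hv
    have hτB : τ ⊆ B := fun x hx => h7 (mem_erase.mpr
      ⟨fun h9 => hvτ (h9 ▸ hx), mem_union_left _ hx⟩)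
    have e : insert v ((τ ∪ σ).erase v') = τ ∪ insert v (σ.erase v') := by
      ext x
      simp only [mem_insert, mem_erase, mem_union]
      constructor
      · rintro (h9 | ⟨h9, h10 | h10⟩)
        · exact Or.inr (Or.inl h9)
        · exact Or.inl h10
        · exact Or.inr (Or.inr ⟨h9, h10⟩)
      · rintro (h9 | h9 | h9)
        · exact Or.inr ⟨fun h10 => hvτ (h10 ▸ h9), Or.inl h9⟩
        · exact Or.inl h9
        · exact Or.inr ⟨h9.1, Or.inr h9.2⟩
    rw [e] at h8
    refine ⟨h.cx _ h8 _ subset_union_left, ?_, ?_, h8⟩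
    · rw [disjoint_insert_right]
      exact ⟨fun h9 => h.vB (hτB h9), Disjoint.mono_right (erase_subset _ _) h5⟩
    · rw [disjoint_left]
      intro x hx h9
      exact (mem_sdiff.mp h9).2 (hτB hx)
  · rintro ⟨h4, h5, h6, h7⟩
    have hvτ : v' ∉ τ := h.notMem h4
    have hτB : τ ⊆ B := by
      intro x hx
      by_contra h8
      exact (disjoint_left.mp h6 hx) (mem_sdiff.mpr ⟨mem_biUnion.mpr ⟨τ, h4, hx⟩, h8⟩)
    rw [disjoint_insert_right] at h5
    have e : insert v ((τ ∪ σ).erase v') = τ ∪ insert v (σ.erase v') := by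
      ext x
      simp only [mem_insert, mem_erase, mem_union]
      constructor
      · rintro (h9 | ⟨h9, h10 | h10⟩)
        · exact Or.inr (Or.inl h9)
        · exact Or.inl h10
        · exact Or.inr (Or.inr ⟨h9, h10⟩)
      · rintro (h9 | h9 | h9)
        · exact Or.inr ⟨fun h10 => hvτ (h10 ▸ h9), Or.inl h9⟩
        · exact Or.inl h9
        · exact Or.inr ⟨h9.1, Or.inr h9.2⟩
    refine ⟨Or.inl ⟨h4, Or.inl h5.1⟩, ?_, disjoint_empty_right _,
      Or.inr ⟨mem_union_right _ hv, ?_, ?_⟩⟩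
    · rw [disjoint_left]
      intro x hx h9
      by_cases h10 : x = v'
      · exact hvτ (h10 ▸ hx)
      · exact (disjoint_left.mp h5.2 hx) (mem_erase.mpr ⟨h10, h9⟩)
    · intro x hx
      rw [mem_erase, mem_union] at hx
      rcases hx.2 with h9 | h9
      · exact hτB h9
      · exact h1 (mem_erase.mpr ⟨hx.1, h9⟩)
    · rw [e]; exact h7

theorem ler_spl (hf : FoldStmt) (hh : HerStmt) (h : SpD K B v v') (hL : Ler K) :
    Ler (spl K B v v') := by
  refine (hh ℚ (spl K B v v') (isCx_spl h)).2 ?_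
  intro σ hσ k hk
  by_cases hv : v ∈ σ
  · rw [link_v h hσ hv]; exact hL σ B k hk
  · by_cases hv' : v' ∈ σ
    · rw [link_v' h hσ hv']; exact hL _ _ k hk
    · exact (hf ℚ ℚ (pp v v') 2 k _ _ ℚ (isCx_LD (isCx_spl h) _ _) (isCx_LD h.cx _ _)
        (fold_spl h hv hv') hk).1 (hL σ ∅ k hk)

theorem fold_top (h : SpD K B v v') : Fold (pp v v') 2 (spl K B v v') K := by
  have := fold_spl h (notMem_empty v) (notMem_empty v')
  rwa [LD_empty, LD_empty] at this

theorem card_Ed (h : SpD K B v v') : (Ed (spl K B v v')).card = (Ed K).card := by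
  obtain ⟨h1, h2⟩ := fold_top h
  have hc : ∀ τ ∈ spl K B v v', (τ.image (pp v v')).card = τ.card := by
    intro τ hτ
    exact card_image_of_injOn (h1 τ hτ).1.injOn
  refine card_nbij (fun τ => τ.image (pp v v')) ?_ ?_ ?_
  · intro τ hτ
    have hτ' := mem_Ed.mp hτ
    refine mem_Ed.mpr ⟨(h1 τ hτ'.1).2, ?_⟩
    rw [hc τ hτ'.1]; exact hτ'.2
  · intro τ hτ τ2 hτ2 he
    have hτ' := mem_Ed.mp (mem_coe.mp hτ)
    have hτ2' := mem_Ed.mp (mem_coe.mp hτ2)
    obtain ⟨τ3, _, h4⟩ := h2 (τ.image (pp v v')) (h1 τ hτ'.1).2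
      (by rw [hc τ hτ'.1, hτ'.2])
    rw [h4 τ ⟨hτ'.1, rfl⟩, h4 τ2 ⟨hτ2'.1, he.symm⟩]
  · intro σ hσ
    have hσ' := mem_Ed.mp (mem_coe.mp hσ)
    obtain ⟨τ, ⟨h3, h4⟩, _⟩ := h2 σ hσ'.1 hσ'.2.ge
    refine ⟨τ, mem_coe.mpr (mem_Ed.mpr ⟨h3, ?_⟩), h4⟩
    rw [← hc τ h3, h4]; exact hσ'.2

theorem biUnion_Ed (h : SpD K B v v') {a₀ a₁ : ℚ} (h0 : a₀ ∈ B) (h1 : a₁ ∉ B)
    (e0 : ({v, a₀} : Finset ℚ) ∈ K) (e1 : ({v, a₁} : Finset ℚ) ∈ K) (n1 : a₁ ≠ v) :
    (Ed (spl K B v v')).biUnion id = insert v' ((Ed K).biUnion id) := by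
  have n0 : a₀ ≠ v := fun h2 => h.vB (h2 ▸ h0)
  -- the edge `{v', b}` for `b` in `B`
  have key : ∀ b ∈ B, ({v, b} : Finset ℚ) ∈ K → ({v', b} : Finset ℚ) ∈ Ed (spl K B v v') := by
    intro b hb hbK
    have hbv' : v' ≠ b := by
      rintro rfl
      exact h.notMem hbK (by simp)
    rw [mem_Ed, mem_spl h]
    have e : ({v', b} : Finset ℚ).erase v' = {b} := by
      rw [show ({v', b} : Finset ℚ) = insert v' {b} from rfl, erase_insert]
      simpa using hbv'
    refine ⟨Or.inr ⟨by simp, ?_, ?_⟩, card_pair hbv'⟩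
    · rw [e]; simpa using hb
    · rw [e]; exact hbK
  ext x
  rw [mem_insert, mem_biUnion, mem_biUnion]
  constructor
  · rintro ⟨τ, hτ, hx⟩
    rw [mem_Ed, mem_spl h] at hτ
    obtain ⟨h2 | h2, h3⟩ := hτ
    · exact Or.inr ⟨τ, mem_Ed.mpr ⟨h2.1, h3⟩, hx⟩
    · by_cases h4 : x = v'
      · exact Or.inl h4
      · right
        refine ⟨insert v (τ.erase v'), mem_Ed.mpr ⟨h2.2.2, ?_⟩,
          mem_insert_of_mem (mem_erase.mpr ⟨h4, hx⟩)⟩
        rw [card_insert_of_notMem (fun h5 => h.vB (h2.2.1 h5)), card_erase_of_mem h2.1, h3]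
  · rintro (h2 | ⟨e, he, hx⟩)
    · exact ⟨{v', a₀}, key a₀ h0 e0, by rw [h2]; simp⟩
    · rw [mem_Ed] at he
      have hx' : x ∈ e := hx
      by_cases hv : v ∈ e
      · by_cases hxv : x = v
        · refine ⟨{v, a₁}, ?_, by rw [hxv]; simp⟩
          rw [mem_Ed, mem_spl h]
          refine ⟨Or.inl ⟨e1, Or.inr ?_⟩, card_pair (Ne.symm n1)⟩
          rw [disjoint_left]
          intro y hy
          rw [mem_insert, mem_singleton] at hy
          rcases hy with rfl | rfl
          · exact h.vB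
          · exact h1
        · have ee : ({v, x} : Finset ℚ) = e := by
            apply eq_of_subset_of_card_le
            · intro y hy
              rw [mem_insert, mem_singleton] at hy
              rcases hy with rfl | rfl
              · exact hv
              · exact hx'
            · rw [he.2, card_pair (Ne.symm hxv)]
          by_cases hxB : x ∈ B
          · refine ⟨{v', x}, key x hxB (by rw [ee]; exact he.1), by simp⟩
          · refine ⟨e, ?_, hx⟩
            rw [mem_Ed, mem_spl h]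
            refine ⟨Or.inl ⟨he.1, Or.inr ?_⟩, he.2⟩
            rw [← ee, disjoint_left]
            intro y hy
            rw [mem_insert, mem_singleton] at hy
            rcases hy with rfl | rfl
            · exact h.vB
            · exact hxB
      · refine ⟨e, ?_, hx⟩
        rw [mem_Ed, mem_spl h]
        exact ⟨Or.inl ⟨he.1, Or.inl hv⟩, he.2⟩

theorem exists_gap (K : Finset (Finset ℚ)) (v : ℚ) :
    ∃ v' : ℚ, v < v' ∧ ∀ τ ∈ K, ∀ x ∈ τ, v < x → v' < x := by
  by_cases hne : ((K.biUnion id).filter (fun x => v < x)).Nonempty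
  · set m := ((K.biUnion id).filter (fun x => v < x)).min' hne with hm
    have h1 : v < m := (mem_filter.mp (min'_mem _ hne)).2
    refine ⟨(v + m) / 2, by linarith, ?_⟩
    intro τ hτ x hx hvx
    have h2 : m ≤ x := min'_le _ _ (mem_filter.mpr ⟨mem_biUnion.mpr ⟨τ, hτ, hx⟩, hvx⟩)
    linarith
  · refine ⟨v + 1, by linarith, ?_⟩
    intro τ hτ x hx hvx
    exact absurd ⟨x, mem_filter.mpr ⟨mem_biUnion.mpr ⟨τ, hτ, hx⟩, hvx⟩⟩ hne

end Split

open Split in
theorem split (hf : FoldStmt) (hh : HerStmt) : SplitStmt := by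
  intro K v hK hL hE
  unfold Ex at hE
  push Not at hE
  obtain ⟨f, hf1, hf2⟩ := hE
  -- two vertices with different values
  have hex : ∃ a₀ a₁ : ℚ, ({a₀} : Finset ℚ) ∈ LD K {v} ∅ ∧ ({a₁} : Finset ℚ) ∈ LD K {v} ∅ ∧
      f {a₀} ≠ f {a₁} := by
    obtain ⟨σ0, h1, h2, _⟩ := hf2 (fun _ => 0)
    obtain ⟨a₀, rfl⟩ := card_eq_one.mp h2
    obtain ⟨σ1, h4, h5, h6⟩ := hf2 (fun _ => f {a₀})
    obtain ⟨a₁, rfl⟩ := card_eq_one.mp h5
    rw [dl_singleton] at h6
    exact ⟨a₀, a₁, h1, h4, Ne.symm h6⟩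
  obtain ⟨a₀, a₁, ha0, ha1, hne⟩ := hex
  obtain ⟨v', hv1, hv2⟩ := exists_gap K v
  have hX : IsCx (LD K {v} ∅) := isCx_LD hK _ _
  have hmem : ∀ x, ({x} : Finset ℚ) ∈ LD K {v} ∅ → x ≠ v ∧ ({v, x} : Finset ℚ) ∈ K := by
    intro x hx
    rw [mem_LD] at hx
    obtain ⟨_, h2, _, h4⟩ := hx
    refine ⟨by simpa using h2, ?_⟩
    rwa [show ({v, x} : Finset ℚ) = {x} ∪ {v} by
      ext y; simp only [mem_insert, mem_singleton, mem_union]; tauto]
  let B : Finset ℚ := (K.biUnion id).filter (fun x => ({x} : Finset ℚ) ∈ LD K {v} ∅ ∧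
    f {x} = f {a₀})
  have hB : ∀ x, x ∈ B ↔ ({x} : Finset ℚ) ∈ LD K {v} ∅ ∧ f {x} = f {a₀} := by
    intro x
    simp only [B, mem_filter, and_iff_right_iff_imp]
    rintro ⟨h1, _⟩
    exact mem_biUnion.mpr ⟨{x}, (mem_LD.mp h1).1, by simp⟩
  have hvB : v ∉ B := fun h1 => (hmem v ((hB v).1 h1).1).1 rfl
  have hD : SpD K B v v' := by
    refine ⟨hK, hvB, hv1, hv2, ?_⟩
    intro τ hτ hvτ
    have hl : τ.erase v ∈ LD K {v} ∅ := by
      rw [mem_LD]
      refine ⟨hK _ hτ _ (erase_subset _ _), by simp, disjoint_empty_right _, ?_⟩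
      rwa [show τ.erase v ∪ {v} = τ by
        rw [union_comm]; exact insert_erase hvτ]
    by_cases hd : Disjoint τ B
    · exact Or.inr hd
    · left
      rw [not_disjoint_iff] at hd
      obtain ⟨x, hx1, hx2⟩ := hd
      have hxv : x ≠ v := fun h1 => hvB (h1 ▸ hx2)
      have hxe : x ∈ τ.erase v := mem_erase.mpr ⟨hxv, hx1⟩
      intro y hy
      rw [hB]
      refine ⟨hX _ hl _ (by simpa using hy), ?_⟩
      rw [← ((hB x).1 hx2).2]
      by_cases hxy : x = y
      · rw [hxy]
      · have hp : ({x, y} : Finset ℚ) ∈ LD K {v} ∅ := by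
          refine hX _ hl _ ?_
          intro z hz
          rw [mem_insert, mem_singleton] at hz
          rcases hz with rfl | rfl
          · exact hxe
          · exact hy
        have h3 := hf1 _ hp (card_pair hxy)
        rcases lt_or_gt_of_ne hxy with h4 | h4
        · rw [dl_pair f h4, sub_eq_zero] at h3; exact h3
        · rw [pair_comm, dl_pair f h4, sub_eq_zero] at h3; exact h3.symm
  have hB0 : a₀ ∈ B := (hB a₀).2 ⟨ha0, rfl⟩
  have hB1 : a₁ ∉ B := fun h1 => hne ((hB a₁).1 h1).2.symm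
  refine ⟨spl K B v v', isCx_spl hD, ler_spl hf hh hD hL, card_Ed hD, ?_, ?_⟩
  · rw [biUnion_Ed hD hB0 hB1 (hmem a₀ ha0).2 (hmem a₁ ha1).2 (hmem a₁ ha1).1,
      card_insert_of_notMem]
    intro h1
    obtain ⟨τ, h2, h3⟩ := mem_biUnion.mp h1
    exact hD.notMem (mem_Ed.mp h2).1 h3
  · exact (hf ℚ ℚ (pp v v') 2 3 _ _ QZ (isCx_spl hD) hK (fold_top hD) le_rfl).2

end Pool.Agent.Lib.MP_db6a6f_al
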