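import Pool.Agent.Lib.MP_db6a6f_al.Stmts

set_option autoImplicit false

/-! C12: gluing along a vertex pair. -/

namespace Pool.Agent.Lib.MP_db6a6f_al

open Finset

namespace T1Aux

variable {α : Type} [LinearOrder α] {A : Type} [AddCommGroup A]

/-- The glued cochain. -/
def gam (u v : α) (a b f₁ s₁ s₂ : Finset α → A) (σ : Finset α) : A :=
  if u ∈ σ then
    (if v ∈ σ then 0 else sg u σ • (Pt u b (σ.erase u) + s₁ (σ.erase u)))
  else
    (if v ∈ σ then sg v σ • (Pt v a (σ.erase v) - s₂ (σ.erase v)) else b σ + f₁ σ)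

variable {u v : α} {a b f₁ s₁ s₂ : Finset α → A}

theorem gam_none {σ : Finset α} (hu : u ∉ σ) (hv : v ∉ σ) :
    gam u v a b f₁ s₁ s₂ σ = b σ + f₁ σ := by
  unfold gam; rw [if_neg hu, if_neg hv]

theorem gam_both {σ : Finset α} (hu : u ∈ σ) (hv : v ∈ σ) :
    gam u v a b f₁ s₁ s₂ σ = 0 := by
  unfold gam; rw [if_pos hu, if_pos hv]

theorem gam_v {σ : Finset α} (hu : u ∉ σ) (hv : v ∈ σ) :
    gam u v a b f₁ s₁ s₂ σ = sg v σ • (Pt v a (σ.erase v) - s₂ (σ.erase v)) := by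
  unfold gam; rw [if_neg hu, if_pos hv]

theorem Pt_u_gam (huv : u ≠ v) {σ : Finset α} (hu : u ∉ σ) (hv : v ∉ σ) :
    Pt u (gam u v a b f₁ s₁ s₂) σ = Pt u b σ + s₁ σ := by
  have hv' : v ∉ insert u σ := by simp [hv, Ne.symm huv]
  have : gam u v a b f₁ s₁ s₂ (insert u σ) =
      sg u (insert u σ) • (Pt u b σ + s₁ σ) := by
    unfold gam
    rw [if_pos (mem_insert_self u σ), if_neg hv', erase_insert hu]
  show sg u (insert u σ) • gam u v a b f₁ s₁ s₂ (insert u σ) = _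
  rw [this, sg_sq_smul]

theorem Pt_v_gam (huv : u ≠ v) {σ : Finset α} (hu : u ∉ σ) (hv : v ∉ σ) :
    Pt v (gam u v a b f₁ s₁ s₂) σ = Pt v a σ - s₂ σ := by
  have hu' : u ∉ insert v σ := by simp [hu, huv]
  show sg v (insert v σ) • gam u v a b f₁ s₁ s₂ (insert v σ) = _
  rw [gam_v hu' (mem_insert_self v σ), erase_insert hv, sg_sq_smul]

end T1Aux

open T1Aux in
theorem t1 : T1Stmt := by
  intro α _ A _ K u v hK huv huvK hDec hEu hEv z hz
  have hzu : ∀ τ ∈ LD K ∅ {u}, τ.card = 3 + 1 → dl z τ = 0 := fun τ hτ hc =>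
    hz τ (mem_LD.1 hτ).1 hc
  have hzv : ∀ τ ∈ LD K ∅ {v}, τ.card = 3 + 1 → dl z τ = 0 := fun τ hτ hc =>
    hz τ (mem_LD.1 hτ).1 hc
  obtain ⟨a, ha⟩ := hEu z hzu
  obtain ⟨b, hb⟩ := hEv z hzv
  -- restated without links
  have ha' : ∀ σ ∈ K, u ∉ σ → σ.card = 3 → z σ = dl a σ := by
    intro σ hσ hu hc
    exact ha σ (mem_LD.2 ⟨hσ, by simp, by simpa using hu, by simpa using hσ⟩) hc
  have hb' : ∀ σ ∈ K, v ∉ σ → σ.card = 3 → z σ = dl b σ := by
    intro σ hσ hv hc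
    exact hb σ (mem_LD.2 ⟨hσ, by simp, by simpa using hv, by simpa using hσ⟩) hc
  set ξ : Finset α → A := fun σ => Pt v a σ - Pt u b σ + Pt u (Pt v z) σ with hξ
  have hf : Z1 (LD K ∅ {u, v}) (fun σ => a σ - b σ) := by
    intro τ hτ hc
    rw [mem_LD] at hτ
    have hu : u ∉ τ := fun h => (disjoint_left.1 hτ.2.2.1 h) (by simp)
    have hv : v ∉ τ := fun h => (disjoint_left.1 hτ.2.2.1 h) (by simp)
    rw [dl_sub, ← ha' τ hτ.1 hu hc, ← hb' τ hτ.1 hv hc, sub_self]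
  have hfx : ∀ ρ ∈ Ed (LD K {u, v} ∅), a ρ - b ρ = dl ξ ρ := by
    intro ρ hρ
    rw [mem_Ed, mem_LD] at hρ
    obtain ⟨⟨h1, h2, -, h3⟩, hc⟩ := hρ
    have hu : u ∉ ρ := fun h => (disjoint_left.1 h2 h) (by simp)
    have hv : v ∉ ρ := fun h => (disjoint_left.1 h2 h) (by simp)
    have hu' : u ∉ insert v ρ := by simp [hu, huv]
    have hv' : v ∉ insert u ρ := by simp [hv, Ne.symm huv]
    have hK4 : insert v (insert u ρ) ∈ K := by
      have : ρ ∪ {u, v} = insert v (insert u ρ) := by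
        ext x; simp only [mem_union, mem_insert, mem_singleton]; tauto
      rwa [← this]
    have hKu : insert u ρ ∈ K := hK _ hK4 _ (subset_insert _ _)
    have hKv : insert v ρ ∈ K := hK _ hK4 _ (insert_subset_insert _ (subset_insert _ _))
    have hcu : (insert u ρ).card = 3 := by rw [card_insert_of_notMem hu, hc]
    have hcv : (insert v ρ).card = 3 := by rw [card_insert_of_notMem hv, hc]
    have e1 := Pt_dl v a hv
    have e2 := Pt_dl u b hu
    have e3 := Pt_dl u (Pt v z) hu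
    have e4 := Pt_dl v z hv'
    have f1 : Pt v (dl a) ρ = Pt v z ρ := by
      unfold Pt; rw [← ha' _ hKv hu' hcv]
    have f2 : Pt u (dl b) ρ = Pt u z ρ := by
      unfold Pt; rw [← hb' _ hKu hv' hcu]
    have f3 : Pt v (dl z) (insert u ρ) = 0 := by
      unfold Pt
      rw [hz _ hK4 (by rw [card_insert_of_notMem hv', hcu]), smul_zero]
    have f4 : Pt u (dl (Pt v z)) ρ = Pt u z ρ := by
      rw [f3] at e4
      have : dl (Pt v z) (insert u ρ) = z (insert u ρ) := (sub_eq_zero.1 e4.symm).symm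
      show sg u (insert u ρ) • dl (Pt v z) (insert u ρ) = _
      rw [this]
      rfl
    have g1 : dl (Pt v a) ρ = a ρ - Pt v z ρ := by rw [← f1, e1]; abel
    have g2 : dl (Pt u b) ρ = b ρ - Pt u z ρ := by rw [← f2, e2]; abel
    have g3 : dl (Pt u (Pt v z)) ρ = Pt v z ρ - Pt u z ρ := by rw [← f4, e3]; abel
    rw [hξ, dl_add (fun σ => Pt v a σ - Pt u b σ) (fun σ => Pt u (Pt v z) σ), dl_sub]
    rw [g1, g2, g3]
    abel
  obtain ⟨f₁, s₁, f₂, s₂, hf₁, hf₂, hs₁, hs₂, hsum, hxi⟩ := hDec _ ξ hf hfx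
  refine ⟨gam u v a b f₁ s₁ s₂, ?_⟩
  intro τ hτ hc
  by_cases hu : u ∈ τ <;> by_cases hv : v ∈ τ
  · -- both
    obtain ⟨c, hcc⟩ : ∃ c, (τ.erase u).erase v = {c} := by
      rw [← card_eq_one]
      have h1 : v ∈ τ.erase u := mem_erase.2 ⟨Ne.symm huv, hv⟩
      rw [card_erase_of_mem h1, card_erase_of_mem hu, hc]
    have hcm : c ∈ (τ.erase u).erase v := by rw [hcc]; exact mem_singleton_self c
    have hcv : c ≠ v := ne_of_mem_erase hcm
    have hcu : c ≠ u := ne_of_mem_erase (mem_of_mem_erase hcm)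
    have hvc : v ∉ ({c} : Finset α) := by simpa using Ne.symm hcv
    have huc : u ∉ ({c} : Finset α) := by simpa using Ne.symm hcu
    obtain ⟨ρ, hρ⟩ : ∃ ρ, ρ = τ.erase u := ⟨_, rfl⟩
    have hρc : ρ = insert v {c} := by
      rw [← hcc, hρ, insert_erase]
      exact mem_erase.2 ⟨Ne.symm huv, hv⟩
    have huρ : u ∉ ρ := by rw [hρ]; exact notMem_erase _ _
    have hvρ : v ∈ ρ := by rw [hρc]; exact mem_insert_self _ _
    have hτρ : τ = insert u ρ := by rw [hρ, insert_erase hu]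
    have hρe : ρ.erase v = {c} := by rw [hρc, erase_insert hvc]
    have hmem : ({c} : Finset α) ∈ LD K {u, v} ∅ := by
      rw [mem_LD]
      refine ⟨hK _ hτ _ ?_, ?_, by simp, ?_⟩
      · rw [← hcc]
        exact (erase_subset _ _).trans (erase_subset _ _)
      · rw [disjoint_insert_right, disjoint_singleton_right]
        exact ⟨huc, hvc⟩
      · have : ({c} : Finset α) ∪ {u, v} = τ := by
          rw [hτρ, hρc]
          ext x; simp only [mem_union, mem_insert, mem_singleton]; tauto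
        rwa [this]
    have k1 : dl (Pt v (Pt u (gam u v a b f₁ s₁ s₂))) {c} = 0 := by
      rw [dl_singleton, Pt_empty]
      show sg u (insert u {v}) • gam u v a b f₁ s₁ s₂ (insert u {v}) = 0
      rw [gam_both (by simp) (by simp), smul_zero]
    have k2 : dl (Pt u (gam u v a b f₁ s₁ s₂)) ρ = sg v ρ • (Pt u b {c} + s₁ {c}) := by
      rw [hρc, dl_insert v _ hvc, k1, sub_zero, Pt_u_gam huv huc hvc]
    have k3 : gam u v a b f₁ s₁ s₂ ρ = sg v ρ • (Pt v a {c} - s₂ {c}) := by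
      rw [gam_v huρ hvρ, hρe]
    have k4 : Pt v a {c} - Pt u b {c} + Pt u (Pt v z) {c} = s₁ {c} + s₂ {c} := hxi c hmem
    have k5 : Pt u (Pt v z) {c} = - Pt v (Pt u z) {c} := Pt_Pt huv z huc hvc
    have k6 : Pt v a {c} - s₂ {c} - (Pt u b {c} + s₁ {c}) = Pt v (Pt u z) {c} := by
      have k7 : Pt v a {c} = s₁ {c} + s₂ {c} + Pt v (Pt u z) {c} + Pt u b {c} := by
        rw [← k4, k5]; abel
      rw [k7]; abel
    rw [hτρ, dl_insert u _ huρ, k2, k3, ← smul_sub, k6]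
    unfold Pt
    rw [← hρc, sg_sq_smul, sg_sq_smul]
  · -- only u
    obtain ⟨ρ, hρ⟩ : ∃ ρ, ρ = τ.erase u := ⟨_, rfl⟩
    have huρ : u ∉ ρ := by rw [hρ]; exact notMem_erase _ _
    have hvρ : v ∉ ρ := by rw [hρ]; exact fun h => hv (mem_of_mem_erase h)
    have hτρ : τ = insert u ρ := by rw [hρ, insert_erase hu]
    have hcρ : ρ.card = 2 := by
      have := card_insert_of_notMem huρ
      rw [← hτρ, hc] at this
      omega
    have hρK : ρ ∈ K := hK _ hτ _ (by rw [hρ]; exact erase_subset _ _)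
    have hmem : ρ ∈ Ed (LD K {u} {v}) := by
      rw [mem_Ed, mem_LD]
      refine ⟨⟨hρK, by simpa using huρ, by simpa using hvρ, ?_⟩, hcρ⟩
      have : ρ ∪ {u} = τ := by rw [hτρ, union_comm]; rfl
      rwa [this]
    have e1 : dl (Pt u (gam u v a b f₁ s₁ s₂)) ρ = dl (Pt u b) ρ + dl s₁ ρ := by
      rw [← dl_add]
      refine dl_congr fun x hx => ?_
      exact Pt_u_gam huv (fun h => huρ (mem_of_mem_erase h)) (fun h => hvρ (mem_of_mem_erase h))
    rw [hτρ, dl_insert u _ huρ, e1, gam_none huρ hvρ, hs₁ ρ hmem]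
    have e2 := Pt_dl u b huρ
    have e3 : b ρ + dl s₁ ρ - (dl (Pt u b) ρ + dl s₁ ρ) = Pt u (dl b) ρ := by
      rw [e2]; abel
    rw [e3]
    unfold Pt
    rw [sg_sq_smul, hb' _ (hτρ ▸ hτ) (hτρ ▸ hv) (hτρ ▸ hc)]
  · -- only v
    obtain ⟨ρ, hρ⟩ : ∃ ρ, ρ = τ.erase v := ⟨_, rfl⟩
    have hvρ : v ∉ ρ := by rw [hρ]; exact notMem_erase _ _
    have huρ : u ∉ ρ := by rw [hρ]; exact fun h => hu (mem_of_mem_erase h)
    have hτρ : τ = insert v ρ := by rw [hρ, insert_erase hv]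
    have hcρ : ρ.card = 2 := by
      have := card_insert_of_notMem hvρ
      rw [← hτρ, hc] at this
      omega
    have hρK : ρ ∈ K := hK _ hτ _ (by rw [hρ]; exact erase_subset _ _)
    have hmem : ρ ∈ Ed (LD K {v} {u}) := by
      rw [mem_Ed, mem_LD]
      refine ⟨⟨hρK, by simpa using hvρ, by simpa using huρ, ?_⟩, hcρ⟩
      have : ρ ∪ {v} = τ := by rw [hτρ, union_comm]; rfl
      rwa [this]
    have hmem2 : ρ ∈ Ed (LD K ∅ {u, v}) := by
      rw [mem_Ed, mem_LD]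
      refine ⟨⟨hρK, by simp, ?_, by simpa using hρK⟩, hcρ⟩
      rw [disjoint_insert_right, disjoint_singleton_right]
      exact ⟨huρ, hvρ⟩
    have e1 : dl (Pt v (gam u v a b f₁ s₁ s₂)) ρ = dl (Pt v a) ρ - dl s₂ ρ := by
      rw [← dl_sub]
      refine dl_congr fun x hx => ?_
      exact Pt_v_gam huv (fun h => huρ (mem_of_mem_erase h)) (fun h => hvρ (mem_of_mem_erase h))
    have e0 : b ρ + f₁ ρ = a ρ - f₂ ρ := by
      have := hsum ρ hmem2
      have h2 : a ρ - b ρ = f₁ ρ + f₂ ρ := this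
      have h3 : a ρ = f₁ ρ + f₂ ρ + b ρ := by rw [← h2]; abel
      rw [h3]; abel
    rw [hτρ, dl_insert v _ hvρ, e1, gam_none huρ hvρ, e0, hs₂ ρ hmem]
    have e2 := Pt_dl v a hvρ
    have e3 : a ρ - dl s₂ ρ - (dl (Pt v a) ρ - dl s₂ ρ) = Pt v (dl a) ρ := by
      rw [e2]; abel
    rw [e3]
    unfold Pt
    rw [sg_sq_smul, ha' _ (hτρ ▸ hτ) (hτρ ▸ hu) (hτρ ▸ hc)]
  · -- none
    have e1 : dl (gam u v a b f₁ s₁ s₂) τ = dl b τ + dl f₁ τ := by
      rw [← dl_add]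
      refine dl_congr fun x hx => ?_
      exact gam_none (fun h => hu (mem_of_mem_erase h)) (fun h => hv (mem_of_mem_erase h))
    have hmem : τ ∈ LD K ∅ {u, v} := by
      rw [mem_LD]
      refine ⟨hτ, by simp, ?_, by simpa using hτ⟩
      rw [disjoint_insert_right, disjoint_singleton_right]
      exact ⟨hu, hv⟩
    rw [e1, hf₁ τ hmem hc, add_zero, hb' τ hτ hv hc]

end Pool.Agent.Lib.MP_db6a6f_al
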