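import Pool.Agent.Lib.MP_db6a6f_al.Stmts

set_option autoImplicit false

/-! Twisted exactness: near a vertex `w` the twisted coboundary is equivalent to the untwisted one,
and the vertices are added one at a time. -/

namespace Pool.Agent.Lib.MP_db6a6f_al

open Finset

variable {α : Type} [LinearOrder α]

namespace TwExAux

theorem eQ_mk (t : ℚ) :
    eQ ((t : ℚ) : QZ) = Complex.exp (2 * Real.pi * Complex.I * (t : ℂ)) := rfl

theorem eQ_zero : eQ 0 = 1 := by
  have : (0 : QZ) = ((0 : ℚ) : QZ) := rfl
  rw [this, eQ_mk]; simp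

theorem eQ_add (x y : QZ) : eQ (x + y) = eQ x * eQ y := by
  induction x using QuotientAddGroup.induction_on with
  | H s =>
    induction y using QuotientAddGroup.induction_on with
    | H t =>
      have h : ((s : ℚ) : QZ) + ((t : ℚ) : QZ) = ((s + t : ℚ) : QZ) := rfl
      change eQ (((s : ℚ) : QZ) + ((t : ℚ) : QZ)) = eQ ((s : ℚ) : QZ) * eQ ((t : ℚ) : QZ)
      rw [h, eQ_mk, eQ_mk, eQ_mk, ← Complex.exp_add]
      congr 1
      push_cast
      ring

theorem eT_swap (φ : Finset α → QZ) (a b : α) : eQ (asy φ a b) * eQ (asy φ b a) = 1 := by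
  rw [← eQ_add, asy_swap φ a b, add_neg_cancel, eQ_zero]

theorem bp_mem {u v : α} {σ : Finset α} (h : 3 ≤ σ.card) :
    bp u v σ ∈ σ ∧ bp u v σ ≠ u ∧ bp u v σ ≠ v := by
  have hne : ((σ.erase u).erase v).Nonempty := by
    rw [← card_pos]
    have h1 := pred_card_le_card_erase (s := σ) (a := u)
    have h2 := pred_card_le_card_erase (s := σ.erase u) (a := v)
    omega
  unfold bp
  rw [dif_pos hne]
  have := min'_mem _ hne
  simp only [mem_erase] at this
  exact ⟨this.2.2, this.2.1, this.1⟩

/-- Inside a face containing `w` the twisted coboundary is equivalent to the untwisted one. -/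
theorem gauge {K : Finset (Finset α)} {u v : α} {φ : Finset α → QZ} (hK : IsCx K)
    (hZ : Z1 (Fu K u v) φ) {τ₀ τ : Finset α} (h0 : τ₀ ∈ K) (hτ : τ ⊆ τ₀) (hc : 4 ≤ τ.card)
    {w : α} (hw : w ∈ τ₀) (hwu : w ≠ u) (hwv : w ≠ v) (f : Finset α → ℂ) :
    eQ (asy φ (bp u v τ) w) * dt u v φ f τ =
      dl (fun σ => eQ (asy φ (bp u v σ) w) * f σ) τ := by
  unfold dt dl
  rw [mul_sum]
  apply sum_congr rfl
  intro a ha
  have hca : 3 ≤ (τ.erase a).card := by rw [card_erase_of_mem ha]; omega
  obtain ⟨b1, b2, b3⟩ := bp_mem (u := u) (v := v) hca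
  obtain ⟨c1, c2, c3⟩ := bp_mem (u := u) (v := v) (σ := τ) (by omega)
  have hadd := asy_add (Fu K u v) φ hZ (a := bp u v (τ.erase a)) (b := bp u v τ) (c := w) (by
    rw [mem_Fu]
    refine ⟨hK _ h0 _ ?_, ?_, ?_⟩
    · intro x hx
      simp only [mem_insert, mem_singleton] at hx
      rcases hx with hx | hx | hx
      · rw [hx]; exact hτ (erase_subset _ _ b1)
      · rw [hx]; exact hτ c1
      · rw [hx]; exact hw
    · simp only [mem_insert, mem_singleton, not_or]
      exact ⟨Ne.symm b3, Ne.symm c3, Ne.symm hwv⟩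
    · intro h
      exfalso
      simp only [mem_insert, mem_singleton] at h
      rcases h with h | h | h
      · exact b2 h.symm
      · exact c2 h.symm
      · exact hwu h.symm)
  beta_reduce
  rw [← hadd, eQ_add, zsmul_eq_mul]
  ring

theorem eT_ne (φ : Finset α → QZ) (a b : α) : eQ (asy φ a b) ≠ 0 := by
  intro h
  have := eT_swap φ a b
  rw [h, zero_mul] at this
  exact zero_ne_one this

theorem dt_dt {K : Finset (Finset α)} {u v : α} {φ : Finset α → QZ} (hK : IsCx K)
    (hZ : Z1 (Fu K u v) φ) {τ : Finset α} (h0 : τ ∈ K) (hc : 5 ≤ τ.card) (f : Finset α → ℂ) :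
    dt u v φ (dt u v φ f) τ = 0 := by
  obtain ⟨c1, c2, c3⟩ := bp_mem (u := u) (v := v) (σ := τ) (by omega)
  have h1 := gauge hK hZ h0 (Subset.refl τ) (by omega) c1 c2 c3 (dt u v φ f)
  have h2 : dl (fun σ => eQ (asy φ (bp u v σ) (bp u v τ)) * dt u v φ f σ) τ =
      dl (dl (fun σ => eQ (asy φ (bp u v σ) (bp u v τ)) * f σ)) τ := by
    apply dl_congr
    intro a ha
    exact gauge hK hZ h0 (erase_subset a τ) (by rw [card_erase_of_mem ha]; omega) c1 c2 c3 f
  rw [h2, dl_dl] at h1
  exact (mul_eq_zero.mp h1).resolve_left (eT_ne _ _ _)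

theorem dt_sub (u v : α) (φ : Finset α → QZ) (f g : Finset α → ℂ) (τ : Finset α) :
    dt u v φ (fun σ => f σ - g σ) τ = dt u v φ f τ - dt u v φ g τ := by
  unfold dt
  rw [← sum_sub_distrib]
  exact sum_congr rfl (fun a _ => by ring)

theorem dt_add (u v : α) (φ : Finset α → QZ) (f g : Finset α → ℂ) (τ : Finset α) :
    dt u v φ (fun σ => f σ + g σ) τ = dt u v φ f τ + dt u v φ g τ := by
  unfold dt
  rw [← sum_add_distrib]
  exact sum_congr rfl (fun a _ => by ring)

end TwExAux

open TwExAux in
theorem twEx : TwExStmt := by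
  intro α _ K u v φ hK huv hZ hLk
  have claim : ∀ W : Finset α, u ∉ W → v ∉ W → ∀ k : ℕ, 4 ≤ k → ∀ f : Finset α → ℂ,
      (∀ τ ∈ K, τ ⊆ W ∪ {u, v} → τ.card = k + 1 → dt u v φ f τ = 0) →
      ∃ g : Finset α → ℂ, ∀ σ ∈ K, σ ⊆ W ∪ {u, v} → σ.card = k → f σ = dt u v φ g σ := by
    intro W
    induction W using Finset.induction_on with
    | empty =>
      intro _ _ k hk f _
      refine ⟨fun _ => 0, fun σ _ hσ hc => ?_⟩
      exfalso
      have h1 := card_le_card hσ
      have h2 : ((∅ : Finset α) ∪ {u, v}).card ≤ 2 := by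
        rw [empty_union]; exact card_le_two
      omega
    | insert w W hw ih =>
      intro hu hv k hk f hf
      have hwu : w ≠ u := fun h => hu (h ▸ mem_insert_self w W)
      have hwv : w ≠ v := fun h => hv (h ▸ mem_insert_self w W)
      have hsub : W ∪ {u, v} ⊆ insert w W ∪ {u, v} :=
        union_subset_union_left (subset_insert w W)
      obtain ⟨g, hg⟩ := ih (fun h => hu (mem_insert_of_mem h)) (fun h => hv (mem_insert_of_mem h))
        k hk f (fun τ hτ hs hc => hf τ hτ (hs.trans hsub) hc)
      -- the difference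
      set f' : Finset α → ℂ := fun σ => f σ - dt u v φ g σ with hf'
      have hf'0 : ∀ σ ∈ K, σ ⊆ W ∪ {u, v} → σ.card = k → f' σ = 0 := by
        intro σ h1 h2 h3
        simp only [hf']
        rw [hg σ h1 h2 h3, sub_self]
      have hf'c : ∀ τ ∈ K, τ ⊆ insert w W ∪ {u, v} → τ.card = k + 1 → dt u v φ f' τ = 0 := by
        intro τ h1 h2 h3
        simp only [hf']
        rw [dt_sub, hf τ h1 h2 h3, dt_dt hK hZ h1 (by omega), sub_zero]
      -- the deleted vertices
      set A : Finset α := (K.biUnion id) \ (W ∪ {u, v}) with hA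
      have hLD : ∀ ρ ∈ LD K {w} A, w ∉ ρ ∧ insert w ρ ∈ K ∧ ρ ⊆ W ∪ {u, v} := by
        intro ρ hρ
        rw [mem_LD] at hρ
        obtain ⟨h1, h2, h3, h4⟩ := hρ
        refine ⟨disjoint_singleton_right.mp h2, ?_, ?_⟩
        · rwa [union_comm, ← insert_eq] at h4
        · intro x hx
          by_contra hn
          have hxA : x ∈ A := by
            rw [hA, mem_sdiff]
            exact ⟨mem_biUnion.mpr ⟨ρ, h1, hx⟩, hn⟩
          exact (disjoint_left.mp h3) hx hxA
      have hLD' : ∀ ρ : Finset α, w ∉ ρ → insert w ρ ∈ K → ρ ⊆ W ∪ {u, v} → ρ ∈ LD K {w} A := by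
        intro ρ h1 h2 h3
        rw [mem_LD]
        refine ⟨hK _ h2 _ (subset_insert w ρ), disjoint_singleton_right.mpr h1, ?_, ?_⟩
        · rw [disjoint_left]
          intro x hx hxA
          rw [hA, mem_sdiff] at hxA
          exact hxA.2 (h3 hx)
        · rwa [union_comm, ← insert_eq]
      -- the gauge transform
      set F : Finset α → ℂ := fun σ => eQ (asy φ (bp u v σ) w) * f' σ with hF
      have hins : ∀ ρ : Finset α, ρ ⊆ W ∪ {u, v} → insert w ρ ⊆ insert w W ∪ {u, v} := by
        intro ρ h x hx
        rcases mem_insert.mp hx with hx | hx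
        · rw [hx]; exact mem_union_left _ (mem_insert_self w W)
        · exact hsub (h hx)
      have hclosed : ∀ ρ ∈ LD K {w} A, ρ.card = k - 1 + 1 → dl (Pt w F) ρ = 0 := by
        intro ρ hρ hc
        obtain ⟨h1, h2, h3⟩ := hLD ρ hρ
        have e1 := Pt_dl w F h1
        have e2 : dl F (insert w ρ) = 0 := by
          have h4 : (insert w ρ).card = k + 1 := by rw [card_insert_of_notMem h1]; omega
          have := gauge hK hZ h2 (Subset.refl _) (by omega) (mem_insert_self w ρ) hwu hwv f'
          rw [hF, ← this, hf'c _ h2 (hins ρ h3) h4, mul_zero]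
        have e3 : Pt w (dl F) ρ = 0 := by unfold Pt; rw [e2, smul_zero]
        have e4 : F ρ = 0 := by
          simp only [hF]
          rw [hf'0 ρ (hK _ h2 _ (subset_insert w ρ)) h3 (by omega), mul_zero]
        rw [e3, e4, zero_sub] at e1
        exact neg_eq_zero.mp e1.symm
      obtain ⟨h', hh'⟩ := hLk w A hwu hwv (k - 1) (by omega) (Pt w F) hclosed
      set G : Finset α → ℂ := fun σ => if w ∈ σ then - (sg w σ • h' (σ.erase w)) else 0 with hG
      set g' : Finset α → ℂ := fun σ => eQ (asy φ w (bp u v σ)) * G σ with hg'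
      have hGg : (fun σ => eQ (asy φ (bp u v σ) w) * g' σ) = G := by
        funext σ
        simp only [hg']
        rw [← mul_assoc, eT_swap, one_mul]
      have hPG : ∀ ρ : Finset α, w ∉ ρ → Pt w G ρ = - h' ρ := by
        intro ρ h1
        unfold Pt
        simp only [hG]
        rw [if_pos (mem_insert_self w ρ), erase_insert h1, smul_neg, sg_sq_smul]
      refine ⟨fun σ => g σ + g' σ, fun σ hσ hs hc => ?_⟩
      rw [dt_add]
      have key : f' σ = dt u v φ g' σ := by
        by_cases hwσ : w ∈ σ
        · -- faces containing `w`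
          obtain ⟨ρ, h1, rfl⟩ : ∃ ρ : Finset α, w ∉ ρ ∧ insert w ρ = σ :=
            ⟨σ.erase w, notMem_erase w σ, insert_erase hwσ⟩
          have hρs : ρ ⊆ W ∪ {u, v} := by
            intro x hx
            have hxw : x ≠ w := fun h => h1 (h ▸ hx)
            have := hs (mem_insert_of_mem hx)
            rcases mem_union.mp this with h | h
            · exact mem_union_left _ ((mem_insert.mp h).resolve_left hxw)
            · exact mem_union_right _ h
          have hρc : ρ.card = k - 1 := by
            rw [card_insert_of_notMem h1] at hc; omega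
          have hρL := hLD' ρ h1 hσ hρs
          have e0 := gauge hK hZ hσ (Subset.refl _) (by omega) hwσ hwu hwv g'
          rw [hGg] at e0
          have e1 := Pt_dl w G h1
          have e2 : dl (Pt w G) ρ = - dl h' ρ := by
            rw [← dl_neg]
            apply dl_congr
            intro a ha
            exact hPG _ (fun h => h1 (mem_of_mem_erase h))
          have e3 : G ρ = 0 := by simp only [hG]; rw [if_neg h1]
          rw [e2, e3, zero_sub, neg_neg, ← hh' ρ hρL hρc] at e1
          -- `Pt w (dl G) ρ = Pt w F ρ`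
          have e4 : dl G (insert w ρ) = F (insert w ρ) := by
            have := congrArg (fun x => sg w (insert w ρ) • x) e1
            simp only [Pt] at this
            rwa [sg_sq_smul, sg_sq_smul] at this
          rw [e4] at e0
          simp only [hF] at e0
          exact (mul_left_cancel₀ (eT_ne _ _ _) e0).symm
        · -- faces not containing `w`
          have hs' : σ ⊆ W ∪ {u, v} := by
            intro x hx
            have hxw : x ≠ w := fun h => hwσ (h ▸ hx)
            rcases mem_union.mp (hs hx) with h | h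
            · exact mem_union_left _ ((mem_insert.mp h).resolve_left hxw)
            · exact mem_union_right _ h
          rw [hf'0 σ hσ hs' hc]
          symm
          unfold dt
          apply sum_eq_zero
          intro a ha
          have : g' (σ.erase a) = 0 := by
            simp only [hg', hG]
            rw [if_neg (fun h => hwσ (mem_of_mem_erase h)), mul_zero]
          rw [this]; ring
      rw [← key]
      simp only [hf']
      ring
  intro k hk f hf
  set W : Finset α := ((K.biUnion id).erase u).erase v with hW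
  have hall : ∀ τ ∈ K, τ ⊆ W ∪ {u, v} := by
    intro τ hτ x hx
    by_cases h1 : x = u
    · exact mem_union_right _ (by simp [h1])
    by_cases h2 : x = v
    · exact mem_union_right _ (by simp [h2])
    apply mem_union_left
    rw [hW, mem_erase, mem_erase]
    exact ⟨h2, h1, mem_biUnion.mpr ⟨τ, hτ, hx⟩⟩
  obtain ⟨g, hg⟩ := claim W (by simp [hW]) (by simp [hW]) k hk f
    (fun τ hτ _ hc => hf τ hτ hc)
  exact ⟨g, fun σ hσ hc => hg σ hσ (hall σ hσ) hc⟩

end Pool.Agent.Lib.MP_db6a6f_al
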