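import Pool.Agent.Lib.MP_db6a6f_al.Stmts

set_option autoImplicit false

/-! C7: the vector of an unramified cocycle. -/

namespace Pool.Agent.Lib.MP_db6a6f_al

open Finset

private theorem unr_eQ_coe (t : ℚ) :
    eQ ((t : ℚ) : QZ) = Complex.exp (2 * Real.pi * Complex.I * (t : ℂ)) := rfl

private theorem unr_eQ_zero : eQ 0 = 1 := by
  have h : (0 : QZ) = ((0 : ℚ) : QZ) := rfl
  rw [h, unr_eQ_coe]; simp

private theorem unr_eQ_add (x y : QZ) : eQ (x + y) = eQ x * eQ y := by
  induction x using QuotientAddGroup.induction_on with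
  | H a =>
    induction y using QuotientAddGroup.induction_on with
    | H b =>
      have h : ((a : QZ) + (b : QZ)) = ((a + b : ℚ) : QZ) := rfl
      show eQ ((a : QZ) + (b : QZ)) = eQ (a : QZ) * eQ (b : QZ)
      rw [h, unr_eQ_coe, unr_eQ_coe, unr_eQ_coe, ← Complex.exp_add]
      congr 1; push_cast; ring

private theorem unr_eQ_eq_one (x : QZ) (h : eQ x = 1) : x = 0 := by
  induction x using QuotientAddGroup.induction_on with
  | H a =>
    have h' : Complex.exp (2 * Real.pi * Complex.I * (a : ℂ)) = 1 := h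
    rw [Complex.exp_eq_one_iff] at h'
    obtain ⟨n, hn⟩ := h'
    have hpi : (2 * (Real.pi : ℂ) * Complex.I) ≠ 0 := by
      simp [Real.pi_ne_zero]
    have h2 : (a : ℂ) = (n : ℂ) := by
      have : (2 * (Real.pi : ℂ) * Complex.I) * (a : ℂ) = (2 * (Real.pi : ℂ) * Complex.I) * n := by
        rw [hn]; ring
      exact mul_left_cancel₀ hpi this
    have h3 : a = (n : ℚ) := by exact_mod_cast h2
    rw [h3]
    show (((n : ℤ) : ℚ) : QZ) = 0
    rw [AddCircle.coe_eq_zero_iff]
    exact ⟨n, by simp⟩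

private theorem unr_eQ_neg (x : QZ) : eQ x * eQ (-x) = 1 := by
  rw [← unr_eQ_add, add_neg_cancel, unr_eQ_zero]

variable {α : Type} [LinearOrder α]

/-- The base point of a face without `v` that has a vertex different from `u`. -/
private theorem unr_bp {u v : α} {σ : Finset α} (hv : v ∉ σ) {a : α} (ha : a ∈ σ) (hau : a ≠ u) :
    bp u v σ ∈ σ ∧ bp u v σ ≠ u := by
  have hne : ((σ.erase u).erase v).Nonempty :=
    ⟨a, by simp only [mem_erase]; exact ⟨fun h => hv (h ▸ ha), hau, ha⟩⟩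
  have h : bp u v σ = ((σ.erase u).erase v).min' hne := by
    unfold bp; rw [dif_pos hne]
  have hm := Finset.min'_mem _ hne
  rw [← h] at hm
  simp only [mem_erase] at hm
  exact ⟨hm.2.2, hm.2.1⟩

private theorem unr_asy_congr {A : Type} [AddCommGroup A] (f g : Finset α → A) (a b : α)
    (h : a ≠ b → f {a, b} = g {a, b}) : asy f a b = asy g a b := by
  unfold asy
  rcases lt_trichotomy a b with h1 | h1 | h1
  · rw [if_pos h1, if_pos h1, h h1.ne]
  · subst h1; simp
  · rw [if_neg (not_lt.mpr h1.le), if_pos h1, if_neg (not_lt.mpr h1.le), if_pos h1, h h1.ne']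

/-- The vector. -/
private noncomputable def unrX (u v : α) (ψ : Finset α → QZ) (σ : Finset α) : ℂ :=
  ∑ w ∈ σ, (sg w σ : ℂ) * ∑ y ∈ σ.erase w, eQ (asy ψ y (bp u v σ))

private theorem unrX_pair (u v : α) (ψ : Finset α → QZ) {a c : α} (hac : a < c) :
    unrX u v ψ {a, c} = eQ (asy ψ c (bp u v {a, c})) - eQ (asy ψ a (bp u v {a, c})) := by
  unfold unrX
  have h1 : ({a, c} : Finset α).erase a = {c} := by
    ext x; simp only [mem_erase, mem_insert, mem_singleton]
    constructor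
    · rintro ⟨h1, rfl | rfl⟩
      · exact absurd rfl h1
      · rfl
    · rintro rfl; exact ⟨hac.ne', Or.inr rfl⟩
  have h2 : ({a, c} : Finset α).erase c = {a} := by
    ext x; simp only [mem_erase, mem_insert, mem_singleton]
    constructor
    · rintro ⟨h1, rfl | rfl⟩
      · rfl
      · exact absurd rfl h1
    · rintro rfl; exact ⟨hac.ne, Or.inl rfl⟩
  rw [sum_insert (by simp [hac.ne]), sum_singleton, sg_pair_left hac, sg_pair_right hac, h1, h2,
    sum_singleton, sum_singleton]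
  push_cast; ring

/-- The value of the vector on the edges of `Fu K u v`. -/
private theorem unrX_Fu {K : Finset (Finset α)} {u v : α} {φ ψ : Finset α → QZ}
    (hψφ : ∀ σ ∈ Ed (Fu K u v), ψ σ = φ σ) {a c : α} (hac : a < c)
    (h : ({a, c} : Finset α) ∈ Fu K u v) :
    unrX u v ψ {a, c} = eQ (asy φ a (bp u v {a, c})) * (eQ (-(φ {a, c})) - 1) := by
  have hv : v ∉ ({a, c} : Finset α) := (mem_Fu.mp h).2.1
  have hEd : ({a, c} : Finset α) ∈ Ed (Fu K u v) := mem_Ed.mpr ⟨h, card_pair hac.ne⟩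
  have hval := hψφ _ hEd
  have hb : bp u v {a, c} = a ∨ bp u v {a, c} = c := by
    have : ∃ x ∈ ({a, c} : Finset α), x ≠ u := by
      by_cases hau : a = u
      · exact ⟨c, by simp, fun hcu => hac.ne (hau.trans hcu.symm)⟩
      · exact ⟨a, by simp, hau⟩
    obtain ⟨x, hx, hxu⟩ := this
    have := (unr_bp hv hx hxu).1
    simpa using this
  rw [unrX_pair u v ψ hac]
  rcases hb with hb | hb
  · rw [hb, asy_self, asy_self, unr_eQ_zero, asy_of_gt ψ hac, pair_comm c a, hval, one_mul]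
  · rw [hb, asy_self, unr_eQ_zero, asy_of_lt ψ hac, asy_of_lt φ hac, hval, mul_sub, unr_eQ_neg,
      mul_one]

/-- The twisted coboundary of the vector vanishes. -/
private theorem unrX_closed {K : Finset (Finset α)} {u v : α} {φ ψ : Finset α → QZ}
    (hK : IsCx K) (hψ : Z1 (LD K ∅ {v}) ψ) (hψφ : ∀ σ ∈ Ed (Fu K u v), ψ σ = φ σ)
    {τ : Finset α} (hτ : τ ∈ K) (hv : v ∉ τ) (h3 : τ.card = 3) :
    dt u v φ (unrX u v ψ) τ = 0 := by
  have hLD : IsCx (LD K ∅ {v}) := isCx_LD hK _ _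
  have hτL : τ ∈ LD K ∅ {v} := by
    rw [mem_LD]
    exact ⟨hτ, disjoint_empty_right _, by simpa using hv, by simpa using hτ⟩
  -- vertices different from `u`
  have hex : ∀ σ ⊆ τ, 2 ≤ σ.card → ∃ x ∈ σ, x ≠ u := by
    intro σ _ h2
    obtain ⟨x, hx, y, hy, hxy⟩ := Finset.one_lt_card.mp (by omega : 1 < σ.card)
    by_cases hxu : x = u
    · exact ⟨y, hy, fun h => hxy (hxu.trans h.symm)⟩
    · exact ⟨x, hx, hxu⟩
  obtain ⟨x0, hx0, hx0u⟩ := hex τ (Subset.refl _) (by omega)
  obtain ⟨hbτ, hbτu⟩ := unr_bp hv hx0 hx0u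
  have hterm : ∀ a ∈ τ, (sg a τ : ℂ) * (eQ (asy φ (bp u v (τ.erase a)) (bp u v τ)) *
      unrX u v ψ (τ.erase a)) = ∑ w ∈ τ.erase a, ((sg a τ * sg w (τ.erase a) : ℤ) : ℂ) *
        ∑ y ∈ (τ.erase a).erase w, eQ (asy ψ y (bp u v τ)) := by
    intro a ha
    have hcard : (τ.erase a).card = 2 := by rw [card_erase_of_mem ha, h3]
    obtain ⟨x, hx, hxu⟩ := hex (τ.erase a) (erase_subset _ _) (by omega)
    have hv' : v ∉ τ.erase a := fun h => hv (mem_of_mem_erase h)
    obtain ⟨hb1, hb1u⟩ := unr_bp hv' hx hxu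
    have hb1τ : bp u v (τ.erase a) ∈ τ := mem_of_mem_erase hb1
    have hasy : asy φ (bp u v (τ.erase a)) (bp u v τ) =
        asy ψ (bp u v (τ.erase a)) (bp u v τ) := by
      apply unr_asy_congr
      intro hne
      symm
      apply hψφ
      rw [mem_Ed]
      refine ⟨mem_Fu.mpr ⟨hK τ hτ _ ?_, ?_, ?_⟩, card_pair hne⟩
      · intro z hz
        rw [mem_insert, mem_singleton] at hz
        rcases hz with rfl | rfl
        · exact hb1τ
        · exact hbτ
      · intro hz
        rw [mem_insert, mem_singleton] at hz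
        rcases hz with hz | hz
        · exact hv (hz ▸ hb1τ)
        · exact hv (hz ▸ hbτ)
      · intro hz
        rw [mem_insert, mem_singleton] at hz
        rcases hz with hz | hz
        · exact absurd hz.symm hb1u
        · exact absurd hz.symm hbτu
    unfold unrX
    rw [mul_sum, mul_sum]
    apply sum_congr rfl
    intro w hw
    rw [mul_sum, mul_sum, mul_sum, mul_sum]
    apply sum_congr rfl
    intro y hy
    have hyτ : y ∈ τ := mem_of_mem_erase (mem_of_mem_erase hy)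
    have hadd : asy ψ y (bp u v (τ.erase a)) + asy ψ (bp u v (τ.erase a)) (bp u v τ) =
        asy ψ y (bp u v τ) := by
      apply asy_add (LD K ∅ {v}) ψ hψ
      apply hLD τ hτL
      intro z hz
      rw [mem_insert, mem_insert, mem_singleton] at hz
      rcases hz with rfl | rfl | rfl
      · exact hyτ
      · exact hb1τ
      · exact hbτ
    rw [hasy, ← hadd, unr_eQ_add]
    push_cast; ring
  unfold dt
  rw [sum_congr rfl hterm]
  apply sum_antisymm_zero
  intro a ha b hb hab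
  rw [sg_sg ha hb hab, erase_right_comm]
  push_cast; ring

theorem unr : UnrStmt := by
  intro α _ K u v φ ψ T hK _huv _he hψ hψφ hT hφT hex
  -- an edge written with ordered vertices
  have hpair : ∀ σ : Finset α, σ.card = 2 → ∃ a c : α, a < c ∧ σ = {a, c} := by
    intro σ hσ
    obtain ⟨a, c, hac, rfl⟩ := card_eq_two.mp hσ
    rcases lt_or_gt_of_ne hac with h | h
    · exact ⟨a, c, h, rfl⟩
    · exact ⟨c, a, h, pair_comm a c⟩
  refine ⟨unrX u v ψ, 1, ?_, ?_, ?_, ?_⟩
  · intro τ hτ hv h3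
    exact unrX_closed hK hψ hψφ hτ hv h3
  · intro σ hσ
    have hEd := hT hσ
    obtain ⟨hF, hc⟩ := mem_Ed.mp hEd
    obtain ⟨a, c, hac, rfl⟩ := hpair σ hc
    rw [unrX_Fu hψφ hac hF, hφT _ hσ, neg_zero, unr_eQ_zero]; simp
  · obtain ⟨σ, hσ, hne⟩ := hex
    obtain ⟨hF, hc⟩ := mem_Ed.mp hσ
    obtain ⟨a, c, hac, rfl⟩ := hpair σ hc
    refine ⟨{a, c}, mem_Ed.mpr ⟨(mem_Fu.mp hF).1, hc⟩, (mem_Fu.mp hF).2.1, ?_⟩
    rw [unrX_Fu hψφ hac hF]
    apply mul_ne_zero
    · intro h0
      have := unr_eQ_neg (asy φ a (bp u v {a, c}))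
      rw [h0, zero_mul] at this
      exact zero_ne_one this
    · intro h0
      have h1 : eQ (-(φ {a, c})) = 1 := sub_eq_zero.mp h0
      exact hne (neg_eq_zero.mp (unr_eQ_eq_one _ h1))
  · intro a c hac h
    have hF : ({a, c} : Finset α) ∈ Fu K u v := by
      rw [mem_LD] at h
      obtain ⟨h1, h2, _, h4⟩ := h
      refine mem_Fu.mpr ⟨h1, ?_, fun _ => ?_⟩
      · intro hv; exact (disjoint_left.mp h2 hv) (mem_singleton_self v)
      · rwa [insert_eq, union_comm]
    rw [unrX_Fu hψφ hac hF, mul_one]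

end Pool.Agent.Lib.MP_db6a6f_al
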