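import Pool.Agent.Lib.MP_db6a6f_al.Core
import Pool.Agent.Lib.MP_db6a6f_al.Davis
import Pool.Agent.Lib.MP_db6a6f_al.Det
import Pool.Agent.Lib.MP_db6a6f_al.Aug
import Pool.Agent.Lib.MP_db6a6f_al.FinInd
import Pool.Agent.Lib.MP_db6a6f_al.Dual
import Pool.Agent.Lib.MP_db6a6f_al.Ann
import Pool.Agent.Lib.MP_db6a6f_al.MV
import Pool.Agent.Lib.MP_db6a6f_al.Her
import Pool.Agent.Lib.MP_db6a6f_al.Scalar
import Pool.Agent.Lib.MP_db6a6f_al.TwEx
import Pool.Agent.Lib.MP_db6a6f_al.TwDim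
import Pool.Agent.Lib.MP_db6a6f_al.Ram
import Pool.Agent.Lib.MP_db6a6f_al.Unr
import Pool.Agent.Lib.MP_db6a6f_al.Sel
import Pool.Agent.Lib.MP_db6a6f_al.Ext
import Pool.Agent.Lib.MP_db6a6f_al.Dec
import Pool.Agent.Lib.MP_db6a6f_al.T1
import Pool.Agent.Lib.MP_db6a6f_al.Fold
import Pool.Agent.Lib.MP_db6a6f_al.Split
import Pool.Agent.Lib.MP_db6a6f_al.Int
import Pool.Agent.Lib.MP_db6a6f_al.GroupMax

set_option autoImplicit false

/-! Assembly. -/

namespace Pool.Agent.Lib.MP_db6a6f_al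

theorem coreStmt : CoreStmt :=
  core det aug finInd dual ann (twDim twEx scalar) ram unr (sel maxSel conn sep) glue inj

theorem herStmt : HerStmt := her mv

theorem mainStmt : MainStmt := main (dec coreStmt groupLemma) t1 (split fold herStmt)

theorem intStmt : IntStmt := int mainStmt mv

/-- The theorem, for the dimensions given by the formula of Davis. -/
theorem coxeter : ∀ n : ℕ, 3 ≤ n → ∀ (m : ℕ) (M : CoxeterMatrix (Fin m)),
    ¬ (HasBdDim ℤ M n ∧ HasBdDim ℚ M 1) :=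
  cox fold herStmt intStmt

end Pool.Agent.Lib.MP_db6a6f_al
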