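import Pool.Agent.Lib.MP_db6a6f_al.Davis

set_option autoImplicit false

/-! The descents of an element of a Coxeter group generate a finite subgroup. -/

namespace Pool.Agent.Lib.MP_db6a6f_al

variable {m : ℕ}

/-- If all the generators in `T` are descents of `w`, every reduced word in the letters of `T` is
the end of a reduced word of `w`. -/
theorem desc_claim (hE : ExchStmt) (M : CoxeterMatrix (Fin m)) (w : M.Group)
    (T : Finset (Fin m))
    (hT : ∀ i ∈ T, M.toCoxeterSystem.length (w * M.simple i) < M.toCoxeterSystem.length w)
    (η : List (Fin m)) :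
    (∀ i ∈ η, i ∈ T) → M.toCoxeterSystem.IsReduced η →
    ∃ ξ : List (Fin m), M.toCoxeterSystem.IsReduced (ξ ++ η) ∧
      M.toCoxeterSystem.wordProd (ξ ++ η) = w := by
  induction η using List.reverseRecOn with
  | nil =>
    intro _ _
    obtain ⟨ω, h1, h2⟩ := M.toCoxeterSystem.exists_isReduced w
    exact ⟨ω, by simpa using h1, by simpa using h2.symm⟩
  | append_singleton η i ih =>
    intro hη hred
    have hη' : ∀ j ∈ η, j ∈ T := fun j hj => hη j (by simp [hj])
    have hi : i ∈ T := hη i (by simp)
    have hred' : M.toCoxeterSystem.IsReduced η := by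
      have := hred.take η.length
      simpa using this
    obtain ⟨ξ, h1, h2⟩ := ih hη' hred'
    have h3 := hT i hi
    rw [← h2] at h3
    obtain ⟨j, hj, he⟩ := hE m M (ξ ++ η) i h3
    have hs : M.toCoxeterSystem.simple i = M.simple i := by simp
    have hss : M.simple i * M.simple i = 1 := by
      rw [← hs]; exact M.toCoxeterSystem.simple_mul_simple_self i
    by_cases hjξ : j < ξ.length
    · have hprod : M.toCoxeterSystem.wordProd (ξ.eraseIdx j ++ (η ++ [i])) = w := by
        rw [← List.append_assoc, CoxeterSystem.wordProd_append,
          ← List.eraseIdx_append_of_lt_length hjξ, ← he, CoxeterSystem.wordProd_singleton, hs,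
          mul_assoc, hss, mul_one, h2]
      refine ⟨ξ.eraseIdx j, ?_, hprod⟩
      unfold CoxeterSystem.IsReduced at h1 ⊢
      rw [hprod, ← h2, h1]
      simp only [List.length_append, List.length_cons, List.length_nil]
      rw [List.length_eraseIdx_of_lt hjξ]
      omega
    · exfalso
      have hle : ξ.length ≤ j := not_lt.mp hjξ
      rw [List.eraseIdx_append_of_length_le hle, CoxeterSystem.wordProd_append,
        CoxeterSystem.wordProd_append, mul_assoc] at he
      have he' := mul_left_cancel he
      have hlen := M.toCoxeterSystem.length_wordProd_le (η.eraseIdx (j - ξ.length))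
      rw [← he', List.length_eraseIdx_of_lt (by rw [List.length_append] at hj; omega)] at hlen
      unfold CoxeterSystem.IsReduced at hred
      rw [CoxeterSystem.wordProd_append, CoxeterSystem.wordProd_singleton, hs] at hred
      rw [hred] at hlen
      simp only [List.length_append, List.length_cons, List.length_nil] at hlen
      omega

/-- B3: the descents of an element generate a finite subgroup. -/
theorem desc (hE : ExchStmt) (hR : RedStmt) : DescStmt := by
  intro m M w T hT
  rw [mem_nerve]
  have hfin : {g : M.Group | M.toCoxeterSystem.length g ≤ M.toCoxeterSystem.length w}.Finite := by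
    refine ((List.finite_length_le (Fin m) (M.toCoxeterSystem.length w)).image
      M.toCoxeterSystem.wordProd).subset ?_
    intro g hg
    obtain ⟨ω, h1, h2⟩ := M.toCoxeterSystem.exists_isReduced g
    refine ⟨ω, ?_, h2.symm⟩
    have h3 : M.toCoxeterSystem.length g = ω.length := by rw [h2]; exact h1
    have h4 : M.toCoxeterSystem.length g ≤ M.toCoxeterSystem.length w := hg
    show ω.length ≤ M.toCoxeterSystem.length w
    omega
  have hsub : ((WT M T : Subgroup M.Group) : Set M.Group) ⊆
      {g : M.Group | M.toCoxeterSystem.length g ≤ M.toCoxeterSystem.length w} := by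
    intro g hg
    obtain ⟨η, h1, h2, h3⟩ := hR m M T g hg
    obtain ⟨ξ, h4, h5⟩ := desc_claim hE M w T hT η h1 h2
    show M.toCoxeterSystem.length g ≤ M.toCoxeterSystem.length w
    have h6 : M.toCoxeterSystem.length g = η.length := by rw [h3]; exact h2
    have h7 : M.toCoxeterSystem.length w = (ξ ++ η).length := by rw [← h5]; exact h4
    rw [h6, h7, List.length_append]
    omega
  exact (hfin.subset hsub).to_subtype

end Pool.Agent.Lib.MP_db6a6f_al
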