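import Pool.Agent.Lib.MP_db6a6f_al.Davis

set_option autoImplicit false

/-! B1: the exchange condition for Coxeter groups, by the reflection cocycle. -/

namespace Pool.Agent.Lib.MP_db6a6f_al

open Finset

namespace Exch

open Classical in
/-- The action of a generator on pairs (element, parity). -/
noncomputable def act {B W : Type*} [Group W] {M : CoxeterMatrix B} (cs : CoxeterSystem M W)
    (i : B) : Function.End (W × ZMod 2) :=
  fun p => (cs.simple i * p.1 * cs.simple i, p.2 + if p.1 = cs.simple i then 1 else 0)

section

variable {B W : Type*} [Group W] {M : CoxeterMatrix B} (cs : CoxeterSystem M W)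

open Classical in
theorem act_apply (i : B) (r : W) (e : ZMod 2) :
    act cs i (r, e) = (cs.simple i * r * cs.simple i, e + if r = cs.simple i then 1 else 0) := rfl

/-- Sliding a generator through a power. -/
theorem slide (a b : W) (n : ℕ) : a * (b * a) ^ n = (a * b) ^ n * a := by
  induction n with
  | zero => simp
  | succ n ih => rw [pow_succ, ← mul_assoc, ih, pow_succ]; simp only [mul_assoc]

theorem gen1 {A A' b r : W} (h1 : A * A' = 1) (h1' : A' * A = 1) (hs : b * A = A' * b) :
    A * r * A' = b ↔ r = A' * A' * b := by
  constructor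
  · intro h
    have h2 : A' * (A * r * A') * A = r := by
      rw [show A' * (A * r * A') * A = (A' * A) * r * (A' * A) by simp only [mul_assoc], h1',
        one_mul, mul_one]
    rw [← h2, h, mul_assoc A' b A, hs, mul_assoc]
  · intro h
    rw [h, show A * (A' * A' * b) * A' = (A * A') * (A' * b) * A' by simp only [mul_assoc], h1,
      one_mul, ← hs, mul_assoc, h1, mul_one]

theorem gen2 {A A' b a r : W} (h1 : A * A' = 1) (h1' : A' * A = 1) (hb : b * b = 1)
    (hs : b * A = A' * b) :
    b * (A * r * A') * b = a ↔ r = A' * (b * a) * A' * b := by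
  constructor
  · intro h
    have h2 : A' * (b * (b * (A * r * A') * b) * b) * A = r := by
      rw [show A' * (b * (b * (A * r * A') * b) * b) * A =
        A' * ((b * b) * A * r * A' * (b * b)) * A by simp only [mul_assoc], hb,
        one_mul, mul_one, show A' * (A * r * A') * A = (A' * A) * r * (A' * A) by
          simp only [mul_assoc], h1', one_mul, mul_one]
    rw [← h2, h]
    simp only [mul_assoc]
    rw [hs]
  · intro h
    rw [h, show b * (A * (A' * (b * a) * A' * b) * A') * b =
      b * ((A * A') * (b * a) * (A' * b) * A') * b by simp only [mul_assoc], h1, one_mul, ← hs,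
      show b * (b * a * (b * A) * A') * b = (b * b) * a * b * (A * A') * b by
        simp only [mul_assoc], h1, hb, one_mul, mul_one, mul_assoc, hb, mul_one]

open Classical in
theorem act_pow (i j : B) (n : ℕ) (r : W) (e : ZMod 2) :
    ((act cs i * act cs j) ^ n) (r, e) =
      ((cs.simple i * cs.simple j) ^ n * r * ((cs.simple i * cs.simple j) ^ n)⁻¹,
        e + ∑ k ∈ range (2 * n),
          if r = (cs.simple j * cs.simple i) ^ k * cs.simple j then (1 : ZMod 2) else 0) := by
  induction n with
  | zero => simp; rfl
  | succ n ih =>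
    have hjj : cs.simple j * cs.simple j = 1 := cs.simple_mul_simple_self j
    have hi : (cs.simple i)⁻¹ = cs.simple i := cs.inv_simple i
    have hj : (cs.simple j)⁻¹ = cs.simple j := cs.inv_simple j
    have hinv : ((cs.simple i * cs.simple j) ^ n)⁻¹ = (cs.simple j * cs.simple i) ^ n := by
      rw [← inv_pow, mul_inv_rev, hi, hj]
    have hone : (cs.simple i * cs.simple j) ^ n * (cs.simple j * cs.simple i) ^ n = 1 := by
      rw [← hinv, mul_inv_cancel]
    have hone' : (cs.simple j * cs.simple i) ^ n * (cs.simple i * cs.simple j) ^ n = 1 := by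
      rw [← hinv, inv_mul_cancel]
    have hslide := slide (cs.simple j) (cs.simple i) n
    rw [pow_succ', show ((act cs i * act cs j) * (act cs i * act cs j) ^ n) (r, e) =
      act cs i (act cs j (((act cs i * act cs j) ^ n) (r, e))) from rfl, ih, act_apply, act_apply,
      show 2 * (n + 1) = 2 * n + 1 + 1 by ring, sum_range_succ, sum_range_succ]
    have h1 : ((cs.simple i * cs.simple j) ^ n * r * ((cs.simple i * cs.simple j) ^ n)⁻¹ =
        cs.simple j) ↔ (r = (cs.simple j * cs.simple i) ^ (2 * n) * cs.simple j) := by
      rw [hinv, gen1 hone hone' hslide, two_mul, pow_add]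
    have h2 : (cs.simple j * ((cs.simple i * cs.simple j) ^ n * r *
        ((cs.simple i * cs.simple j) ^ n)⁻¹) * cs.simple j = cs.simple i) ↔
        (r = (cs.simple j * cs.simple i) ^ (2 * n + 1) * cs.simple j) := by
      rw [hinv, gen2 hone hone' hjj hslide, show 2 * n + 1 = n + 1 + n by ring, pow_add, pow_add,
        pow_one]
    apply Prod.ext
    · simp only
      rw [pow_succ', mul_inv_rev, mul_inv_rev, hi, hj]
      simp only [mul_assoc]
    · simp only
      rw [if_congr h1 rfl rfl, if_congr h2 rfl rfl]
      simp only [add_assoc]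

theorem liftable : M.IsLiftable (act cs) := by
  classical
  intro i j
  funext p
  obtain ⟨r, e⟩ := p
  rw [act_pow]
  have h1 : (cs.simple i * cs.simple j) ^ M i j = 1 := cs.simple_mul_simple_pow i j
  have h2 : (cs.simple j * cs.simple i) ^ M i j = 1 := cs.simple_mul_simple_pow' i j
  rw [h1, two_mul, sum_range_add]
  have h3 : ∀ k, (if r = (cs.simple j * cs.simple i) ^ (M i j + k) * cs.simple j
      then (1 : ZMod 2) else 0) =
      if r = (cs.simple j * cs.simple i) ^ k * cs.simple j then (1 : ZMod 2) else 0 := by
    intro k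
    rw [pow_add, h2, one_mul]
  rw [sum_congr rfl fun k _ => h3 k, CharTwo.add_self_eq_zero]
  simp
  rfl

/-- The reflection cocycle as a homomorphism. -/
noncomputable def phi : W →* Function.End (W × ZMod 2) := cs.lift ⟨act cs, liftable cs⟩

theorem phi_simple (i : B) : phi cs (cs.simple i) = act cs i :=
  cs.lift_apply_simple (liftable cs) i

open Classical in
theorem phi_word (ω : List B) (r : W) (e : ZMod 2) :
    phi cs (cs.wordProd ω) (r, e) =
      (cs.wordProd ω * r * (cs.wordProd ω)⁻¹, e + ((cs.rightInvSeq ω).count r : ZMod 2)) := by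
  induction ω with
  | nil => simp [Function.End.one_def]
  | cons i ω ih =>
    rw [cs.wordProd_cons, map_mul, show (phi cs (cs.simple i) * phi cs (cs.wordProd ω)) (r, e) =
      phi cs (cs.simple i) (phi cs (cs.wordProd ω) (r, e)) from rfl, ih, phi_simple, act_apply]
    have h1 : (cs.wordProd ω * r * (cs.wordProd ω)⁻¹ = cs.simple i) ↔
        ((cs.wordProd ω)⁻¹ * cs.simple i * cs.wordProd ω = r) := by
      constructor
      · intro h; rw [← h]; group
      · intro h; rw [← h]; group
    apply Prod.ext
    · simp only
      rw [mul_inv_rev, cs.inv_simple]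
      simp only [mul_assoc]
    · simp only
      rw [if_congr h1 rfl rfl, CoxeterSystem.rightInvSeq, List.count_cons, add_assoc]
      congr 1
      push_cast
      congr 1
      by_cases h : (cs.wordProd ω)⁻¹ * cs.simple i * cs.wordProd ω = r
      · simp [h]
      · simp [h]

theorem mem_ris (ω : List B) (i : B)
    (h : cs.length (cs.wordProd ω * cs.simple i) < cs.length (cs.wordProd ω)) :
    cs.simple i ∈ cs.rightInvSeq ω := by
  classical
  by_contra hn
  have hc : (cs.rightInvSeq ω).count (cs.simple i) = 0 := List.count_eq_zero.mpr hn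
  obtain ⟨η, hη, hη2⟩ := cs.exists_isReduced (cs.wordProd ω * cs.simple i)
  have h1 : phi cs (cs.wordProd η) (cs.simple i, 0) =
      phi cs (cs.wordProd ω) (act cs i (cs.simple i, 0)) := by
    rw [← hη2, map_mul, phi_simple]
    rfl
  rw [act_apply, cs.simple_mul_simple_self, one_mul, if_pos rfl, phi_word, phi_word, hc] at h1
  have h2 := congrArg Prod.snd h1
  simp only at h2
  have h3 : cs.simple i ∈ cs.rightInvSeq η := by
    by_contra hn'
    rw [List.count_eq_zero.mpr hn'] at h2
    revert h2
    decide
  have h4 := (cs.isRightInversion_of_mem_rightInvSeq hη h3).2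
  rw [← hη2, cs.simple_mul_simple_cancel_right] at h4
  omega

end

end Exch

open Exch in
/-- B1: the exchange condition. -/
theorem exch : ExchStmt := by
  intro m M ω i h
  have h1 := mem_ris M.toCoxeterSystem ω i (by simpa using h)
  obtain ⟨j, hj, hj2⟩ := List.mem_iff_getElem.mp h1
  have hj' : j < ω.length := by simpa using hj
  refine ⟨j, hj', ?_⟩
  rw [← M.toCoxeterSystem.wordProd_mul_getD_rightInvSeq, List.getD_eq_getElem _ 1 hj, hj2,
    CoxeterMatrix.toCoxeterSystem_simple]

end Pool.Agent.Lib.MP_db6a6f_al
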