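import Pool.Agent.Lib.MP_db6a6f_al.FlagUp

set_option autoImplicit false

/-! F4: from the flags to the faces. -/

namespace Pool.Agent.Lib.MP_db6a6f_al

open Finset

open FlagUpAux in
/-- F4. -/
theorem flagDn (h1 : LamStmt) (h2 : RhoStmt) (h3 : RhoLamStmt) : FlagDownStmt := by
  intro α _ R _ L T k hL hR g hg
  have hz : ∀ τ ∈ L, Disjoint τ T → τ.card = k + 2 → dl g τ = 0 := by
    intro τ hτ hτT hτk
    exact hg τ (mem_LD.mpr ⟨hτ, disjoint_empty_right _, hτT, by rwa [union_empty]⟩) hτk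
  obtain ⟨b, hb, hb'⟩ := hR (lam T g) (fun χ _ _ hU => lam_rel T g hU) (fun χ hχ hk => by
    rw [h1 α R T g χ hχ.2, lam_zero hL hz hχ (by omega), neg_zero])
  refine ⟨fun τ => - rho k b τ, fun σ hσ hk => ?_⟩
  rw [mem_LD] at hσ
  have e1 := h3 α R (k + 1) T σ g hk hσ.2.2.1
  have e2 : rho (k + 1) (lam T g) σ = rho (k + 1) (dP b) σ :=
    rho_eq hL hσ.1 hk fun χ hχ hc _ => hb' χ hχ hc
  have e3 := rho_dP h2 hL (T := T) (k := k) (c := b) hb hσ.1 hσ.2.2.1 hk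
  rw [← e1, e2, e3]
  unfold dl
  rw [← sum_neg_distrib]
  exact sum_congr rfl fun a _ => by rw [smul_neg]

end Pool.Agent.Lib.MP_db6a6f_al
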