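import Pool.Agent.Lib.MP_db6a6f_al.Rho

set_option autoImplicit false

/-! From the cohomology of the deletions to the relative cohomology of the order complex of the
faces. -/

namespace Pool.Agent.Lib.MP_db6a6f_al

open Finset

namespace FlagUpAux

open RhoAux

variable {α : Type} [LinearOrder α] {R : Type} [AddCommGroup R]

/-- The cochain `c` vanishes on the flags of `n` faces none of which is contained in `T`. -/
def Rl (L : Finset (Finset α)) (T : Finset α) (n : ℕ) (c : Finset (Finset α) → R) : Prop :=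
  ∀ χ, IsFl L χ → χ.card = n → (∀ U ∈ χ, ¬ U ⊆ T) → c χ = 0

/-- The cochain `c` is closed on the flags of `n` faces. -/
def Cl (L : Finset (Finset α)) (n : ℕ) (c : Finset (Finset α) → R) : Prop :=
  ∀ χ, IsFl L χ → χ.card = n → dP c χ = 0

omit [LinearOrder α] in
theorem isFl_subset {L χ χ' : Finset (Finset α)} (h : IsFl L χ) (h' : χ' ⊆ χ) : IsFl L χ' :=
  ⟨h'.trans h.1, h.2.mono (by exact_mod_cast h')⟩

theorem isFl_erase {L χ : Finset (Finset α)} (h : IsFl L χ) (p : Finset α) :
    IsFl L (χ.erase p) := isFl_subset h (erase_subset _ _)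

omit [LinearOrder α] in
theorem isFl_mono {L L' χ : Finset (Finset α)} (h : IsFl L χ) (h' : L ⊆ L') : IsFl L' χ :=
  ⟨h.1.trans h', h.2⟩

theorem isFl_insert_top {L χ : Finset (Finset α)} {σ : Finset α} (h : IsFl L χ) (hσ : σ ∈ L)
    (ht : ∀ U ∈ χ, U ⊆ σ) : IsFl L (insert σ χ) := by
  refine ⟨insert_subset hσ h.1, ?_⟩
  rw [coe_insert]
  exact h.2.insert fun U hU _ => Or.inr (ht U (by exact_mod_cast hU))

theorem isFl_insert_bot {L χ : Finset (Finset α)} (h : IsFl L χ) (h0 : ∅ ∈ L) :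
    IsFl L (insert ∅ χ) := by
  refine ⟨insert_subset h0 h.1, ?_⟩
  rw [coe_insert]
  exact h.2.insert fun U _ _ => Or.inl (empty_subset U)

theorem dP_rel {L : Finset (Finset α)} {T : Finset α} {n : ℕ} {c : Finset (Finset α) → R}
    (h : Rl L T n c) : Rl L T (n + 1) (dP c) := by
  intro χ hχ hk hU
  rw [dP_eq_dec]
  refine sum_eq_zero fun p hp => ?_
  rw [h (χ.erase p) (isFl_erase hχ p) (by rw [card_erase_of_mem hp, hk]; rfl)
    (fun U hU' => hU U (mem_of_mem_erase hU')), smul_zero]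

theorem lam_rel (T : Finset α) (g : Finset α → R) {χ : Finset (Finset α)}
    (h : ∀ U ∈ χ, ¬ U ⊆ T) : lam T g χ = 0 := by
  unfold lam
  rw [if_neg]
  rintro ⟨h1, _⟩
  rw [filter_false_of_mem h] at h1
  simp at h1

/-- A nonempty flag has a top element. -/
theorem exists_top {L χ : Finset (Finset α)} (h : IsFl L χ) (hne : χ.Nonempty) :
    ∃ V ∈ χ, ∀ U ∈ χ, U ⊆ V := by
  obtain ⟨V, hV, hmax⟩ := exists_max_image χ card hne
  refine ⟨V, hV, fun U hU => ?_⟩
  by_cases hUV : U = V
  · rw [hUV]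
  rcases h.2 (by exact_mod_cast hU) (by exact_mod_cast hV) hUV with h' | h'
  · exact h'
  · exact absurd (eq_of_subset_of_card_le h' (hmax U hU)).symm hUV

theorem lam_zero {L : Finset (Finset α)} (hL : IsCx L) {T : Finset α} {n : ℕ}
    {g : Finset α → R} (hg : ∀ τ ∈ L, Disjoint τ T → τ.card = n → g τ = 0)
    {χ : Finset (Finset α)} (hχ : IsFl L χ) (hk : χ.card = n + 1) : lam T g χ = 0 := by
  unfold lam
  split_ifs with h
  · obtain ⟨h1, h2⟩ := h
    obtain ⟨V, hV, hmax⟩ := exists_top hχ (card_pos.mp (by omega))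
    apply hg
    · refine hL V (hχ.1 hV) _ fun x hx => ?_
      rw [mem_biUnion] at hx
      obtain ⟨U, hU, hx⟩ := hx
      unfold mx at hx
      exact hmax U hU (mem_sdiff.mp (mem_filter.mp hx).1).1
    · rw [disjoint_left]
      intro x hx
      rw [mem_biUnion] at hx
      obtain ⟨U, _, hx⟩ := hx
      unfold mx at hx
      exact (mem_sdiff.mp (mem_filter.mp hx).1).2
    · omega
  · rfl

theorem rho_eq {L : Finset (Finset α)} (hL : IsCx L) {k : ℕ} {c c' : Finset (Finset α) → R}
    {σ : Finset α} (hσ : σ ∈ L) (hk : σ.card = k)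
    (h : ∀ χ, IsFl L χ → χ.card = k + 1 → (∀ U ∈ χ, U ⊆ σ) → c χ = c' χ) :
    rho k c σ = rho k c' σ :=
  rho_congr k c c' σ hk fun χ hχ hsub hc _ _ =>
    h χ ⟨fun U hU => hL σ hσ U (hsub U hU), hχ⟩ hc hsub

theorem rho_zero' (k : ℕ) (σ : Finset α) : rho k (fun _ => (0 : R)) σ = 0 := by
  have h := rho_zsmul k 0 (fun _ => (0 : R)) σ
  simpa only [zero_smul] using h

theorem rho_dP (h2 : RhoStmt) {L : Finset (Finset α)} (hL : IsCx L) {T : Finset α} {k : ℕ}
    {c : Finset (Finset α) → R} (hc : Rl L T (k + 1) c) {σ : Finset α} (hσ : σ ∈ L)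
    (hT : Disjoint σ T) (hk : σ.card = k + 1) : rho (k + 1) (dP c) σ = - dl (rho k c) σ := by
  refine h2 α R k c σ hk fun χ hχ hU hχk => hc χ ⟨fun U hU' => hL σ hσ U (hU U hU').1, hχ⟩ hχk ?_
  intro U hU' hUT
  apply (hU U hU').2
  have : U ⊆ σ ∩ T := subset_inter (hU U hU').1 hUT
  rwa [disjoint_iff_inter_eq_empty.mp hT, subset_empty] at this

theorem rho_dP_lam (h2 : RhoStmt) (h3 : RhoLamStmt) {T : Finset α} {k : ℕ} (g : Finset α → R)
    {σ : Finset α} (hT : Disjoint σ T) (hk : σ.card = k + 1) :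
    rho (k + 1) (dP (lam T g)) σ = - dl g σ := by
  rw [h2 α R k (lam T g) σ hk]
  · congr 1
    refine dl_congr fun a ha => ?_
    exact h3 α R k T (σ.erase a) g (by rw [card_erase_of_mem ha, hk]; rfl)
      (disjoint_of_subset_left (erase_subset _ _) hT)
  · intro χ _ hU _
    refine lam_rel T g fun U hU' hUT => (hU U hU').2 ?_
    have : U ⊆ σ ∩ T := subset_inter (hU U hU').1 hUT
    rwa [disjoint_iff_inter_eq_empty.mp hT, subset_empty] at this

/-- A nonempty simplex is acyclic. -/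
theorem cone_exact {S : Finset α} {v : α} (hv : v ∈ S) {k : ℕ} {f : Finset α → R}
    (hf : ∀ τ ⊆ S, τ.card = k + 1 → dl f τ = 0) :
    ∃ g : Finset α → R, ∀ τ ⊆ S, τ.card = k → f τ = dl g τ := by
  refine ⟨fun τ => if v ∈ τ then 0 else Pt v f τ, fun τ hτ hk => ?_⟩
  by_cases hvτ : v ∈ τ
  · obtain ⟨ρ, hρ, rfl⟩ : ∃ ρ, v ∉ ρ ∧ insert v ρ = τ :=
      ⟨τ.erase v, notMem_erase _ _, insert_erase hvτ⟩
    rw [dl_insert v _ hρ, if_neg hρ]
    have h : dl (Pt v (fun τ => if v ∈ τ then 0 else Pt v f τ)) ρ = 0 := by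
      unfold dl
      refine sum_eq_zero fun a _ => ?_
      have : Pt v (fun τ => if v ∈ τ then 0 else Pt v f τ) (ρ.erase a) = 0 := by
        show sg v (insert v (ρ.erase a)) •
          (if v ∈ insert v (ρ.erase a) then 0 else Pt v f (insert v (ρ.erase a))) = 0
        rw [if_pos (mem_insert_self _ _), smul_zero]
      rw [this, smul_zero]
    rw [h, sub_zero]
    unfold Pt
    rw [sg_sq_smul]
  · have h := hf (insert v τ) (insert_subset hv hτ) (by rw [card_insert_of_notMem hvτ, hk])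
    rw [dl_insert v _ hvτ] at h
    have h' : sg v (insert v τ) • sg v (insert v τ) • (f τ - dl (Pt v f) τ) = 0 := by
      rw [h, smul_zero]
    rw [sg_sq_smul, sub_eq_zero] at h'
    rw [h']
    refine dl_congr fun a _ => ?_
    rw [if_neg (fun hm => hvτ (mem_of_mem_erase hm))]

/-- The contraction of a cone over the bottom element. -/
theorem cone_bot {L : Finset (Finset α)} (h0 : ∅ ∈ L) {j : ℕ} {e : Finset (Finset α) → R}
    (he : Cl L (j + 1) e) :
    ∀ χ, IsFl L χ → χ.card = j → 0 < j →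
      e χ = dP (fun χ => if ∅ ∈ χ then 0 else e (insert ∅ χ)) χ := by
  intro χ hχ hk _
  rw [dP_eq_dec]
  by_cases hm : (∅ : Finset α) ∈ χ
  · rw [sum_eq_single_of_mem ∅ hm]
    · rw [if_neg (notMem_erase _ _), insert_erase hm]
      have : sgP (∅ : Finset α) χ = 1 := by
        rw [sgP_eq_dec, filter_false_of_mem]
        · simp
        · intro U _ h
          exact absurd h.2 (by simp)
      rw [this, one_smul]
    · intro p hp hne
      rw [if_pos (mem_erase.mpr ⟨Ne.symm hne, hm⟩), smul_zero]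
  · have h := he (insert ∅ χ) (isFl_insert_bot hχ h0) (by rw [card_insert_of_notMem hm, hk])
    rw [dP_eq_dec, sum_insert hm, erase_insert hm] at h
    have h1 : sgP (∅ : Finset α) (insert ∅ χ) = 1 := by
      rw [sgP_eq_dec, filter_false_of_mem]
      · simp
      · intro U _ h
        exact absurd h.2 (by simp)
    rw [h1, one_smul] at h
    rw [eq_neg_of_add_eq_zero_left h, ← sum_neg_distrib]
    refine sum_congr rfl fun p hp => ?_
    have hp0 : (∅ : Finset α) ≠ p := fun h => hm (h ▸ hp)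
    rw [if_neg (fun h => hm (mem_of_mem_erase h)), erase_insert_of_ne hp0]
    have h2 : sgP p (insert ∅ χ) = - sgP p χ := by
      have h3 := sgP_erase (p := p) (q := ∅) (τ := insert ∅ χ) (mem_insert_self _ _)
      have hlt : (∅ : Finset α) < p := (empty_subset p).lt_of_ne hp0
      rw [if_pos hlt] at h3
      have h4 : sgP p ((insert ∅ χ).erase ∅) = sgP p χ := by rw [erase_insert hm]
      rw [← h4]
      have h5 : sgP p ((insert ∅ χ).erase ∅) = -1 * sgP p (insert ∅ χ) := by
        rw [← h3]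
        congr 1
        ext x
        simp only [mem_erase]
      rw [h5]; ring
    rw [h2, neg_smul, neg_neg]

/-- The vanishing of the relative cohomology, by induction on the number of faces, for the classes
whose sums over the full flags vanish. -/
theorem claim (h1 : LamStmt) (h2 : RhoStmt) (h3 : RhoLamStmt) (T : Finset α) (n : ℕ) :
    ∀ L : Finset (Finset α), L.card = n → IsCx L → ∀ (j : ℕ) (c : Finset (Finset α) → R),
      Rl L T (j + 1) c → Cl L (j + 2) c →
      (∀ σ ∈ L, Disjoint σ T → σ.card = j → rho j c σ = 0) →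
      ∃ b : Finset (Finset α) → R, Rl L T j b ∧
        ∀ χ, IsFl L χ → χ.card = j + 1 → c χ = dP b χ := by
  induction n using Nat.strong_induction_on with
  | _ n ih =>
  intro L hLn hL j c hrel hcl hrho
  rcases L.eq_empty_or_nonempty with hLe | hLne
  · refine ⟨fun _ => 0, fun _ _ _ _ => rfl, ?_⟩
    intro χ hχ hk
    have := hχ.1
    rw [hLe, subset_empty] at this
    subst this
    simp at hk
  obtain ⟨σ, hσ, hmax⟩ := exists_max_image L card hLne
  have h0 : ∅ ∈ L := hL σ hσ ∅ (empty_subset _)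
  rcases j with _ | j
  · -- degree zero
    refine ⟨fun _ => 0, fun _ _ _ _ => rfl, ?_⟩
    intro χ hχ hk
    rw [dP_zero]
    obtain ⟨U, rfl⟩ := card_eq_one.mp hk
    have hc0 : c {∅} = 0 := hrho ∅ h0 (disjoint_empty_left _) card_empty
    by_cases hU : U = ∅
    · rw [hU]; exact hc0
    have hUL : U ∈ L := hχ.1 (mem_singleton_self _)
    have hfl : IsFl L (insert U {∅}) := by
      refine isFl_insert_top ⟨singleton_subset_iff.mpr h0, by simp⟩ hUL fun V hV => ?_
      rw [mem_singleton.mp hV]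
      exact empty_subset _
    have h := hcl (insert U {∅}) hfl (by
      rw [card_insert_of_notMem (by simpa using hU), card_singleton])
    rw [dP_insert_top c U {∅} (by
      intro V hV
      rw [mem_singleton.mp hV]
      exact (empty_subset U).lt_of_ne (Ne.symm hU)), hc0, smul_zero, add_zero, dP_eq_dec,
      sum_singleton, erase_singleton] at h
    have hs : sgP (∅ : Finset α) {∅} = 1 := by
      rw [sgP_eq_dec, filter_singleton, if_neg (lt_irrefl _)]
      simp
    rw [hs, one_smul] at h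
    exact h
  -- positive degree
  have hmaxσ : ∀ U ∈ L, σ ⊆ U → U = σ := fun U hU hs =>
    (eq_of_subset_of_card_le hs (hmax U hU)).symm
  have hL'L : L.erase σ ⊆ L := erase_subset _ _
  have hL' : IsCx (L.erase σ) := by
    intro U hU V hV
    refine mem_erase.mpr ⟨?_, hL U (hL'L hU) V hV⟩
    rintro rfl
    exact (mem_erase.mp hU).1 (hmaxσ U (hL'L hU) hV)
  obtain ⟨b', hb'rel, hb'⟩ := ih (L.erase σ).card (by rw [← hLn]; exact card_erase_lt_of_mem hσ)
    (L.erase σ) rfl hL' (j + 1) c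
    (fun χ hχ => hrel χ (isFl_mono hχ hL'L)) (fun χ hχ => hcl χ (isFl_mono hχ hL'L))
    (fun τ hτ => hrho τ (hL'L hτ))
  -- correction of b'
  have hh : ∀ τ ∈ L.erase σ, Disjoint τ T → τ.card = j + 1 → dl (rho j b') τ = 0 := by
    intro τ hτ hτT hτk
    have e1 := rho_dP h2 hL' hb'rel hτ hτT hτk
    have e2 : rho (j + 1) (dP b') τ = rho (j + 1) c τ :=
      rho_eq hL' hτ hτk fun χ hχ hk _ => (hb' χ hχ hk).symm
    rw [e2, hrho τ (hL'L hτ) hτT hτk] at e1
    exact neg_eq_zero.mp e1.symm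
  obtain ⟨b2, hb2def⟩ : ∃ b2 : Finset (Finset α) → R,
      b2 = fun χ => b' χ - lam T (rho j b') χ := ⟨_, rfl⟩
  have hb2 : ∀ χ, IsFl (L.erase σ) χ → χ.card = j + 2 → c χ = dP b2 χ := by
    intro χ hχ hk
    rw [hb2def, dP_sub, h1 α R T _ χ hχ.2, lam_zero hL' hh hχ hk, neg_zero, sub_zero]
    exact hb' χ hχ hk
  have hb2rel : Rl (L.erase σ) T (j + 1) b2 := by
    intro χ hχ hk hU
    rw [hb2def]
    show b' χ - lam T (rho j b') χ = 0
    rw [hb'rel χ hχ hk hU, lam_rel T _ hU, sub_zero]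
  have hb2rho : ∀ τ, Disjoint τ T → τ.card = j → rho j b2 τ = 0 := by
    intro τ hτT hτk
    rw [hb2def, rho_sub, h3 α R j T τ _ hτk hτT, sub_self]
  -- extension by zero
  obtain ⟨b3, hb3def⟩ : ∃ b3 : Finset (Finset α) → R,
      b3 = fun χ => if σ ∈ χ then 0 else b2 χ := ⟨_, rfl⟩
  have hfl' : ∀ {χ : Finset (Finset α)}, IsFl L χ → σ ∉ χ → IsFl (L.erase σ) χ := by
    intro χ hχ hm
    exact ⟨fun U hU => mem_erase.mpr ⟨fun h => hm (h ▸ hU), hχ.1 hU⟩, hχ.2⟩
  have hb3rel : Rl L T (j + 1) b3 := by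
    intro χ hχ hk hU
    rw [hb3def]
    show (if σ ∈ χ then 0 else b2 χ) = 0
    split_ifs with hm
    · rfl
    · exact hb2rel χ (hfl' hχ hm) hk hU
  have hb3dP : ∀ χ, σ ∉ χ → dP b3 χ = dP b2 χ := by
    intro χ hm
    rw [dP_eq_dec, dP_eq_dec]
    refine sum_congr rfl fun p _ => ?_
    rw [hb3def]
    show _ • (if σ ∈ χ.erase p then 0 else b2 (χ.erase p)) = _
    rw [if_neg (fun h => hm (mem_of_mem_erase h))]
  obtain ⟨c1, hc1def⟩ : ∃ c1 : Finset (Finset α) → R, c1 = fun χ => c χ - dP b3 χ := ⟨_, rfl⟩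
  have hc1rel : Rl L T (j + 2) c1 := by
    intro χ hχ hk hU
    rw [hc1def]
    show c χ - dP b3 χ = 0
    rw [hrel χ hχ hk hU, dP_rel hb3rel χ hχ hk hU, sub_zero]
  have hc1cl : Cl L (j + 3) c1 := by
    intro χ hχ hk
    rw [hc1def, dP_sub, hcl χ hχ hk, dP_dP _ hχ.2, sub_zero]
  have hc1z : ∀ χ, IsFl L χ → χ.card = j + 2 → σ ∉ χ → c1 χ = 0 := by
    intro χ hχ hk hm
    rw [hc1def]
    show c χ - dP b3 χ = 0
    rw [hb3dP χ hm, hb2 χ (hfl' hχ hm) hk, sub_self]
  have hc1rho : ∀ τ ∈ L, Disjoint τ T → τ.card = j + 1 → rho (j + 1) c1 τ = 0 := by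
    intro τ hτ hτT hτk
    rw [hc1def, rho_sub, hrho τ hτ hτT hτk, rho_dP h2 hL hb3rel hτ hτT hτk, zero_sub, neg_neg]
    unfold dl
    refine sum_eq_zero fun a ha => ?_
    have hak : (τ.erase a).card = j := by rw [card_erase_of_mem ha, hτk]; rfl
    have : rho j b3 (τ.erase a) = rho j b2 (τ.erase a) := by
      refine rho_eq hL (hL τ hτ _ (erase_subset _ _)) hak fun χ _ _ hsub => ?_
      rw [hb3def]
      show (if σ ∈ χ then 0 else b2 χ) = _
      rw [if_neg]
      intro hm
      have e1 := card_le_card (hsub σ hm)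
      have e2 := hmax τ hτ
      omega
    rw [this, hb2rho _ (disjoint_of_subset_left (erase_subset _ _) hτT) hak, smul_zero]
  -- the link of σ
  obtain ⟨e, hedef⟩ : ∃ e : Finset (Finset α) → R, e = fun χ => c1 (insert σ χ) := ⟨_, rfl⟩
  obtain ⟨D, hDdef⟩ : ∃ D : Finset (Finset α), D = σ.powerset.erase σ := ⟨_, rfl⟩
  have hmemD : ∀ U, U ∈ D ↔ U ⊂ σ := by
    intro U
    rw [hDdef, mem_erase, mem_powerset]
    exact ⟨fun h => h.2.ssubset_of_ne h.1, fun h => ⟨h.ne, h.subset⟩⟩
  have hDL' : D ⊆ L.erase σ := by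
    intro U hU
    rw [hmemD] at hU
    exact mem_erase.mpr ⟨hU.ne, hL σ hσ U hU.subset⟩
  have hDL : D ⊆ L := hDL'.trans hL'L
  have hD : IsCx D := by
    intro U hU V hV
    rw [hmemD] at hU ⊢
    exact hV.trans_ssubset hU
  have hσD : ∀ {χ : Finset (Finset α)}, IsFl D χ → σ ∉ χ := by
    intro χ hχ hm
    have := (hmemD σ).mp (hχ.1 hm)
    exact this.ne rfl
  have hins : ∀ {χ : Finset (Finset α)}, IsFl D χ → IsFl L (insert σ χ) := by
    intro χ hχ
    exact isFl_insert_top (isFl_mono hχ hDL) hσ fun U hU => ((hmemD U).mp (hχ.1 hU)).subset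
  have hecl : Cl D (j + 2) e := by
    intro χ hχ hk
    have h := hc1cl (insert σ χ) (hins hχ) (by rw [card_insert_of_notMem (hσD hχ), hk])
    rw [dP_insert_top c1 σ χ (fun U hU => (hmemD U).mp (hχ.1 hU)),
      hc1z χ (isFl_mono hχ hDL) hk (hσD hχ), smul_zero, add_zero] at h
    rw [hedef]
    exact h
  have hsuff : ∀ b1 : Finset (Finset α) → R,
      (∀ χ, IsFl D χ → χ.card = j + 1 → e χ = dP b1 χ) → (¬ σ ⊆ T → Rl D T j b1) →
      ∃ b : Finset (Finset α) → R, Rl L T (j + 1) b ∧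
        ∀ χ, IsFl L χ → χ.card = j + 1 + 1 → c χ = dP b χ := by
    intro b1 hb1 hb1rel
    obtain ⟨b4, hb4def⟩ : ∃ b4 : Finset (Finset α) → R,
      b4 = fun χ => if σ ∈ χ then b1 (χ.erase σ) else 0 := ⟨_, rfl⟩
    have hdec : ∀ χ, IsFl L χ → σ ∈ χ → IsFl D (χ.erase σ) := by
      intro χ hχ hm
      refine ⟨fun U hU => ?_, (isFl_erase hχ σ).2⟩
      rw [hmemD]
      have hU' := mem_erase.mp hU
      have hUL := hχ.1 hU'.2
      rcases hχ.2 (by exact_mod_cast hU'.2) (by exact_mod_cast hm) hU'.1 with h | h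
      · exact h.ssubset_of_ne hU'.1
      · exact absurd (hmaxσ U hUL h) hU'.1
    refine ⟨fun χ => b3 χ + b4 χ, ?_, ?_⟩
    · intro χ hχ hk hU
      show b3 χ + b4 χ = 0
      rw [hb3rel χ hχ hk hU, zero_add, hb4def]
      show (if σ ∈ χ then b1 (χ.erase σ) else 0) = 0
      split_ifs with hm
      · exact hb1rel (hU σ hm) _ (hdec χ hχ hm) (by rw [card_erase_of_mem hm, hk]; rfl)
          (fun U hU' => hU U (mem_of_mem_erase hU'))
      · rfl
    · intro χ hχ hk
      rw [dP_add]
      have hc1χ : c1 χ = c χ - dP b3 χ := by rw [hc1def]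
      have key : c1 χ = dP b4 χ := by
        by_cases hm : σ ∈ χ
        · obtain ⟨ρ, hρ, rfl⟩ : ∃ ρ, σ ∉ ρ ∧ insert σ ρ = χ :=
            ⟨χ.erase σ, notMem_erase _ _, insert_erase hm⟩
          have hρD : IsFl D ρ := by
            have := hdec _ hχ hm
            rwa [erase_insert hρ] at this
          have hρk : ρ.card = j + 1 := by
            rw [card_insert_of_notMem hρ] at hk
            omega
          rw [dP_insert_top b4 σ ρ (fun U hU => (hmemD U).mp (hρD.1 hU))]
          have e1 : b4 ρ = 0 := by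
            rw [hb4def]
            show (if σ ∈ ρ then b1 (ρ.erase σ) else 0) = 0
            rw [if_neg hρ]
          rw [e1, smul_zero, add_zero]
          have e2 : dP (fun χ => b4 (insert σ χ)) ρ = dP b1 ρ := by
            rw [dP_eq_dec, dP_eq_dec]
            refine sum_congr rfl fun p hp => ?_
            rw [hb4def]
            show _ • (if σ ∈ insert σ (ρ.erase p) then b1 ((insert σ (ρ.erase p)).erase σ)
              else 0) = _
            rw [if_pos (mem_insert_self _ _), erase_insert (fun h => hρ (mem_of_mem_erase h))]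
          rw [e2, ← hb1 ρ hρD hρk, hedef]
        · rw [hc1z χ hχ hk hm, dP_eq_dec]
          symm
          refine sum_eq_zero fun p hp => ?_
          rw [hb4def]
          show _ • (if σ ∈ χ.erase p then b1 ((χ.erase p).erase σ) else 0) = 0
          rw [if_neg (fun h => hm (mem_of_mem_erase h)), smul_zero]
      rw [← key, hc1χ]
      abel
  by_cases hσT : σ ⊆ T
  · -- the contraction of the cone
    by_cases hσ0 : σ = ∅
    · refine hsuff (fun _ => 0) (fun χ hχ hk => ?_) (fun h => absurd hσT h)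
      exfalso
      obtain ⟨U, hU⟩ := card_pos.mp (by rw [hk]; omega : 0 < χ.card)
      have := (hmemD U).mp (hχ.1 hU)
      rw [hσ0] at this
      exact not_ssubset_empty U this
    · have h0D : ∅ ∈ D := (hmemD ∅).mpr
        ((empty_subset σ).ssubset_of_ne (Ne.symm hσ0))
      exact hsuff _ (fun χ hχ hk => cone_bot h0D hecl χ hχ hk (by omega))
        (fun h => absurd hσT h)
  · have herel : Rl D T (j + 1) e := by
      intro χ hχ hk hU
      rw [hedef]
      refine hc1rel (insert σ χ) (hins hχ) (by rw [card_insert_of_notMem (hσD hχ), hk]) ?_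
      intro U hU'
      rcases mem_insert.mp hU' with rfl | hU'
      · exact hσT
      · exact hU U hU'
    -- the sum over the full flags is closed on the simplex
    have hhcl : ∀ τ ⊆ σ \ T, τ.card = j + 1 → dl (rho j e) τ = 0 := by
      intro τ hτ hτk
      have hτT : Disjoint τ T := disjoint_of_subset_left hτ sdiff_disjoint
      by_cases hτσ : τ = σ
      · have h := hc1rho τ (hτσ ▸ hσ) hτT hτk
        have h' : rho (j + 1) c1 τ = (-1 : ℤ) ^ j • dl (rho j e) τ := by
          show ∑ a ∈ τ, ((-1 : ℤ) ^ j * sg a τ) • rho j (fun χ => c1 (insert τ χ)) (τ.erase a)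
            = _
          unfold dl
          rw [smul_sum, hedef, hτσ]
          refine sum_congr rfl fun a _ => ?_
          rw [smul_smul]
        rw [h'] at h
        have h'' : (-1 : ℤ) ^ j • ((-1 : ℤ) ^ j • dl (rho j e) τ) = 0 := by rw [h, smul_zero]
        rw [smul_smul, ← pow_add, ← two_mul, pow_mul] at h''
        simpa using h''
      · have hτD : τ ∈ D := (hmemD τ).mpr ((hτ.trans sdiff_subset).ssubset_of_ne hτσ)
        have h := rho_dP h2 hD herel hτD hτT hτk
        have h' : rho (j + 1) (dP e) τ = rho (j + 1) (fun _ => 0) τ :=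
          rho_eq hD hτD hτk fun χ hχ hk _ => hecl χ hχ hk
        rw [h', rho_zero'] at h
        exact neg_eq_zero.mp h.symm
    obtain ⟨v, hv⟩ : ∃ v, v ∈ σ \ T := by
      rw [not_subset] at hσT
      obtain ⟨v, hv, hv'⟩ := hσT
      exact ⟨v, mem_sdiff.mpr ⟨hv, hv'⟩⟩
    obtain ⟨g, hg⟩ := cone_exact hv hhcl
    obtain ⟨b1, hb1rel, hb1⟩ := ih D.card (by
      rw [← hLn]
      exact lt_of_le_of_lt (card_le_card hDL') (card_erase_lt_of_mem hσ)) D rfl hD j
      (fun χ => e χ + dP (lam T g) χ)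
      (by
        intro χ hχ hk hU
        show e χ + dP (lam T g) χ = 0
        rw [herel χ hχ hk hU, dP_rel (L := D) (T := T) (n := j)
          (fun χ _ _ hU => lam_rel T g hU) χ hχ hk hU, add_zero])
      (by
        intro χ hχ hk
        rw [dP_add, hecl χ hχ hk, dP_dP _ hχ.2, add_zero])
      (by
        intro τ hτ hτT hτk
        have hτσ : τ ⊆ σ \ T := by
          intro x hx
          exact mem_sdiff.mpr ⟨((hmemD τ).mp hτ).subset hx, disjoint_left.mp hτT hx⟩
        rw [rho_add, hg τ hτσ hτk]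
        rcases j with _ | j
        · have hτ0 : τ = ∅ := card_eq_zero.mp hτk
          subst hτ0
          rw [dl_empty, zero_add]
          show dP (lam T g) {∅} = 0
          rw [dP_eq_dec, sum_singleton, erase_singleton]
          have : lam T g (∅ : Finset (Finset α)) = 0 := lam_rel T g (by simp)
          rw [this, smul_zero]
        · rw [rho_dP_lam h2 h3 g hτT hτk, add_neg_cancel])
    refine hsuff (fun χ => b1 χ - lam T g χ) ?_ ?_
    · intro χ hχ hk
      rw [dP_sub, ← hb1 χ hχ hk]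
      abel
    · intro _ χ hχ hk hU
      show b1 χ - lam T g χ = 0
      rw [hb1rel χ hχ hk hU, lam_rel T g hU, sub_zero]

end FlagUpAux

open FlagUpAux in
/-- F5. -/
theorem flagUp (h1 : LamStmt) (h2 : RhoStmt) (h3 : RhoLamStmt) : FlagUpStmt := by
  intro α _ R _ L T k hL hE c hrel hcl
  have hrel' : Rl L T (k + 2) c := hrel
  have hcl' : Cl L (k + 3) c := hcl
  obtain ⟨g, hg⟩ := hE (rho (k + 1) c) (by
    intro τ hτ hτk
    rw [mem_LD] at hτ
    have h := rho_dP h2 hL hrel' hτ.1 hτ.2.2.1 hτk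
    have h' : rho (k + 2) (dP c) τ = rho (k + 2) (fun _ => 0) τ :=
      rho_eq hL hτ.1 hτk fun χ hχ hk _ => hcl' χ hχ hk
    rw [h', rho_zero'] at h
    exact neg_eq_zero.mp h.symm)
  obtain ⟨b1, hb1rel, hb1⟩ := claim h1 h2 h3 T L.card L rfl hL (k + 1)
    (fun χ => c χ + dP (lam T g) χ)
    (by
      intro χ hχ hk hU
      show c χ + dP (lam T g) χ = 0
      rw [hrel' χ hχ hk hU, dP_rel (L := L) (T := T) (n := k + 1)
        (fun χ _ _ hU => lam_rel T g hU) χ hχ hk hU, add_zero])
    (by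
      intro χ hχ hk
      rw [dP_add, hcl' χ hχ hk, dP_dP _ hχ.2, add_zero])
    (by
      intro τ hτ hτT hτk
      rw [rho_add, rho_dP_lam h2 h3 g hτT hτk, hg τ (mem_LD.mpr
        ⟨hτ, disjoint_empty_right _, hτT, by rwa [union_empty]⟩) hτk, add_neg_cancel])
  refine ⟨fun χ => b1 χ - lam T g χ, ?_, ?_⟩
  · intro χ hχ hk hU
    show b1 χ - lam T g χ = 0
    rw [hb1rel χ hχ hk hU, lam_rel T g hU, sub_zero]
  · intro χ hχ hk
    rw [dP_sub, ← hb1 χ hχ hk]
    abel

end Pool.Agent.Lib.MP_db6a6f_al
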