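import Pool.Agent.Lib.MP_db6a6f_al.Davis

set_option autoImplicit false

/-! B7: the cohomology of the Davis complex with compact supports vanishes if the cohomology of
all the complexes `L_T` vanishes. -/

namespace Pool.Agent.Lib.MP_db6a6f_al

open Finset

variable {m : ℕ}

/-- The length of an element. -/
noncomputable def ll (M : CoxeterMatrix (Fin m)) (w : M.Group) : ℕ := M.toCoxeterSystem.length w

theorem exists_mv (M : CoxeterMatrix (Fin m)) (D : Set M.Group) :
    ∃ v : M.Group, D.Nonempty → (v ∈ D ∧ ∀ g ∈ D, ll M v ≤ ll M g) := by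
  by_cases h : D.Nonempty
  · refine ⟨Function.argminOn (ll M) D h, fun _ => ⟨Function.argminOn_mem _ _ _, fun g hg => ?_⟩⟩
    exact Function.argminOn_le (ll M) D hg
  · exact ⟨1, fun h' => absurd h' h⟩

/-- An element of minimal length of the set `D`. -/
noncomputable def mvH (M : CoxeterMatrix (Fin m)) (D : Set M.Group) : M.Group :=
  (exists_mv M D).choose

theorem mv_mem {M : CoxeterMatrix (Fin m)} {D : Set M.Group} (h : D.Nonempty) : mvH M D ∈ D :=
  ((exists_mv M D).choose_spec h).1

theorem mv_le {M : CoxeterMatrix (Fin m)} {D : Set M.Group} {g : M.Group} (hg : g ∈ D) :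
    ll M (mvH M D) ≤ ll M g :=
  ((exists_mv M D).choose_spec ⟨g, hg⟩).2 g hg

/-- The descents of `v`. -/
noncomputable def Inn (M : CoxeterMatrix (Fin m)) (v : M.Group) : Finset (Fin m) :=
  univ.filter (fun i => ll M (v * M.simple i) < ll M v)

theorem mem_Inn {M : CoxeterMatrix (Fin m)} {v : M.Group} {i : Fin m} :
    i ∈ Inn M v ↔ ll M (v * M.simple i) < ll M v := by
  unfold Inn; simp

theorem inn_nerve (hD : DescStmt) (M : CoxeterMatrix (Fin m)) (v : M.Group) :
    Inn M v ∈ nerve M :=
  hD m M v (Inn M v) (fun _ hi => mem_Inn.mp hi)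

theorem disj_mv {M : CoxeterMatrix (Fin m)} {U : Finset (Fin m)} {D : Set M.Group}
    (h : IsCell M U D) : Disjoint U (Inn M (mvH M D)) := by
  rw [Finset.disjoint_left]
  intro i hi hi2
  rw [mem_Inn] at hi2
  have h1 : mvH M D ∈ cs M U (mvH M D) := self_mem_cs _ _
  have h2 : mvH M D * M.simple i ∈ cs M U (mvH M D) := mul_mem_cs h1 (simple_mem_WT hi)
  rw [← h.eq_cs (mv_mem h.nonempty)] at h2
  exact absurd (mv_le h2) (not_le.mpr hi2)

theorem lt_of_disj (hM : MinStmt) {M : CoxeterMatrix (Fin m)} {U : Finset (Fin m)} {v g : M.Group}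
    (h : Disjoint U (Inn M v)) (hg : g ∈ cs M U v) (hne : g ≠ v) : ll M v < ll M g := by
  have h1 := hM m M U v (fun i hi hlt => (Finset.disjoint_left.mp h hi) (mem_Inn.mpr hlt))
    (v⁻¹ * g) hg (fun h' => hne (by rw [inv_mul_eq_one] at h'; exact h'.symm))
  rwa [mul_inv_cancel_left] at h1

theorem mv_cs (hM : MinStmt) {M : CoxeterMatrix (Fin m)} {U : Finset (Fin m)} {v : M.Group}
    (h : Disjoint U (Inn M v)) : mvH M (cs M U v) = v := by
  by_contra hne
  have h1 := lt_of_disj hM h (mv_mem ⟨v, self_mem_cs U v⟩) hne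
  exact absurd (mv_le (self_mem_cs U v)) (not_le.mpr h1)

/-- The coboundary at `v W_U`, where `v` is minimal, if only the faces containing `v` matter. -/
theorem cob_min (hM : MinStmt) {R : Type} [AddCommGroup R] {M : CoxeterMatrix (Fin m)}
    (H : Finset (Fin m) → Set M.Group → R) {U : Finset (Fin m)} {v : M.Group}
    (hU : U ∈ nerve M) (h : Disjoint U (Inn M v))
    (hH : ∀ t ∈ U, ∀ D', IsCell M (U.erase t) D' → ll M v < ll M (mvH M D') →
      H (U.erase t) D' = 0) :
    cob M H U (cs M U v) = dl (fun V => H V (cs M V v)) U := by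
  rw [cob_eq _ (finite_cs hU v)]
  unfold dl
  apply sum_congr rfl
  intro t ht
  congr 1
  apply Finset.sum_eq_single (cs M (U.erase t) v)
  · intro D' hD' hne
    rw [mem_faces (finite_cs hU v)] at hD'
    apply hH t ht D' hD'.1
    have h1 : mvH M D' ∈ D' := mv_mem hD'.1.nonempty
    apply lt_of_disj hM h (hD'.2 h1)
    intro h2
    apply hne
    rw [h2] at h1
    exact hD'.1.eq_cs h1
  · intro h'
    exact absurd (faces_cover (erase_subset _ _) (isCell_cs hU v) (self_mem_cs U v)) h'

/-- The coboundary of a cochain supported on cells with minimal elements in a finite set is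
finitely supported. -/
theorem csupp_cob {R : Type} [AddCommGroup R] {M : CoxeterMatrix (Fin m)}
    {G : Finset (Fin m) → Set M.Group → R} {A : Set M.Group} (hA : A.Finite)
    (hG : ∀ V D', G V D' ≠ 0 → mvH M D' ∈ A) (k : ℕ) : CSupp M (cob M G) k := by
  have hfin : (((univ : Finset (Finset (Fin m))) : Set (Finset (Fin m))) ×ˢ A).Finite :=
    (Finset.finite_toSet _).prod hA
  refine (hfin.image (fun p => (p.1, cs M p.1 p.2))).subset ?_
  rintro ⟨U, D⟩ ⟨h1, _, h3⟩
  simp only at h1 h3
  rw [cob_eq _ h1.finite] at h3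
  obtain ⟨t, _, ht2⟩ := Finset.exists_ne_zero_of_sum_ne_zero h3
  have h4 : ∑ D' ∈ faces M (U.erase t) D, G (U.erase t) D' ≠ 0 := by
    intro h'; apply ht2; rw [h', smul_zero]
  obtain ⟨D', hD', h5⟩ := Finset.exists_ne_zero_of_sum_ne_zero h4
  rw [mem_faces h1.finite] at hD'
  refine ⟨(U, mvH M D'), ⟨by simp, hG _ _ h5⟩, ?_⟩
  have h6 : mvH M D' ∈ D := hD'.2 (mv_mem hD'.1.nonempty)
  simp only [Prod.mk.injEq, true_and]
  exact (h1.eq_cs h6).symm

theorem csupp_of {R : Type} [AddCommGroup R] {M : CoxeterMatrix (Fin m)}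
    {G : Finset (Fin m) → Set M.Group → R} {A : Set M.Group} (hA : A.Finite)
    (hG : ∀ V D', G V D' ≠ 0 → mvH M D' ∈ A) (k : ℕ) : CSupp M G k := by
  have hfin : (((univ : Finset (Finset (Fin m))) : Set (Finset (Fin m))) ×ˢ A).Finite :=
    (Finset.finite_toSet _).prod hA
  refine (hfin.image (fun p => (p.1, cs M p.1 p.2))).subset ?_
  rintro ⟨U, D⟩ ⟨h1, _, h3⟩
  simp only at h1 h3
  refine ⟨(U, mvH M D), ⟨by simp, hG _ _ h3⟩, ?_⟩
  simp only [Prod.mk.injEq, true_and]
  exact (h1.eq_cs (mv_mem h1.nonempty)).symm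

theorem high_aux (hD : DescStmt) (hM : MinStmt) (M : CoxeterMatrix (Fin m)) (R : Type)
    [AddCommGroup R] (k : ℕ) (hex : ∀ T ∈ nerve M, Ex R (LD (nerve M) ∅ T) (k + 1)) (l : ℕ) :
    ∀ F : Finset (Fin m) → Set M.Group → R, CSupp M F (k + 1) →
    (∀ T D, IsCell M T D → T.card = k + 2 → cob M F T D = 0) →
    (∀ T D, IsCell M T D → T.card = k + 1 → l ≤ ll M (mvH M D) → F T D = 0) →
    ∃ G : Finset (Fin m) → Set M.Group → R, CSupp M G k ∧
      ∀ T D, IsCell M T D → T.card = k + 1 → F T D = cob M G T D := by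
  classical
  induction l with
  | zero =>
    intro F _ _ hv
    refine ⟨fun _ _ => 0, ?_, ?_⟩
    · refine Set.Finite.subset Set.finite_empty ?_
      rintro ⟨U, D⟩ ⟨_, _, h3⟩
      exact absurd rfl h3
    · intro T D hTD hc
      rw [hv T D hTD hc (Nat.zero_le _), cob_eq _ hTD.finite]
      simp
  | succ l ih =>
    intro F hF hcl hv
    -- local solutions
    have hloc : ∀ w : M.Group, ∃ g : Finset (Fin m) → R, ll M w = l →
        ∀ U ∈ LD (nerve M) ∅ (Inn M w), U.card = k + 1 → F U (cs M U w) = dl g U := by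
      intro w
      by_cases hw : ll M w = l
      · obtain ⟨g, hg⟩ := hex (Inn M w) (inn_nerve hD M w) (fun U => F U (cs M U w)) (by
          intro U hU hc
          rw [mem_LD] at hU
          have hU1 : U ∈ nerve M := hU.1
          have hU2 : Disjoint U (Inn M w) := hU.2.2.1
          rw [← cob_min hM F hU1 hU2]
          · exact hcl U _ (isCell_cs hU1 w) (by omega)
          · intro t ht D' hD' hlt
            apply hv _ _ hD'
            · rw [card_erase_of_mem ht]; omega
            · omega)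
        exact ⟨g, fun _ U hU hc => hg U hU hc⟩
      · exact ⟨fun _ => 0, fun h => absurd h hw⟩
    choose g hg using hloc
    set A : Set M.Group := {w | ll M w = l ∧ ∃ U, U ∈ nerve M ∧ Disjoint U (Inn M w) ∧
      U.card = k + 1 ∧ F U (cs M U w) ≠ 0} with hAdef
    have hA : A.Finite := by
      refine (Set.Finite.image (fun p : Finset (Fin m) × Set M.Group => mvH M p.2) hF).subset ?_
      rintro w ⟨_, U, h1, h2, h3, h4⟩
      exact ⟨(U, cs M U w), ⟨isCell_cs h1 w, h3, h4⟩, mv_cs hM h2⟩
    set G : Finset (Fin m) → Set M.Group → R := fun U D => if mvH M D ∈ A then g (mvH M D) U else 0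
      with hGdef
    have hGA : ∀ V D', G V D' ≠ 0 → mvH M D' ∈ A := by
      intro V D' h
      by_contra h'
      apply h
      simp only [hGdef, if_neg h']
    have hGc : CSupp M G k := csupp_of hA hGA k
    have hcG : CSupp M (cob M G) (k + 1) := csupp_cob hA hGA (k + 1)
    obtain ⟨G', hG'1, hG'2⟩ := ih (fun T D => F T D - cob M G T D) (hF.sub hcG) (by
      intro T D hTD hc
      rw [cob_sub _ _ hTD.finite, hcl T D hTD hc, cob_cob G hTD, sub_zero]) (by
      intro U D hUD hc hl
      have hdis := disj_mv hUD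
      have hDeq : D = cs M U (mvH M D) := hUD.eq_cs (mv_mem hUD.nonempty)
      set v := mvH M D with hvdef
      have hU1 : U ∈ nerve M := hUD.1
      have h1 : cob M G U D = dl (fun V => if v ∈ A then g v V else 0) U := by
        conv_lhs => rw [hDeq]
        rw [cob_min hM G hU1 hdis]
        · apply dl_congr
          intro t _
          have h2 : mvH M (cs M (U.erase t) v) = v :=
            mv_cs hM (hdis.mono_left (erase_subset _ _))
          simp only [hGdef, h2]
        · intro t _ D' _ hlt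
          by_contra h'
          have h3 := hGA _ _ h'
          have h4 : ll M (mvH M D') = l := h3.1
          omega
      rw [h1]
      by_cases hvA : v ∈ A
      · simp only [if_pos hvA]
        have h5 := hg v hvA.1 U (by
          rw [mem_LD]
          refine ⟨hU1, disjoint_empty_right _, hdis, ?_⟩
          rw [union_empty]; exact hU1) hc
        rw [← hDeq] at h5
        rw [← h5, sub_self]
      · simp only [if_neg hvA]
        rw [dl_zero, sub_zero]
        rcases Nat.lt_or_ge l (ll M v) with hlt | hge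
        · exact hv U D hUD hc hlt
        · by_contra hne
          apply hvA
          refine ⟨le_antisymm hge hl, U, hU1, hdis, hc, ?_⟩
          rw [← hDeq]; exact hne)
    refine ⟨fun T D => G T D + G' T D, hGc.add hG'1, ?_⟩
    intro T D hTD hc
    rw [cob_add _ _ hTD.finite, ← hG'2 T D hTD hc]
    abel

/-- B7: the other half of the formula of Davis. -/
theorem high (hD : DescStmt) (hM : MinStmt) : HighStmt := by
  intro m M R _ k hex F hF hcl
  obtain ⟨l, hl⟩ : ∃ l, ∀ T D, IsCell M T D → T.card = k + 1 → l ≤ ll M (mvH M D) → F T D = 0 := by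
    have h1 : (Set.image (fun p : Finset (Fin m) × Set M.Group => ll M (mvH M p.2))
        {p : Finset (Fin m) × Set M.Group | IsCell M p.1 p.2 ∧ p.1.card = k + 1 ∧
          F p.1 p.2 ≠ 0}).Finite := Set.Finite.image _ hF
    obtain ⟨b, hb⟩ := h1.bddAbove
    refine ⟨b + 1, fun T D hTD hc hle => ?_⟩
    by_contra hne
    have h2 := hb ⟨(T, D), ⟨hTD, hc, hne⟩, rfl⟩
    simp only at h2
    omega
  obtain ⟨G, hG1, hG2⟩ := high_aux hD hM M R k hex l F hF hcl hl
  exact ⟨G, hG1, hG2⟩

end Pool.Agent.Lib.MP_db6a6f_al
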