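import Pool.Agent.Lib.MP_db6a6f_al.Flag
import Pool.Agent.Lib.MP_db6a6f_al.High

set_option autoImplicit false

/-! F8: from the chamber to the Davis complex (order complex of the spherical cosets). -/

namespace Pool.Agent.Lib.MP_db6a6f_al

open Finset

namespace HighFAux

section generic

variable {β γ : Type} [PartialOrder β] [PartialOrder γ] {R : Type} [AddCommGroup R]

open Classical in
theorem dP_map (φ : β ↪o γ) (f : Finset γ → R) (χ : Finset β) :
    dP f (χ.map φ.toEmbedding) = dP (fun σ => f (σ.map φ.toEmbedding)) χ := by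
  unfold dP
  rw [Finset.sum_map]
  apply Finset.sum_congr rfl
  intro p _
  have h1 : sgP (φ.toEmbedding p) (χ.map φ.toEmbedding) = sgP p χ := by
    unfold sgP
    congr 1
    rw [Finset.filter_map, Finset.card_map]
    congr 1
    ext q
    simp
  rw [h1, ← Finset.map_erase]

open Classical in
theorem dP_sum {ι : Type} (s : Finset ι) (F : ι → Finset β → R) (τ : Finset β) :
    dP (fun σ => ∑ i ∈ s, F i σ) τ = ∑ i ∈ s, dP (F i) τ := by
  unfold dP
  rw [Finset.sum_comm]
  exact Finset.sum_congr rfl (fun p _ => by rw [Finset.smul_sum])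

end generic

variable {m : ℕ}

/-- The translate of the vertices of the chamber. -/
def trE (M : CoxeterMatrix (Fin m)) (g : M.Group) :
    Finset (Fin m) ↪o Finset (Fin m) × Set M.Group where
  toFun U := (U, cs M U g)
  inj' := fun U V h => (Prod.ext_iff.mp h).1
  map_rel_iff' := by
    intro U V
    constructor
    · intro h; exact h.1
    · intro h; exact ⟨h, cs_mono h g⟩

theorem trE_apply (M : CoxeterMatrix (Fin m)) (g : M.Group) (U : Finset (Fin m)) :
    trE M g U = (U, cs M U g) := rfl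

/-- The translate of a simplex of the chamber. -/
def tr (M : CoxeterMatrix (Fin m)) (g : M.Group) (χ : Finset (Finset (Fin m))) :
    Finset (Finset (Fin m) × Set M.Group) := χ.map (trE M g).toEmbedding

theorem mem_tr {M : CoxeterMatrix (Fin m)} {g : M.Group} {χ : Finset (Finset (Fin m))}
    {p : Finset (Fin m) × Set M.Group} : p ∈ tr M g χ ↔ ∃ U ∈ χ, (U, cs M U g) = p := by
  unfold tr
  rw [Finset.mem_map]
  rfl

theorem card_tr (M : CoxeterMatrix (Fin m)) (g : M.Group) (χ : Finset (Finset (Fin m))) :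
    (tr M g χ).card = χ.card := Finset.card_map _

theorem isSimp_tr {M : CoxeterMatrix (Fin m)} {χ : Finset (Finset (Fin m))}
    (h : IsFl (nerve M) χ) (g : M.Group) : IsSimp M (tr M g χ) := by
  constructor
  · intro p hp
    obtain ⟨U, hU, rfl⟩ := mem_tr.mp hp
    exact isCell_cs (h.1 hU) g
  · intro p hp q hq hpq
    obtain ⟨U, hU, rfl⟩ := mem_tr.mp (by exact_mod_cast hp)
    obtain ⟨V, hV, rfl⟩ := mem_tr.mp (by exact_mod_cast hq)
    have hne : U ≠ V := fun h' => hpq (by rw [h'])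
    rcases h.2 (by exact_mod_cast hU) (by exact_mod_cast hV) hne with h1 | h1
    · exact Or.inl ⟨h1, cs_mono h1 g⟩
    · exact Or.inr ⟨h1, cs_mono h1 g⟩

/-- The types of the vertices of a simplex. -/
def ty {M : CoxeterMatrix (Fin m)} (τ : Finset (Finset (Fin m) × Set M.Group)) :
    Finset (Finset (Fin m)) := τ.image Prod.fst

theorem ty_tr {M : CoxeterMatrix (Fin m)} (g : M.Group) (χ : Finset (Finset (Fin m))) :
    ty (tr M g χ) = χ := by
  ext U
  unfold ty
  rw [Finset.mem_image]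
  constructor
  · rintro ⟨p, hp, rfl⟩
    obtain ⟨V, hV, rfl⟩ := mem_tr.mp hp
    exact hV
  · intro hU
    exact ⟨(U, cs M U g), mem_tr.mpr ⟨U, hU, rfl⟩, rfl⟩

theorem isFl_ty {M : CoxeterMatrix (Fin m)} {τ : Finset (Finset (Fin m) × Set M.Group)}
    (h : IsSimp M τ) : IsFl (nerve M) (ty τ) := by
  constructor
  · intro U hU
    obtain ⟨p, hp, rfl⟩ := Finset.mem_image.mp hU
    exact (h.1 p hp).1
  · intro U hU V hV hne
    obtain ⟨p, hp, rfl⟩ := Finset.mem_image.mp (show U ∈ τ.image Prod.fst by exact_mod_cast hU)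
    obtain ⟨q, hq, rfl⟩ := Finset.mem_image.mp (show V ∈ τ.image Prod.fst by exact_mod_cast hV)
    have hpq : p ≠ q := fun h' => hne (by rw [h'])
    rcases h.2 (by exact_mod_cast hp) (by exact_mod_cast hq) hpq with h1 | h1
    · exact Or.inl h1.1
    · exact Or.inr h1.1

theorem exists_tr {M : CoxeterMatrix (Fin m)} {τ : Finset (Finset (Fin m) × Set M.Group)}
    (h : IsSimp M τ) : ∃ g : M.Group, τ = tr M g (ty τ) := by
  obtain ⟨g, hg⟩ : ∃ g : M.Group, ∀ p ∈ τ, g ∈ p.2 := by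
    rcases τ.eq_empty_or_nonempty with rfl | hne
    · exact ⟨1, fun p hp => absurd hp (Finset.notMem_empty p)⟩
    obtain ⟨p₀, hp₀, hmin⟩ := Finset.exists_min_image τ (fun p => p.1.card) hne
    obtain ⟨g, hg⟩ := (h.1 p₀ hp₀).nonempty
    refine ⟨g, fun q hq => ?_⟩
    by_cases hqp : q = p₀
    · rw [hqp]; exact hg
    rcases h.2 (by exact_mod_cast hq) (by exact_mod_cast hp₀) hqp with h1 | h1
    · have h2 : q.1 = p₀.1 := Finset.eq_of_subset_of_card_le h1.1 (hmin q hq)
      obtain ⟨g', hg'⟩ := (h.1 q hq).nonempty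
      have h3 : g' ∈ p₀.2 := h1.2 hg'
      have h4 : q.2 = p₀.2 := by
        rw [(h.1 q hq).eq_cs hg', (h.1 p₀ hp₀).eq_cs h3, h2]
      exact absurd (Prod.ext h2 h4) hqp
    · exact h1.2 hg
  refine ⟨g, ?_⟩
  ext p
  rw [mem_tr]
  constructor
  · intro hp
    refine ⟨p.1, Finset.mem_image_of_mem _ hp, ?_⟩
    rw [← (h.1 p hp).eq_cs (hg p hp)]
  · rintro ⟨U, hU, rfl⟩
    obtain ⟨q, hq, rfl⟩ := Finset.mem_image.mp hU
    rw [← (h.1 q hq).eq_cs (hg q hq)]
    exact hq

theorem dP_tr {R : Type} [AddCommGroup R] {M : CoxeterMatrix (Fin m)}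
    (f : Finset (Finset (Fin m) × Set M.Group) → R) (g : M.Group)
    (χ : Finset (Finset (Fin m))) :
    dP f (tr M g χ) = dP (fun σ => f (tr M g σ)) χ := dP_map (trE M g) f χ

theorem isFl_erase {α : Type} {L : Finset (Finset α)} {χ : Finset (Finset α)} (h : IsFl L χ)
    (U : Finset α) {inst : DecidableEq (Finset α)} : IsFl L (@Finset.erase _ inst χ U) :=
  ⟨(Finset.erase_subset _ _).trans h.1, h.2.mono (by exact_mod_cast Finset.erase_subset _ _)⟩

theorem card_er {α : Type} {inst : DecidableEq α} {s : Finset α} {a : α} {k : ℕ} (h : a ∈ s)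
    (hc : s.card = k + 1) : (@Finset.erase _ inst s a).card = k := by
  rw [card_erase_of_mem h, hc]; rfl

open Classical in
/-- The extension of a relative cochain of the chamber to the Davis complex. -/
noncomputable def hb {R : Type} [AddCommGroup R] (M : CoxeterMatrix (Fin m)) (T : Finset (Fin m))
    (w : M.Group) (b : Finset (Finset (Fin m)) → R)
    (τ : Finset (Finset (Fin m) × Set M.Group)) : R :=
  if ∃ p ∈ τ, p.1 ⊆ T ∧ p.2 ⊆ cs M T w then b (ty τ) else 0

theorem cond_tr {M : CoxeterMatrix (Fin m)} {T : Finset (Fin m)} {w g : M.Group}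
    {χ : Finset (Finset (Fin m))} :
    (∃ p ∈ tr M g χ, p.1 ⊆ T ∧ p.2 ⊆ cs M T w) ↔ (∃ U ∈ χ, U ⊆ T) ∧ g ∈ cs M T w := by
  constructor
  · rintro ⟨p, hp, h1, h2⟩
    obtain ⟨U, hU, rfl⟩ := mem_tr.mp hp
    exact ⟨⟨U, hU, h1⟩, h2 (self_mem_cs U g)⟩
  · rintro ⟨⟨U, hU, h1⟩, h2⟩
    refine ⟨(U, cs M U g), mem_tr.mpr ⟨U, hU, rfl⟩, h1, ?_⟩
    rw [← cs_eq_of_mem h2]
    exact cs_mono h1 g

open Classical in
theorem hb_tr {R : Type} [AddCommGroup R] {M : CoxeterMatrix (Fin m)} {T : Finset (Fin m)}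
    {w : M.Group} {b : Finset (Finset (Fin m)) → R} {k : ℕ}
    (hb0 : ∀ χ, IsFl (nerve M) χ → χ.card = k → (∀ U ∈ χ, ¬ U ⊆ T) → b χ = 0) (g : M.Group)
    {χ : Finset (Finset (Fin m))} (hχ : IsFl (nerve M) χ) (hc : χ.card = k) :
    hb M T w b (tr M g χ) = if g ∈ cs M T w then b χ else 0 := by
  unfold hb
  rw [ty_tr]
  by_cases h1 : g ∈ cs M T w
  · rw [if_pos h1]
    by_cases h2 : ∃ U ∈ χ, U ⊆ T
    · rw [if_pos (cond_tr.mpr ⟨h2, h1⟩)]
    · rw [if_neg (fun h => h2 (cond_tr.mp h).1)]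
      push Not at h2
      exact (hb0 χ hχ hc h2).symm
  · rw [if_neg h1, if_neg (fun h => h1 (cond_tr.mp h).2)]

open Classical in
theorem dP_hb {R : Type} [AddCommGroup R] {M : CoxeterMatrix (Fin m)} {T : Finset (Fin m)}
    {w : M.Group} {b : Finset (Finset (Fin m)) → R} {k : ℕ}
    (hb0 : ∀ χ, IsFl (nerve M) χ → χ.card = k → (∀ U ∈ χ, ¬ U ⊆ T) → b χ = 0) (g : M.Group)
    {χ : Finset (Finset (Fin m))} (hχ : IsFl (nerve M) χ) (hc : χ.card = k + 1) :
    dP (hb M T w b) (tr M g χ) = if g ∈ cs M T w then dP b χ else 0 := by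
  rw [dP_tr]
  rw [dP_congr (g := fun σ => if g ∈ cs M T w then b σ else 0)]
  · split_ifs with h
    · rfl
    · exact dP_zero χ
  · intro U hU
    exact hb_tr hb0 g (isFl_erase hχ U) (card_er hU hc)

/-- The simplices which are translates by elements of a finite set form a finite set. -/
theorem finite_of {M : CoxeterMatrix (Fin m)} {A : Set M.Group} (hA : A.Finite)
    {S : Set (Finset (Finset (Fin m) × Set M.Group))}
    (hS : ∀ τ ∈ S, ∃ g ∈ A, τ = tr M g (ty τ)) : S.Finite := by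
  have hfin : (A ×ˢ (Set.univ : Set (Finset (Finset (Fin m))))).Finite :=
    hA.prod Set.finite_univ
  refine (hfin.image (fun p => tr M p.1 p.2)).subset ?_
  intro τ hτ
  obtain ⟨g, hg, h⟩ := hS τ hτ
  exact ⟨(g, ty τ), ⟨hg, Set.mem_univ _⟩, h.symm⟩

/-- The translates by `w` and by `w s` agree if `s` lies in all the members of the flag. -/
theorem tr_mul {M : CoxeterMatrix (Fin m)} {χ : Finset (Finset (Fin m))} {s : Fin m}
    (hs : ∀ U ∈ χ, s ∈ U) (w : M.Group) : tr M (w * M.simple s) χ = tr M w χ := by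
  ext p
  rw [mem_tr, mem_tr]
  have h : ∀ U ∈ χ, cs M U (w * M.simple s) = cs M U w := fun U hU =>
    cs_eq_of_mem (mul_mem_cs (self_mem_cs U w) (simple_mem_WT (hs U hU)))
  constructor
  · rintro ⟨U, hU, rfl⟩
    exact ⟨U, hU, by rw [h U hU]⟩
  · rintro ⟨U, hU, rfl⟩
    exact ⟨U, hU, by rw [h U hU]⟩

theorem lt_of_not_mem_Inn {M : CoxeterMatrix (Fin m)} {w : M.Group} {s : Fin m}
    (hs : s ∉ Inn M w) : ll M w < ll M (w * M.simple s) := by
  rw [mem_Inn] at hs
  have h1 : ll M w ≤ ll M (w * M.simple s) := not_lt.mp hs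
  have h2 : ll M (w * M.simple s) ≠ ll M w := M.toCoxeterSystem.length_mul_simple_ne w s
  omega

/-- The restriction to the translate by `w` is a relative cochain. -/
theorem rel_of {R : Type} [AddCommGroup R] {M : CoxeterMatrix (Fin m)} {l k : ℕ}
    {f : Finset (Finset (Fin m) × Set M.Group) → R}
    (hv : ∀ g χ, IsFl (nerve M) χ → χ.card = k + 1 → l + 1 ≤ ll M g → f (tr M g χ) = 0)
    {w : M.Group} (hw : ll M w = l) {χ : Finset (Finset (Fin m))} (hχ : IsFl (nerve M) χ)
    (hc : χ.card = k + 1) (hT : ∀ U ∈ χ, ¬ U ⊆ Inn M w) : f (tr M w χ) = 0 := by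
  have hne : χ.Nonempty := by rw [← Finset.card_pos, hc]; omega
  obtain ⟨U₀, hU₀, hmin⟩ := Finset.exists_min_image χ Finset.card hne
  have h1 : ∀ U ∈ χ, U₀ ⊆ U := by
    intro U hU
    by_cases hUU : U = U₀
    · rw [hUU]
    rcases hχ.2 (by exact_mod_cast hU) (by exact_mod_cast hU₀) hUU with h2 | h2
    · exact absurd (Finset.eq_of_subset_of_card_le h2 (hmin U hU)) hUU
    · exact h2
  obtain ⟨s, hs, hs2⟩ := Finset.not_subset.mp (hT U₀ hU₀)
  rw [← tr_mul (fun U hU => h1 U hU hs) w]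
  apply hv _ _ hχ hc
  have := lt_of_not_mem_Inn hs2
  omega

theorem aux (hD : DescStmt) (hL : LongStmt) (M : CoxeterMatrix (Fin m)) (R : Type)
    [AddCommGroup R] (k : ℕ) (hex : ∀ T ∈ nerve M, RelEx R (nerve M) T (k + 1)) (l : ℕ) :
    ∀ f : Finset (Finset (Fin m) × Set M.Group) → R,
    {τ | IsSimp M τ ∧ τ.card = k + 2 ∧ f τ ≠ 0}.Finite →
    (∀ τ, IsSimp M τ → τ.card = k + 3 → dP f τ = 0) →
    (∀ g χ, IsFl (nerve M) χ → χ.card = k + 2 → l ≤ ll M g → f (tr M g χ) = 0) →
    ∃ g : Finset (Finset (Fin m) × Set M.Group) → R,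
      {τ | IsSimp M τ ∧ τ.card = k + 1 ∧ g τ ≠ 0}.Finite ∧
      ∀ τ, IsSimp M τ → τ.card = k + 2 → f τ = dP g τ := by
  classical
  induction l with
  | zero =>
    intro f _ _ hv
    refine ⟨fun _ => 0, ?_, ?_⟩
    · refine Set.Finite.subset Set.finite_empty ?_
      rintro τ ⟨_, _, h3⟩
      exact absurd rfl h3
    · intro τ hτ hc
      obtain ⟨g, hg⟩ := exists_tr hτ
      rw [dP_zero]
      have hc2 : (ty τ).card = k + 2 := by
        rw [← hc]; conv_rhs => rw [hg]
        rw [card_tr]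
      rw [hg]
      exact hv g _ (isFl_ty hτ) hc2 (Nat.zero_le _)
  | succ l ih =>
    intro f hf hcl hv
    -- local solutions
    have hloc : ∀ w : M.Group, ∃ b : Finset (Finset (Fin m)) → R, ll M w = l →
        (∀ χ, IsFl (nerve M) χ → χ.card = k + 1 → (∀ U ∈ χ, ¬ U ⊆ Inn M w) → b χ = 0) ∧
        ∀ χ, IsFl (nerve M) χ → χ.card = k + 2 → f (tr M w χ) = dP b χ := by
      intro w
      by_cases hw : ll M w = l
      · obtain ⟨b, hb1, hb2⟩ := hex (Inn M w) (inn_nerve hD M w) (fun χ => f (tr M w χ))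
          (fun χ hχ hc hT => rel_of hv hw hχ hc hT)
          (fun χ hχ hc => by
            rw [← dP_tr]
            exact hcl _ (isSimp_tr hχ w) (by rw [card_tr, hc]))
        exact ⟨b, fun _ => ⟨hb1, hb2⟩⟩
      · exact ⟨fun _ => 0, fun h => absurd h hw⟩
    choose b hb' using hloc
    set A : Set M.Group := {w | ll M w = l ∧ ∃ χ, IsFl (nerve M) χ ∧ χ.card = k + 2 ∧
      f (tr M w χ) ≠ 0} with hAdef
    -- the elements of `A` lie in the cells of the support of `f`
    have hA : A.Finite := by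
      have h1 : (⋃ τ ∈ {τ | IsSimp M τ ∧ τ.card = k + 2 ∧ f τ ≠ 0},
          ⋃ p ∈ {p : Finset (Fin m) × Set M.Group | p ∈ τ ∧ IsCell M p.1 p.2}, p.2).Finite := by
        refine hf.biUnion (fun τ _ => ?_)
        refine Set.Finite.biUnion ?_ (fun p hp => hp.2.finite)
        exact (Finset.finite_toSet τ).subset (fun p hp => hp.1)
      refine h1.subset ?_
      rintro w ⟨_, χ, hχ, hc, hne⟩
      have h2 : χ.Nonempty := by rw [← Finset.card_pos, hc]; omega
      obtain ⟨U, hU⟩ := h2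
      simp only [Set.mem_iUnion]
      exact ⟨tr M w χ, ⟨isSimp_tr hχ w, by rw [card_tr, hc], hne⟩, (U, cs M U w),
        ⟨mem_tr.mpr ⟨U, hU, rfl⟩, isCell_cs (hχ.1 hU) w⟩, self_mem_cs U w⟩
    set G : Finset (Finset (Fin m) × Set M.Group) → R :=
      fun τ => ∑ w ∈ hA.toFinset, hb M (Inn M w) w (b w) τ with hGdef
    set B : Set M.Group := ⋃ w ∈ A, cs M (Inn M w) w with hBdef
    have hB : B.Finite := hA.biUnion (fun w _ => finite_cs (inn_nerve hD M w) w)
    have hGtr : ∀ g χ, IsFl (nerve M) χ → χ.card = k + 1 → G (tr M g χ) ≠ 0 → g ∈ B := by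
      intro g χ hχ hc hne
      obtain ⟨w, hw, hw2⟩ := Finset.exists_ne_zero_of_sum_ne_zero hne
      rw [Set.Finite.mem_toFinset] at hw
      rw [hb_tr (hb' w hw.1).1 g hχ hc] at hw2
      rw [hBdef]
      simp only [Set.mem_iUnion]
      refine ⟨w, hw, ?_⟩
      by_contra h
      exact hw2 (if_neg h)
    have hcty : ∀ {τ : Finset (Finset (Fin m) × Set M.Group)} {g : M.Group},
        τ = tr M g (ty τ) → (ty τ).card = τ.card := by
      intro τ g h
      conv_rhs => rw [h]
      rw [card_tr]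
    have hGc : {τ | IsSimp M τ ∧ τ.card = k + 1 ∧ G τ ≠ 0}.Finite := by
      refine finite_of hB ?_
      rintro τ ⟨h1, h2, h3⟩
      obtain ⟨g, hg⟩ := exists_tr h1
      refine ⟨g, ?_, hg⟩
      rw [hg] at h3
      exact hGtr g _ (isFl_ty h1) (by rw [hcty hg, h2]) h3
    have hdGc : {τ | IsSimp M τ ∧ τ.card = k + 2 ∧ dP G τ ≠ 0}.Finite := by
      refine finite_of hB ?_
      rintro τ ⟨h1, h2, h3⟩
      obtain ⟨g, hg⟩ := exists_tr h1
      refine ⟨g, ?_, hg⟩
      rw [hg, dP_tr] at h3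
      unfold dP at h3
      obtain ⟨U, hU, hU2⟩ := Finset.exists_ne_zero_of_sum_ne_zero h3
      have h4 := right_ne_zero_of_smul hU2
      exact hGtr g _ (isFl_erase (isFl_ty h1) U) (card_er hU (by rw [hcty hg, h2])) h4
    have hdG : ∀ g χ, IsFl (nerve M) χ → χ.card = k + 2 → l ≤ ll M g →
        dP G (tr M g χ) = if g ∈ A then f (tr M g χ) else 0 := by
      intro g χ hχ hc hl
      have h1 : dP G (tr M g χ) = ∑ w ∈ hA.toFinset, dP (hb M (Inn M w) w (b w)) (tr M g χ) :=
        dP_sum _ _ _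
      rw [h1]
      have h2 : ∀ w ∈ hA.toFinset, dP (hb M (Inn M w) w (b w)) (tr M g χ) =
          if g = w then f (tr M w χ) else 0 := by
        intro w hw
        rw [Set.Finite.mem_toFinset] at hw
        rw [dP_hb (hb' w hw.1).1 g hχ hc]
        by_cases hgw : g = w
        · subst hgw
          rw [if_pos (self_mem_cs _ _), if_pos rfl]
          exact ((hb' g hw.1).2 χ hχ hc).symm
        · rw [if_neg hgw, if_neg]
          intro hmem
          have h3 := hL m M w (Inn M w) (fun i hi => mem_Inn.mp hi) (w⁻¹ * g) hmem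
            (fun h' => hgw (by rw [inv_mul_eq_one] at h'; exact h'.symm))
          rw [mul_inv_cancel_left] at h3
          have h4 : ll M g < ll M w := h3
          have h5 := hw.1
          omega
      rw [Finset.sum_congr rfl h2, Finset.sum_ite_eq]
      simp only [Set.Finite.mem_toFinset]
    obtain ⟨G', hG'1, hG'2⟩ := ih (fun τ => f τ - dP G τ) (by
      refine (hf.union hdGc).subset ?_
      rintro τ ⟨h1, h2, h3⟩
      by_cases h : f τ = 0
      · right
        refine ⟨h1, h2, fun h' => h3 ?_⟩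
        simp only [h, h', sub_zero]
      · exact Or.inl ⟨h1, h2, h⟩) (by
      intro τ hτ hc
      rw [dP_sub, hcl τ hτ hc]
      have h1 : dP (fun σ => dP G σ) τ = 0 := dP_dP G hτ.2
      rw [h1, sub_zero]) (by
      intro g χ hχ hc hl
      show f (tr M g χ) - dP G (tr M g χ) = 0
      rw [hdG g χ hχ hc hl]
      by_cases hgA : g ∈ A
      · rw [if_pos hgA, sub_self]
      · rw [if_neg hgA, sub_zero]
        rcases Nat.lt_or_ge l (ll M g) with hlt | hge
        · exact hv g χ hχ hc hlt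
        · by_contra hne
          exact hgA ⟨le_antisymm hge hl, χ, hχ, hc, hne⟩)
    refine ⟨fun τ => G τ + G' τ, ?_, ?_⟩
    · refine (hGc.union hG'1).subset ?_
      rintro τ ⟨h1, h2, h3⟩
      by_cases h : G τ = 0
      · right
        refine ⟨h1, h2, fun h' => h3 ?_⟩
        simp only [h, h', add_zero]
      · exact Or.inl ⟨h1, h2, h⟩
    · intro τ hτ hc
      rw [dP_add, ← hG'2 τ hτ hc]
      abel

end HighFAux

open HighFAux in
/-- F8: from the chamber to the Davis complex. -/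
theorem highF (hD : DescStmt) (hL : LongStmt) : HighFStmt := by
  intro m M R _ k hex f hf hcl
  obtain ⟨l, hl⟩ : ∃ l, ∀ g χ, IsFl (nerve M) χ → χ.card = k + 2 → l ≤ ll M g →
      f (tr M g χ) = 0 := by
    have h1 : (⋃ τ ∈ {τ | IsSimp M τ ∧ τ.card = k + 1 + 1 ∧ f τ ≠ 0},
        ⋃ p ∈ {p : Finset (Fin m) × Set M.Group | p ∈ τ ∧ IsCell M p.1 p.2}, p.2).Finite := by
      refine hf.biUnion (fun τ _ => ?_)
      refine Set.Finite.biUnion ?_ (fun p hp => hp.2.finite)
      exact (Finset.finite_toSet τ).subset (fun p hp => hp.1)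
    obtain ⟨b, hb⟩ := (h1.image (ll M)).bddAbove
    refine ⟨b + 1, fun g χ hχ hc hle => ?_⟩
    by_contra hne
    have h2 : χ.Nonempty := by rw [← Finset.card_pos, hc]; omega
    obtain ⟨U, hU⟩ := h2
    have h3 := hb ⟨g, by
      simp only [Set.mem_iUnion]
      exact ⟨tr M g χ, ⟨isSimp_tr hχ g, by rw [card_tr, hc], hne⟩, (U, cs M U g),
        ⟨mem_tr.mpr ⟨U, hU, rfl⟩, isCell_cs (hχ.1 hU) g⟩, self_mem_cs U g⟩, rfl⟩
    omega
  exact aux hD hL M R k hex l f hf hcl hl

end Pool.Agent.Lib.MP_db6a6f_al
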