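import Pool.Agent.Lib.MP_db6a6f_al.Flag

set_option autoImplicit false

/-! The map sending a face to the largest element outside `T` (and to the cone point if there is
none) is simplicial and monotone, so the pullback commutes with the coboundary. -/

namespace Pool.Agent.Lib.MP_db6a6f_al

open Finset

namespace LamAux

section general

variable {β γ : Type} [PartialOrder β] [LinearOrder γ] {R : Type} [AddCommGroup R]

/-- The pullback of a cochain under a map. -/
noncomputable def pull (φ : β → γ) (G : Finset γ → R) (χ : Finset β) : R :=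
  if (χ.image φ).card = χ.card then G (χ.image φ) else 0

open Classical in
/-- The pullback under a monotone map commutes with the coboundary. -/
theorem dP_pull (φ : β → γ) (G : Finset γ → R) (χ : Finset β)
    (hχ : IsChain (· ≤ ·) (χ : Set β)) (hφ : ∀ p ∈ χ, ∀ q ∈ χ, p ≤ q → φ p ≤ φ q) :
    dP (pull φ G) χ = pull φ (dl G) χ := by
  by_cases hinj : Set.InjOn φ (χ : Set β)
  · have hc : (χ.image φ).card = χ.card := Finset.card_image_of_injOn hinj
    unfold pull
    rw [if_pos hc]
    unfold dP dl
    rw [Finset.sum_image (by exact_mod_cast hinj)]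
    apply sum_congr rfl
    intro p hp
    have h1 : (χ.erase p).image φ = (χ.image φ).erase (φ p) := by
      ext y
      simp only [mem_image, mem_erase]
      constructor
      · rintro ⟨q, ⟨hqp, hq⟩, rfl⟩
        exact ⟨fun h => hqp (hinj (by exact_mod_cast hq) (by exact_mod_cast hp) h), q, hq, rfl⟩
      · rintro ⟨hy, q, hq, rfl⟩
        exact ⟨q, ⟨fun h => hy (by rw [h]), hq⟩, rfl⟩
    have h2 : ((χ.erase p).image φ).card = (χ.erase p).card := by
      apply Finset.card_image_of_injOn
      apply hinj.mono
      intro q hq
      exact_mod_cast mem_of_mem_erase (by exact_mod_cast hq)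
    beta_reduce
    rw [if_pos h2, h1]
    congr 1
    unfold sgP sg
    congr 1
    rw [Finset.filter_image, Finset.card_image_of_injOn]
    · congr 1
      apply Finset.filter_congr
      intro q hq
      constructor
      · intro hlt
        refine lt_of_le_of_ne (hφ q hq p hp hlt.le) ?_
        intro h
        exact hlt.ne (hinj (by exact_mod_cast hq) (by exact_mod_cast hp) h)
      · intro hlt
        have hne : q ≠ p := fun h => by rw [h] at hlt; exact lt_irrefl _ hlt
        rcases hχ (by exact_mod_cast hq) (by exact_mod_cast hp) hne with h | h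
        · exact lt_of_le_of_ne h hne
        · exact absurd (hφ p hp q hq h) (not_le.mpr hlt)
    · apply hinj.mono
      intro q hq
      have hq' := mem_filter.mp (by exact_mod_cast hq)
      exact_mod_cast hq'.1
  · have hlt : ¬ (χ.image φ).card = χ.card := by
      intro h
      exact hinj (Finset.card_image_iff.mp h)
    have hR : pull φ (dl G) χ = 0 := by unfold pull; rw [if_neg hlt]
    rw [hR]
    by_cases hex : ∃ p ∈ χ, Set.InjOn φ ((χ.erase p : Finset β) : Set β)
    · obtain ⟨p, hp, hpi⟩ := hex
      -- there is another element with the same value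
      have hq : ∃ q ∈ χ, q ≠ p ∧ φ q = φ p := by
        by_contra hcon
        push Not at hcon
        apply hinj
        intro a ha b hb hab
        have ha' : a ∈ χ := by exact_mod_cast ha
        have hb' : b ∈ χ := by exact_mod_cast hb
        by_cases hap : a = p
        · by_cases hbp : b = p
          · rw [hap, hbp]
          · exact absurd (by rw [← hab, hap]) (hcon b hb' hbp)
        · by_cases hbp : b = p
          · exact absurd (by rw [hab, hbp]) (hcon a ha' hap)
          · apply hpi _ _ hab
            · exact_mod_cast mem_erase.mpr ⟨hap, ha'⟩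
            · exact_mod_cast mem_erase.mpr ⟨hbp, hb'⟩
      obtain ⟨q, hq, hqp, hqe⟩ := hq
      -- the images after the two removals
      have him : (χ.erase p).image φ = (χ.erase q).image φ := by
        ext y
        simp only [mem_image, mem_erase]
        constructor
        · rintro ⟨r, ⟨hrp, hr⟩, rfl⟩
          by_cases hrq : r = q
          · exact ⟨p, ⟨Ne.symm hqp, hp⟩, by rw [hrq, hqe]⟩
          · exact ⟨r, ⟨hrq, hr⟩, rfl⟩
        · rintro ⟨r, ⟨hrq, hr⟩, rfl⟩
          by_cases hrp : r = p
          · exact ⟨q, ⟨hqp, hq⟩, by rw [hrp, hqe]⟩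
          · exact ⟨r, ⟨hrp, hr⟩, rfl⟩
      have hpull : pull φ G (χ.erase p) = pull φ G (χ.erase q) := by
        unfold pull
        rw [him, card_erase_of_mem hp, card_erase_of_mem hq]
      -- the other terms vanish
      have hzero : ∀ r ∈ χ, r ≠ p ∧ r ≠ q → sgP r χ • pull φ G (χ.erase r) = 0 := by
        intro r _ hr
        have h0 : pull φ G (χ.erase r) = 0 := by
          unfold pull
          rw [if_neg]
          intro h
          have h2 := Finset.card_image_iff.mp h
          apply hqp
          apply h2 _ _ hqe
          · exact_mod_cast mem_erase.mpr ⟨Ne.symm hr.2, hq⟩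
          · exact_mod_cast mem_erase.mpr ⟨Ne.symm hr.1, hp⟩
        rw [h0, smul_zero]
      -- the two elements are neighbours
      have hsign : ∀ a ∈ χ, ∀ b ∈ χ, φ a = φ b → a < b →
          (Set.InjOn φ ((χ.erase a : Finset β) : Set β) ∨
            Set.InjOn φ ((χ.erase b : Finset β) : Set β)) → sgP b χ = - sgP a χ := by
        intro a ha b hb hab hlt hor
        have hset : χ.filter (fun x => x < b) = insert a (χ.filter (fun x => x < a)) := by
          ext x
          simp only [mem_filter, mem_insert]
          constructor
          · rintro ⟨hx, hxb⟩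
            by_cases hxa : x = a
            · exact Or.inl hxa
            · right
              refine ⟨hx, ?_⟩
              rcases hχ (by exact_mod_cast hx) (by exact_mod_cast ha) hxa with h | h
              · exact lt_of_le_of_ne h hxa
              · exfalso
                have e1 : φ x = φ a :=
                  le_antisymm (by rw [hab]; exact hφ x hx b hb hxb.le) (hφ a ha x hx h)
                rcases hor with hI | hI
                · apply hxb.ne
                  apply hI _ _ (by rw [e1, hab])
                  · exact_mod_cast mem_erase.mpr ⟨hxa, hx⟩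
                  · exact_mod_cast mem_erase.mpr ⟨hlt.ne', hb⟩
                · apply hxa
                  apply hI _ _ e1
                  · exact_mod_cast mem_erase.mpr ⟨hxb.ne, hx⟩
                  · exact_mod_cast mem_erase.mpr ⟨hlt.ne, ha⟩
          · rintro (rfl | ⟨hx, hxa⟩)
            · exact ⟨ha, hlt⟩
            · exact ⟨hx, hxa.trans hlt⟩
        unfold sgP
        rw [hset, card_insert_of_notMem (by simp), pow_succ]
        ring
      have hpq : sgP q χ = - sgP p χ := by
        rcases hχ (by exact_mod_cast hq) (by exact_mod_cast hp) hqp with h | h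
        · have hlt' : q < p := lt_of_le_of_ne h hqp
          have := hsign q hq p hp hqe hlt' (Or.inr hpi)
          rw [this, neg_neg]
        · have hlt' : p < q := lt_of_le_of_ne h (Ne.symm hqp)
          exact hsign p hp q hq hqe.symm hlt' (Or.inl hpi)
      unfold dP
      rw [← Finset.add_sum_erase _ _ hp, ← Finset.add_sum_erase _ _ (mem_erase.mpr ⟨hqp, hq⟩),
        Finset.sum_eq_zero (s := (χ.erase p).erase q)
          (fun r hr => hzero r (mem_of_mem_erase (mem_of_mem_erase hr))
            ⟨ne_of_mem_erase (mem_of_mem_erase hr), ne_of_mem_erase hr⟩), add_zero, hpq, hpull,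
        neg_smul, add_neg_cancel]
    · push Not at hex
      unfold dP
      apply sum_eq_zero
      intro p hp
      have h0 : pull φ G (χ.erase p) = 0 := by
        unfold pull
        rw [if_neg]
        intro h
        exact hex p hp (Finset.card_image_iff.mp h)
      rw [h0, smul_zero]

end general

section cone

variable {α : Type} [LinearOrder α] {R : Type} [AddCommGroup R]

/-- The set of the elements below the cone point: `∅` for the cone point, `{a}` for `a`. -/
def w (x : WithBot α) : Finset α :=
  WithBot.recBotCoe (C := fun _ => Finset α) ∅ (fun a => {a}) x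

@[simp] theorem w_bot : w (⊥ : WithBot α) = ∅ := rfl

@[simp] theorem w_coe (a : α) : w (a : WithBot α) = {a} := rfl

/-- The elements of `σ` different from the cone point. -/
def unl (σ : Finset (WithBot α)) : Finset α := σ.biUnion w

theorem mem_unl {σ : Finset (WithBot α)} {a : α} : a ∈ unl σ ↔ (a : WithBot α) ∈ σ := by
  unfold unl
  rw [mem_biUnion]
  constructor
  · rintro ⟨x, hx, ha⟩
    induction x using WithBot.recBotCoe with
    | bot => simp at ha
    | coe b =>
      rw [w_coe, mem_singleton] at ha
      rw [ha]; exact hx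
  · intro h
    exact ⟨a, h, by simp⟩

/-- The cochain on the cone. -/
def coneG (g : Finset α → R) (σ : Finset (WithBot α)) : R :=
  if (⊥ : WithBot α) ∈ σ then g (unl σ) else 0

theorem sum_cone {σ : Finset (WithBot α)} (hσ : (⊥ : WithBot α) ∈ σ) (f : WithBot α → R) :
    ∑ x ∈ σ, f x = f ⊥ + ∑ a ∈ unl σ, f (a : WithBot α) := by
  rw [← Finset.add_sum_erase _ _ hσ]
  congr 1
  have : σ.erase ⊥ = (unl σ).image (fun a : α => (a : WithBot α)) := by
    ext x
    simp only [mem_erase, mem_image, mem_unl]
    constructor
    · rintro ⟨hx, hxσ⟩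
      obtain ⟨a, rfl⟩ := WithBot.ne_bot_iff_exists.mp hx
      exact ⟨a, hxσ, rfl⟩
    · rintro ⟨a, ha, rfl⟩
      exact ⟨WithBot.coe_ne_bot, ha⟩
  rw [this, Finset.sum_image (fun a _ b _ h => WithBot.coe_injective h)]

theorem card_cone {σ : Finset (WithBot α)} (hσ : (⊥ : WithBot α) ∈ σ) :
    σ.card = (unl σ).card + 1 := by
  have := sum_cone (R := ℤ) hσ (fun _ => 1)
  simp only [sum_const, nsmul_eq_mul, mul_one] at this
  omega

theorem dl_coneG (g : Finset α → R) (σ : Finset (WithBot α)) :
    dl (coneG g) σ = - coneG (dl g) σ := by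
  by_cases hσ : (⊥ : WithBot α) ∈ σ
  · unfold dl
    rw [sum_cone hσ]
    have h0 : coneG g (σ.erase ⊥) = 0 := by
      unfold coneG; rw [if_neg (by simp)]
    rw [h0, smul_zero, zero_add]
    unfold coneG
    rw [if_pos hσ, ← sum_neg_distrib]
    apply sum_congr rfl
    intro a ha
    have h1 : (⊥ : WithBot α) ∈ σ.erase (a : WithBot α) :=
      mem_erase.mpr ⟨(WithBot.coe_ne_bot).symm, hσ⟩
    have h2 : unl (σ.erase (a : WithBot α)) = (unl σ).erase a := by
      ext b
      rw [mem_erase, mem_unl, mem_erase, mem_unl]
      simp
    have h3 : sg (a : WithBot α) σ = - sg a (unl σ) := by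
      unfold sg
      have h4 : (⊥ : WithBot α) ∈ σ.filter (fun b => b < (a : WithBot α)) :=
        mem_filter.mpr ⟨hσ, WithBot.bot_lt_coe a⟩
      have h5 : unl (σ.filter (fun b => b < (a : WithBot α))) =
          (unl σ).filter (fun b => b < a) := by
        ext b
        rw [mem_unl, mem_filter, mem_filter, mem_unl, WithBot.coe_lt_coe]
      rw [card_cone h4, h5, pow_succ]
      ring
    rw [if_pos h1, h2, h3, neg_smul]
  · unfold dl coneG
    rw [if_neg hσ, neg_zero]
    apply sum_eq_zero
    intro x _
    rw [if_neg (fun h => hσ (mem_of_mem_erase h)), smul_zero]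

theorem mx_eq (T U : Finset α) : mx T U = w ((U \ T).max) := by
  unfold mx
  by_cases h : U \ T = ∅
  · rw [h]; simp
  · obtain ⟨a, ha⟩ := Finset.max_of_nonempty (Finset.nonempty_iff_ne_empty.mpr h)
    rw [ha, w_coe]
    ext x
    rw [mem_filter, mem_singleton]
    constructor
    · rintro ⟨hx, hy⟩
      exact le_antisymm (Finset.le_max_of_eq hx ha) (hy a (Finset.mem_of_max ha))
    · rintro rfl
      exact ⟨Finset.mem_of_max ha, fun y hy => Finset.le_max_of_eq hy ha⟩

theorem lam_eq (T : Finset α) (g : Finset α → R) (χ : Finset (Finset α)) :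
    lam T g χ = pull (fun U => (U \ T).max) (coneG g) χ := by
  have hB : χ.biUnion (mx T) = unl (χ.image (fun U => (U \ T).max)) := by
    unfold unl
    rw [Finset.image_biUnion]
    apply Finset.biUnion_congr rfl
    intro U _
    exact mx_eq T U
  have hbot : ∀ U : Finset α, U ⊆ T ↔ (U \ T).max = ⊥ := by
    intro U
    rw [Finset.max_eq_bot, sdiff_eq_empty_iff_subset]
  unfold lam pull coneG
  rw [hB]
  by_cases hc : (χ.image (fun U => (U \ T).max)).card = χ.card
  · rw [if_pos hc]
    by_cases hm : (⊥ : WithBot α) ∈ χ.image (fun U => (U \ T).max)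
    · rw [if_pos hm, if_pos]
      refine ⟨?_, by rw [← hc, card_cone hm]⟩
      have hinj := Finset.card_image_iff.mp hc
      obtain ⟨U, hU, hUb⟩ := mem_image.mp hm
      rw [Finset.card_eq_one]
      refine ⟨U, ?_⟩
      ext V
      rw [mem_filter, mem_singleton]
      constructor
      · rintro ⟨hV, hVT⟩
        apply hinj (by exact_mod_cast hV) (by exact_mod_cast hU)
        show (V \ T).max = (U \ T).max
        rw [(hbot V).mp hVT, hUb]
      · rintro rfl
        exact ⟨hU, (hbot V).mpr hUb⟩
    · rw [if_neg hm, if_neg]
      rintro ⟨h1, _⟩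
      obtain ⟨U, hU⟩ := Finset.card_eq_one.mp h1
      have hU' : U ∈ χ.filter (fun U => U ⊆ T) := by rw [hU]; exact mem_singleton_self U
      rw [mem_filter] at hU'
      exact hm (mem_image.mpr ⟨U, hU'.1, (hbot U).mp hU'.2⟩)
  · rw [if_neg hc, if_neg]
    rintro ⟨h1, h2⟩
    obtain ⟨U, hU⟩ := Finset.card_eq_one.mp h1
    have hU' : U ∈ χ.filter (fun U => U ⊆ T) := by rw [hU]; exact mem_singleton_self U
    rw [mem_filter] at hU'
    have hm : (⊥ : WithBot α) ∈ χ.image (fun U => (U \ T).max) :=
      mem_image.mpr ⟨U, hU'.1, (hbot U).mp hU'.2⟩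
    exact hc (by rw [← h2, card_cone hm])

end cone

end LamAux

/-- F1: the pullback `lam` is a chain map (up to sign). -/
theorem lamChain : LamStmt := by
  intro α _ R _ T g χ hχ
  have h1 : (lam T g : Finset (Finset α) → R) =
      LamAux.pull (fun U => (U \ T).max) (LamAux.coneG g) := by
    funext χ'; exact LamAux.lam_eq T g χ'
  rw [h1, LamAux.lam_eq, LamAux.dP_pull _ _ χ hχ]
  · have h2 : dl (LamAux.coneG g) = fun σ => - LamAux.coneG (dl g) σ := by
      funext σ; exact LamAux.dl_coneG g σ
    rw [h2]
    unfold LamAux.pull
    split_ifs <;> simp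
  · intro p _ q _ hpq
    exact Finset.max_mono (Finset.sdiff_subset_sdiff hpq (Finset.Subset.refl T))

end Pool.Agent.Lib.MP_db6a6f_al
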