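import Pool.Agent.Lib.MP_db6a6f_al.Flag
import Pool.Agent.Lib.MP_db6a6f_al.Desc

set_option autoImplicit false

/-! F6: the other elements of the coset of the descents are shorter. -/

namespace Pool.Agent.Lib.MP_db6a6f_al

theorem long (hE : ExchStmt) (hR : RedStmt) : LongStmt := by
  intro m M w T hT a ha hane
  obtain ⟨η, h1, h2, h3⟩ := hR m M T a⁻¹ ((WT M T).inv_mem ha)
  obtain ⟨ξ, h4, h5⟩ := desc_claim hE M w T hT η h1 h2
  have h6 : w * a = M.toCoxeterSystem.wordProd ξ := by
    rw [← h5, CoxeterSystem.wordProd_append, ← h3, mul_assoc, inv_mul_cancel, mul_one]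
  have h7 : M.toCoxeterSystem.length w = (ξ ++ η).length := by rw [← h5]; exact h4
  have h8 := M.toCoxeterSystem.length_wordProd_le ξ
  have h9 : η ≠ [] := by
    rintro rfl
    rw [CoxeterSystem.wordProd_nil] at h3
    exact hane (inv_eq_one.mp h3)
  have h10 : 0 < η.length := List.length_pos_iff.mpr h9
  rw [h6, h7, List.length_append]
  omega

end Pool.Agent.Lib.MP_db6a6f_al
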