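import Pool.Agent.Lib.MP_db6a6f_al.Davis

set_option autoImplicit false

/-! B5: special subgroups of disjoint sets of generators have only elements of even length in
common; the geometric representation. -/

namespace Pool.Agent.Lib.MP_db6a6f_al

open Finset

namespace ParAux

open Polynomial.Chebyshev

variable {m : ℕ} (M : CoxeterMatrix (Fin m))

/-- The bilinear form. -/
noncomputable def bm (i j : Fin m) : ℝ :=
  if M i j = 0 then -2 else -2 * Real.cos (Real.pi / M i j)

theorem bm_self (i : Fin m) : bm M i i = 2 := by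
  unfold bm
  rw [M.diagonal]
  simp

theorem bm_comm (i j : Fin m) : bm M i j = bm M j i := by
  unfold bm
  rw [M.symmetric i j]

/-- The linear forms. -/
noncomputable def fm (i : Fin m) : Module.Dual ℝ (Fin m → ℝ) :=
  ∑ j, bm M i j • (LinearMap.proj j : (Fin m → ℝ) →ₗ[ℝ] ℝ)

theorem fm_single (i j : Fin m) : fm M i (Pi.single j 1) = bm M i j := by
  unfold fm
  rw [LinearMap.sum_apply, Finset.sum_eq_single j]
  · simp
  · intro k _ hk
    simp [hk]
  · intro h
    exact absurd (mem_univ j) h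

theorem fm_self (i : Fin m) : fm M i (Pi.single i 1) = 2 := by rw [fm_single, bm_self]

/-- The reflections. -/
noncomputable def rf (i : Fin m) : (Fin m → ℝ) ≃ₗ[ℝ] (Fin m → ℝ) :=
  Module.reflection (fm_self M i)

theorem rf_apply (i : Fin m) (z : Fin m → ℝ) : rf M i z = z - fm M i z • Pi.single i 1 :=
  Module.reflection_apply _ _

theorem coef (k : ℕ) (hk : 3 ≤ k) (t : ℝ) (ht : t = 2 * Real.cos (2 * Real.pi / k)) :
    (S ℝ (((k : ℤ) - 2) / 2)).eval t *
        ((S ℝ (((k : ℤ) - 1) / 2)).eval t + (S ℝ (((k : ℤ) - 3) / 2)).eval t) = 0 ∧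
      (S ℝ (((k : ℤ) - 1) / 2)).eval t *
        ((S ℝ ((k : ℤ) / 2)).eval t + (S ℝ (((k : ℤ) - 2) / 2)).eval t) = 0 := by
  set θ : ℝ := 2 * Real.pi / k with hθ
  have hk0 : (0 : ℝ) < k := by exact_mod_cast (by omega : 0 < k)
  have hk3 : (3 : ℝ) ≤ k := by exact_mod_cast hk
  have hpi := Real.pi_pos
  have hsin : Real.sin θ ≠ 0 := by
    apply ne_of_gt
    apply Real.sin_pos_of_pos_of_lt_pi
    · positivity
    · rw [hθ, div_lt_iff₀ hk0]
      nlinarith
  have hS : ∀ n : ℤ, (S ℝ n).eval t * Real.sin θ = Real.sin ((n + 1) * θ) := by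
    intro n
    rw [ht]
    exact S_two_mul_real_cos θ n
  rcases Nat.even_or_odd' k with ⟨q, hq | hq⟩
  · have e1 : ((k : ℤ) - 2) / 2 = q - 1 := by omega
    have e2 : ((k : ℤ) - 1) / 2 = q - 1 := by omega
    have h0 : (S ℝ ((q : ℤ) - 1)).eval t = 0 := by
      have := hS ((q : ℤ) - 1)
      have h2 : (((q : ℤ) - 1 : ℤ) + 1 : ℝ) * θ = Real.pi := by
        rw [hθ, hq]
        have hq0 : (q : ℝ) ≠ 0 := by
          have : q ≠ 0 := by omega
          exact_mod_cast this
        push_cast
        field_simp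
        ring
      rw [h2, Real.sin_pi] at this
      exact (mul_eq_zero.mp this).resolve_right hsin
    rw [e1, e2, h0]
    simp
  · have e1 : ((k : ℤ) - 2) / 2 = q - 1 := by omega
    have e2 : ((k : ℤ) - 1) / 2 = q := by omega
    have e3 : ((k : ℤ) - 3) / 2 = q - 1 := by omega
    have e4 : ((k : ℤ)) / 2 = q := by omega
    have h0 : (S ℝ (q : ℤ)).eval t + (S ℝ ((q : ℤ) - 1)).eval t = 0 := by
      have h1 := hS (q : ℤ)
      have h2 := hS ((q : ℤ) - 1)
      have h3 : Real.sin ((((q : ℤ) : ℝ) + 1) * θ) =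
          - Real.sin (((((q : ℤ) - 1 : ℤ) : ℝ) + 1) * θ) := by
        have h4 : (((q : ℤ) : ℝ) + 1) * θ =
            2 * Real.pi - ((((q : ℤ) - 1 : ℤ) : ℝ) + 1) * θ := by
          rw [hθ, hq]
          have hq0 : ((2 * q + 1 : ℕ) : ℝ) ≠ 0 := by positivity
          push_cast at hq0 ⊢
          field_simp
          ring
        rw [h4, Real.sin_two_pi_sub]
      have h5 : ((S ℝ (q : ℤ)).eval t + (S ℝ ((q : ℤ) - 1)).eval t) * Real.sin θ = 0 := by
        rw [add_mul, h1, h2, h3]; ring
      exact (mul_eq_zero.mp h5).resolve_right hsin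
    rw [e1, e2, e3, e4, h0]
    simp

theorem liftable : M.IsLiftable (fun i => rf M i) := by
  intro i j
  rcases Nat.lt_or_ge (M i j) 3 with h | h
  · interval_cases hM : M i j
    · rw [pow_zero]
    · have hij : i = j := by
        by_contra hne
        exact M.off_diagonal i j hne hM
      subst hij
      rw [pow_one]
      ext1 z
      exact Module.involutive_reflection (fm_self M i) z
    · have hb : bm M i j = 0 := by
        unfold bm
        rw [hM]
        simp
      have hb' : bm M j i = 0 := by rw [bm_comm, hb]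
      ext1 z
      show ((Module.reflection (fm_self M i) * Module.reflection (fm_self M j)) ^ 2) z = z
      rw [Module.reflection_mul_reflection_pow_apply (fm_self M i) (fm_self M j) 2 z (-2)
        (by rw [fm_single, fm_single, hb, hb']; norm_num), fm_single, fm_single, hb, hb']
      have e1 : (((2 : ℕ) : ℤ) - 2) / 2 = 0 := by norm_num
      have e2 : (((2 : ℕ) : ℤ) - 1) / 2 = 0 := by norm_num
      have e3 : (((2 : ℕ) : ℤ) - 3) / 2 = -1 := by norm_num
      have e4 : (((2 : ℕ) : ℤ)) / 2 = 1 := by norm_num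
      rw [e1, e2, e3, e4]
      simp only [S_zero, S_one, S_neg_one, Polynomial.eval_one, Polynomial.eval_zero,
        Polynomial.eval_X]
      module
  · set k := M i j with hk
    have hk0 : k ≠ 0 := by omega
    have hb : bm M i j = -2 * Real.cos (Real.pi / k) := by
      unfold bm
      rw [← hk, if_neg hk0]
    have hb' : bm M j i = -2 * Real.cos (Real.pi / k) := by rw [bm_comm, hb]
    ext1 z
    show ((Module.reflection (fm_self M i) * Module.reflection (fm_self M j)) ^ k) z = z
    have ht : 2 * Real.cos (2 * Real.pi / k) =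
        fm M i (Pi.single j 1) * fm M j (Pi.single i 1) - 2 := by
      rw [fm_single, fm_single, hb, hb', show 2 * Real.pi / k = 2 * (Real.pi / k) by ring,
        Real.cos_two_mul]
      ring
    rw [Module.reflection_mul_reflection_pow_apply (fm_self M i) (fm_self M j) k z _ ht]
    obtain ⟨c1, c2⟩ := coef k h _ rfl
    rw [c1, c2, zero_smul, zero_smul, add_zero, add_zero]

/-- The geometric representation. -/
noncomputable def rho : M.Group →* ((Fin m → ℝ) ≃ₗ[ℝ] (Fin m → ℝ)) :=
  M.toCoxeterSystem.lift ⟨fun i => rf M i, liftable M⟩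

theorem rho_simple (i : Fin m) : rho M (M.simple i) = rf M i := by
  have := M.toCoxeterSystem.lift_apply_simple (liftable M) i
  rwa [CoxeterMatrix.toCoxeterSystem_simple] at this

theorem rho_fix {T : Finset (Fin m)} {w : M.Group} (hw : w ∈ WT M T) :
    ∀ (z : Fin m → ℝ) (j : Fin m), j ∉ T → rho M w z j = z j := by
  induction hw using Subgroup.closure_induction with
  | mem x hx =>
    obtain ⟨i, hi, rfl⟩ := hx
    intro z j hj
    have hij : j ≠ i := fun h => hj (h ▸ (by exact_mod_cast hi))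
    rw [rho_simple, rf_apply]
    simp [hij]
  | one => intro z j _; simp
  | mul x y _ _ hx hy =>
    intro z j hj
    rw [map_mul, LinearEquiv.mul_apply, hx _ j hj, hy z j hj]
  | inv x _ hx =>
    intro z j hj
    have h := hx (rho M x⁻¹ z) j hj
    rw [← LinearEquiv.mul_apply, ← map_mul, mul_inv_cancel, map_one] at h
    exact h.symm

theorem det_rf (i : Fin m) : LinearMap.det (rf M i : (Fin m → ℝ) →ₗ[ℝ] (Fin m → ℝ)) = -1 := by
  have h : (rf M i : (Fin m → ℝ) →ₗ[ℝ] (Fin m → ℝ)) =
      LinearMap.transvection (fm M i) (-(Pi.single i 1)) := by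
    ext1 z
    refine LinearMap.ext fun w => ?_
    show rf M i _ = LinearMap.transvection (fm M i) (-(Pi.single i 1)) _
    rw [rf_apply, LinearMap.transvection.apply, smul_neg, sub_eq_add_neg]
  rw [h, LinearMap.transvection.det, map_neg, fm_self]
  norm_num

theorem det_rho (ω : List (Fin m)) :
    LinearMap.det (rho M (M.toCoxeterSystem.wordProd ω) : (Fin m → ℝ) →ₗ[ℝ] (Fin m → ℝ)) =
      (-1) ^ ω.length := by
  induction ω with
  | nil => simp
  | cons i ω ih =>
    rw [CoxeterSystem.wordProd_cons, map_mul, CoxeterMatrix.toCoxeterSystem_simple, rho_simple]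
    rw [show ((rf M i * rho M (M.toCoxeterSystem.wordProd ω) :
        (Fin m → ℝ) ≃ₗ[ℝ] (Fin m → ℝ)) : (Fin m → ℝ) →ₗ[ℝ] (Fin m → ℝ)) =
        (rf M i : (Fin m → ℝ) →ₗ[ℝ] (Fin m → ℝ)) ∘ₗ
          (rho M (M.toCoxeterSystem.wordProd ω) : (Fin m → ℝ) →ₗ[ℝ] (Fin m → ℝ)) from rfl,
      LinearMap.det_comp, ih, det_rf, List.length_cons, pow_succ]
    ring

end ParAux

open ParAux in
/-- B5. -/
theorem par : ParStmt := by
  intro m M T U w hTU hT hU
  have hone : rho M w = 1 := by
    ext z j
    by_cases hj : j ∈ T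
    · exact rho_fix M hU z j (fun h => (disjoint_left.mp hTU) hj h)
    · exact rho_fix M hT z j hj
  obtain ⟨ω, hω, rfl⟩ := M.toCoxeterSystem.exists_isReduced w
  have h := det_rho M ω
  rw [hone] at h
  rw [hω.eq]
  have h1 : LinearMap.det ((1 : (Fin m → ℝ) ≃ₗ[ℝ] (Fin m → ℝ)) :
      (Fin m → ℝ) →ₗ[ℝ] (Fin m → ℝ)) = 1 := LinearMap.det_id
  rw [h1] at h
  by_contra hne
  rw [Nat.not_even_iff_odd] at hne
  rw [hne.neg_one_pow] at h
  norm_num at h

end Pool.Agent.Lib.MP_db6a6f_al
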