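import Pool.Agent.Lib.MP_db6a6f_al.Davis

set_option autoImplicit false

/-! Reduced words of elements of special subgroups. -/

namespace Pool.Agent.Lib.MP_db6a6f_al

variable {m : ℕ}

/-- A word that is not reduced can be shortened by deleting letters. -/
theorem red_shorten (hE : ExchStmt) (M : CoxeterMatrix (Fin m)) (T : Finset (Fin m))
    (ω : List (Fin m)) :
    (∀ i ∈ ω, i ∈ T) → ¬ M.toCoxeterSystem.IsReduced ω →
    ∃ η : List (Fin m), (∀ i ∈ η, i ∈ T) ∧ η.length < ω.length ∧
      M.toCoxeterSystem.wordProd η = M.toCoxeterSystem.wordProd ω := by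
  induction ω using List.reverseRecOn with
  | nil =>
    intro _ h
    exact absurd (by simp [CoxeterSystem.IsReduced]) h
  | append_singleton ω i ih =>
    intro hT hred
    have hT' : ∀ j ∈ ω, j ∈ T := fun j hj => hT j (by simp [hj])
    have hi : i ∈ T := hT i (by simp)
    by_cases hω : M.toCoxeterSystem.IsReduced ω
    · have hlt : M.toCoxeterSystem.length (M.toCoxeterSystem.wordProd ω * M.simple i) <
          M.toCoxeterSystem.length (M.toCoxeterSystem.wordProd ω) := by
        rcases M.toCoxeterSystem.length_mul_simple (M.toCoxeterSystem.wordProd ω) i with h | h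
        · exfalso
          apply hred
          unfold CoxeterSystem.IsReduced at hω ⊢
          rw [CoxeterSystem.wordProd_append, CoxeterSystem.wordProd_singleton, h, hω]
          simp
        · have h2 : M.toCoxeterSystem.simple i = M.simple i := by simp
          rw [h2] at h
          omega
      obtain ⟨j, hj, he⟩ := hE m M ω i hlt
      refine ⟨ω.eraseIdx j, fun k hk => hT' k (List.mem_of_mem_eraseIdx hk), ?_, ?_⟩
      · rw [List.length_eraseIdx_of_lt hj, List.length_append]
        simp only [List.length_cons, List.length_nil]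
        omega
      · rw [← he, CoxeterSystem.wordProd_append, CoxeterSystem.wordProd_singleton]
        simp
    · obtain ⟨η, h1, h2, h3⟩ := ih hT' hω
      refine ⟨η ++ [i], ?_, ?_, ?_⟩
      · intro j hj
        rw [List.mem_append, List.mem_singleton] at hj
        rcases hj with hj | rfl
        · exact h1 j hj
        · exact hi
      · simp only [List.length_append, List.length_cons, List.length_nil]
        omega
      · rw [CoxeterSystem.wordProd_append, CoxeterSystem.wordProd_append, h3]

/-- Every word has a reduced word in the same letters with the same product. -/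
theorem red_exists (hE : ExchStmt) (M : CoxeterMatrix (Fin m)) (T : Finset (Fin m)) (n : ℕ) :
    ∀ ω : List (Fin m), ω.length ≤ n → (∀ i ∈ ω, i ∈ T) →
    ∃ η : List (Fin m), (∀ i ∈ η, i ∈ T) ∧ M.toCoxeterSystem.IsReduced η ∧
      M.toCoxeterSystem.wordProd η = M.toCoxeterSystem.wordProd ω := by
  induction n with
  | zero =>
    intro ω hn hT
    have h0 : ω = [] := List.eq_nil_of_length_eq_zero (by omega)
    subst h0
    exact ⟨[], hT, by simp [CoxeterSystem.IsReduced], rfl⟩
  | succ n ih =>
    intro ω hn hT
    by_cases hω : M.toCoxeterSystem.IsReduced ω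
    · exact ⟨ω, hT, hω, rfl⟩
    · obtain ⟨η, h1, h2, h3⟩ := red_shorten hE M T ω hT hω
      obtain ⟨ζ, h4, h5, h6⟩ := ih η (by omega) h1
      exact ⟨ζ, h4, h5, h6.trans h3⟩

/-- Elements of special subgroups are products of words in the generators. -/
theorem exists_word (M : CoxeterMatrix (Fin m)) (T : Finset (Fin m)) {w : M.Group}
    (hw : w ∈ WT M T) :
    ∃ ω : List (Fin m), (∀ i ∈ ω, i ∈ T) ∧ M.toCoxeterSystem.wordProd ω = w := by
  unfold WT at hw
  induction hw using Subgroup.closure_induction with
  | mem x hx =>
    obtain ⟨i, hi, rfl⟩ := hx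
    refine ⟨[i], fun j hj => ?_, ?_⟩
    · rw [List.mem_singleton] at hj
      subst hj
      exact_mod_cast hi
    · rw [CoxeterSystem.wordProd_singleton]
      simp
  | one => exact ⟨[], by simp, by simp⟩
  | mul x y _ _ hx hy =>
    obtain ⟨ω, h1, h2⟩ := hx
    obtain ⟨η, h3, h4⟩ := hy
    refine ⟨ω ++ η, fun i hi => ?_, ?_⟩
    · rw [List.mem_append] at hi
      rcases hi with hi | hi
      · exact h1 i hi
      · exact h3 i hi
    · rw [CoxeterSystem.wordProd_append, h2, h4]
  | inv x _ hx =>
    obtain ⟨ω, h1, h2⟩ := hx
    refine ⟨ω.reverse, fun i hi => h1 i (List.mem_reverse.mp hi), ?_⟩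
    rw [CoxeterSystem.wordProd_reverse, h2]

/-- B2: elements of special subgroups have reduced words in the generators of the subgroup. -/
theorem red (hE : ExchStmt) : RedStmt := by
  intro m M T w hw
  obtain ⟨ω, h1, h2⟩ := exists_word M T hw
  obtain ⟨η, h3, h4, h5⟩ := red_exists hE M T ω.length ω le_rfl h1
  exact ⟨η, h3, h4, by rw [h5, h2]⟩

end Pool.Agent.Lib.MP_db6a6f_al
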