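import Pool.Agent.Lib.MP_db6a6f_al.Flag

set_option autoImplicit false

/-! The sum over the full flags is a chain map. -/

namespace Pool.Agent.Lib.MP_db6a6f_al

open Finset

section
variable {α : Type} [LinearOrder α] {R : Type} [AddCommGroup R]

namespace RhoAux

/-- The coboundary of the order complex, for any decidable equality. -/
theorem dP_eq_dec {β : Type} [PartialOrder β] [DecidableEq β] (f : Finset β → R) (τ : Finset β) :
    dP f τ = ∑ p ∈ τ, sgP p τ • f (τ.erase p) := by
  unfold dP
  refine sum_congr rfl fun p _ => ?_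
  congr 2
  ext x
  simp only [mem_erase]

/-- The sign, for any decidability. -/
theorem sgP_eq_dec {β : Type} [PartialOrder β] (p : β) (τ : Finset β)
    [DecidablePred (fun q => q < p)] :
    sgP p τ = (-1) ^ (τ.filter (fun q => q < p)).card := by
  unfold sgP
  congr

end RhoAux

open RhoAux

/-- `rho` only depends on the values at full flags. -/
theorem rho_congr (k : ℕ) : ∀ (c c' : Finset (Finset α) → R) (σ : Finset α), σ.card = k →
    (∀ χ : Finset (Finset α), IsChain (· ≤ ·) (χ : Set (Finset α)) → (∀ U ∈ χ, U ⊆ σ) →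
      χ.card = k + 1 → σ ∈ χ → ∅ ∈ χ → c χ = c' χ) →
    rho k c σ = rho k c' σ := by
  induction k with
  | zero =>
    intro c c' σ hσ h
    have hσ' : σ = ∅ := card_eq_zero.mp hσ
    subst hσ'
    unfold rho
    apply h
    · simp
    · simp
    · simp
    · simp
    · simp
  | succ k ih =>
    intro c c' σ hσ h
    unfold rho
    refine sum_congr rfl fun a ha => ?_
    congr 1
    have hcard : (σ.erase a).card = k := by rw [card_erase_of_mem ha, hσ]; rfl
    refine ih _ _ _ hcard fun χ hχ hsub hk hm he => ?_
    have hnot : σ ∉ χ := fun hmem => by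
      have := hsub σ hmem ha
      exact notMem_erase a σ this
    apply h
    · rw [coe_insert]
      refine hχ.insert fun U hU _ => Or.inr ?_
      exact (hsub U (by exact_mod_cast hU)).trans (erase_subset _ _)
    · intro U hU
      rcases mem_insert.mp hU with rfl | hU
      · exact subset_rfl
      · exact (hsub U hU).trans (erase_subset _ _)
    · rw [card_insert_of_notMem hnot, hk]
    · exact mem_insert_self _ _
    · exact mem_insert_of_mem he

theorem rho_add (k : ℕ) : ∀ (c c' : Finset (Finset α) → R) (σ : Finset α),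
    rho k (fun χ => c χ + c' χ) σ = rho k c σ + rho k c' σ := by
  induction k with
  | zero => intro c c' σ; rfl
  | succ k ih =>
    intro c c' σ
    unfold rho
    rw [← sum_add_distrib]
    refine sum_congr rfl fun a _ => ?_
    rw [← smul_add, ← ih]

theorem rho_zsmul (k : ℕ) (n : ℤ) : ∀ (c : Finset (Finset α) → R) (σ : Finset α),
    rho k (fun χ => n • c χ) σ = n • rho k c σ := by
  induction k with
  | zero => intro c σ; rfl
  | succ k ih =>
    intro c σ
    unfold rho
    rw [smul_sum]
    refine sum_congr rfl fun a _ => ?_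
    rw [ih, smul_comm]

theorem rho_neg (k : ℕ) (c : Finset (Finset α) → R) (σ : Finset α) :
    rho k (fun χ => - c χ) σ = - rho k c σ := by
  have h := rho_zsmul k (-1) c σ
  simpa only [neg_smul, one_smul] using h

theorem rho_sub (k : ℕ) (c c' : Finset (Finset α) → R) (σ : Finset α) :
    rho k (fun χ => c χ - c' χ) σ = rho k c σ - rho k c' σ := by
  simp only [sub_eq_add_neg]
  rw [rho_add, rho_neg]

/-- Separate the top element in the coboundary. -/
theorem dP_insert_top (c : Finset (Finset α) → R) (σ : Finset α) (χ : Finset (Finset α))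
    (h : ∀ U ∈ χ, U < σ) :
    dP c (insert σ χ) = dP (fun χ => c (insert σ χ)) χ + (-1 : ℤ) ^ χ.card • c χ := by
  classical
  have hnot : σ ∉ χ := fun hmem => lt_irrefl _ (h σ hmem)
  rw [dP_eq_dec, dP_eq_dec, sum_insert hnot, add_comm]
  congr 1
  · refine sum_congr rfl fun p hp => ?_
    have hps : σ ≠ p := fun he => hnot (he ▸ hp)
    rw [erase_insert_of_ne hps]
    congr 1
    rw [sgP_eq_dec, sgP_eq_dec, filter_insert, if_neg (h p hp).asymm]
  · rw [erase_insert hnot]
    congr 1
    rw [sgP_eq_dec, filter_insert, if_neg (lt_irrefl _), filter_true_of_mem h]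

end

open RhoAux in
/-- F2. -/
theorem rhoChain : RhoStmt := by
  intro α _ R _ k
  induction k with
  | zero =>
    intro c σ hσ hc
    obtain ⟨a, rfl⟩ := card_eq_one.mp hσ
    rw [dl_singleton]
    unfold rho
    rw [sum_singleton]
    have h1 : sg a {a} = 1 := by
      unfold sg
      rw [filter_singleton, if_neg (lt_irrefl a)]
      simp
    unfold rho
    rw [h1, pow_zero, one_mul, one_smul]
    show dP c (insert {a} {∅}) = - c {∅}
    rw [dP_insert_top c {a} {∅} (by
      intro U hU
      rw [mem_singleton] at hU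
      subst hU
      exact ⟨empty_subset _, by simp⟩)]
    have h2 : dP (fun χ => c (insert {a} χ)) ({∅} : Finset (Finset α)) = 0 := by
      rw [dP_eq_dec, sum_singleton, erase_singleton]
      rw [hc (insert {a} ∅)]
      · exact smul_zero _
      · simp
      · intro U hU
        rw [mem_insert] at hU
        rcases hU with rfl | hU
        · exact ⟨subset_rfl, by simp⟩
        · simp at hU
      · simp
    rw [h2, zero_add, card_singleton, pow_one, neg_smul, one_smul]
  | succ k ih =>
    intro c σ hσ hc
    have hmain : ∀ a ∈ σ, rho (k + 1) (fun χ => dP c (insert σ χ)) (σ.erase a) =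
        - dl (rho k (fun χ => c (insert σ χ))) (σ.erase a) +
          (-1 : ℤ) ^ (k + 2) • rho (k + 1) c (σ.erase a) := by
      intro a ha
      have hcard : (σ.erase a).card = k + 1 := by rw [card_erase_of_mem ha, hσ]; rfl
      rw [← ih (fun χ => c (insert σ χ)) (σ.erase a) hcard ?_, ← rho_zsmul, ← rho_add]
      · refine rho_congr (k + 1) _ _ _ hcard fun χ _ hsub hk _ _ => ?_
        rw [dP_insert_top c σ χ ?_, hk]
        intro U hU
        exact (hsub U hU).trans_ssubset (erase_ssubset ha)
      · intro χ hχ hsub hk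
        have hnot : σ ∉ χ := fun hmem => by
          have := (hsub σ hmem).1 ha
          exact notMem_erase a σ this
        apply hc
        · rw [coe_insert]
          refine hχ.insert fun U hU _ => Or.inr ?_
          exact (hsub U (by exact_mod_cast hU)).1.trans (erase_subset _ _)
        · intro U hU
          rcases mem_insert.mp hU with rfl | hU
          · refine ⟨subset_rfl, ?_⟩
            rintro rfl
            simp at ha
          · exact ⟨(hsub U hU).1.trans (erase_subset _ _), (hsub U hU).2⟩
        · rw [card_insert_of_notMem hnot, hk]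
    have h0 : rho (k + 1 + 1) (dP c) σ = ∑ a ∈ σ, ((-1 : ℤ) ^ (k + 1) * sg a σ) •
        rho (k + 1) (fun χ => dP c (insert σ χ)) (σ.erase a) := rfl
    rw [h0, sum_congr rfl fun a ha => by rw [hmain a ha]]
    have h1 : ∑ a ∈ σ, ((-1 : ℤ) ^ (k + 1) * sg a σ) •
        (- dl (rho k (fun χ => c (insert σ χ))) (σ.erase a) +
          (-1 : ℤ) ^ (k + 2) • rho (k + 1) c (σ.erase a)) =
        -((-1 : ℤ) ^ (k + 1) • dl (dl (rho k (fun χ => c (insert σ χ)))) σ) -
          dl (rho (k + 1) c) σ := by
      have hpow : (-1 : ℤ) ^ (k + 1) * (-1 : ℤ) ^ (k + 2) = -1 := by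
        rw [← pow_add]
        exact Odd.neg_one_pow ⟨k + 1, by ring⟩
      rw [show dl (dl (rho k (fun χ => c (insert σ χ)))) σ = ∑ a ∈ σ, sg a σ •
        dl (rho k (fun χ => c (insert σ χ))) (σ.erase a) from rfl,
        show dl (rho (k + 1) c) σ = ∑ a ∈ σ, sg a σ • rho (k + 1) c (σ.erase a) from rfl,
        smul_sum, ← sum_neg_distrib, ← sum_sub_distrib]
      refine sum_congr rfl fun a _ => ?_
      rw [smul_add, smul_neg, smul_smul, smul_smul, sub_eq_add_neg]
      congr 1
      rw [show (-1 : ℤ) ^ (k + 1) * sg a σ * (-1 : ℤ) ^ (k + 2) =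
        ((-1 : ℤ) ^ (k + 1) * (-1 : ℤ) ^ (k + 2)) * sg a σ by ring, hpow, neg_one_mul, neg_smul]
    rw [h1, dl_dl, smul_zero, neg_zero, zero_sub]

end Pool.Agent.Lib.MP_db6a6f_al
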