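import Pool.Agent.Lib.MP_db6a6f_al.Rho

set_option autoImplicit false

/-! The sum over the full flags is a left inverse of the pullback. -/

namespace Pool.Agent.Lib.MP_db6a6f_al

open Finset

namespace RhoLamAux

variable {α : Type} [LinearOrder α] {R : Type} [AddCommGroup R]

theorem mem_mx {T U : Finset α} {x : α} :
    x ∈ mx T U ↔ (x ∈ U ∧ x ∉ T) ∧ ∀ y ∈ U, y ∉ T → y ≤ x := by
  unfold mx
  simp only [mem_filter, mem_sdiff]
  constructor
  · rintro ⟨h1, h2⟩
    exact ⟨h1, fun y hy hyT => h2 y ⟨hy, hyT⟩⟩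
  · rintro ⟨h1, h2⟩
    exact ⟨h1, fun y hy => h2 y hy.1 hy.2⟩

theorem mx_empty (T : Finset α) : mx T (∅ : Finset α) = ∅ := by
  ext x
  rw [mem_mx]
  simp

theorem card_mx_le (T U : Finset α) : (mx T U).card ≤ 1 := by
  rw [card_le_one]
  intro a ha b hb
  rw [mem_mx] at ha hb
  exact le_antisymm (hb.2 a ha.1.1 ha.1.2) (ha.2 b hb.1.1 hb.1.2)

/-- `mx T U` is the singleton of the largest element of `U`, if this is not in `T`. -/
theorem mx_eq {T U : Finset α} {x : α} (hx : x ∈ U) (hxT : x ∉ T) (h : ∀ y ∈ U, y ≤ x) :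
    mx T U = {x} := by
  ext z
  rw [mem_mx, mem_singleton]
  constructor
  · rintro ⟨h1, h2⟩
    exact le_antisymm (h z h1.1) (h2 x hx hxT)
  · rintro rfl
    exact ⟨⟨hx, hxT⟩, fun y hy _ => h y hy⟩

theorem mx_subset (T U : Finset α) : mx T U ⊆ U := by
  intro x hx
  rw [mem_mx] at hx
  exact hx.1.1

/-- The number of the largest elements. -/
theorem card_biUnion_mx_lt (T : Finset α) (χ : Finset (Finset α)) (he : ∅ ∈ χ) :
    (χ.biUnion (mx T)).card + 1 ≤ χ.card := by
  have h1 : χ.biUnion (mx T) = (χ.erase ∅).biUnion (mx T) := by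
    ext x
    simp only [mem_biUnion, mem_erase]
    constructor
    · rintro ⟨U, hU, hx⟩
      refine ⟨U, ⟨?_, hU⟩, hx⟩
      rintro rfl
      rw [mx_empty] at hx
      simp at hx
    · rintro ⟨U, ⟨_, hU⟩, hx⟩
      exact ⟨U, hU, hx⟩
  have h2 : ((χ.erase ∅).biUnion (mx T)).card ≤ (χ.erase ∅).card * 1 :=
    card_biUnion_le_card_mul _ _ _ (fun U _ => card_mx_le T U)
  rw [h1]
  rw [card_erase_of_mem he] at h2
  have h3 : 0 < χ.card := card_pos.mpr ⟨_, he⟩
  omega

/-- The sum over the full flags of zero. -/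
theorem rho_zero (k : ℕ) : ∀ (σ : Finset α), rho k (fun _ => (0 : R)) σ = 0 := by
  induction k with
  | zero => intro σ; rfl
  | succ k ih =>
    intro σ
    unfold rho
    exact sum_eq_zero fun a _ => by rw [ih, smul_zero]

/-- The sign of the largest element. -/
theorem sg_max {σ : Finset α} {x : α} {k : ℕ} (hσ : σ.card = k + 1) (hx : x ∈ σ)
    (h : ∀ y ∈ σ, y ≤ x) : sg x σ = (-1) ^ k := by
  unfold sg
  congr 1
  have h1 : σ.filter (fun b => b < x) = σ.erase x := by
    ext y
    simp only [mem_filter, mem_erase]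
    constructor
    · rintro ⟨h1, h2⟩; exact ⟨ne_of_lt h2, h1⟩
    · rintro ⟨h1, h2⟩; exact ⟨h2, lt_of_le_of_ne (h y h2) h1⟩
  rw [h1, card_erase_of_mem hx, hσ]; rfl

end RhoLamAux

open RhoLamAux

/-- F3. -/
theorem rhoLam : RhoLamStmt := by
  intro α _ R _ k T
  induction k with
  | zero =>
    intro σ g hσ _
    have hσ' : σ = ∅ := card_eq_zero.mp hσ
    subst hσ'
    show lam T g {∅} = g ∅
    unfold lam
    rw [singleton_biUnion, mx_empty, if_pos]
    refine ⟨?_, by simp⟩
    rw [filter_singleton, if_pos (empty_subset T)]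
    simp
  | succ k ih =>
    intro σ g hσ hd
    have hne : σ.Nonempty := card_pos.mp (by omega)
    obtain ⟨x, hx, hmax⟩ : ∃ x ∈ σ, ∀ y ∈ σ, y ≤ x :=
      ⟨σ.max' hne, σ.max'_mem hne, fun y hy => σ.le_max' y hy⟩
    have hnT : ∀ y ∈ σ, y ∉ T := fun y hy => disjoint_left.mp hd hy
    have hmxσ : mx T σ = {x} := mx_eq hx (hnT x hx) hmax
    have hσT : ¬ σ ⊆ T := fun h => hnT x hx (h hx)
    have h0 : rho (k + 1) (lam T g) σ = ∑ a ∈ σ, ((-1 : ℤ) ^ k * sg a σ) •
        rho k (fun χ => lam T g (insert σ χ)) (σ.erase a) := rfl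
    rw [h0, sum_eq_single_of_mem x hx]
    · have hcard : (σ.erase x).card = k := by rw [card_erase_of_mem hx, hσ]; rfl
      have h1 : rho k (fun χ => lam T g (insert σ χ)) (σ.erase x) =
          rho k (lam T (fun ρ => g (insert x ρ))) (σ.erase x) := by
        refine rho_congr k _ _ _ hcard fun χ _ hsub _ _ _ => ?_
        have hnot : σ ∉ χ := fun hmem => notMem_erase x σ (hsub σ hmem hx)
        have hxn : x ∉ χ.biUnion (mx T) := by
          intro h
          rw [mem_biUnion] at h
          obtain ⟨U, hU, hxU⟩ := h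
          exact notMem_erase x σ (hsub U hU (mx_subset T U hxU))
        unfold lam
        rw [filter_insert, if_neg hσT, biUnion_insert, hmxσ, ← insert_eq,
          card_insert_of_notMem hnot, card_insert_of_notMem hxn]
        simp only [add_left_inj]
      rw [h1, ih (σ.erase x) (fun ρ => g (insert x ρ)) hcard
        (disjoint_of_subset_left (erase_subset _ _) hd), insert_erase hx, sg_max hσ hx hmax,
        ← pow_add, ← two_mul, pow_mul]
      simp
    · intro a ha hax
      have hcard : (σ.erase a).card = k := by rw [card_erase_of_mem ha, hσ]; rfl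
      have hxa : x ∈ σ.erase a := mem_erase.mpr ⟨Ne.symm hax, hx⟩
      have hmxa : mx T (σ.erase a) = {x} :=
        mx_eq hxa (hnT x hx) (fun y hy => hmax y (mem_of_mem_erase hy))
      have h1 : rho k (fun χ => lam T g (insert σ χ)) (σ.erase a) =
          rho k (fun _ => (0 : R)) (σ.erase a) := by
        refine rho_congr k _ _ _ hcard fun χ _ hsub _ hmem he => ?_
        have hnot : σ ∉ χ := fun h => notMem_erase a σ (hsub σ h ha)
        have hxm : x ∈ χ.biUnion (mx T) := by
          rw [mem_biUnion]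
          exact ⟨σ.erase a, hmem, by rw [hmxa]; exact mem_singleton_self x⟩
        unfold lam
        rw [if_neg]
        rintro ⟨_, h2⟩
        rw [biUnion_insert, hmxσ, ← insert_eq, insert_eq_of_mem hxm,
          card_insert_of_notMem hnot] at h2
        have := card_biUnion_mx_lt T χ he
        omega
      rw [h1, rho_zero, smul_zero]

end Pool.Agent.Lib.MP_db6a6f_al
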