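import Pool.Agent.Lib.MP_db6a6f_al.All
import Pool.Agent.Lib.MP_db6a6f_al.Exch
import Pool.Agent.Lib.MP_db6a6f_al.Red
import Pool.Agent.Lib.MP_db6a6f_al.Desc
import Pool.Agent.Lib.MP_db6a6f_al.Long
import Pool.Agent.Lib.MP_db6a6f_al.Par
import Pool.Agent.Lib.MP_db6a6f_al.Rho
import Pool.Agent.Lib.MP_db6a6f_al.Lam
import Pool.Agent.Lib.MP_db6a6f_al.RhoLam
import Pool.Agent.Lib.MP_db6a6f_al.FlagUp
import Pool.Agent.Lib.MP_db6a6f_al.FlagDn
import Pool.Agent.Lib.MP_db6a6f_al.LowF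
import Pool.Agent.Lib.MP_db6a6f_al.HighF

set_option autoImplicit false

/-! The final assembly: no Coxeter group has a boundary of dimension `n ≥ 3` and rational
dimension `1`. -/

namespace Pool.Agent.Lib.MP_db6a6f_al

theorem noDimOne : ∀ n : ℕ, 3 ≤ n → ∀ (m : ℕ) (M : CoxeterMatrix (Fin m)),
    ¬ (BoundaryDim ℤ M n ∧ BoundaryDim ℚ M 1) :=
  davisFlag fold herStmt intStmt (flagDn lamChain rhoChain rhoLam)
    (flagUp lamChain rhoChain rhoLam) (lowF par)
    (highF (desc exch (red exch)) (long exch (red exch)))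

end Pool.Agent.Lib.MP_db6a6f_al
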