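import Pool.Agent.Lib.MP_db6a6f_al.Defs

set_option autoImplicit false

/-! Basic identities for signs and coboundaries. -/

namespace Pool.Agent.Lib.MP_db6a6f_al

open Finset

variable {α : Type} [LinearOrder α]

theorem sg_mul_self (a : α) (τ : Finset α) : sg a τ * sg a τ = 1 := by
  unfold sg; rw [← pow_add, ← two_mul, pow_mul]; simp

theorem sg_eq (a : α) (τ : Finset α) : sg a τ = 1 ∨ sg a τ = -1 := by
  unfold sg; exact neg_one_pow_eq_or ℤ _

theorem sg_sq_smul {A : Type} [AddCommGroup A] (a : α) (τ : Finset α) (x : A) :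
    sg a τ • sg a τ • x = x := by
  rw [smul_smul, sg_mul_self, one_smul]

/-- Sign of an erased set. -/
theorem sg_erase {a b : α} {τ : Finset α} (hb : b ∈ τ) (_hab : a ≠ b) :
    sg a (τ.erase b) = (if b < a then -1 else 1) * sg a τ := by
  unfold sg
  have h1 : (τ.erase b).filter (fun x => x < a) = (τ.filter (fun x => x < a)).erase b := by
    ext x; simp only [mem_filter, mem_erase]; tauto
  rw [h1]
  split_ifs with h
  · have hm : b ∈ τ.filter (fun x => x < a) := by simp [hb, h]
    rw [card_erase_of_mem hm]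
    obtain ⟨n, hn⟩ := Nat.exists_eq_succ_of_ne_zero (card_ne_zero_of_mem hm)
    rw [hn]; simp [pow_succ]
  · rw [erase_eq_of_notMem]
    · simp
    · simp [h]

theorem sg_insert {a b : α} {τ : Finset α} (hb : b ∉ τ) :
    sg a (insert b τ) = (if b < a then -1 else 1) * sg a τ := by
  by_cases hab : a = b
  · subst hab
    unfold sg
    rw [filter_insert]; simp
  · have := sg_erase (a := a) (mem_insert_self b τ) hab
    rw [erase_insert hb] at this
    rw [this]
    split_ifs <;> simp

/-- The fundamental sign identity. -/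
theorem sg_sg {a b : α} {τ : Finset α} (ha : a ∈ τ) (hb : b ∈ τ) (hab : a ≠ b) :
    sg a τ * sg b (τ.erase a) = - (sg b τ * sg a (τ.erase b)) := by
  rw [sg_erase ha (Ne.symm hab), sg_erase hb hab]
  rcases lt_or_gt_of_ne hab with h | h
  · rw [if_pos h, if_neg (not_lt.mpr h.le)]; ring
  · rw [if_neg (not_lt.mpr h.le), if_pos h]; ring

section
variable {A : Type} [AddCommGroup A]

theorem dl_congr {f g : Finset α → A} {τ : Finset α} (h : ∀ a ∈ τ, f (τ.erase a) = g (τ.erase a)) :
    dl f τ = dl g τ := by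
  unfold dl; exact sum_congr rfl (fun a ha => by rw [h a ha])

theorem dl_add (f g : Finset α → A) (τ : Finset α) :
    dl (fun σ => f σ + g σ) τ = dl f τ + dl g τ := by
  unfold dl; simp [smul_add, sum_add_distrib]

theorem dl_sub (f g : Finset α → A) (τ : Finset α) :
    dl (fun σ => f σ - g σ) τ = dl f τ - dl g τ := by
  unfold dl; simp [smul_sub, sum_sub_distrib]

theorem dl_neg (f : Finset α → A) (τ : Finset α) :
    dl (fun σ => - f σ) τ = - dl f τ := by
  unfold dl; simp [sum_neg_distrib]

theorem dl_zero (τ : Finset α) : dl (fun _ => (0 : A)) τ = 0 := by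
  unfold dl; simp

theorem dl_zsmul (n : ℤ) (f : Finset α → A) (τ : Finset α) :
    dl (fun σ => n • f σ) τ = n • dl f τ := by
  unfold dl; rw [smul_sum]; exact sum_congr rfl (fun a _ => smul_comm _ _ _)

theorem dl_nsmul (n : ℕ) (f : Finset α → A) (τ : Finset α) :
    dl (fun σ => n • f σ) τ = n • dl f τ := by
  unfold dl; rw [smul_sum]; exact sum_congr rfl (fun a _ => smul_comm _ _ _)

theorem dl_sum {ι : Type} (s : Finset ι) (f : ι → Finset α → A) (τ : Finset α) :
    dl (fun σ => ∑ i ∈ s, f i σ) τ = ∑ i ∈ s, dl (f i) τ := by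
  classical
  induction s using Finset.induction_on with
  | empty => simp [dl_zero]
  | insert i s hi ih =>
    simp only [sum_insert hi]
    rw [dl_add, ih]

theorem dl_map {B : Type} [AddCommGroup B] (h : A →+ B) (f : Finset α → A) (τ : Finset α) :
    dl (fun σ => h (f σ)) τ = h (dl f τ) := by
  unfold dl; rw [map_sum]; exact sum_congr rfl (fun a _ => by rw [map_zsmul])

/-- A pair sum antisymmetric in its two indices vanishes. -/
theorem sum_antisymm_zero (τ : Finset α) (F : α → α → A)
    (h : ∀ a ∈ τ, ∀ b ∈ τ, a ≠ b → F a b = - F b a) :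
    ∑ a ∈ τ, ∑ b ∈ τ.erase a, F a b = 0 := by
  classical
  induction τ using Finset.induction_on with
  | empty => simp
  | insert c τ hc ih =>
    rw [sum_insert hc, erase_insert hc]
    have h2 : ∀ a ∈ τ, ∑ b ∈ (insert c τ).erase a, F a b = F a c + ∑ b ∈ τ.erase a, F a b := by
      intro a ha
      have hac : a ≠ c := fun h => hc (h ▸ ha)
      rw [erase_insert_of_ne (Ne.symm hac), sum_insert]
      simp [hc]
    rw [sum_congr rfl h2, sum_add_distrib,
      ih (fun a ha b hb hab => h a (mem_insert_of_mem ha) b (mem_insert_of_mem hb) hab), add_zero,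
      ← sum_add_distrib]
    apply sum_eq_zero
    intro a ha
    have hac : c ≠ a := fun h => hc (h ▸ ha)
    rw [h c (mem_insert_self _ _) a (mem_insert_of_mem ha) hac]
    simp

theorem dl_dl (f : Finset α → A) (τ : Finset α) : dl (dl f) τ = 0 := by
  unfold dl
  have : ∀ a ∈ τ, sg a τ • ∑ b ∈ τ.erase a, sg b (τ.erase a) • f ((τ.erase a).erase b) =
      ∑ b ∈ τ.erase a, (sg a τ * sg b (τ.erase a)) • f ((τ.erase a).erase b) := by
    intro a _
    rw [smul_sum]; exact sum_congr rfl (fun b _ => by rw [smul_smul])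
  rw [sum_congr rfl this]
  apply sum_antisymm_zero
  intro a ha b hb hab
  rw [sg_sg ha hb hab, neg_smul, erase_right_comm]

/-- The `v`-part of a coboundary. -/
theorem Pt_dl (v : α) (f : Finset α → A) {ρ : Finset α} (hv : v ∉ ρ) :
    Pt v (dl f) ρ = f ρ - dl (Pt v f) ρ := by
  unfold Pt dl
  rw [sum_insert hv, erase_insert hv, smul_add, sg_sq_smul, sub_eq_add_neg, ← sum_neg_distrib,
    smul_sum]
  congr 1
  apply sum_congr rfl
  intro a ha
  have hav : a ≠ v := fun h => hv (h ▸ ha)
  rw [erase_insert_of_ne (Ne.symm hav), smul_smul, smul_smul, ← neg_smul]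
  congr 1
  have h := sg_sg (mem_insert_self v ρ) (mem_insert_of_mem ha) (Ne.symm hav)
  rw [erase_insert hv, erase_insert_of_ne (Ne.symm hav)] at h
  -- h : sg v (insert v ρ) * sg a ρ = -(sg a (insert v ρ) * sg v (insert v (ρ.erase a)))
  have h1 := sg_mul_self v (insert v ρ)
  have h2 := sg_mul_self a ρ
  have h3 := sg_mul_self a (insert v ρ)
  have h4 := sg_mul_self v (insert v (ρ.erase a))
  have h5 : sg v (insert v ρ) * sg a (insert v ρ) =
      (sg v (insert v ρ) * sg a ρ) * (sg a ρ * sg a (insert v ρ)) := by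
    linear_combination (- (sg v (insert v ρ)) * sg a (insert v ρ)) * h2
  rw [h5, h]
  linear_combination (- (sg v (insert v (ρ.erase a))) * sg a ρ) * h3

theorem Pt_add (v : α) (f g : Finset α → A) (τ : Finset α) :
    Pt v (fun σ => f σ + g σ) τ = Pt v f τ + Pt v g τ := by
  unfold Pt; simp

theorem Pt_sub (v : α) (f g : Finset α → A) (τ : Finset α) :
    Pt v (fun σ => f σ - g σ) τ = Pt v f τ - Pt v g τ := by
  unfold Pt; simp [smul_sub]

theorem Pt_neg (v : α) (f : Finset α → A) (τ : Finset α) :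
    Pt v (fun σ => - f σ) τ = - Pt v f τ := by
  unfold Pt; simp

theorem Pt_zsmul (v : α) (n : ℤ) (f : Finset α → A) (τ : Finset α) :
    Pt v (fun σ => n • f σ) τ = n • Pt v f τ := by
  unfold Pt; exact smul_comm _ _ _

theorem Pt_empty (v : α) (f : Finset α → A) : Pt v f ∅ = f {v} := by
  unfold Pt
  have : sg v (insert v ∅) = 1 := by
    unfold sg
    have : (insert v (∅ : Finset α)).filter (fun b => b < v) = ∅ := by
      ext x; simp only [mem_filter, insert_empty_eq, mem_singleton, notMem_empty, iff_false]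
      rintro ⟨rfl, h⟩; exact lt_irrefl _ h
    rw [this]; simp
  rw [this, one_smul]; rfl

theorem Pt_Pt {u v : α} (huv : u ≠ v) (f : Finset α → A) {ρ : Finset α} (hu : u ∉ ρ)
    (hv : v ∉ ρ) : Pt u (Pt v f) ρ = - Pt v (Pt u f) ρ := by
  unfold Pt
  rw [smul_smul, smul_smul, Finset.insert_comm u v ρ, ← neg_smul]
  congr 1
  have hu' : u ∉ insert v ρ := by simp [hu, huv]
  have hv' : v ∉ insert u ρ := by simp [hv, Ne.symm huv]
  have h := sg_sg (τ := insert v (insert u ρ)) (a := u) (b := v) (by simp) (by simp) huv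
  rw [erase_insert hv', show (insert v (insert u ρ)).erase u = insert v ρ by
    rw [Finset.insert_comm, erase_insert hu']] at h
  have h1 := sg_mul_self v (insert v (insert u ρ))
  have h2 := sg_mul_self u (insert v (insert u ρ))
  have h3 := sg_mul_self v (insert v ρ)
  have h4 := sg_mul_self u (insert u ρ)
  have e1 : sg u (insert u ρ) * sg v (insert v (insert u ρ)) =
      sg v (insert v (insert u ρ)) * sg u (insert u ρ) := mul_comm _ _
  have e2 : sg v (insert v ρ) * sg u (insert v (insert u ρ)) =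
      sg u (insert v (insert u ρ)) * sg v (insert v ρ) := mul_comm _ _
  rw [e1, e2, h]; ring

/-- The coboundary at a face containing `v`, in terms of the `v`-part. -/
theorem dl_insert (v : α) (f : Finset α → A) {ρ : Finset α} (hv : v ∉ ρ) :
    dl f (insert v ρ) = sg v (insert v ρ) • (f ρ - dl (Pt v f) ρ) := by
  rw [← Pt_dl v f hv]; unfold Pt; rw [sg_sq_smul]

theorem dl_empty (f : Finset α → A) : dl f ∅ = 0 := by unfold dl; simp

theorem dl_singleton (f : Finset α → A) (a : α) : dl f {a} = f ∅ := by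
  have h := dl_insert a f (ρ := ∅) (by simp)
  have h2 := Pt_empty a (dl f)
  have h3 := Pt_dl a f (ρ := ∅) (by simp)
  rw [h2, dl_empty, sub_zero] at h3
  exact h3

theorem sg_pair_left {a b : α} (h : a < b) : sg a {a, b} = 1 := by
  unfold sg
  have : ({a, b} : Finset α).filter (fun x => x < a) = ∅ := by
    ext x; simp only [mem_filter, mem_insert, mem_singleton, notMem_empty, iff_false]
    rintro ⟨rfl | rfl, h'⟩
    · exact lt_irrefl _ h'
    · exact absurd h' (not_lt.mpr h.le)
  rw [this]; simp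

theorem sg_pair_right {a b : α} (h : a < b) : sg b {a, b} = -1 := by
  unfold sg
  have : ({a, b} : Finset α).filter (fun x => x < b) = {a} := by
    ext x; simp only [mem_filter, mem_insert, mem_singleton]
    constructor
    · rintro ⟨rfl | rfl, h'⟩
      · rfl
      · exact absurd h' (lt_irrefl _)
    · rintro rfl; exact ⟨Or.inl rfl, h⟩
  rw [this]; simp

theorem dl_pair (s : Finset α → A) {a b : α} (h : a < b) : dl s {a, b} = s {b} - s {a} := by
  unfold dl
  rw [sum_insert (by simp [h.ne]), sum_singleton, sg_pair_left h, sg_pair_right h]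
  have h1 : ({a, b} : Finset α).erase a = {b} := by
    ext x; simp only [mem_erase, mem_insert, mem_singleton]
    constructor
    · rintro ⟨h1, rfl | rfl⟩
      · exact absurd rfl h1
      · rfl
    · rintro rfl; exact ⟨h.ne', Or.inr rfl⟩
  have h2 : ({a, b} : Finset α).erase b = {a} := by
    ext x; simp only [mem_erase, mem_insert, mem_singleton]
    constructor
    · rintro ⟨h1, rfl | rfl⟩
      · rfl
      · exact absurd rfl h1
    · rintro rfl; exact ⟨h.ne, Or.inl rfl⟩
  rw [h1, h2]; simp [sub_eq_add_neg]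

theorem asy_self (f : Finset α → A) (a : α) : asy f a a = 0 := by simp [asy]

theorem asy_swap (f : Finset α → A) (a b : α) : asy f b a = - asy f a b := by
  unfold asy
  rcases lt_trichotomy a b with h | h | h
  · rw [if_neg (not_lt.mpr h.le), if_pos h, if_pos h, pair_comm]
  · subst h; simp
  · rw [if_pos h, if_neg (not_lt.mpr h.le), if_pos h, pair_comm, neg_neg]

theorem asy_of_lt (f : Finset α → A) {a b : α} (h : a < b) : asy f a b = f {a, b} := by
  unfold asy; rw [if_pos h]

theorem asy_of_gt (f : Finset α → A) {a b : α} (h : b < a) : asy f a b = - f {a, b} := by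
  unfold asy; rw [if_neg (not_lt.mpr h.le), if_pos h]

theorem asy_dl (s : Finset α → A) (a b : α) : asy (dl s) a b = s {b} - s {a} := by
  rcases lt_trichotomy a b with h | h | h
  · rw [asy_of_lt _ h, dl_pair s h]
  · subst h; simp [asy_self]
  · rw [asy_of_gt _ h, pair_comm, dl_pair s h]; abel

theorem asy_eq_Pt (f : Finset α → A) {a b : α} (h : a ≠ b) : asy f a b = Pt a f {b} := by
  unfold Pt
  rcases lt_or_gt_of_ne h with h | h
  · rw [asy_of_lt _ h, show (insert a {b} : Finset α) = {a, b} from rfl, sg_pair_left h, one_smul]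
  · rw [asy_of_gt _ h, show (insert a {b} : Finset α) = {b, a} from pair_comm a b,
      sg_pair_right h, pair_comm]; simp

theorem dl_triple (f : Finset α → A) {a b c : α} (h1 : a < b) (h2 : b < c) :
    dl f {a, b, c} = f {b, c} - f {a, c} + f {a, b} := by
  have h3 : a < c := h1.trans h2
  have hn : a ∉ ({b, c} : Finset α) := by simp [h1.ne, h3.ne]
  have hs : sg a (insert a {b, c}) = 1 := by
    unfold sg
    have : (insert a ({b, c} : Finset α)).filter (fun x => x < a) = ∅ := by
      ext x; simp only [mem_filter, mem_insert, mem_singleton, notMem_empty, iff_false]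
      rintro ⟨rfl | rfl | rfl, h'⟩
      · exact lt_irrefl _ h'
      · exact absurd h' (not_lt.mpr h1.le)
      · exact absurd h' (not_lt.mpr h3.le)
    rw [this]; simp
  rw [show ({a, b, c} : Finset α) = insert a {b, c} from rfl, dl_insert a f hn, hs, one_smul,
    dl_pair _ h2, ← asy_eq_Pt f h3.ne, ← asy_eq_Pt f h1.ne, asy_of_lt _ h3, asy_of_lt _ h1]
  abel

/-- The cocycle relation in antisymmetric form, for distinct vertices. -/
theorem asy_triple (f : Finset α → A) {a b c : α} (hab : a ≠ b) (hbc : b ≠ c) (hac : a ≠ c)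
    (h : dl f {a, b, c} = 0) : asy f a b + asy f b c = asy f a c := by
  have key : ∀ {x y z : α}, x < y → y < z → dl f {x, y, z} = 0 →
      f {y, z} = f {x, z} - f {x, y} := by
    intro x y z h1 h2 h
    rw [dl_triple f h1 h2] at h
    have : f {y, z} = (f {y, z} - f {x, z} + f {x, y}) + f {x, z} - f {x, y} := by abel
    rw [this, h]; abel
  rcases lt_or_gt_of_ne hab with h1 | h1 <;> rcases lt_or_gt_of_ne hbc with h2 | h2 <;>
    rcases lt_or_gt_of_ne hac with h3 | h3
  · have k := key h1 h2 h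
    rw [asy_of_lt _ h1, asy_of_lt _ h2, asy_of_lt _ h3, k]; abel
  · exact absurd (h1.trans h2) (not_lt.mpr h3.le)
  · -- a < c < b
    have k := key h3 h2 (by rw [show ({a, c, b} : Finset α) = {a, b, c} by
      ext x; simp only [mem_insert, mem_singleton]; tauto]; exact h)
    rw [asy_of_lt _ h1, asy_of_gt _ h2, asy_of_lt _ h3, pair_comm b c, k]; abel
  · -- c < a < b
    have k := key h3 h1 (by rw [show ({c, a, b} : Finset α) = {a, b, c} by
      ext x; simp only [mem_insert, mem_singleton]; tauto]; exact h)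
    rw [asy_of_lt _ h1, asy_of_gt _ h2, asy_of_gt _ h3, pair_comm b c, pair_comm a c, k]; abel
  · -- b < a < c
    have k := key h1 h3 (by rw [show ({b, a, c} : Finset α) = {a, b, c} by
      ext x; simp only [mem_insert, mem_singleton]; tauto]; exact h)
    rw [asy_of_gt _ h1, asy_of_lt _ h2, asy_of_lt _ h3, pair_comm a b, k]; abel
  · -- b < c < a
    have k := key h2 h3 (by rw [show ({b, c, a} : Finset α) = {a, b, c} by
      ext x; simp only [mem_insert, mem_singleton]; tauto]; exact h)
    rw [asy_of_gt _ h1, asy_of_lt _ h2, asy_of_gt _ h3, pair_comm a b, pair_comm a c]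
    have k' : f {b, c} = f {b, a} - f {c, a} := by rw [k]; abel
    rw [k']; abel
  · exact absurd (h2.trans h1) (not_lt.mpr h3.le)
  · -- c < b < a
    have k := key h2 h1 (by rw [show ({c, b, a} : Finset α) = {a, b, c} by
      ext x; simp only [mem_insert, mem_singleton]; tauto]; exact h)
    rw [asy_of_gt _ h1, asy_of_gt _ h2, asy_of_gt _ h3, pair_comm a b, pair_comm b c,
      pair_comm a c, k]; abel

/-- The cocycle relation in antisymmetric form. -/
theorem asy_add (X : Finset (Finset α)) (f : Finset α → A) (hf : Z1 X f) {a b c : α}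
    (h : ({a, b, c} : Finset α) ∈ X) : asy f a b + asy f b c = asy f a c := by
  by_cases hab : a = b
  · subst hab; rw [asy_self, zero_add]
  by_cases hbc : b = c
  · subst hbc; rw [asy_self, add_zero]
  by_cases hac : a = c
  · subst hac; rw [asy_swap f a b, asy_self]; abel
  exact asy_triple f hab hbc hac (hf _ h (by
    rw [card_insert_of_notMem, card_pair hbc]
    simp [hab, hac]))

end

theorem LD_empty (K : Finset (Finset α)) : LD K ∅ ∅ = K := by
  unfold LD; ext τ; simp

theorem mem_LD {K : Finset (Finset α)} {σ A τ : Finset α} :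
    τ ∈ LD K σ A ↔ τ ∈ K ∧ Disjoint τ σ ∧ Disjoint τ A ∧ τ ∪ σ ∈ K := by
  unfold LD; simp

theorem isCx_LD {K : Finset (Finset α)} (hK : IsCx K) (σ A : Finset α) : IsCx (LD K σ A) := by
  intro τ hτ ρ hρ
  rw [mem_LD] at hτ ⊢
  obtain ⟨h1, h2, h3, h4⟩ := hτ
  exact ⟨hK τ h1 ρ hρ, Disjoint.mono_left hρ h2, Disjoint.mono_left hρ h3,
    hK _ h4 _ (union_subset_union_left hρ)⟩

/-- Iterated links and deletions. -/
theorem LD_LD {K : Finset (Finset α)} (hK : IsCx K) (σ A σ' A' : Finset α)
    (h : Disjoint σ' σ) (h' : Disjoint σ' A) :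
    LD (LD K σ A) σ' A' = LD K (σ ∪ σ') (A ∪ A') := by
  ext τ
  simp only [mem_LD, disjoint_union_right, disjoint_union_left]
  constructor
  · rintro ⟨⟨h1, h2, h3, h4⟩, h5, h6, h7, ⟨h8, h9⟩, ⟨h10, h11⟩, h12⟩
    refine ⟨h1, ⟨h2, h5⟩, ⟨h3, h6⟩, ?_⟩
    rwa [show τ ∪ (σ ∪ σ') = τ ∪ σ' ∪ σ by
      ext x; simp only [mem_union]; tauto]
  · rintro ⟨h1, ⟨h2, h5⟩, ⟨h3, h6⟩, h7⟩
    have e : τ ∪ (σ ∪ σ') = τ ∪ σ' ∪ σ := by ext x; simp only [mem_union]; tauto
    refine ⟨⟨h1, h2, h3, hK _ h7 _ ?_⟩, h5, h6, hK _ h7 _ ?_, ⟨h2, h⟩, ⟨h3, h'⟩, ?_⟩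
    · exact union_subset_union_right subset_union_left
    · exact union_subset_union_right subset_union_right
    · rwa [← e]

theorem mem_Fu {K : Finset (Finset α)} {u v : α} {τ : Finset α} :
    τ ∈ Fu K u v ↔ τ ∈ K ∧ v ∉ τ ∧ (u ∈ τ → insert v τ ∈ K) := by
  unfold Fu; simp

theorem isCx_Fu {K : Finset (Finset α)} (hK : IsCx K) (u v : α) : IsCx (Fu K u v) := by
  intro τ hτ ρ hρ
  rw [mem_Fu] at hτ ⊢
  obtain ⟨h1, h2, h3⟩ := hτ
  exact ⟨hK _ h1 _ hρ, fun h => h2 (hρ h), fun h => hK _ (h3 (hρ h)) _ (insert_subset_insert _ hρ)⟩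

theorem mem_Ed {X : Finset (Finset α)} {τ : Finset α} : τ ∈ Ed X ↔ τ ∈ X ∧ τ.card = 2 := by
  unfold Ed; simp

end Pool.Agent.Lib.MP_db6a6f_al
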