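import Pool.Agent.Lib.MP_db6a6f_al.CoreC

set_option autoImplicit false

/-! The core, part 4: the count. -/

namespace Pool.Agent.Lib.MP_db6a6f_al

open Finset

variable {α : Type} [LinearOrder α]

theorem zsmul_single_sum {ι A : Type} [Fintype ι] [DecidableEq ι] [AddCommGroup A] (i : ι)
    (n : ℤ) (f : ι → A) : ∑ j, (Pi.single i n : ι → ℤ) j • f j = n • f i := by
  rw [Finset.sum_eq_single i]
  · simp
  · intro j _ hj; rw [Pi.single_eq_of_ne hj, zero_smul]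
  · simp

theorem sum_transfer {A : Type} [AddCommGroup A] {J I : Finset (Finset α)} (hJI : J ⊆ I)
    (n : {σ // σ ∈ J} → ℤ) (f : Finset α → A) :
    ∑ i : {σ // σ ∈ I}, exz J n i.1 • f i.1 = ∑ j : {σ // σ ∈ J}, n j • f j.1 := by
  have h1 := Finset.sum_coe_sort I (fun σ => exz J n σ • f σ)
  have h2 := Finset.sum_coe_sort J (fun σ => exz J n σ • f σ)
  have h3 : ∑ σ ∈ J, exz J n σ • f σ = ∑ σ ∈ I, exz J n σ • f σ :=
    Finset.sum_subset hJI (fun σ _ h => by rw [exz_of_notMem n h, zero_smul])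
  rw [h1, ← h3, ← h2]
  exact sum_congr rfl (fun i _ => by rw [exz_coe])

/-- The group has finite exponent. -/
theorem XX_exponent (hFI : FinIndStmt) {K : Finset (Finset α)} (hK : IsCx K) {u v : α}
    (huv : u ≠ v) (he : {u, v} ∈ K) {T : Finset (Finset α)} (hT : T ⊆ Ed (Fu K u v))
    (hsep : ∀ κ : Finset α → ℚ, Z1 K κ → κ {u, v} = 0 → (∀ σ ∈ T, κ σ = 0) →
      ∀ σ ∈ Ed K, κ σ = 0) (χ : Finset α → QZ) :
    ∃ N : ℕ, 0 < N ∧ ∀ c ∈ XX K u v T χ, N • c = 0 := by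
  obtain ⟨N, hN, h1⟩ := bounded hFI hK huv he hT hsep
  obtain ⟨M, hM, h2⟩ := exists_common_nsmul (Ed (Fu K u v)) χ
  refine ⟨N * M, Nat.mul_pos hN hM, fun c hc => ?_⟩
  obtain ⟨m, κ, k1, k2, k3, k4⟩ := mem_XX hc
  funext i
  have hi : i.1 ∈ Ed K := by
    have := mem_Ed.mp i.2
    exact mem_Ed.mpr ⟨(mem_Fu.mp this.1).1, this.2⟩
  rw [Pi.smul_apply, k4, smul_add]
  have e1 : (N * M) • (m • χ i.1) = 0 := by
    rw [smul_comm, mul_nsmul', h2 i.1 i.2]; simp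
  have e2 : (N * M) • κ i.1 = 0 := by
    rw [mul_nsmul, h1 κ k1 k2 k3 i.1 hi, smul_zero]
  rw [e1, e2, add_zero]; rfl

theorem XX_finite (hFI : FinIndStmt) {K : Finset (Finset α)} (hK : IsCx K) {u v : α}
    (huv : u ≠ v) (he : {u, v} ∈ K) {T : Finset (Finset α)} (hT : T ⊆ Ed (Fu K u v))
    (hsep : ∀ κ : Finset α → ℚ, Z1 K κ → κ {u, v} = 0 → (∀ σ ∈ T, κ σ = 0) →
      ∀ σ ∈ Ed K, κ σ = 0) (χ : Finset α → QZ) : Finite (XX K u v T χ) := by
  obtain ⟨N, hN, h⟩ := XX_exponent hFI hK huv he hT hsep χ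
  have := finite_torsion hN
  refine Finite.of_injective (β := {σ // σ ∈ Ed (Fu K u v)} → {t : QZ // N • t = 0})
    (fun c i => ⟨c.1 i, by
      have := congrFun (h c.1 c.2) i
      rwa [Pi.smul_apply] at this⟩) ?_
  intro c d hcd
  apply Subtype.ext
  funext i
  have := congrFun hcd i
  exact Subtype.ext_iff.mp this

/-- The heart: some cocycle on `K - v` agrees with `χ` on the link of `v`. -/
theorem core0 (hDet : DetStmt) (hAug : AugStmt) (hFI : FinIndStmt) (hDual : DualStmt)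
    (hAnn : AnnStmt) (hTw : TwDimStmt) (hRam : RamStmt) (hUnr : UnrStmt) (hGlue : GlueStmt)
    (hInj : InjStmt) {K : Finset (Finset α)} (hK : IsCx K) (hL : Ler K) {u v : α}
    (huv : u ≠ v) (he : {u, v} ∈ K) (hcu : Ex ℚ (LD K {u} ∅) 1)
    {T : Finset (Finset α)} (hT : T ⊆ Ed (Fu K u v)) (hInd : Indep K u v T) (hConn : Conn K v T)
    (hsep : ∀ κ : Finset α → ℚ, Z1 K κ → κ {u, v} = 0 → (∀ σ ∈ T, κ σ = 0) →
      ∀ σ ∈ Ed K, κ σ = 0)
    {χ : Finset α → QZ} (hχ : Z1 (Fu K u v) χ) (hχT : ∀ σ ∈ T, χ σ = 0)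
    (hram : ∀ m : ℤ, (fun σ => m • χ σ) ∈ ZV K v → (fun σ => m • χ σ) ∈ ZU K u v) :
    ∃ g : Finset α → QZ, Z1 (LD K ∅ {v}) g ∧ ∀ σ ∈ Ed (LD K {v} ∅), g σ = χ σ := by
  classical
  by_contra hcon
  push Not at hcon
  obtain ⟨N, hN, hexp⟩ := XX_exponent hFI hK huv he hT hsep χ
  have hfin := XX_finite hFI hK huv he hT hsep χ
  set X := XX K u v T χ with hXdef
  set I := (Ed K).filter (fun σ => v ∉ σ) with hI
  -- the vectors
  have hvec : ∀ φ : X, ∃ p : (Finset α → ℂ) × ℂ, φ ≠ 0 → Good K u v (exz _ φ.1) T p.1 p.2 := by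
    intro φ
    by_cases h0 : φ = 0
    · exact ⟨(0, 0), fun h => absurd h0 h⟩
    · obtain ⟨x, s, h⟩ := vec hTw hRam hUnr hK hL huv he hT hInd hConn hχ hχT hram φ.2
        (fun h => h0 (Subtype.ext h))
      exact ⟨(x, s), fun _ => h⟩
  choose p hp using hvec
  set x : X → Finset α → ℂ := fun φ => (p φ).1 with hx
  set s : X → ℂ := fun φ => (p φ).2 with hs
  have hgood : ∀ φ : X, φ ≠ 0 → Good K u v (exz _ φ.1) T (x φ) (s φ) := hp
  set S := SS X {σ // σ ∈ I} (fun φ i => x φ i.1) with hS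
  have hTI : ∀ σ ∈ T, σ ∈ I := by
    intro σ hσ
    have := hT hσ
    rw [mem_Ed, mem_Fu] at this
    rw [hI, mem_filter, mem_Ed]
    exact ⟨⟨this.1.1, this.2⟩, this.1.2.1⟩
  have hLI : ∀ σ ∈ Ed (LD K {v} ∅), σ ∈ I := by
    intro σ hσ
    rw [mem_Ed, mem_lkv hK] at hσ
    rw [hI, mem_filter, mem_Ed]
    exact ⟨⟨hK _ hσ.1.2 _ (subset_insert _ _), hσ.2⟩, hσ.1.1⟩
  have hFI' : ∀ σ ∈ Ed (Fu K u v), σ ∈ I := by
    intro σ hσ
    rw [mem_Ed, mem_Fu] at hσ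
    rw [hI, mem_filter, mem_Ed]
    exact ⟨⟨hσ.1.1, hσ.2⟩, hσ.1.2.1⟩
  -- rows
  have hrow1 : ∀ τ ∈ K, v ∉ τ → τ.card = 3 → row I τ ∈ S := fun τ hτ hv h3 =>
    row1 hK x s hgood hτ hv h3
  have hrow2 : ∀ t (ht : t ∈ T), (Pi.single ⟨t, hTI t ht⟩ 1 : {σ // σ ∈ I} → ℤ) ∈ S :=
    fun t ht => row2 x s hgood ht (hTI t ht)
  have hrow3 : ∀ n : {σ // σ ∈ I} → ℤ, (∀ i, i.1 ∉ LD K {v} ∅ → n i = 0) →
      (∀ φ : X, ∑ i, n i • exz _ φ.1 i.1 = 0) → n ∈ S := fun n hn hX =>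
    row3 hAug x s hgood n hn hX
  -- finite index
  have hidx := (hFI {σ // σ ∈ I} S (by
    intro κ hκ
    have hκ' : ∀ σ ∈ Ed K, exz I κ σ = 0 := by
      apply hsep
      · intro τ hτ hτ3
        by_cases hv : v ∈ τ
        · -- faces containing v
          have hτ' : insert v (τ.erase v) = τ := insert_erase hv
          have hlk : τ.erase v ∈ Ed (LD K {v} ∅) := by
            rw [mem_Ed, mem_lkv hK, hτ']
            exact ⟨⟨notMem_erase _ _, hτ⟩, by rw [card_erase_of_mem hv, hτ3]⟩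
          rw [← hτ', dl_insert v _ (notMem_erase v τ)]
          have e1 : exz I κ (τ.erase v) = 0 := by
            have h1 := hκ (Pi.single ⟨τ.erase v, hLI _ hlk⟩ (N : ℤ)) (hrow3 _ (by
              intro i hi
              rw [Pi.single_eq_of_ne]
              rintro rfl
              exact hi (mem_Ed.mp hlk).1) (by
              intro φ
              rw [zsmul_single_sum _ _ (fun i : {σ // σ ∈ I} => exz _ φ.1 i.1)]
              have hF : τ.erase v ∈ Ed (Fu K u v) :=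
                mem_Ed.mpr ⟨lk_sub_Fu hK (mem_Ed.mp hlk).1, (mem_Ed.mp hlk).2⟩
              have h2 := congrFun (hexp φ.1 φ.2) ⟨_, hF⟩
              rw [exz_of_mem _ hF, natCast_zsmul]
              rwa [Pi.smul_apply] at h2))
            have h2 := zsmul_single_sum ⟨τ.erase v, hLI _ hlk⟩ (N : ℤ) κ
            have h3 : (N : ℤ) • κ ⟨τ.erase v, hLI _ hlk⟩ = 0 := by
              rw [← h2]
              refine Eq.trans ?_ h1
              exact sum_congr rfl (fun i _ => by rw [zsmul_eq_mul])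
            rw [exz_of_mem _ (hLI _ hlk)]
            rcases smul_eq_zero.mp h3 with h | h
            · exact absurd (by exact_mod_cast h) hN.ne'
            · exact h
          have e2 : dl (Pt v (exz I κ)) (τ.erase v) = 0 := by
            unfold dl
            apply sum_eq_zero
            intro a ha
            have : Pt v (exz I κ) ((τ.erase v).erase a) = 0 := by
              unfold Pt
              rw [exz_of_notMem, smul_zero]
              rw [hI, mem_filter]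
              exact fun h => h.2 (mem_insert_self _ _)
            rw [this, smul_zero]
          rw [e1, e2, sub_zero, smul_zero]
        · have hfaces : ∀ a ∈ τ, τ.erase a ∈ I := fun a ha => by
            rw [hI, mem_filter, mem_Ed]
            exact ⟨⟨hK _ hτ _ (erase_subset _ _), by rw [card_erase_of_mem ha, hτ3]⟩,
              fun h => hv (mem_of_mem_erase h)⟩
          have h1 := hκ _ (hrow1 τ hτ hv hτ3)
          rw [← row_sum hfaces (exz I κ)]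
          refine Eq.trans ?_ h1
          exact sum_congr rfl (fun i _ => by rw [exz_coe, zsmul_eq_mul])
      · apply exz_of_notMem
        rw [hI, mem_filter]
        exact fun h => h.2 (by simp)
      · intro σ hσ
        have h1 := hκ _ (hrow2 σ hσ)
        rw [exz_of_mem _ (hTI σ hσ)]
        have h2 := zsmul_single_sum ⟨σ, hTI σ hσ⟩ 1 κ
        rw [one_smul] at h2
        rw [← h2]
        refine Eq.trans ?_ h1
        exact sum_congr rfl (fun i _ => by rw [zsmul_eq_mul])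
    funext i
    rw [← exz_coe κ i]
    exact hκ' i.1 (mem_filter.mp i.2).1)).2
  -- the determinant lemma
  have hdet : Nat.card X ≤ Nat.card (({σ // σ ∈ I} → ℤ) ⧸ S) := by
    refine hDet X {σ // σ ∈ I} S (fun φ i => x φ i.1) ?_ (fun s hs => hs) hidx
    intro φ hφ h0
    obtain ⟨σ, h1, h2, h3⟩ := (hgood φ hφ).2.2.1
    exact h3 (congrFun h0 ⟨σ, mem_filter.mpr ⟨h1, h2⟩⟩)
  obtain ⟨hGfin, hdual⟩ := hDual {σ // σ ∈ I} S hidx
  -- characters are cocycles on `K - v`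
  have hG1 : ∀ g : {g : {σ // σ ∈ I} → QZ // ∀ s ∈ S, ∑ i, s i • g i = 0},
      Z1 (LD K ∅ {v}) (exz I g.1) := by
    intro g τ hτ hτ3
    rw [mem_delv] at hτ
    have hfaces : ∀ a ∈ τ, τ.erase a ∈ I := fun a ha => by
      rw [hI, mem_filter, mem_Ed]
      exact ⟨⟨hK _ hτ.1 _ (erase_subset _ _), by rw [card_erase_of_mem ha, hτ3]⟩,
        fun h => hτ.2 (mem_of_mem_erase h)⟩
    rw [← row_sum hfaces (exz I g.1)]
    refine Eq.trans ?_ (g.2 _ (hrow1 τ hτ.1 hτ.2 hτ3))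
    exact sum_congr rfl (fun i _ => by rw [exz_coe])
  have hG2 : ∀ g : {g : {σ // σ ∈ I} → QZ // ∀ s ∈ S, ∑ i, s i • g i = 0},
      ∀ σ ∈ T, exz I g.1 σ = 0 := by
    intro g σ hσ
    have h1 := g.2 _ (hrow2 σ hσ)
    rw [zsmul_single_sum _ _ g.1, one_smul] at h1
    rw [exz_of_mem _ (hTI σ hσ)]; exact h1
  have hG3 : ∀ g : {g : {σ // σ ∈ I} → QZ // ∀ s ∈ S, ∑ i, s i • g i = 0},
      ∃ ψ ∈ X, ∀ σ ∈ Ed (LD K {v} ∅), exz (Ed (Fu K u v)) ψ σ = exz I g.1 σ := by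
    intro g
    have hLF : ∀ σ ∈ Ed (LD K {v} ∅), σ ∈ Ed (Fu K u v) := fun σ hσ =>
      mem_Ed.mpr ⟨lk_sub_Fu hK (mem_Ed.mp hσ).1, (mem_Ed.mp hσ).2⟩
    let res : ({σ // σ ∈ Ed (Fu K u v)} → QZ) →+ ({σ // σ ∈ Ed (LD K {v} ∅)} → QZ) :=
      { toFun := fun c i => c ⟨i.1, hLF i.1 i.2⟩
        map_zero' := rfl
        map_add' := fun _ _ => rfl }
    have h1 := hAnn {σ // σ ∈ Ed (LD K {v} ∅)} (X.map res) N hN (by
      rintro _ ⟨c, hc, rfl⟩
      rw [← map_nsmul, hexp c hc, map_zero]) (fun i => exz I g.1 i.1) (by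
      intro n hn
      have h2 := g.2 (fun i => exz (Ed (LD K {v} ∅)) n i.1) (hrow3 _ (by
        intro i hi
        exact exz_of_notMem _ (fun h => hi (mem_Ed.mp h).1)) (by
        intro φ
        have h3 := hn (res φ.1) ⟨φ.1, φ.2, rfl⟩
        refine Eq.trans (sum_transfer (fun σ hσ => hLI σ hσ) n _) (Eq.trans ?_ h3)
        exact sum_congr rfl (fun i _ => by rw [exz_of_mem φ.1 (hLF i.1 i.2)]; rfl)))
      refine Eq.trans (sum_transfer (fun σ hσ => hLI σ hσ) n (exz I g.1)).symm (Eq.trans ?_ h2)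
      exact sum_congr rfl (fun i _ => by rw [exz_coe]))
    obtain ⟨ψ, hψ, hψ2⟩ := h1
    refine ⟨ψ, hψ, fun σ hσ => ?_⟩
    rw [exz_of_mem _ (hLF σ hσ)]
    exact congrFun hψ2 ⟨σ, hσ⟩
  choose ψ hψ1 hψ2 using hG3
  let G := {g : {σ // σ ∈ I} → QZ // ∀ s ∈ S, ∑ i, s i • g i = 0}
  let ℓ : G → ({σ // σ ∈ Ed (LD K {v} ∅)} → QZ) := fun g i => exz I g.1 i.1
  have : Nonempty G := ⟨⟨0, fun s _ => by simp⟩⟩
  let rep : ({σ // σ ∈ Ed (LD K {v} ∅)} → QZ) → G := Function.invFun ℓ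
  have hrep : ∀ g : G, ℓ (rep (ℓ g)) = ℓ g := fun g => Function.invFun_eq ⟨g, rfl⟩
  have hLF : ∀ σ ∈ Ed (LD K {v} ∅), σ ∈ Ed (Fu K u v) := fun σ hσ =>
    mem_Ed.mpr ⟨lk_sub_Fu hK (mem_Ed.mp hσ).1, (mem_Ed.mp hσ).2⟩
  have hmem : ∀ g g' : G, ℓ g = ℓ g' →
      rs K u v (fun σ => exz I g.1 σ - exz I g'.1 σ) ∈ X := by
    intro g g' hgg
    obtain ⟨κ, k1, k2, k3⟩ := hGlue α QZ K u v (fun σ => exz I g.1 σ - exz I g'.1 σ)
      (fun σ => exz I g.1 σ - exz I g'.1 σ) (fun _ => 0) hK huv he ((hG1 g).sub (hG1 g'))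
      (fun _ _ => rfl) (fun σ hσ => by
        rw [dl_zero]
        have := congrFun hgg ⟨σ, hσ⟩
        exact sub_eq_zero.mpr this)
    refine AddSubgroup.mem_sup_right ⟨κ, k1, k2, fun σ hσ => ?_, fun i => ?_⟩
    · rw [k3 σ (hT hσ)]
      simp only [hG2 g σ hσ, hG2 g' σ hσ, sub_zero]
    · rw [k3 i.1 i.2]; rfl
  let Φ : G → X := fun g => ⟨ψ (rep (ℓ g)) +
    rs K u v (fun σ => exz I g.1 σ - exz I (rep (ℓ g)).1 σ),
    X.add_mem (hψ1 _) (hmem g _ (hrep g).symm)⟩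
  have hΦ : ∀ g : G, ∀ σ (hσ : σ ∈ Ed (LD K {v} ∅)), (Φ g).1 ⟨σ, hLF σ hσ⟩ = exz I g.1 σ := by
    intro g σ hσ
    change ψ (rep (ℓ g)) ⟨σ, hLF σ hσ⟩ + (exz I g.1 σ - exz I (rep (ℓ g)).1 σ) = exz I g.1 σ
    have h1 := hψ2 (rep (ℓ g)) σ hσ
    rw [exz_of_mem _ (hLF σ hσ)] at h1
    rw [h1]; abel
  have hinj : Function.Injective Φ := by
    intro g g' hgg
    have h1 : ℓ g = ℓ g' := by
      funext i
      change exz I g.1 i.1 = exz I g'.1 i.1
      rw [← hΦ g i.1 i.2, ← hΦ g' i.1 i.2, hgg]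
    have h2 : ∀ σ ∈ Ed (Fu K u v), exz I g.1 σ = exz I g'.1 σ := by
      intro σ hσ
      have h3 := congrFun (Subtype.ext_iff.mp hgg) ⟨σ, hσ⟩
      change ψ (rep (ℓ g)) ⟨σ, hσ⟩ + (exz I g.1 σ - exz I (rep (ℓ g)).1 σ) =
        ψ (rep (ℓ g')) ⟨σ, hσ⟩ + (exz I g'.1 σ - exz I (rep (ℓ g')).1 σ) at h3
      rw [h1] at h3
      have h4 := add_left_cancel h3
      exact sub_left_injective h4
    have h3 := hInj α QZ K u v (fun σ => exz I g.1 σ - exz I g'.1 σ) hK huv he hcu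
      ((hG1 g).sub (hG1 g')) (fun σ hσ => sub_eq_zero.mpr (h2 σ hσ))
    apply Subtype.ext
    funext i
    have h4 := h3 i.1 (mem_filter.mp i.2).1 (mem_filter.mp i.2).2
    rw [← exz_coe g.1 i, ← exz_coe g'.1 i]
    exact sub_eq_zero.mp h4
  have hsurj : ¬ Function.Surjective Φ := by
    intro h
    obtain ⟨g, hg⟩ := h ⟨rs K u v χ, rs_mem⟩
    obtain ⟨σ, hσ, hne⟩ := hcon (exz I g.1) (hG1 g)
    apply hne
    rw [← hΦ g σ hσ, hg]; rfl
  have hlt : Nat.card G < Nat.card X := by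
    have : Fintype G := Fintype.ofFinite G
    have : Fintype X := Fintype.ofFinite X
    rw [Nat.card_eq_fintype_card, Nat.card_eq_fintype_card]
    exact Fintype.card_lt_of_injective_not_surjective Φ hinj hsurj
  exact absurd (hdet.trans hdual) (not_le.mpr hlt)

/-- C10. -/
theorem core (hDet : DetStmt) (hAug : AugStmt) (hFI : FinIndStmt) (hDual : DualStmt)
    (hAnn : AnnStmt) (hTw : TwDimStmt) (hRam : RamStmt) (hUnr : UnrStmt) (hSel : SelStmt)
    (hGlue : GlueStmt) (hInj : InjStmt) : CoreStmt := by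
  intro α _ K u v φ hK hL huv he hcu hcv hφ hm
  obtain ⟨T, hT, hInd, hConn, hsep⟩ := hSel α K u v hK huv he hcu hcv
  obtain ⟨χ, κ, h1, h2, _, h4⟩ := gauge hInd φ
  have hκF : Z1 (Fu K u v) κ := h2.mono (fun τ hτ => (mem_Fu.mp hτ).1)
  have hχ : Z1 (Fu K u v) χ := by
    have : χ = fun σ => φ σ - κ σ := by funext σ; rw [h1 σ]; abel
    rw [this]; exact hφ.sub hκF
  -- the comparison for all integers
  have key : ∀ m : ℕ, (fun σ => (m : ℤ) • χ σ) ∈ ZV K v → (fun σ => (m : ℤ) • χ σ) ∈ ZU K u v := by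
    intro m hz
    have e1 : (fun σ => m • φ σ) = (fun σ => (m : ℤ) • χ σ) + (m • κ) := by
      funext σ
      rw [Pi.add_apply, h1 σ, smul_add, natCast_zsmul]; rfl
    have e2 : (fun σ => (m : ℤ) • χ σ) = (fun σ => m • φ σ) - (m • κ) := by
      rw [e1]; abel
    have hv : (fun σ => m • φ σ) ∈ ZV K v := by
      rw [e1]; exact (ZV K v).add_mem hz ((ZV K v).nsmul_mem (Z1_ZV hK v h2) m)
    have hu : (fun σ => m • φ σ) ∈ ZU K u v := hm m hv
    rw [e2]; exact (ZU K u v).sub_mem hu ((ZU K u v).nsmul_mem (Z1_ZU u v h2) m)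
  have key2 : ∀ m : ℤ, (fun σ => m • χ σ) ∈ ZV K v → (fun σ => m • χ σ) ∈ ZU K u v := by
    intro m hz
    rcases le_total 0 m with h0 | h0
    · obtain ⟨n, rfl⟩ := Int.eq_ofNat_of_zero_le h0
      exact key n hz
    · obtain ⟨n, hn⟩ := Int.eq_ofNat_of_zero_le (neg_nonneg.mpr h0)
      have hm' : m = -(n : ℤ) := by omega
      have e : (fun σ => m • χ σ) = - (fun σ => (n : ℤ) • χ σ) := by
        funext σ; rw [hm', neg_smul]; rfl
      rw [e] at hz ⊢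
      exact (ZU K u v).neg_mem (key n (by simpa using (ZV K v).neg_mem hz))
  obtain ⟨g, hg1, hg2⟩ := core0 hDet hAug hFI hDual hAnn hTw hRam hUnr hGlue hInj hK hL huv he
    hcu hT hInd hConn hsep hχ h4 key2
  have hgF : Z1 (Fu K u v) g := hg1.mono (fun τ hτ => Fu_sub hτ)
  refine ⟨fun σ => g σ + κ σ, fun σ => χ σ - g σ, hgF.add hκF, hχ.sub hgF, ?_, ?_, ?_⟩
  · exact ⟨fun σ => g σ + κ σ, hg1.add (h2.mono (fun τ hτ => (mem_LD.mp hτ).1)), fun _ _ => rfl⟩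
  · exact ⟨fun _ => 0, fun σ hσ => by simp only [dl_zero, hg2 σ hσ, sub_self]⟩
  · intro σ _
    change φ σ = (g σ + κ σ) + (χ σ - g σ)
    rw [h1 σ, add_comm (g σ) (κ σ), add_assoc, add_sub_cancel, add_comm]

end Pool.Agent.Lib.MP_db6a6f_al
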