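import Pool.Agent.Lib.MP_db6a6f_al.Tw

set_option autoImplicit false

/-! Preparations for the core. -/

namespace Pool.Agent.Lib.MP_db6a6f_al

open Finset

variable {α : Type} [LinearOrder α]

/-- Extension by zero. -/
def exz {A : Type} [Zero A] (I : Finset (Finset α)) (c : {σ // σ ∈ I} → A) (σ : Finset α) : A :=
  if h : σ ∈ I then c ⟨σ, h⟩ else 0

theorem exz_of_mem {A : Type} [Zero A] {I : Finset (Finset α)} (c : {σ // σ ∈ I} → A)
    {σ : Finset α} (h : σ ∈ I) : exz I c σ = c ⟨σ, h⟩ := by unfold exz; rw [dif_pos h]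

theorem exz_coe {A : Type} [Zero A] {I : Finset (Finset α)} (c : {σ // σ ∈ I} → A)
    (i : {σ // σ ∈ I}) : exz I c i.1 = c i := exz_of_mem c i.2

theorem exz_of_notMem {A : Type} [Zero A] {I : Finset (Finset α)} (c : {σ // σ ∈ I} → A)
    {σ : Finset α} (h : σ ∉ I) : exz I c σ = 0 := by unfold exz; rw [dif_neg h]

theorem exz_add {A : Type} [AddCommGroup A] {I : Finset (Finset α)} (c d : {σ // σ ∈ I} → A)
    (σ : Finset α) : exz I (c + d) σ = exz I c σ + exz I d σ := by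
  unfold exz; split_ifs <;> simp

theorem exz_zero {A : Type} [AddCommGroup A] {I : Finset (Finset α)} (σ : Finset α) :
    exz I (0 : {σ // σ ∈ I} → A) σ = 0 := by
  unfold exz; split_ifs <;> simp

theorem exz_sub {A : Type} [AddCommGroup A] {I : Finset (Finset α)} (c d : {σ // σ ∈ I} → A)
    (σ : Finset α) : exz I (c - d) σ = exz I c σ - exz I d σ := by
  unfold exz; split_ifs <;> simp

/-- Summation over the faces of codimension one. -/
theorem sum_faces {B : Type} [AddCommMonoid B] {I : Finset (Finset α)} {τ : Finset α}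
    (h : ∀ a ∈ τ, τ.erase a ∈ I) (G : α → {σ // σ ∈ I} → B) (F : α → B)
    (hFG : ∀ a (ha : a ∈ τ), G a ⟨τ.erase a, h a ha⟩ = F a) :
    ∑ i : {σ // σ ∈ I}, ∑ a ∈ τ, (if τ.erase a = i.1 then G a i else 0) = ∑ a ∈ τ, F a := by
  rw [sum_comm]
  apply sum_congr rfl
  intro a ha
  rw [← hFG a ha]
  rw [Finset.sum_eq_single (⟨τ.erase a, h a ha⟩ : {σ // σ ∈ I})]
  · simp
  · intro b _ hb
    rw [if_neg]
    intro heq
    exact hb (Subtype.ext heq.symm)
  · simp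

/-- The integer row of a triangle. -/
def row (I : Finset (Finset α)) (τ : Finset α) (i : {σ // σ ∈ I}) : ℤ :=
  ∑ a ∈ τ, if τ.erase a = i.1 then sg a τ else 0

theorem row_sum {A : Type} [AddCommGroup A] {I : Finset (Finset α)} {τ : Finset α}
    (h : ∀ a ∈ τ, τ.erase a ∈ I) (f : Finset α → A) :
    ∑ i : {σ // σ ∈ I}, row I τ i • f i.1 = dl f τ := by
  unfold row dl
  rw [← sum_faces h (fun a i => sg a τ • f i.1) (fun a => sg a τ • f (τ.erase a))
    (fun a ha => rfl)]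
  apply sum_congr rfl
  intro i _
  rw [sum_smul]
  apply sum_congr rfl
  intro a _
  split_ifs <;> simp

/-- The subgroup of the cochains unramified at `u`. -/
def ZU (K : Finset (Finset α)) (u v : α) : AddSubgroup (Finset α → QZ) where
  carrier := {f | inZu K u v f}
  zero_mem' := ⟨0, fun τ _ _ => dl_zero τ, fun _ _ => rfl⟩
  add_mem' := by
    rintro f g ⟨a, ha, ha'⟩ ⟨b, hb, hb'⟩
    refine ⟨fun σ => a σ + b σ, fun τ h1 h2 => ?_, fun σ hσ => ?_⟩
    · rw [dl_add, ha τ h1 h2, hb τ h1 h2, add_zero]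
    · simp only [ha' σ hσ, hb' σ hσ]; rfl
  neg_mem' := by
    rintro f ⟨a, ha, ha'⟩
    refine ⟨fun σ => - a σ, fun τ h1 h2 => ?_, fun σ hσ => ?_⟩
    · rw [dl_neg, ha τ h1 h2, neg_zero]
    · simp only [ha' σ hσ]; rfl

/-- The subgroup of the cochains unramified at `v`. -/
def ZV (K : Finset (Finset α)) (v : α) : AddSubgroup (Finset α → QZ) where
  carrier := {f | inZv K v f}
  zero_mem' := ⟨0, fun σ _ => (dl_zero σ).symm⟩
  add_mem' := by
    rintro f g ⟨a, ha⟩ ⟨b, hb⟩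
    refine ⟨fun σ => a σ + b σ, fun σ hσ => ?_⟩
    rw [dl_add, ← ha σ hσ, ← hb σ hσ]; rfl
  neg_mem' := by
    rintro f ⟨a, ha⟩
    refine ⟨fun σ => - a σ, fun σ hσ => ?_⟩
    rw [dl_neg, ← ha σ hσ]; rfl

theorem mem_ZU {K : Finset (Finset α)} {u v : α} {f : Finset α → QZ} :
    f ∈ ZU K u v ↔ inZu K u v f := Iff.rfl

theorem mem_ZV {K : Finset (Finset α)} {v : α} {f : Finset α → QZ} :
    f ∈ ZV K v ↔ inZv K v f := Iff.rfl

theorem mem_delv {K : Finset (Finset α)} {v : α} {τ : Finset α} :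
    τ ∈ LD K ∅ {v} ↔ τ ∈ K ∧ v ∉ τ := by
  rw [mem_LD]
  simp only [disjoint_empty_right, true_and, disjoint_singleton_right, union_empty]
  tauto

theorem mem_lkv {K : Finset (Finset α)} (hK : IsCx K) {v : α} {τ : Finset α} :
    τ ∈ LD K {v} ∅ ↔ v ∉ τ ∧ insert v τ ∈ K := by
  rw [mem_LD]
  constructor
  · rintro ⟨_, h2, _, h4⟩
    refine ⟨by simpa using h2, ?_⟩
    rwa [union_comm, ← insert_eq] at h4
  · rintro ⟨h1, h2⟩
    refine ⟨hK _ h2 _ (subset_insert _ _), by simpa using h1, by simp, ?_⟩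
    rwa [union_comm, ← insert_eq]

theorem Fu_sub {K : Finset (Finset α)} {u v : α} {τ : Finset α} (h : τ ∈ Fu K u v) :
    τ ∈ LD K ∅ {v} := by
  rw [mem_Fu] at h; rw [mem_delv]; exact ⟨h.1, h.2.1⟩

/-- Edges of the link of `v` belong to `F`. -/
theorem lk_sub_Fu {K : Finset (Finset α)} (hK : IsCx K) {u v : α} {σ : Finset α}
    (h : σ ∈ LD K {v} ∅) : σ ∈ Fu K u v := by
  rw [mem_lkv hK] at h
  rw [mem_Fu]
  exact ⟨hK _ h.2 _ (subset_insert _ _), h.1, fun _ => h.2⟩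

theorem Z1.mono {A : Type} [AddCommGroup A] {X Y : Finset (Finset α)} (h : Y ⊆ X)
    {f : Finset α → A} (hf : Z1 X f) : Z1 Y f := fun τ h1 h2 => hf τ (h h1) h2

theorem Z1.add {A : Type} [AddCommGroup A] {X : Finset (Finset α)} {f g : Finset α → A}
    (hf : Z1 X f) (hg : Z1 X g) : Z1 X (fun σ => f σ + g σ) := fun τ h1 h2 => by
  rw [dl_add, hf τ h1 h2, hg τ h1 h2, add_zero]

theorem Z1.sub {A : Type} [AddCommGroup A] {X : Finset (Finset α)} {f g : Finset α → A}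
    (hf : Z1 X f) (hg : Z1 X g) : Z1 X (fun σ => f σ - g σ) := fun τ h1 h2 => by
  rw [dl_sub, hf τ h1 h2, hg τ h1 h2, sub_zero]

theorem Z1.congr {A : Type} [AddCommGroup A] {X : Finset (Finset α)} (hX : IsCx X)
    {f g : Finset α → A} (hf : Z1 X f) (h : ∀ σ ∈ Ed X, g σ = f σ) : Z1 X g := by
  intro τ h1 h2
  rw [← hf τ h1 h2]
  apply dl_congr
  intro a ha
  apply h
  rw [mem_Ed]
  exact ⟨hX _ h1 _ (erase_subset _ _), by rw [card_erase_of_mem ha, h2]⟩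

theorem Z1_ZU {K : Finset (Finset α)} (u v : α) {κ : Finset α → QZ} (h : Z1 K κ) :
    κ ∈ ZU K u v :=
  ⟨κ, h.mono (fun _ hτ => (mem_LD.mp hτ).1), fun _ _ => rfl⟩

theorem Z1_ZV {K : Finset (Finset α)} (hK : IsCx K) (v : α) {κ : Finset α → QZ} (h : Z1 K κ) :
    κ ∈ ZV K v := by
  refine ⟨Pt v κ, fun σ hσ => ?_⟩
  rw [mem_Ed, mem_lkv hK] at hσ
  obtain ⟨⟨h1, h2⟩, h3⟩ := hσ
  have h4 := Pt_dl v κ h1
  have h5 : Pt v (dl κ) σ = 0 := by
    unfold Pt
    rw [h _ h2 (by rw [card_insert_of_notMem h1, h3]), smul_zero]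
  rw [h5] at h4
  exact sub_eq_zero.mp h4.symm

/-- The gauge. -/
theorem gauge {K : Finset (Finset α)} {u v : α} {T : Finset (Finset α)} (hT : Indep K u v T)
    (φ : Finset α → QZ) : ∃ χ κ : Finset α → QZ, (∀ σ, φ σ = χ σ + κ σ) ∧ Z1 K κ ∧
      κ {u, v} = 0 ∧ ∀ σ ∈ T, χ σ = 0 := by
  have hl : ∀ σ, ∃ c : ℚ, ((c : ℚ) : QZ) = φ σ := fun σ => QuotientAddGroup.mk_surjective (φ σ)
  choose c hc using hl
  obtain ⟨κ, h1, h2, h3⟩ := hT c
  refine ⟨fun σ => φ σ - ((κ σ : ℚ) : QZ), fun σ => ((κ σ : ℚ) : QZ), fun σ => by simp, ?_, ?_, ?_⟩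
  · intro τ hτ hτ'
    have := dl_map (QuotientAddGroup.mk' (AddSubgroup.zmultiples (1 : ℚ))) κ τ
    rw [h1 τ hτ hτ', map_zero] at this
    exact this
  · simp only [h2]; rfl
  · intro σ hσ
    simp only
    rw [h3 σ hσ, hc σ, sub_self]

/-- Cocycles vanishing on `T` have bounded order. -/
theorem bounded (hFI : FinIndStmt) {K : Finset (Finset α)} (hK : IsCx K) {u v : α}
    (huv : u ≠ v) (he : {u, v} ∈ K) {T : Finset (Finset α)} (hTF : T ⊆ Ed (Fu K u v))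
    (hsep : ∀ κ : Finset α → ℚ, Z1 K κ → κ {u, v} = 0 → (∀ σ ∈ T, κ σ = 0) →
      ∀ σ ∈ Ed K, κ σ = 0) :
    ∃ N : ℕ, 0 < N ∧ ∀ κ : Finset α → QZ, Z1 K κ → κ {u, v} = 0 → (∀ σ ∈ T, κ σ = 0) →
      ∀ σ ∈ Ed K, N • κ σ = 0 := by
  classical
  let I := Ed K
  let S : AddSubgroup ({σ // σ ∈ I} → ℤ) :=
    { carrier := {s | ∀ κ : Finset α → QZ, Z1 K κ → κ {u, v} = 0 → (∀ σ ∈ T, κ σ = 0) →
        ∑ i : {σ // σ ∈ I}, s i • κ i.1 = 0}
      zero_mem' := by intro κ _ _ _; simp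
      add_mem' := by
        intro a b ha hb κ h1 h2 h3
        simp only [Pi.add_apply, add_smul, sum_add_distrib]
        rw [ha κ h1 h2 h3, hb κ h1 h2 h3, add_zero]
      neg_mem' := by
        intro a ha κ h1 h2 h3
        simp only [Pi.neg_apply, neg_smul, sum_neg_distrib]
        rw [ha κ h1 h2 h3, neg_zero] }
  have hsingle : ∀ (i : {σ // σ ∈ I}) (A : Type) [AddCommGroup A] (n : ℤ)
      (f : {σ // σ ∈ I} → A), ∑ j, (Pi.single i n : {σ // σ ∈ I} → ℤ) j • f j = n • f i := by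
    intro i A _ n f
    rw [Finset.sum_eq_single i]
    · simp
    · intro j _ hj; rw [Pi.single_eq_of_ne hj, zero_smul]
    · simp
  have hTI : ∀ σ ∈ T, σ ∈ I := by
    intro σ hσ
    have := hTF hσ
    rw [mem_Ed, mem_Fu] at this
    exact mem_Ed.mpr ⟨this.1.1, this.2⟩
  have heI : {u, v} ∈ I := mem_Ed.mpr ⟨he, card_pair huv⟩
  obtain ⟨⟨N, hN, hNS⟩, _⟩ := hFI {σ // σ ∈ I} S (by
    intro κ hκ
    have hκ' : ∀ σ ∈ Ed K, exz I κ σ = 0 := by
      apply hsep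
      · intro τ hτ hτ3
        have hfaces : ∀ a ∈ τ, τ.erase a ∈ I := fun a ha =>
          mem_Ed.mpr ⟨hK _ hτ _ (erase_subset _ _), by rw [card_erase_of_mem ha, hτ3]⟩
        have h1 := hκ (row I τ) (by
          intro κ' h1 _ _
          rw [row_sum hfaces κ']
          exact h1 τ hτ hτ3)
        have h2 := row_sum hfaces (exz I κ)
        rw [← h2, ← h1]
        apply sum_congr rfl
        intro i _
        rw [exz_coe, zsmul_eq_mul]
      · have h1 := hκ (Pi.single ⟨{u, v}, heI⟩ 1) (by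
          intro κ' _ h2 _
          rw [hsingle ⟨{u, v}, heI⟩ QZ 1 (fun i => κ' i.1), one_smul]; exact h2)
        rw [exz_of_mem _ heI]
        have h2 := hsingle ⟨{u, v}, heI⟩ ℚ 1 κ
        rw [one_smul] at h2
        rw [← h2, ← h1]
        exact sum_congr rfl (fun i _ => by rw [zsmul_eq_mul])
      · intro σ hσ
        have h1 := hκ (Pi.single ⟨σ, hTI σ hσ⟩ 1) (by
          intro κ' _ _ h3
          rw [hsingle ⟨σ, hTI σ hσ⟩ QZ 1 (fun i => κ' i.1), one_smul]; exact h3 σ hσ)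
        rw [exz_of_mem _ (hTI σ hσ)]
        have h2 := hsingle ⟨σ, hTI σ hσ⟩ ℚ 1 κ
        rw [one_smul] at h2
        rw [← h2, ← h1]
        exact sum_congr rfl (fun i _ => by rw [zsmul_eq_mul])
    funext i
    rw [← exz_coe κ i]
    exact hκ' i.1 i.2)
  refine ⟨N, hN, fun κ h1 h2 h3 σ hσ => ?_⟩
  have h4 := hNS (Pi.single ⟨σ, hσ⟩ 1) κ h1 h2 h3
  have h5 : (N • (Pi.single ⟨σ, hσ⟩ 1 : {σ // σ ∈ I} → ℤ)) = Pi.single ⟨σ, hσ⟩ (N : ℤ) := by
    funext j
    by_cases hj : j = ⟨σ, hσ⟩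
    · subst hj; simp
    · simp [Pi.single_eq_of_ne hj]
  rw [h5, hsingle ⟨σ, hσ⟩ QZ N (fun i => κ i.1)] at h4
  simpa using h4

end Pool.Agent.Lib.MP_db6a6f_al
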