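import Pool.Agent.Lib.MP_db6a6f_al.CoreA

set_option autoImplicit false

/-! The core, part 2: the group of cocycles and the liftable rows. -/

namespace Pool.Agent.Lib.MP_db6a6f_al

open Finset

variable {α : Type} [LinearOrder α]

/-- The cocycles on `F` induced by cocycles on `K` vanishing on `{u, v}` and on `T`. -/
def QQ (K : Finset (Finset α)) (u v : α) (T : Finset (Finset α)) :
    AddSubgroup ({σ // σ ∈ Ed (Fu K u v)} → QZ) where
  carrier := {c | ∃ κ : Finset α → QZ, Z1 K κ ∧ κ {u, v} = 0 ∧ (∀ σ ∈ T, κ σ = 0) ∧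
    ∀ i, c i = κ i.1}
  zero_mem' := ⟨fun _ => 0, fun τ _ _ => dl_zero τ, rfl, fun _ _ => rfl, fun _ => rfl⟩
  add_mem' := by
    rintro a b ⟨κ, h1, h2, h3, h4⟩ ⟨κ', h1', h2', h3', h4'⟩
    refine ⟨fun σ => κ σ + κ' σ, h1.add h1', by simp only [h2, h2', add_zero],
      fun σ hσ => by simp only [h3 σ hσ, h3' σ hσ, add_zero], fun i => ?_⟩
    simp only [Pi.add_apply, h4, h4']
  neg_mem' := by
    rintro a ⟨κ, h1, h2, h3, h4⟩
    refine ⟨fun σ => - κ σ, fun τ hτ hτ' => by rw [dl_neg, h1 τ hτ hτ', neg_zero],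
      by simp only [h2, neg_zero], fun σ hσ => by simp only [h3 σ hσ, neg_zero], fun i => ?_⟩
    simp only [Pi.neg_apply, h4]

/-- The restriction of `χ` to the edges of `F`. -/
def rs (K : Finset (Finset α)) (u v : α) (χ : Finset α → QZ) :
    {σ // σ ∈ Ed (Fu K u v)} → QZ := fun i => χ i.1

/-- The group generated by `χ` and `QQ`. -/
def XX (K : Finset (Finset α)) (u v : α) (T : Finset (Finset α)) (χ : Finset α → QZ) :
    AddSubgroup ({σ // σ ∈ Ed (Fu K u v)} → QZ) :=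
  AddSubgroup.zmultiples (rs K u v χ) ⊔ QQ K u v T

theorem mem_XX {K : Finset (Finset α)} {u v : α} {T : Finset (Finset α)} {χ : Finset α → QZ}
    {c : {σ // σ ∈ Ed (Fu K u v)} → QZ} (hc : c ∈ XX K u v T χ) :
    ∃ (m : ℤ) (κ : Finset α → QZ), Z1 K κ ∧ κ {u, v} = 0 ∧ (∀ σ ∈ T, κ σ = 0) ∧
      ∀ i, c i = m • χ i.1 + κ i.1 := by
  obtain ⟨a, ha, b, ⟨κ, h1, h2, h3, h4⟩, rfl⟩ := AddSubgroup.mem_sup.mp hc
  obtain ⟨m, rfl⟩ := AddSubgroup.mem_zmultiples_iff.mp ha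
  exact ⟨m, κ, h1, h2, h3, fun i => by rw [Pi.add_apply, h4 i]; rfl⟩

/-- The cochain attached to an element of the group. -/
theorem XX_Z1 {K : Finset (Finset α)} (hK : IsCx K) {u v : α} {T : Finset (Finset α)}
    {χ : Finset α → QZ} (hχ : Z1 (Fu K u v) χ) {c : {σ // σ ∈ Ed (Fu K u v)} → QZ}
    (hc : c ∈ XX K u v T χ) : Z1 (Fu K u v) (exz _ c) := by
  obtain ⟨m, κ, h1, _, _, h4⟩ := mem_XX hc
  have h5 : Z1 (Fu K u v) (fun σ => m • χ σ + κ σ) := by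
    intro τ hτ hτ'
    rw [dl_add, dl_zsmul, hχ τ hτ hτ', h1 τ (mem_Fu.mp hτ).1 hτ', smul_zero, add_zero]
  exact h5.congr (isCx_Fu hK u v) (fun σ hσ => by rw [exz_of_mem _ hσ, h4])

theorem XX_T {K : Finset (Finset α)} {u v : α} {T : Finset (Finset α)}
    {χ : Finset α → QZ} (hT : T ⊆ Ed (Fu K u v)) (hχT : ∀ σ ∈ T, χ σ = 0)
    {c : {σ // σ ∈ Ed (Fu K u v)} → QZ}
    (hc : c ∈ XX K u v T χ) : ∀ σ ∈ T, exz _ c σ = 0 := by
  obtain ⟨m, κ, _, _, h3, h4⟩ := mem_XX hc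
  intro σ hσ
  rw [exz_of_mem _ (hT hσ), h4]
  simp only [hχT σ hσ, h3 σ hσ, smul_zero, add_zero]

theorem rs_mem {K : Finset (Finset α)} {u v : α} {T : Finset (Finset α)} {χ : Finset α → QZ} :
    rs K u v χ ∈ XX K u v T χ :=
  AddSubgroup.mem_sup_left (AddSubgroup.mem_zmultiples _)

/-- Evaluation at an oriented edge, as a character. -/
noncomputable def evc {K : Finset (Finset α)} {u v : α} (X : AddSubgroup ({σ // σ ∈ Ed (Fu K u v)} → QZ))
    (a b : α) : AddChar X ℂ where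
  toFun := fun c => eQ (asy (exz _ c.1) a b)
  map_zero_eq_one' := by
    have : asy (exz (Ed (Fu K u v)) (0 : {σ // σ ∈ Ed (Fu K u v)} → QZ)) a b = 0 := by
      unfold asy; split_ifs <;> simp [exz_zero]
    change eQ (asy (exz (Ed (Fu K u v)) (0 : {σ // σ ∈ Ed (Fu K u v)} → QZ)) a b) = 1
    rw [this, eQ_zero]
  map_add_eq_mul' := by
    intro c d
    have : asy (exz (Ed (Fu K u v)) (c.1 + d.1)) a b =
        asy (exz (Ed (Fu K u v)) c.1) a b + asy (exz (Ed (Fu K u v)) d.1) a b := by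
      unfold asy; split_ifs <;> simp [exz_add]; abel
    change eQ (asy (exz (Ed (Fu K u v)) (c.1 + d.1)) a b) = _
    rw [this, eQ_add]

theorem char_mem_Lam {X : Type} [AddCommGroup X] (ψ : AddChar X ℂ) :
    (fun φ => ψ φ) ∈ Lam X := Subring.subset_closure ⟨ψ, rfl⟩

/-- The liftable rows. -/
def SS (X ι : Type) [AddCommGroup X] [Fintype ι] (x : X → ι → ℂ) : AddSubgroup (ι → ℤ) where
  carrier := {s | ∃ r : ι → X → ℂ, (∀ i, r i ∈ Lam X) ∧ (∀ i, r i 0 = (s i : ℂ)) ∧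
      ∀ φ, φ ≠ 0 → ∑ i, r i φ * x φ i = 0}
  zero_mem' := ⟨fun _ _ => 0, fun _ => Subring.zero_mem _, fun _ => by simp, fun _ _ => by simp⟩
  add_mem' := by
    rintro a b ⟨r, h1, h2, h3⟩ ⟨r', h1', h2', h3'⟩
    refine ⟨fun i φ => r i φ + r' i φ, fun i => Subring.add_mem _ (h1 i) (h1' i), fun i => ?_,
      fun φ hφ => ?_⟩
    · simp only [h2, h2']; simp
    · simp only [add_mul, sum_add_distrib, h3 φ hφ, h3' φ hφ, add_zero]
  neg_mem' := by
    rintro a ⟨r, h1, h2, h3⟩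
    refine ⟨fun i φ => - r i φ, fun i => Subring.neg_mem _ (h1 i), fun i => ?_, fun φ hφ => ?_⟩
    · simp only [h2]; simp
    · simp only [neg_mul, sum_neg_distrib, h3 φ hφ, neg_zero]

end Pool.Agent.Lib.MP_db6a6f_al
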