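import Pool.Agent.Lib.MP_db6a6f_al.CoreB

set_option autoImplicit false

/-! The core, part 3: vectors and rows. -/

namespace Pool.Agent.Lib.MP_db6a6f_al

open Finset

variable {α : Type} [LinearOrder α]

/-- Every nonzero element of the group has a good vector. -/
theorem vec (hTw : TwDimStmt) (hRam : RamStmt) (hUnr : UnrStmt) {K : Finset (Finset α)}
    (hK : IsCx K) (hL : Ler K) {u v : α} (huv : u ≠ v) (he : {u, v} ∈ K)
    {T : Finset (Finset α)} (hT : T ⊆ Ed (Fu K u v)) (hInd : Indep K u v T) (hConn : Conn K v T)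
    {χ : Finset α → QZ} (hχ : Z1 (Fu K u v) χ) (hχT : ∀ σ ∈ T, χ σ = 0)
    (hram : ∀ m : ℤ, (fun σ => m • χ σ) ∈ ZV K v → (fun σ => m • χ σ) ∈ ZU K u v)
    {c : {σ // σ ∈ Ed (Fu K u v)} → QZ} (hc : c ∈ XX K u v T χ) (hc0 : c ≠ 0) :
    ∃ (x : Finset α → ℂ) (s : ℂ), Good K u v (exz _ c) T x s := by
  have h1 := XX_Z1 hK hχ hc
  have h2 := XX_T hT hχT hc
  by_cases hr : ∃ σ ∈ Ed (LD K {v} ∅), exz _ c σ ≠ 0
  · obtain ⟨x, hx1, hx2, hx3⟩ := hTw α K u v (exz _ c) hK hL huv he h1 T hT hInd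
    obtain ⟨s, hs⟩ := hRam α K u v _ T x hK huv he h1 hT hConn h2 hr hx1 hx2 hx3
    exact ⟨x, s, hs⟩
  · push Not at hr
    obtain ⟨m, κ, k1, k2, k3, k4⟩ := mem_XX hc
    have hzv : (fun σ => m • χ σ) ∈ ZV K v := by
      obtain ⟨s, hs⟩ := (ZV K v).neg_mem (Z1_ZV hK v k1)
      refine ⟨s, fun σ hσ => ?_⟩
      rw [← hs σ hσ]
      have hF : σ ∈ Ed (Fu K u v) := mem_Ed.mpr ⟨lk_sub_Fu hK (mem_Ed.mp hσ).1, (mem_Ed.mp hσ).2⟩
      have h3 := hr σ hσ
      rw [exz_of_mem _ hF, k4] at h3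
      exact eq_neg_of_add_eq_zero_left h3
    have hzu := hram m hzv
    obtain ⟨ψ, hψ1, hψ2⟩ := (ZU K u v).add_mem hzu (Z1_ZU u v k1)
    have hψ3 : ∀ σ ∈ Ed (Fu K u v), ψ σ = exz _ c σ := fun σ hσ => by
      rw [hψ2 σ hσ, exz_of_mem _ hσ, k4]; rfl
    refine hUnr α K u v (exz _ c) ψ T hK huv he hψ1 hψ3 hT h2 ?_
    by_contra hno
    push Not at hno
    apply hc0
    funext i
    rw [← exz_coe c i, hno i.1 i.2]; rfl

/-- Type 1 rows. -/
theorem row1 {K : Finset (Finset α)} (hK : IsCx K) {u v : α}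
    {X : AddSubgroup ({σ // σ ∈ Ed (Fu K u v)} → QZ)} {T : Finset (Finset α)}
    (x : X → Finset α → ℂ) (s : X → ℂ)
    (hx : ∀ φ : X, φ ≠ 0 → Good K u v (exz _ φ.1) T (x φ) (s φ))
    {τ : Finset α} (hτ : τ ∈ K) (hv : v ∉ τ) (h3 : τ.card = 3) :
    row ((Ed K).filter (fun σ => v ∉ σ)) τ ∈
      SS X {σ // σ ∈ (Ed K).filter (fun σ => v ∉ σ)} (fun φ i => x φ i.1) := by
  classical
  have hfaces : ∀ a ∈ τ, τ.erase a ∈ (Ed K).filter (fun σ => v ∉ σ) := fun a ha => by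
    rw [mem_filter, mem_Ed]
    exact ⟨⟨hK _ hτ _ (erase_subset _ _), by rw [card_erase_of_mem ha, h3]⟩,
      fun h => hv (mem_of_mem_erase h)⟩
  refine ⟨fun i φ => ∑ a ∈ τ, if τ.erase a = i.1 then
    (sg a τ : ℂ) * evc X (bp u v (τ.erase a)) (bp u v τ) φ else 0, ?_, ?_, ?_⟩
  · intro i
    have : (fun φ : X => ∑ a ∈ τ, if τ.erase a = i.1 then
        (sg a τ : ℂ) * evc X (bp u v (τ.erase a)) (bp u v τ) φ else 0) =
        ∑ a ∈ τ, (if τ.erase a = i.1 then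
          ((sg a τ : ℤ) : X → ℂ) * (fun φ => evc X (bp u v (τ.erase a)) (bp u v τ) φ)
          else 0) := by
      funext φ
      rw [Finset.sum_apply]
      apply sum_congr rfl
      intro a _
      split_ifs
      · simp
      · rfl
    show (fun φ : X => ∑ a ∈ τ, if τ.erase a = i.1 then
        (sg a τ : ℂ) * evc X (bp u v (τ.erase a)) (bp u v τ) φ else 0) ∈ Lam X
    rw [this]
    apply Subring.sum_mem
    intro a _
    split_ifs
    · exact Subring.mul_mem _ (intCast_mem _ _) (char_mem_Lam _)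
    · exact Subring.zero_mem _
  · intro i
    simp only [AddChar.map_zero_eq_one, mul_one]
    unfold row
    push_cast
    rfl
  · intro φ hφ
    have h1 := (hx φ hφ).1 τ hτ hv h3
    unfold dt at h1
    refine Eq.trans ?_ ((sum_faces hfaces (fun a i => (sg a τ : ℂ) *
      (eQ (asy (exz _ φ.1) (bp u v (τ.erase a)) (bp u v τ)) * x φ i.1))
      (fun a => (sg a τ : ℂ) * (eQ (asy (exz _ φ.1) (bp u v (τ.erase a)) (bp u v τ)) *
        x φ (τ.erase a))) (fun a ha => rfl)).trans h1)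
    apply sum_congr rfl
    intro i _
    rw [sum_mul]
    apply sum_congr rfl
    intro a _
    split_ifs
    · change (sg a τ : ℂ) * eQ _ * x φ i.1 = _
      ring
    · rw [zero_mul]

/-- Type 2 rows. -/
theorem row2 {K : Finset (Finset α)} {u v : α}
    {X : AddSubgroup ({σ // σ ∈ Ed (Fu K u v)} → QZ)} {T : Finset (Finset α)}
    (x : X → Finset α → ℂ) (s : X → ℂ)
    (hx : ∀ φ : X, φ ≠ 0 → Good K u v (exz _ φ.1) T (x φ) (s φ))
    {t : Finset α} (ht : t ∈ T) (htI : t ∈ (Ed K).filter (fun σ => v ∉ σ)) :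
    (Pi.single ⟨t, htI⟩ 1 : {σ // σ ∈ (Ed K).filter (fun σ => v ∉ σ)} → ℤ) ∈
      SS X {σ // σ ∈ (Ed K).filter (fun σ => v ∉ σ)} (fun φ i => x φ i.1) := by
  classical
  refine ⟨fun i _ => if i = ⟨t, htI⟩ then 1 else 0, ?_, ?_, ?_⟩
  · intro i
    by_cases h : i = ⟨t, htI⟩
    · simp only [h, if_true]; exact Subring.one_mem _
    · simp only [h, if_false]; exact Subring.zero_mem _
  · intro i
    simp only [Pi.single_apply]
    split_ifs <;> simp
  · intro φ hφ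
    simp only [ite_mul, one_mul, zero_mul, sum_ite_eq', mem_univ, if_true]
    exact (hx φ hφ).2.1 t ht

/-- Type 3 rows. -/
theorem row3 (hAug : AugStmt) {K : Finset (Finset α)} {u v : α}
    {X : AddSubgroup ({σ // σ ∈ Ed (Fu K u v)} → QZ)} {T : Finset (Finset α)}
    (x : X → Finset α → ℂ) (s : X → ℂ)
    (hx : ∀ φ : X, φ ≠ 0 → Good K u v (exz _ φ.1) T (x φ) (s φ))
    (n : {σ // σ ∈ (Ed K).filter (fun σ => v ∉ σ)} → ℤ)
    (hn : ∀ i, i.1 ∉ LD K {v} ∅ → n i = 0)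
    (hX : ∀ φ : X, ∑ i, n i • exz _ φ.1 i.1 = 0) :
    n ∈ SS X {σ // σ ∈ (Ed K).filter (fun σ => v ∉ σ)} (fun φ i => x φ i.1) := by
  classical
  -- orientation
  have hor : ∀ i : {σ // σ ∈ (Ed K).filter (fun σ => v ∉ σ)}, ∃ p : α × α,
      p.1 < p.2 ∧ i.1 = {p.1, p.2} := by
    intro i
    have h2 : i.1.card = 2 := (mem_Ed.mp (mem_filter.mp i.2).1).2
    obtain ⟨a, b, hab, h⟩ := card_eq_two.mp h2
    rcases lt_or_gt_of_ne hab with h' | h'
    · exact ⟨(a, b), h', h⟩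
    · exact ⟨(b, a), h', by rw [h, pair_comm]⟩
  choose p hp1 hp2 using hor
  obtain ⟨ρ, h1, h2, h3⟩ := hAug X {σ // σ ∈ (Ed K).filter (fun σ => v ∉ σ)}
    (univ.filter fun i => i.1 ∈ LD K {v} ∅) (fun i => evc X (p i).2 (p i).1) n (by
      intro φ
      have h4 : ∀ i : {σ // σ ∈ (Ed K).filter (fun σ => v ∉ σ)},
          (evc X (p i).2 (p i).1) φ ^ (n i) = eQ (- (n i • exz _ φ.1 i.1)) := by
        intro i
        change eQ (asy (exz _ φ.1) (p i).2 (p i).1) ^ (n i) = _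
        rw [asy_of_gt _ (hp1 i), pair_comm, ← hp2 i, ← eQ_zsmul, smul_neg]
      rw [prod_congr rfl (fun i _ => h4 i), ← eQ_sum, sum_neg_distrib, sum_filter]
      have h5 : (∑ a : {σ // σ ∈ (Ed K).filter (fun σ => v ∉ σ)},
          if a.1 ∈ LD K {v} ∅ then n a • exz _ φ.1 a.1 else 0) = 0 := by
        refine Eq.trans ?_ (hX φ)
        apply sum_congr rfl
        intro i _
        split_ifs with h
        · rfl
        · rw [hn i h, zero_smul]
      rw [h5, neg_zero, eQ_zero])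
  refine ⟨fun i φ => if i.1 ∈ LD K {v} ∅ then ρ i φ * evc X (bp u v i.1) (p i).1 φ else 0,
    ?_, ?_, ?_⟩
  · intro i
    by_cases h : i.1 ∈ LD K {v} ∅
    · simp only [h, if_true]
      exact Subring.mul_mem _ (h1 i) (char_mem_Lam (evc X (bp u v i.1) (p i).1))
    · simp only [h, if_false]; exact Subring.zero_mem _
  · intro i
    by_cases h : i.1 ∈ LD K {v} ∅
    · simp only [h, if_true, AddChar.map_zero_eq_one, mul_one, h2]
    · simp only [h, if_false, hn i h]; simp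
  · intro φ hφ
    have h6 : ∀ i : {σ // σ ∈ (Ed K).filter (fun σ => v ∉ σ)},
        (if i.1 ∈ LD K {v} ∅ then ρ i φ * evc X (bp u v i.1) (p i).1 φ else 0) * x φ i.1 =
        (if i.1 ∈ LD K {v} ∅ then ρ i φ * (evc X (p i).2 (p i).1 φ - 1) else 0) * s φ := by
      intro i
      split_ifs with h
      · have h7 := (hx φ hφ).2.2.2 (p i).1 (p i).2 (hp1 i) (by rw [← hp2 i]; exact h)
        rw [← hp2 i] at h7
        rw [h7]
        change ρ i φ * eQ (asy (exz _ φ.1) (bp u v i.1) (p i).1) *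
          (eQ (asy (exz _ φ.1) (p i).1 (bp u v i.1)) * _ * s φ) =
          ρ i φ * (eQ (asy (exz _ φ.1) (p i).2 (p i).1) - 1) * s φ
        rw [asy_swap _ (p i).1 (bp u v i.1), asy_of_gt _ (hp1 i), pair_comm (p i).2, ← hp2 i,
          eQ_neg (asy (exz _ φ.1) (p i).1 (bp u v i.1))]
        have := eQ_ne_zero (asy (exz _ φ.1) (p i).1 (bp u v i.1))
        field_simp
      · simp
    rw [sum_congr rfl (fun i _ => h6 i), ← sum_mul, ← sum_filter, h3 φ, zero_mul]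

end Pool.Agent.Lib.MP_db6a6f_al
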