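import Pool.Agent.Lib.MP_db6a6f_al.Trans

set_option autoImplicit false

/-! Coxeter groups: the nerve, and the dimension of the boundary by the formula of Davis. -/

namespace Pool.Agent.Lib.MP_db6a6f_al

open Finset

/-- The nerve of the Coxeter group with matrix `M`: the family of the sets `T` of generators which
generate a finite (special) subgroup. -/
noncomputable def nerve {m : ℕ} (M : CoxeterMatrix (Fin m)) : Finset (Finset (Fin m)) :=
  open Classical in
  univ.filter (fun T => Finite (Subgroup.closure (M.simple '' (T : Set (Fin m)))))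

theorem mem_nerve {m : ℕ} {M : CoxeterMatrix (Fin m)} {T : Finset (Fin m)} :
    T ∈ nerve M ↔ Finite (Subgroup.closure (M.simple '' (T : Set (Fin m)))) := by
  unfold nerve; simp

theorem isCx_nerve {m : ℕ} (M : CoxeterMatrix (Fin m)) : IsCx (nerve M) := by
  intro T hT U hU
  rw [mem_nerve] at hT ⊢
  have h : Subgroup.closure (M.simple '' (U : Set (Fin m))) ≤
      Subgroup.closure (M.simple '' (T : Set (Fin m))) :=
    Subgroup.closure_mono (Set.image_mono (by exact_mod_cast hU))
  exact Finite.of_injective _ (Subgroup.inclusion_injective h)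

/-- The boundary has cohomological dimension `n` over `R`, by the formula of Davis: the largest
degree `k` in which, for some spherical set `T` (possibly empty), the nerve with the vertices of
`T` deleted has nonvanishing reduced cohomology over `R` is `k = n`. -/
def HasBdDim (R : Type) [AddCommGroup R] {m : ℕ} (M : CoxeterMatrix (Fin m)) (n : ℕ) : Prop :=
  (∃ T ∈ nerve M, ¬ Ex R (LD (nerve M) ∅ T) (n + 1)) ∧
    ∀ k : ℕ, n < k → ∀ T ∈ nerve M, Ex R (LD (nerve M) ∅ T) (k + 1)

theorem cox (hFold : FoldStmt) (hHer : HerStmt) (hInt : IntStmt) :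
    ∀ n : ℕ, 3 ≤ n → ∀ (m : ℕ) (M : CoxeterMatrix (Fin m)),
      ¬ (HasBdDim ℤ M n ∧ HasBdDim ℚ M 1) := by
  rintro n hn m M ⟨⟨⟨T, hT, h1⟩, _⟩, ⟨_, h2⟩⟩
  apply h1
  have hp : StrictMono (fun i : Fin m => ((i : ℕ) : ℚ)) := fun a b hab => by
    simpa using hab
  exact int_of_rat hFold hHer hInt hp (isCx_nerve M)
    (fun σ hσ k hk => by
      obtain ⟨j, rfl⟩ : ∃ j, k = j + 1 := ⟨k - 1, by omega⟩
      exact h2 j (by omega) σ hσ) T hT (n + 1) (by omega)

end Pool.Agent.Lib.MP_db6a6f_al
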