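import Mathlib

set_option autoImplicit false

/-! Coxeter groups whose boundaries have rational homological dimension one: definitions.
Simplicial complexes are finite families of finite sets of vertices of a linearly ordered type,
cochains are functions on finite sets. -/

namespace Pool.Agent.Lib.MP_db6a6f_al

open Finset

variable {α : Type} [LinearOrder α]

/-- The sign of the vertex `a` in the set `τ`: `(-1)` to the number of smaller elements of `τ`. -/
def sg (a : α) (τ : Finset α) : ℤ := (-1) ^ (τ.filter (fun b => b < a)).card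

/-- The (augmented) simplicial coboundary, evaluated at the set `τ`. -/
def dl {A : Type} [AddCommGroup A] (f : Finset α → A) (τ : Finset α) : A :=
  ∑ a ∈ τ, sg a τ • f (τ.erase a)

/-- The `v`-part of a cochain, a cochain on the link of `v`. -/
def Pt {A : Type} [AddCommGroup A] (v : α) (f : Finset α → A) (ρ : Finset α) : A :=
  sg v (insert v ρ) • f (insert v ρ)

/-- `K` is closed under subsets. -/
def IsCx (K : Finset (Finset α)) : Prop := ∀ σ ∈ K, ∀ τ ⊆ σ, τ ∈ K

/-- The reduced cohomology of `K` in degree `k - 1` with coefficients in `A` vanishes. -/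
def Ex (A : Type) [AddCommGroup A] (K : Finset (Finset α)) (k : ℕ) : Prop :=
  ∀ f : Finset α → A, (∀ τ ∈ K, τ.card = k + 1 → dl f τ = 0) →
    ∃ g : Finset α → A, ∀ σ ∈ K, σ.card = k → f σ = dl g σ

/-- The link of `σ` in `K`, with the vertices in `A` deleted. `LD K ∅ A` is `K` with `A` deleted,
`LD K σ ∅` is the link of `σ`. -/
def LD (K : Finset (Finset α)) (σ A : Finset α) : Finset (Finset α) :=
  K.filter (fun τ => Disjoint τ σ ∧ Disjoint τ A ∧ τ ∪ σ ∈ K)

/-- `K` is 2-Leray over the rationals: no link, and no full subcomplex of a link, has rational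
cohomology in degrees `≥ 2`. -/
def Ler (K : Finset (Finset α)) : Prop := ∀ σ A : Finset α, ∀ k : ℕ, 3 ≤ k → Ex ℚ (LD K σ A) k

/-- The complex `F`: the faces of `K` not containing `v` and which, if they contain `u`, still form
a face together with `v`. -/
def Fu (K : Finset (Finset α)) (u v : α) : Finset (Finset α) :=
  K.filter (fun τ => v ∉ τ ∧ (u ∈ τ → insert v τ ∈ K))

/-- The faces of `X` with two vertices. -/
def Ed (X : Finset (Finset α)) : Finset (Finset α) := X.filter (fun τ => τ.card = 2)

/-- `f` is a 1-cocycle on `X`. -/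
def Z1 {A : Type} [AddCommGroup A] (X : Finset (Finset α)) (f : Finset α → A) : Prop :=
  ∀ τ ∈ X, τ.card = 3 → dl f τ = 0

/-- The antisymmetric version of a 1-cochain. -/
def asy {A : Type} [AddCommGroup A] (f : Finset α → A) (a b : α) : A :=
  if a < b then f {a, b} else if b < a then - f {a, b} else 0

/-- The rationals modulo the integers. -/
abbrev QZ : Type := AddCircle (1 : ℚ)

/-- The exponential `t ↦ exp (2 π i t)` on `ℚ / ℤ`. -/
noncomputable def eQ : QZ → ℂ :=
  Quotient.lift (fun t : ℚ => Complex.exp (2 * Real.pi * Complex.I * (t : ℂ))) (by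
    intro a b h
    have h' : -a + b ∈ AddSubgroup.zmultiples (1 : ℚ) := QuotientAddGroup.leftRel_apply.mp h
    obtain ⟨n, hn⟩ := AddSubgroup.mem_zmultiples_iff.mp h'
    have hb : (b : ℂ) = (a : ℂ) + (n : ℂ) := by
      have : b = a + n := by
        have : (n : ℚ) = -a + b := by simpa using hn
        linarith
      rw [this]; push_cast; ring
    show Complex.exp _ = Complex.exp _
    rw [hb]
    rw [show 2 * (Real.pi : ℂ) * Complex.I * ((a : ℂ) + (n : ℂ)) =
      2 * (Real.pi : ℂ) * Complex.I * (a : ℂ) + (n : ℂ) * (2 * Real.pi * Complex.I) by ring]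
    rw [Complex.exp_add, Complex.exp_int_mul_two_pi_mul_I, mul_one])

/-- The base point of a face: the least vertex different from `u` and `v`, and `u` if there is
none. -/
def bp (u v : α) (σ : Finset α) : α :=
  if h : ((σ.erase u).erase v).Nonempty then ((σ.erase u).erase v).min' h else u

/-- The coboundary twisted by the 1-cocycle `φ` of `Fu K u v`. -/
noncomputable def dt (u v : α) (φ : Finset α → QZ) (f : Finset α → ℂ) (τ : Finset α) : ℂ :=
  ∑ a ∈ τ, (sg a τ : ℂ) * (eQ (asy φ (bp u v (τ.erase a)) (bp u v τ)) * f (τ.erase a))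

end Pool.Agent.Lib.MP_db6a6f_al
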