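import Pool.Agent.Lib.MP_db6a6f_al.Stmts

set_option autoImplicit false

/-! Properties of the exponential on `ℚ / ℤ`. -/

namespace Pool.Agent.Lib.MP_db6a6f_al

open Finset

theorem eQ_coe (t : ℚ) : eQ (t : QZ) = Complex.exp (2 * Real.pi * Complex.I * (t : ℂ)) := rfl

theorem eQ_zero : eQ 0 = 1 := by
  have : (0 : QZ) = ((0 : ℚ) : QZ) := rfl
  rw [this, eQ_coe]; simp

theorem eQ_add (s t : QZ) : eQ (s + t) = eQ s * eQ t := by
  induction s using QuotientAddGroup.induction_on with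
  | H a =>
    induction t using QuotientAddGroup.induction_on with
    | H b =>
      rw [← QuotientAddGroup.mk_add]
      change eQ (((a + b : ℚ)) : QZ) = eQ (a : QZ) * eQ (b : QZ)
      rw [eQ_coe, eQ_coe, eQ_coe, ← Complex.exp_add]
      push_cast; ring_nf

theorem eQ_ne_zero (t : QZ) : eQ t ≠ 0 := by
  intro h
  have h1 := eQ_add t (-t)
  rw [add_neg_cancel, eQ_zero, h, zero_mul] at h1
  exact one_ne_zero h1

theorem eQ_neg (t : QZ) : eQ (-t) = (eQ t)⁻¹ := by
  have h1 := eQ_add t (-t)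
  rw [add_neg_cancel, eQ_zero] at h1
  exact eq_inv_of_mul_eq_one_right h1.symm

theorem eQ_sub (s t : QZ) : eQ (s - t) = eQ s * (eQ t)⁻¹ := by
  rw [sub_eq_add_neg, eQ_add, eQ_neg]

theorem eQ_nsmul (n : ℕ) (t : QZ) : eQ (n • t) = eQ t ^ n := by
  induction n with
  | zero => simp [eQ_zero]
  | succ n ih => rw [succ_nsmul, eQ_add, ih, pow_succ]

theorem eQ_zsmul (n : ℤ) (t : QZ) : eQ (n • t) = eQ t ^ n := by
  cases n with
  | ofNat n => simp [eQ_nsmul]
  | negSucc n =>
    rw [negSucc_zsmul, eQ_neg, eQ_nsmul, zpow_negSucc]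

theorem eQ_sum {ι : Type*} (s : Finset ι) (f : ι → QZ) :
    eQ (∑ i ∈ s, f i) = ∏ i ∈ s, eQ (f i) := by
  classical
  induction s using Finset.induction_on with
  | empty => simp [eQ_zero]
  | insert a s ha ih => rw [sum_insert ha, prod_insert ha, eQ_add, ih]

theorem eQ_inj {t : QZ} (h : eQ t = 1) : t = 0 := by
  induction t using QuotientAddGroup.induction_on with
  | H a =>
    change eQ (a : QZ) = 1 at h
    rw [eQ_coe, Complex.exp_eq_one_iff] at h
    obtain ⟨n, hn⟩ := h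
    have h1 : (2 * Real.pi * Complex.I : ℂ) ≠ 0 := Complex.two_pi_I_ne_zero
    have h2 : (a : ℂ) = (n : ℂ) := by
      have : 2 * (Real.pi : ℂ) * Complex.I * ((a : ℂ) - n) = 0 := by
        rw [mul_sub, hn]; ring
      rcases mul_eq_zero.mp this with h | h
      · exact absurd h h1
      · exact sub_eq_zero.mp h
    have h3 : a = n := by exact_mod_cast h2
    rw [QuotientAddGroup.eq_zero_iff, h3]
    exact AddSubgroup.mem_zmultiples_iff.mpr ⟨n, by simp⟩

theorem eQ_injective : Function.Injective eQ := by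
  intro s t h
  have : eQ (s - t) = 1 := by rw [eQ_sub, h, mul_inv_cancel₀ (eQ_ne_zero t)]
  exact sub_eq_zero.mp (eQ_inj this)

theorem eQ_surj {z : ℂ} {n : ℕ} (hn : 0 < n) (hz : z ^ n = 1) : ∃ t : QZ, eQ t = z := by
  haveI : NeZero n := ⟨hn.ne'⟩
  have hz0 : z ≠ 0 := by
    rintro rfl; rw [zero_pow hn.ne'] at hz; exact zero_ne_one hz
  have hu : Units.mk0 z hz0 ∈ rootsOfUnity n ℂ := by
    rw [mem_rootsOfUnity]; ext; simpa using hz
  rw [Complex.mem_rootsOfUnity] at hu
  obtain ⟨i, _, hi⟩ := hu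
  refine ⟨((i / n : ℚ) : QZ), ?_⟩
  rw [eQ_coe]
  simp only [Units.val_mk0] at hi
  rw [← hi]
  push_cast
  rfl

/-- `eQ` as a character. -/
noncomputable def eQc : AddChar QZ ℂ where
  toFun := eQ
  map_zero_eq_one' := eQ_zero
  map_add_eq_mul' := eQ_add

theorem eQc_apply (t : QZ) : eQc t = eQ t := rfl

theorem exists_nsmul (t : QZ) : ∃ n : ℕ, 0 < n ∧ n • t = 0 := by
  induction t using QuotientAddGroup.induction_on with
  | H a =>
    refine ⟨a.den, a.den_pos, ?_⟩
    rw [← QuotientAddGroup.mk_nsmul, QuotientAddGroup.eq_zero_iff]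
    refine AddSubgroup.mem_zmultiples_iff.mpr ⟨a.num, ?_⟩
    rw [zsmul_one, nsmul_eq_mul, mul_comm]
    exact (Rat.mul_den_eq_num a).symm

/-- A common exponent for finitely many elements. -/
theorem exists_common_nsmul {ι : Type*} (s : Finset ι) (f : ι → QZ) :
    ∃ n : ℕ, 0 < n ∧ ∀ i ∈ s, n • f i = 0 := by
  classical
  induction s using Finset.induction_on with
  | empty => exact ⟨1, one_pos, by simp⟩
  | insert a s ha ih =>
    obtain ⟨n, hn, h⟩ := ih
    obtain ⟨m, hm, h'⟩ := exists_nsmul (f a)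
    refine ⟨n * m, Nat.mul_pos hn hm, ?_⟩
    intro i hi
    rcases mem_insert.mp hi with rfl | hi
    · rw [mul_nsmul', h', smul_zero]
    · rw [mul_nsmul, h i hi, smul_zero]

theorem finite_torsion {n : ℕ} (hn : 0 < n) : Finite {t : QZ // n • t = 0} := by
  have hf : {z : ℂ | z ^ n = 1}.Finite := by
    have : {z : ℂ | z ^ n = 1} ⊆ ((Polynomial.X ^ n - 1 : Polynomial ℂ).roots.toFinset : Set ℂ) := by
      intro z hz
      simp only [Set.mem_setOf_eq] at hz
      have hp : (Polynomial.X ^ n - 1 : Polynomial ℂ) ≠ 0 :=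
        Polynomial.X_pow_sub_C_ne_zero hn 1
      simp [Polynomial.mem_roots hp, hz]
    exact (Finset.finite_toSet _).subset this
  haveI := hf.to_subtype
  refine Finite.of_injective (β := {z : ℂ | z ^ n = 1})
    (fun t : {t : QZ // n • t = 0} => ⟨eQ t.1, ?_⟩) ?_
  · simp only [Set.mem_setOf_eq]
    rw [← eQ_nsmul, t.2, eQ_zero]
  · intro s t h
    apply Subtype.ext
    exact eQ_injective (Subtype.ext_iff.mp h)

/-- A torsion element is an integer multiple of `1 / n`. -/
theorem exists_zsmul_of_nsmul {n : ℕ} (hn : 0 < n) {t : QZ} (ht : n • t = 0) :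
    ∃ k : ℤ, t = k • ((1 / n : ℚ) : QZ) := by
  induction t using QuotientAddGroup.induction_on with
  | H a =>
    rw [← QuotientAddGroup.mk_nsmul, QuotientAddGroup.eq_zero_iff] at ht
    obtain ⟨k, hk⟩ := AddSubgroup.mem_zmultiples_iff.mp ht
    refine ⟨k, ?_⟩
    have h2 : a = k • (1 / n : ℚ) := by
      rw [zsmul_one, nsmul_eq_mul] at hk
      have hn' : (n : ℚ) ≠ 0 := by exact_mod_cast hn.ne'
      rw [zsmul_eq_mul, hk]; field_simp
    conv_lhs => rw [h2]
    rfl

end Pool.Agent.Lib.MP_db6a6f_al
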