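import Pool.Agent.Lib.MP_db6a6f_al.Davis

set_option autoImplicit false

/-! The Davis complex as the geometric realization of the partially ordered set of the spherical
cosets, and its cohomology with compact supports. -/

namespace Pool.Agent.Lib.MP_db6a6f_al

open Finset

section
variable {β : Type} [PartialOrder β]

open Classical in
/-- The sign of the vertex `p` of the simplex (chain) `τ` of the order complex: `(-1)` to the number
of the elements of `τ` smaller than `p`. -/
noncomputable def sgP (p : β) (τ : Finset β) : ℤ := (-1) ^ (τ.filter (fun q => q < p)).card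

open Classical in
/-- The simplicial coboundary of the order complex. -/
noncomputable def dP {R : Type} [AddCommGroup R] (f : Finset β → R) (τ : Finset β) : R :=
  ∑ p ∈ τ, sgP p τ • f (τ.erase p)

theorem sgP_mul_self (p : β) (τ : Finset β) : sgP p τ * sgP p τ = 1 := by
  unfold sgP; rw [← pow_add, ← two_mul, pow_mul]; simp

open Classical in
theorem sgP_erase {p q : β} {τ : Finset β} (hq : q ∈ τ) :
    sgP p (τ.erase q) = (if q < p then -1 else 1) * sgP p τ := by
  unfold sgP
  have h1 : (τ.erase q).filter (fun x => x < p) = (τ.filter (fun x => x < p)).erase q := by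
    ext x; simp only [mem_filter, mem_erase]; tauto
  rw [h1]
  split_ifs with h
  · have hm : q ∈ τ.filter (fun x => x < p) := by simp [hq, h]
    rw [card_erase_of_mem hm]
    obtain ⟨n, hn⟩ := Nat.exists_eq_succ_of_ne_zero (card_ne_zero_of_mem hm)
    rw [hn]; simp [pow_succ]
  · rw [erase_eq_of_notMem]
    · simp
    · simp [h]

open Classical in
theorem sgP_sgP {p q : β} {τ : Finset β} (hτ : IsChain (· ≤ ·) (τ : Set β)) (hp : p ∈ τ)
    (hq : q ∈ τ) (hpq : p ≠ q) :
    sgP p τ * sgP q (τ.erase p) = - (sgP q τ * sgP p (τ.erase q)) := by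
  rw [sgP_erase hp, sgP_erase hq]
  rcases hτ (by exact_mod_cast hp) (by exact_mod_cast hq) hpq with h | h
  · have h1 : p < q := lt_of_le_of_ne h hpq
    rw [if_pos h1, if_neg h1.asymm]; ring
  · have h1 : q < p := lt_of_le_of_ne h (Ne.symm hpq)
    rw [if_pos h1, if_neg h1.asymm]; ring

variable {R : Type} [AddCommGroup R]

open Classical in
theorem dP_congr {f g : Finset β → R} {τ : Finset β}
    (h : ∀ p ∈ τ, f (τ.erase p) = g (τ.erase p)) : dP f τ = dP g τ := by
  unfold dP; exact sum_congr rfl (fun p hp => by rw [h p hp])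

theorem dP_add (f g : Finset β → R) (τ : Finset β) :
    dP (fun σ => f σ + g σ) τ = dP f τ + dP g τ := by
  unfold dP; simp [smul_add, sum_add_distrib]

theorem dP_sub (f g : Finset β → R) (τ : Finset β) :
    dP (fun σ => f σ - g σ) τ = dP f τ - dP g τ := by
  unfold dP; simp [smul_sub, sum_sub_distrib]

theorem dP_neg (f : Finset β → R) (τ : Finset β) : dP (fun σ => - f σ) τ = - dP f τ := by
  unfold dP; simp [sum_neg_distrib]

theorem dP_zero (τ : Finset β) : dP (fun _ => (0 : R)) τ = 0 := by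
  unfold dP; simp

open Classical in
/-- The coboundary squares to zero on chains. -/
theorem dP_dP (f : Finset β → R) {τ : Finset β} (hτ : IsChain (· ≤ ·) (τ : Set β)) :
    dP (dP f) τ = 0 := by
  unfold dP
  have : ∀ a ∈ τ, sgP a τ • ∑ b ∈ τ.erase a, sgP b (τ.erase a) • f ((τ.erase a).erase b) =
      ∑ b ∈ τ.erase a, (sgP a τ * sgP b (τ.erase a)) • f ((τ.erase a).erase b) := by
    intro a _
    rw [smul_sum]; exact sum_congr rfl (fun b _ => by rw [smul_smul])
  rw [sum_congr rfl this]
  have key : ∀ (σ : Finset β) (F : β → β → R), (∀ a ∈ σ, ∀ b ∈ σ, a ≠ b → F a b = - F b a) →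
      ∑ a ∈ σ, ∑ b ∈ σ.erase a, F a b = 0 := by
    intro σ
    induction σ using Finset.induction_on with
    | empty => intro F _; simp
    | insert c σ hc ih =>
      intro F h
      rw [sum_insert hc, erase_insert hc]
      have h2 : ∀ a ∈ σ, ∑ b ∈ (insert c σ).erase a, F a b = F a c + ∑ b ∈ σ.erase a, F a b := by
        intro a ha
        have hac : a ≠ c := fun h => hc (h ▸ ha)
        rw [erase_insert_of_ne (Ne.symm hac), sum_insert]
        simp [hc]
      rw [sum_congr rfl h2, sum_add_distrib,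
        ih F (fun a ha b hb hab => h a (mem_insert_of_mem ha) b (mem_insert_of_mem hb) hab),
        add_zero, ← sum_add_distrib]
      apply sum_eq_zero
      intro a ha
      have hac : c ≠ a := fun h => hc (h ▸ ha)
      rw [h c (mem_insert_self _ _) a (mem_insert_of_mem ha) hac]
      simp
  apply key
  intro a ha b hb hab
  rw [sgP_sgP hτ ha hb hab, neg_smul, erase_right_comm]

end

variable {m : ℕ}

/-- The simplices of the Davis complex: the finite chains of spherical cosets. The vertices are the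
pairs `(T, D)` with `T` spherical and `D` a left coset of `W_T`, ordered by inclusion. -/
def IsSimp (M : CoxeterMatrix (Fin m)) (τ : Finset (Finset (Fin m) × Set M.Group)) : Prop :=
  (∀ p ∈ τ, IsCell M p.1 p.2) ∧ IsChain (· ≤ ·) (τ : Set (Finset (Fin m) × Set M.Group))

/-- The simplicial cohomology with compact supports of the Davis complex with coefficients in `R`
vanishes in degree `k` (for `k ≥ 1`). -/
def HcZ (R : Type) [AddCommGroup R] (M : CoxeterMatrix (Fin m)) (k : ℕ) : Prop :=
  ∀ f : Finset (Finset (Fin m) × Set M.Group) → R,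
    {τ | IsSimp M τ ∧ τ.card = k + 1 ∧ f τ ≠ 0}.Finite →
    (∀ τ, IsSimp M τ → τ.card = k + 2 → dP f τ = 0) →
    ∃ g : Finset (Finset (Fin m) × Set M.Group) → R,
      {τ | IsSimp M τ ∧ τ.card = k ∧ g τ ≠ 0}.Finite ∧
      ∀ τ, IsSimp M τ → τ.card = k + 1 → f τ = dP g τ

/-- The boundary of the Coxeter group has dimension `n` over `R`: the largest degree in which the
compactly supported cohomology of the Davis complex with coefficients in `R` is not zero is
`n + 1`. -/
def BoundaryDim (R : Type) [AddCommGroup R] (M : CoxeterMatrix (Fin m)) (n : ℕ) : Prop :=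
  ¬ HcZ R M (n + 1) ∧ ∀ k : ℕ, n < k → HcZ R M (k + 1)

/-- The chains of faces of `L`. -/
def IsFl {α : Type} (L : Finset (Finset α)) (χ : Finset (Finset α)) : Prop :=
  χ ⊆ L ∧ IsChain (· ≤ ·) (χ : Set (Finset α))

/-- The relative cohomology in degree `k` of the order complex of `L` modulo the chains with no
element contained in `T` vanishes. -/
def RelEx {α : Type} [LinearOrder α] (R : Type) [AddCommGroup R] (L : Finset (Finset α))
    (T : Finset α) (k : ℕ) : Prop :=
  ∀ c : Finset (Finset α) → R,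
    (∀ χ, IsFl L χ → χ.card = k + 1 → (∀ U ∈ χ, ¬ U ⊆ T) → c χ = 0) →
    (∀ χ, IsFl L χ → χ.card = k + 2 → dP c χ = 0) →
    ∃ b : Finset (Finset α) → R,
      (∀ χ, IsFl L χ → χ.card = k → (∀ U ∈ χ, ¬ U ⊆ T) → b χ = 0) ∧
      ∀ χ, IsFl L χ → χ.card = k + 1 → c χ = dP b χ

/-- The sum over the full flags of `σ`. -/
def rho {α : Type} [LinearOrder α] {R : Type} [AddCommGroup R] :
    ℕ → (Finset (Finset α) → R) → Finset α → R
  | 0, c, _ => c {∅}
  | k + 1, c, σ =>
    ∑ a ∈ σ, ((-1 : ℤ) ^ k * sg a σ) • rho k (fun χ => c (insert σ χ)) (σ.erase a)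

/-- The singleton of the largest element of `U \ T` (empty if `U ⊆ T`). -/
def mx {α : Type} [LinearOrder α] (T U : Finset α) : Finset α :=
  (U \ T).filter (fun x => ∀ y ∈ U \ T, y ≤ x)

/-- The pullback under the simplicial map sending `U` to the largest element of `U \ T`, and to the
cone point if `U ⊆ T`. -/
def lam {α : Type} [LinearOrder α] {R : Type} [AddCommGroup R] (T : Finset α)
    (g : Finset α → R) (χ : Finset (Finset α)) : R :=
  if (χ.filter (fun U => U ⊆ T)).card = 1 ∧ (χ.biUnion (mx T)).card + 1 = χ.card then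
    g (χ.biUnion (mx T)) else 0

/-- F1. -/
def LamStmt : Prop :=
  ∀ (α : Type) [LinearOrder α] (R : Type) [AddCommGroup R] (T : Finset α) (g : Finset α → R)
    (χ : Finset (Finset α)), IsChain (· ≤ ·) (χ : Set (Finset α)) →
    dP (lam T g) χ = - lam T (dl g) χ

/-- F2. -/
def RhoStmt : Prop :=
  ∀ (α : Type) [LinearOrder α] (R : Type) [AddCommGroup R] (k : ℕ) (c : Finset (Finset α) → R)
    (σ : Finset α), σ.card = k + 1 →
    (∀ χ : Finset (Finset α), IsChain (· ≤ ·) (χ : Set (Finset α)) →
      (∀ U ∈ χ, U ⊆ σ ∧ U ≠ ∅) → χ.card = k + 1 → c χ = 0) →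
    rho (k + 1) (dP c) σ = - dl (rho k c) σ

/-- F3. -/
def RhoLamStmt : Prop :=
  ∀ (α : Type) [LinearOrder α] (R : Type) [AddCommGroup R] (k : ℕ) (T σ : Finset α)
    (g : Finset α → R), σ.card = k → Disjoint σ T → rho k (lam T g) σ = g σ

/-- F4. -/
def FlagDownStmt : Prop :=
  ∀ (α : Type) [LinearOrder α] (R : Type) [AddCommGroup R] (L : Finset (Finset α))
    (T : Finset α) (k : ℕ), IsCx L → RelEx R L T (k + 1) → Ex R (LD L ∅ T) (k + 1)

/-- F5. -/
def FlagUpStmt : Prop :=
  ∀ (α : Type) [LinearOrder α] (R : Type) [AddCommGroup R] (L : Finset (Finset α))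
    (T : Finset α) (k : ℕ), IsCx L → Ex R (LD L ∅ T) (k + 1) → RelEx R L T (k + 1)

/-- F6: the other elements of the coset of the descents are shorter. -/
def LongStmt : Prop :=
  ∀ (m : ℕ) (M : CoxeterMatrix (Fin m)) (w : M.Group) (T : Finset (Fin m)),
    (∀ i ∈ T, M.toCoxeterSystem.length (w * M.simple i) < M.toCoxeterSystem.length w) →
    ∀ a ∈ WT M T, a ≠ 1 → M.toCoxeterSystem.length (w * a) < M.toCoxeterSystem.length w

/-- F7: from the Davis complex to the chamber, over the rationals. -/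
def LowFStmt : Prop :=
  ∀ (m : ℕ) (M : CoxeterMatrix (Fin m)) (k : ℕ), HcZ ℚ M (k + 1) → ∀ T ∈ nerve M,
    RelEx ℚ (nerve M) T (k + 1)

/-- F8: from the chamber to the Davis complex. -/
def HighFStmt : Prop :=
  ∀ (m : ℕ) (M : CoxeterMatrix (Fin m)) (R : Type) [AddCommGroup R] (k : ℕ),
    (∀ T ∈ nerve M, RelEx R (nerve M) T (k + 1)) → HcZ R M (k + 1)

/-- The theorem. -/
theorem davisFlag (hFold : FoldStmt) (hHer : HerStmt) (hInt : IntStmt) (hDown : FlagDownStmt)
    (hUp : FlagUpStmt) (hLow : LowFStmt) (hHigh : HighFStmt) :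
    ∀ n : ℕ, 3 ≤ n → ∀ (m : ℕ) (M : CoxeterMatrix (Fin m)),
      ¬ (BoundaryDim ℤ M n ∧ BoundaryDim ℚ M 1) := by
  rintro n hn m M ⟨⟨h1, _⟩, ⟨_, h2⟩⟩
  apply h1
  apply hHigh
  intro T hT
  apply hUp _ _ _ _ _ (isCx_nerve M)
  have hp : StrictMono (fun i : Fin m => ((i : ℕ) : ℚ)) := fun a b hab => by
    simpa using hab
  exact int_of_rat hFold hHer hInt hp (isCx_nerve M)
    (fun σ hσ k hk => by
      obtain ⟨j, rfl⟩ : ∃ j, k = j + 1 := ⟨k - 1, by omega⟩
      exact hDown _ _ _ _ _ (isCx_nerve M) (hLow m M j (h2 j (by omega)) σ hσ)) T hT (n + 1)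
    (by omega)

end Pool.Agent.Lib.MP_db6a6f_al
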