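import Pool.Agent.Lib.MP_db6a6f_al.HighF

set_option autoImplicit false

/-! F7: from the Davis complex (order complex of the spherical cosets) to the chamber, over the
rationals. -/

namespace Pool.Agent.Lib.MP_db6a6f_al

open Finset

namespace LowFAux

open HighFAux

variable {m : ℕ}

/-- The sign of an element of the Coxeter group. -/
noncomputable def ep (M : CoxeterMatrix (Fin m)) (h : M.Group) : ℚ := (-1) ^ ll M h

theorem ep_mul (M : CoxeterMatrix (Fin m)) (h : M.Group) (s : Fin m) :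
    ep M (h * M.simple s) = - ep M h := by
  unfold ep
  rcases M.toCoxeterSystem.length_mul_simple h s with h1 | h1
  · have h2 : ll M (h * M.simple s) = ll M h + 1 := h1
    rw [h2, pow_succ]; ring
  · have h2 : ll M (h * M.simple s) + 1 = ll M h := h1
    rw [← h2, pow_succ]; ring

open Classical in
/-- The alternating sum over the elements of `S` in the special subgroup of the complement of
`T`. -/
noncomputable def av (M : CoxeterMatrix (Fin m)) (T : Finset (Fin m)) (S : Finset M.Group)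
    (f : Finset (Finset (Fin m) × Set M.Group) → ℚ) (χ : Finset (Finset (Fin m))) : ℚ :=
  ∑ h ∈ S.filter (fun h => h ∈ WT M (univ \ T)), ep M h * f (tr M h χ)

open Classical in
theorem dP_mul (a : ℚ) {β : Type} [PartialOrder β] (f : Finset β → ℚ) (τ : Finset β) :
    dP (fun σ => a * f σ) τ = a * dP f τ := by
  unfold dP
  rw [Finset.mul_sum]
  exact Finset.sum_congr rfl (fun p _ => by rw [mul_smul_comm])

theorem dP_av (M : CoxeterMatrix (Fin m)) (T : Finset (Fin m)) (S : Finset M.Group)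
    (f : Finset (Finset (Fin m) × Set M.Group) → ℚ) (χ : Finset (Finset (Fin m))) :
    dP (av M T S f) χ = av M T S (dP f) χ := by
  classical
  unfold av
  rw [dP_sum]
  refine Finset.sum_congr ?_ ?_
  · congr
  · intro h _
    rw [dP_mul, dP_tr]

theorem exists_min_fl {χ : Finset (Finset (Fin m))} (hχ : IsChain (· ≤ ·) (χ : Set (Finset (Fin m))))
    (hne : χ.Nonempty) : ∃ U₀ ∈ χ, ∀ U ∈ χ, U₀ ⊆ U := by
  obtain ⟨U₀, hU₀, hmin⟩ := Finset.exists_min_image χ Finset.card hne
  refine ⟨U₀, hU₀, ?_⟩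
  intro U hU
  by_cases hUU : U = U₀
  · rw [hUU]
  rcases hχ (by exact_mod_cast hU) (by exact_mod_cast hU₀) hUU with h2 | h2
  · exact absurd (Finset.eq_of_subset_of_card_le h2 (hmin U hU)) hUU
  · exact h2

theorem simple_mul_self' (M : CoxeterMatrix (Fin m)) (h : M.Group) (s : Fin m) :
    h * M.simple s * M.simple s = h := by
  have h1 : M.simple s * M.simple s = 1 := M.toCoxeterSystem.simple_mul_simple_self s
  rw [mul_assoc, h1, mul_one]

/-- The alternating sum is relative. -/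
theorem av_rel (M : CoxeterMatrix (Fin m)) (T : Finset (Fin m)) (S : Finset M.Group)
    (f : Finset (Finset (Fin m) × Set M.Group) → ℚ) {k : ℕ}
    (hS : ∀ h χ, IsFl (nerve M) χ → χ.card = k + 1 → f (tr M h χ) ≠ 0 → h ∈ S)
    {χ : Finset (Finset (Fin m))} (hχ : IsFl (nerve M) χ) (hc : χ.card = k + 1)
    (hT : ∀ U ∈ χ, ¬ U ⊆ T) : av M T S f χ = 0 := by
  classical
  obtain ⟨U₀, hU₀, h1⟩ := exists_min_fl hχ.2 (by rw [← Finset.card_pos, hc]; omega)
  obtain ⟨s, hs, hs2⟩ := Finset.not_subset.mp (hT U₀ hU₀)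
  have htr : ∀ h : M.Group, tr M (h * M.simple s) χ = tr M h χ :=
    fun h => tr_mul (fun U hU => h1 U hU hs) h
  have hsC : M.simple s ∈ WT M (univ \ T) :=
    simple_mem_WT (Finset.mem_sdiff.mpr ⟨Finset.mem_univ s, hs2⟩)
  unfold av
  rw [← Finset.sum_filter_ne_zero]
  refine Finset.sum_involution (fun h _ => h * M.simple s) ?_ ?_ ?_ ?_
  · intro h _
    rw [htr h, ep_mul]; ring
  · intro h _ _ h2
    have h3 : M.simple s = 1 := by
      have := congrArg (fun x => h⁻¹ * x) h2
      simpa using this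
    have h4 : ll M (h * M.simple s) = ll M h := by rw [h3, mul_one]
    exact M.toCoxeterSystem.length_mul_simple_ne h s h4
  · intro h hh
    rw [Finset.mem_filter, Finset.mem_filter] at hh ⊢
    obtain ⟨⟨_, h3⟩, h4⟩ := hh
    have h5 : f (tr M h χ) ≠ 0 := fun h' => h4 (by rw [h', mul_zero])
    refine ⟨⟨hS _ χ hχ hc (by rw [htr h]; exact h5), (WT M (univ \ T)).mul_mem h3 hsC⟩, ?_⟩
    rw [htr h, ep_mul, neg_mul, neg_ne_zero]
    exact h4
  · intro h _
    exact simple_mul_self' M h s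

end LowFAux

open HighFAux LowFAux in
/-- F7: from the Davis complex to the chamber, over the rationals. -/
theorem lowF (hP : ParStmt) : LowFStmt := by
  classical
  intro m M k hH T hT c hc0 hcl
  have hfinT : (cs M T (1 : M.Group)).Finite := finite_cs hT 1
  have hcty : ∀ {τ : Finset (Finset (Fin m) × Set M.Group)} {g : M.Group},
      τ = tr M g (ty τ) → (ty τ).card = τ.card := by
    intro τ g h
    conv_rhs => rw [h]
    rw [card_tr]
  obtain ⟨g, hg1, hg2⟩ := hH (hb M T 1 c) (by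
    refine finite_of hfinT ?_
    rintro τ ⟨h1, h2, h3⟩
    obtain ⟨g, hg⟩ := exists_tr h1
    refine ⟨g, ?_, hg⟩
    rw [hg, hb_tr hc0 g (isFl_ty h1) (by rw [hcty hg, h2])] at h3
    by_contra h
    exact h3 (if_neg h)) (by
    intro τ h1 h2
    obtain ⟨g, hg⟩ := exists_tr h1
    have h3 : (ty τ).card = k + 3 := by rw [hcty hg, h2]
    rw [hg, dP_hb hc0 g (isFl_ty h1) h3, hcl _ (isFl_ty h1) h3]
    split_ifs <;> rfl)
  -- the finite set of group elements
  set A : Set M.Group := ⋃ τ ∈ {τ | IsSimp M τ ∧ τ.card = k + 1 ∧ g τ ≠ 0},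
    ⋃ p ∈ {p : Finset (Fin m) × Set M.Group | p ∈ τ ∧ IsCell M p.1 p.2}, p.2 with hAdef
  have hA : A.Finite := by
    refine hg1.biUnion (fun τ _ => ?_)
    refine Set.Finite.biUnion ?_ (fun p hp => hp.2.finite)
    exact (Finset.finite_toSet τ).subset (fun p hp => hp.1)
  have hB : (A ∪ cs M T (1 : M.Group)).Finite := hA.union hfinT
  set S : Finset M.Group := hB.toFinset with hSdef
  have hS : ∀ h χ, IsFl (nerve M) χ → χ.card = k + 1 → g (tr M h χ) ≠ 0 → h ∈ S := by
    intro h χ hχ hc hne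
    rw [hSdef, Set.Finite.mem_toFinset]
    left
    have h2 : χ.Nonempty := by rw [← Finset.card_pos, hc]; omega
    obtain ⟨U, hU⟩ := h2
    rw [hAdef]
    simp only [Set.mem_iUnion]
    exact ⟨tr M h χ, ⟨isSimp_tr hχ h, by rw [card_tr, hc], hne⟩, (U, cs M U h),
      ⟨mem_tr.mpr ⟨U, hU, rfl⟩, isCell_cs (hχ.1 hU) h⟩, self_mem_cs U h⟩
  set S₁ : Finset M.Group := (S.filter (fun h => h ∈ WT M (univ \ T))).filter
    (fun h => h ∈ cs M T (1 : M.Group)) with hS₁
  have hone : (1 : M.Group) ∈ S₁ := by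
    rw [hS₁, Finset.mem_filter, Finset.mem_filter]
    refine ⟨⟨?_, (WT M (univ \ T)).one_mem⟩, self_mem_cs T 1⟩
    rw [hSdef, Set.Finite.mem_toFinset]
    exact Or.inr (self_mem_cs T 1)
  have hep : ∀ h ∈ S₁, ep M h = 1 := by
    intro h hh
    rw [hS₁, Finset.mem_filter, Finset.mem_filter] at hh
    have h1 : h ∈ WT M T := by
      have := hh.2
      rw [mem_cs, inv_one, one_mul] at this
      exact this
    have h2 := hP m M T (univ \ T) h Finset.disjoint_sdiff h1 hh.1.2
    exact Even.neg_one_pow h2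
  have hav : ∀ χ, IsFl (nerve M) χ → χ.card = k + 2 →
      av M T S (hb M T 1 c) χ = (S₁.card : ℚ) * c χ := by
    intro χ hχ hc
    unfold av
    have h1 : ∀ h ∈ S.filter (fun h => h ∈ WT M (univ \ T)),
        ep M h * hb M T 1 c (tr M h χ) = if h ∈ cs M T (1 : M.Group) then ep M h * c χ else 0 := by
      intro h _
      rw [hb_tr hc0 h hχ hc]
      split_ifs
      · rfl
      · rw [mul_zero]
    rw [Finset.sum_congr rfl h1, ← Finset.sum_filter,
      Finset.sum_congr rfl (fun h hh => by rw [hep h hh, one_mul]), Finset.sum_const,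
      nsmul_eq_mul]
  have hN : (S₁.card : ℚ) ≠ 0 := by
    have : 0 < S₁.card := Finset.card_pos.mpr ⟨1, hone⟩
    exact_mod_cast this.ne'
  refine ⟨fun χ => (S₁.card : ℚ)⁻¹ * av M T S g χ, ?_, ?_⟩
  · intro χ hχ hc hTχ
    show (S₁.card : ℚ)⁻¹ * av M T S g χ = 0
    rw [av_rel M T S g hS hχ hc hTχ, mul_zero]
  · intro χ hχ hc
    rw [dP_mul, dP_av]
    have h1 : av M T S (dP g) χ = av M T S (hb M T 1 c) χ := by
      unfold av
      refine Finset.sum_congr rfl (fun h _ => ?_)
      rw [hg2 (tr M h χ) (isSimp_tr hχ h) (by rw [card_tr, hc])]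
    rw [h1, hav χ hχ hc, ← mul_assoc, inv_mul_cancel₀ hN, one_mul]

end Pool.Agent.Lib.MP_db6a6f_al
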