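import Pool.Agent.Lib.MP_db6a6f_al.Stmts

set_option autoImplicit false

/-! The final induction. -/

namespace Pool.Agent.Lib.MP_db6a6f_al

open Finset

/-- The Leray property passes to links and full subcomplexes. -/
theorem ler_LD {α : Type} [LinearOrder α] {K : Finset (Finset α)} (hK : IsCx K) (hL : Ler K)
    (σ A : Finset α) : Ler (LD K σ A) := by
  intro σ' A' k hk
  by_cases h : Disjoint σ' σ ∧ Disjoint σ' A
  · rw [LD_LD hK σ A σ' A' h.1 h.2]
    exact hL _ _ k hk
  · intro f _
    refine ⟨f, fun τ hτ _ => absurd ?_ h⟩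
    have h1 := (mem_LD.mp (mem_LD.mp hτ).2.2.2)
    exact ⟨Disjoint.mono_left subset_union_right h1.2.1,
      Disjoint.mono_left subset_union_right h1.2.2.1⟩

theorem main_aux (hDec : DecStmt) (hT1 : T1Stmt) (hSplit : SplitStmt) :
    ∀ e d : ℕ, ∀ K : Finset (Finset ℚ), IsCx K → Ler K → (Ed K).card = e →
      2 * e - ((Ed K).biUnion id).card = d → Ex QZ K 3 := by
  intro e
  induction e using Nat.strong_induction_on with
  | _ e ihe =>
    intro d
    induction d using Nat.strong_induction_on with
    | _ d ihd =>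
      intro K hK hL he hd
      by_cases hv : ∃ v : ℚ, ¬ Ex ℚ (LD K {v} ∅) 1
      · obtain ⟨v, hv⟩ := hv
        obtain ⟨K', k1, k2, k3, k4, k5⟩ := hSplit K v hK hL hv
        apply k5
        have hb : ((Ed K').biUnion id).card ≤ 2 * e := by
          have h1 := Finset.card_biUnion_le_card_mul (Ed K') id 2 (fun σ hσ => by
            rw [id, (mem_Ed.mp hσ).2])
          rw [k3, he] at h1
          omega
        refine ihd (2 * e - ((Ed K').biUnion id).card) ?_ K' k1 k2 (by rw [k3, he]) rfl
        rw [k4] at hb ⊢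
        omega
      · push Not at hv
        by_cases hne : (Ed K).Nonempty
        · obtain ⟨σ, hσ⟩ := hne
          obtain ⟨hσK, hσ2⟩ := mem_Ed.mp hσ
          obtain ⟨u, v, huv, rfl⟩ := card_eq_two.mp hσ2
          have hdel : ∀ w ∈ ({u, v} : Finset ℚ), Ex QZ (LD K ∅ {w}) 3 := by
            intro w hw
            have hlt : (Ed (LD K ∅ {w})).card < e := by
              rw [← he]
              apply card_lt_card
              refine ⟨fun τ hτ => ?_, fun h => ?_⟩
              · rw [mem_Ed] at hτ ⊢
                exact ⟨(mem_LD.mp hτ.1).1, hτ.2⟩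
              · have h1 := (mem_LD.mp (mem_Ed.mp (h hσ)).1).2.2.1
                exact (disjoint_singleton_right.mp h1) hw
            exact ihe _ hlt _ (LD K ∅ {w}) (isCx_LD hK _ _) (ler_LD hK hL _ _) rfl rfl
          exact hT1 ℚ QZ K u v hK huv hσK (hDec ℚ K u v hK hL huv hσK (hv u) (hv v))
            (hdel u (by simp)) (hdel v (by simp))
        · intro f _
          refine ⟨f, fun σ hσ h3 => ?_⟩
          exfalso
          apply hne
          obtain ⟨ρ, hρ, hρ2⟩ := exists_subset_card_eq (show 2 ≤ σ.card by omega)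
          exact ⟨ρ, mem_Ed.mpr ⟨hK _ hσ _ hρ, hρ2⟩⟩

/-- C15. -/
theorem main (hDec : DecStmt) (hT1 : T1Stmt) (hSplit : SplitStmt) : MainStmt :=
  fun K hK hL => main_aux hDec hT1 hSplit _ _ K hK hL rfl rfl

end Pool.Agent.Lib.MP_db6a6f_al
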