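import Pool.Agent.Lib.MP_db6a6f_al.Davis

set_option autoImplicit false

/-! B4: minimal representatives of the cosets of special subgroups. -/

namespace Pool.Agent.Lib.MP_db6a6f_al

open Finset

variable {m : ℕ}

namespace MinRepAux

theorem wp_mem {M : CoxeterMatrix (Fin m)} {T : Finset (Fin m)} :
    ∀ (η : List (Fin m)), (∀ i ∈ η, i ∈ T) → M.toCoxeterSystem.wordProd η ∈ WT M T
  | [], _ => by rw [CoxeterSystem.wordProd_nil]; exact (WT M T).one_mem
  | i :: η, h => by
    rw [CoxeterSystem.wordProd_cons]
    refine (WT M T).mul_mem ?_ (wp_mem η (fun j hj => h j (List.mem_cons_of_mem _ hj)))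
    exact simple_mem_WT (h i List.mem_cons_self)

theorem len_add (hE : ExchStmt) {M : CoxeterMatrix (Fin m)} {T : Finset (Fin m)} {v₀ : M.Group}
    (hmin : ∀ a ∈ WT M T, M.toCoxeterSystem.length v₀ ≤ M.toCoxeterSystem.length (v₀ * a)) :
    ∀ η : List (Fin m), (∀ i ∈ η, i ∈ T) → M.toCoxeterSystem.IsReduced η →
      M.toCoxeterSystem.length (v₀ * M.toCoxeterSystem.wordProd η) =
        M.toCoxeterSystem.length v₀ + η.length := by
  intro η
  induction η using List.reverseRecOn with
  | nil => intro _ _; simp
  | append_singleton η i ih =>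
    intro hT hred
    have hT' : ∀ j ∈ η, j ∈ T := fun j hj => hT j (List.mem_append_left _ hj)
    have hi : i ∈ T := hT i (by simp)
    have hred' : M.toCoxeterSystem.IsReduced η := by
      have := hred.take η.length
      simpa using this
    have h1 := ih hT' hred'
    have hwp : M.toCoxeterSystem.wordProd (η ++ [i]) =
        M.toCoxeterSystem.wordProd η * M.simple i := by
      rw [CoxeterSystem.wordProd_append, CoxeterSystem.wordProd_singleton]
      simp
    rw [hwp, ← mul_assoc]
    rcases M.toCoxeterSystem.length_mul_simple (v₀ * M.toCoxeterSystem.wordProd η) i with h | h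
    · rw [CoxeterMatrix.toCoxeterSystem_simple] at h
      rw [h, h1]; simp; omega
    · exfalso
      rw [CoxeterMatrix.toCoxeterSystem_simple] at h
      obtain ⟨ξ, hξ', hv⟩ := M.toCoxeterSystem.exists_isReduced v₀
      have hξ : M.toCoxeterSystem.length v₀ = ξ.length := by
        have h0 : M.toCoxeterSystem.length (M.toCoxeterSystem.wordProd ξ) = ξ.length := hξ'
        rwa [← hv] at h0
      have hπ : M.toCoxeterSystem.wordProd (ξ ++ η) = v₀ * M.toCoxeterSystem.wordProd η := by
        rw [CoxeterSystem.wordProd_append, ← hv]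
      obtain ⟨j, hj, hex⟩ := hE m M (ξ ++ η) i (by rw [hπ]; omega)
      rw [hπ] at hex
      rw [List.length_append] at hj
      by_cases hjx : j < ξ.length
      · rw [List.eraseIdx_append_of_lt_length hjx, CoxeterSystem.wordProd_append] at hex
        have hb : v₀ * (M.toCoxeterSystem.wordProd η * M.simple i *
            (M.toCoxeterSystem.wordProd η)⁻¹) = M.toCoxeterSystem.wordProd (ξ.eraseIdx j) := by
          rw [← mul_assoc, ← mul_assoc, hex, mul_inv_cancel_right]
        have hmem : M.toCoxeterSystem.wordProd η * M.simple i *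
            (M.toCoxeterSystem.wordProd η)⁻¹ ∈ WT M T :=
          (WT M T).mul_mem ((WT M T).mul_mem (wp_mem η hT') (simple_mem_WT hi))
            ((WT M T).inv_mem (wp_mem η hT'))
        have h2 := hmin _ hmem
        rw [hb] at h2
        have h3 := M.toCoxeterSystem.length_wordProd_le (ξ.eraseIdx j)
        rw [List.length_eraseIdx_of_lt hjx] at h3
        omega
      · push Not at hjx
        rw [List.eraseIdx_append_of_length_le hjx, CoxeterSystem.wordProd_append, ← hv,
          mul_assoc, mul_left_cancel_iff] at hex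
        have h4 : M.toCoxeterSystem.length (M.toCoxeterSystem.wordProd (η ++ [i])) =
          (η ++ [i]).length := hred
        rw [hwp, hex] at h4
        have h3 := M.toCoxeterSystem.length_wordProd_le (η.eraseIdx (j - ξ.length))
        have h5 : j - ξ.length < η.length := by omega
        rw [List.length_eraseIdx_of_lt h5] at h3
        simp at h4
        omega

end MinRepAux

open MinRepAux

theorem minRep (hE : ExchStmt) (hR : RedStmt) : MinStmt := by
  intro m M T v hv a ha hane
  obtain ⟨v₀, ⟨b, hb, hvb⟩, hmin⟩ : ∃ v₀ : M.Group, (∃ b ∈ WT M T, v = v₀ * b) ∧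
      ∀ a ∈ WT M T, M.toCoxeterSystem.length v₀ ≤ M.toCoxeterSystem.length (v₀ * a) := by
    classical
    have hex : ∃ n, ∃ b ∈ WT M T, M.toCoxeterSystem.length (v * b) = n :=
      ⟨_, 1, (WT M T).one_mem, rfl⟩
    obtain ⟨b, hb, hn⟩ := Nat.find_spec hex
    refine ⟨v * b, ⟨b⁻¹, (WT M T).inv_mem hb, by simp⟩, ?_⟩
    intro a ha
    rw [hn, mul_assoc]
    exact Nat.find_min' hex ⟨b * a, (WT M T).mul_mem hb ha, rfl⟩
  obtain ⟨η, hη, hred, hbη⟩ := hR m M T b hb
  have key := len_add hE hmin
  have hnil : η = [] := by
    rcases List.eq_nil_or_concat η with h | ⟨η', i, h⟩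
    · exact h
    · exfalso
      rw [List.concat_eq_append] at h
      subst h
      have hi : i ∈ T := hη i (by simp)
      have hT' : ∀ j ∈ η', j ∈ T := fun j hj => hη j (List.mem_append_left _ hj)
      have hred' : M.toCoxeterSystem.IsReduced η' := by
        have := hred.take η'.length
        simpa using this
      have h1 := key (η' ++ [i]) hη hred
      have h2 := key η' hT' hred'
      apply hv i hi
      have h3 : v * M.simple i = v₀ * M.toCoxeterSystem.wordProd η' := by
        rw [hvb, hbη, CoxeterSystem.wordProd_append, CoxeterSystem.wordProd_singleton]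
        have : M.simple i * M.simple i = 1 := by
          have := M.toCoxeterSystem.simple_mul_simple_self i
          simpa using this
        simp [mul_assoc, this]
      rw [h3, hvb, hbη, h1, h2]
      simp
  subst hnil
  rw [CoxeterSystem.wordProd_nil] at hbη
  subst hbη
  rw [mul_one] at hvb
  subst hvb
  obtain ⟨ζ, hζ, hredζ, haζ⟩ := hR m M T a ha
  have h1 := key ζ hζ hredζ
  rw [← haζ] at h1
  have h2 : ζ ≠ [] := by
    rintro rfl
    exact hane (by rw [haζ, CoxeterSystem.wordProd_nil])
  have h3 : 0 < ζ.length := List.length_pos_iff.mpr h2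
  omega

end Pool.Agent.Lib.MP_db6a6f_al
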