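import Pool.Agent.Lib.MP_db6a6f_al.Basic

set_option autoImplicit false

/-! Coxeter groups whose boundaries have rational homological dimension one: the statements of the
modules. -/

namespace Pool.Agent.Lib.MP_db6a6f_al

open Finset

/-- The ring of functions generated by the characters of `X`. -/
noncomputable def Lam (X : Type) [AddCommGroup X] : Subring (X → ℂ) :=
  Subring.closure (Set.range (fun ψ : AddChar X ℂ => (ψ : X → ℂ)))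

/-- A1: the determinant lemma. -/
def DetStmt : Prop :=
  ∀ (X ι : Type) [AddCommGroup X] [Finite X] [Fintype ι] (S : AddSubgroup (ι → ℤ))
    (x : X → ι → ℂ), (∀ φ, φ ≠ 0 → x φ ≠ 0) →
    (∀ s ∈ S, ∃ r : ι → X → ℂ, (∀ i, r i ∈ Lam X) ∧ (∀ i, r i 0 = (s i : ℂ)) ∧
      ∀ φ, φ ≠ 0 → ∑ i, r i φ * x φ i = 0) →
    Finite ((ι → ℤ) ⧸ S) → Nat.card X ≤ Nat.card ((ι → ℤ) ⧸ S)

/-- A2: the augmentation lemma. -/
def AugStmt : Prop :=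
  ∀ (X ι : Type) [AddCommGroup X] (s : Finset ι) (χ : ι → AddChar X ℂ) (n : ι → ℤ),
    (∀ φ, ∏ i ∈ s, (χ i φ) ^ (n i) = 1) →
    ∃ ρ : ι → X → ℂ, (∀ i, ρ i ∈ Lam X) ∧ (∀ i, ρ i 0 = (n i : ℂ)) ∧
      ∀ φ, ∑ i ∈ s, ρ i φ * (χ i φ - 1) = 0

/-- A3: subgroups with trivial rational annihilator have finite index. -/
def FinIndStmt : Prop :=
  ∀ (ι : Type) [Fintype ι] (S : AddSubgroup (ι → ℤ)),
    (∀ κ : ι → ℚ, (∀ s ∈ S, ∑ i, (s i : ℚ) * κ i = 0) → κ = 0) →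
    (∃ N : ℕ, 0 < N ∧ ∀ x : ι → ℤ, N • x ∈ S) ∧ Finite ((ι → ℤ) ⧸ S)

/-- A4: the index is at most the number of characters. -/
def DualStmt : Prop :=
  ∀ (ι : Type) [Fintype ι] (S : AddSubgroup (ι → ℤ)), Finite ((ι → ℤ) ⧸ S) →
    Finite {g : ι → QZ // ∀ s ∈ S, ∑ i, s i • g i = 0} ∧
    Nat.card ((ι → ℤ) ⧸ S) ≤ Nat.card {g : ι → QZ // ∀ s ∈ S, ∑ i, s i • g i = 0}

/-- A5: a group of bounded exponent is its own double annihilator. -/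
def AnnStmt : Prop :=
  ∀ (ι : Type) [Fintype ι] (H : AddSubgroup (ι → QZ)) (N : ℕ), 0 < N → (∀ h ∈ H, N • h = 0) →
    ∀ g : ι → QZ, (∀ n : ι → ℤ, (∀ h ∈ H, ∑ i, n i • h i = 0) → ∑ i, n i • g i = 0) → g ∈ H

/-- A6: reduction to comparable orders. -/
def GroupStmt : Prop :=
  ∀ (Z : Type) [AddCommGroup Z] (P Zu Zv : AddSubgroup Z), Zu ≤ P → Zv ≤ P →
    (∀ z ∈ P, ∃ N : ℕ, 0 < N ∧ N • z ∈ Zu ∧ N • z ∈ Zv) →
    (∀ z ∈ P, (∀ m : ℕ, m • z ∈ Zv → m • z ∈ Zu) → z ∈ Zu ⊔ Zv) →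
    (∀ z ∈ P, (∀ m : ℕ, m • z ∈ Zu → m • z ∈ Zv) → z ∈ Zu ⊔ Zv) → P ≤ Zu ⊔ Zv

/-- A7: maximal sets of coordinates. -/
def MaxStmt : Prop :=
  ∀ (ι : Type) [DecidableEq ι] (U : Submodule ℚ (ι → ℚ)) (T₀ I : Finset ι), T₀ ⊆ I →
    (∀ c : ι → ℚ, ∃ κ ∈ U, ∀ i ∈ T₀, κ i = c i) →
    ∃ T : Finset ι, T₀ ⊆ T ∧ T ⊆ I ∧ (∀ c : ι → ℚ, ∃ κ ∈ U, ∀ i ∈ T, κ i = c i) ∧
      ∀ κ ∈ U, (∀ i ∈ T, κ i = 0) → ∀ i ∈ I, κ i = 0

/-- C1: Mayer-Vietoris. -/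
def MVStmt : Prop :=
  ∀ (α : Type) [LinearOrder α] (A : Type) [AddCommGroup A] (K : Finset (Finset α)) (v : α)
    (k : ℕ), IsCx K →
    (Ex A (LD K {v} ∅) k → Ex A (LD K ∅ {v}) (k + 1) → Ex A K (k + 1)) ∧
    (Ex A K k → Ex A (LD K {v} ∅) k → Ex A (LD K ∅ {v}) k) ∧
    (Ex A (LD K ∅ {v}) k → Ex A K (k + 1) → Ex A (LD K {v} ∅) k)

/-- C2: the Leray property from the deletions of faces, and from the links of faces. -/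
def HerStmt : Prop :=
  ∀ (α : Type) [LinearOrder α] (K : Finset (Finset α)), IsCx K →
    ((∀ σ ∈ K, ∀ k : ℕ, 3 ≤ k → Ex ℚ (LD K ∅ σ) k) → Ler K) ∧
    ((∀ σ ∈ K, ∀ k : ℕ, 3 ≤ k → Ex ℚ (LD K σ ∅) k) → Ler K)

/-- C3: change of coefficients. -/
def ScalarStmt : Prop :=
  ∀ (α : Type) [LinearOrder α] (K : Finset (Finset α)) (k : ℕ) (V : Type) [AddCommGroup V]
    [Module ℚ V], Ex ℚ K k → Ex V K k

/-- C4: twisted exactness. -/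
def TwExStmt : Prop :=
  ∀ (α : Type) [LinearOrder α] (K : Finset (Finset α)) (u v : α) (φ : Finset α → QZ), IsCx K →
    u ≠ v → Z1 (Fu K u v) φ →
    (∀ (w : α) (A : Finset α), w ≠ u → w ≠ v → ∀ k : ℕ, 3 ≤ k → Ex ℂ (LD K {w} A) k) →
    ∀ k : ℕ, 4 ≤ k → ∀ f : Finset α → ℂ, (∀ τ ∈ K, τ.card = k + 1 → dt u v φ f τ = 0) →
      ∃ g : Finset α → ℂ, ∀ σ ∈ K, σ.card = k → f σ = dt u v φ g σ

/-- The set `T` of edges is independent: all values on `T` are attained by rational 1-cocycles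
vanishing on the edge `{u, v}`. -/
def Indep {α : Type} [LinearOrder α] (K : Finset (Finset α)) (u v : α) (T : Finset (Finset α)) :
    Prop :=
  ∀ c : Finset α → ℚ, ∃ κ : Finset α → ℚ, Z1 K κ ∧ κ {u, v} = 0 ∧ ∀ σ ∈ T, κ σ = c σ

/-- C5: a twisted cocycle. -/
def TwDimStmt : Prop :=
  ∀ (α : Type) [LinearOrder α] (K : Finset (Finset α)) (u v : α) (φ : Finset α → QZ), IsCx K →
    Ler K → u ≠ v → {u, v} ∈ K → Z1 (Fu K u v) φ →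
    ∀ T : Finset (Finset α), T ⊆ Ed (Fu K u v) → Indep K u v T →
      ∃ x : Finset α → ℂ, (∀ τ ∈ K, τ.card = 3 → dt u v φ x τ = 0) ∧ (∀ σ ∈ T, x σ = 0) ∧
        ∃ σ ∈ Ed K, x σ ≠ 0

/-- The edges of `T` connect the link of `v`. -/
def Conn {α : Type} [LinearOrder α] (K : Finset (Finset α)) (v : α) (T : Finset (Finset α)) :
    Prop :=
  ∀ g : α → ℂ, (∀ a c : α, {a, c} ∈ T → {a, c} ∈ LD K {v} ∅ → g a = g c) →
    ∀ a c : α, {a} ∈ LD K {v} ∅ → {c} ∈ LD K {v} ∅ → g a = g c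

/-- The properties of the vector attached to `φ`. -/
def Good {α : Type} [LinearOrder α] (K : Finset (Finset α)) (u v : α) (φ : Finset α → QZ)
    (T : Finset (Finset α)) (x : Finset α → ℂ) (s : ℂ) : Prop :=
  (∀ τ ∈ K, v ∉ τ → τ.card = 3 → dt u v φ x τ = 0) ∧ (∀ σ ∈ T, x σ = 0) ∧
    (∃ σ ∈ Ed K, v ∉ σ ∧ x σ ≠ 0) ∧
    ∀ a c : α, a < c → {a, c} ∈ LD K {v} ∅ →
      x {a, c} = eQ (asy φ a (bp u v {a, c})) * (eQ (-(φ {a, c})) - 1) * s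

/-- C6: the vector of a ramified cocycle. -/
def RamStmt : Prop :=
  ∀ (α : Type) [LinearOrder α] (K : Finset (Finset α)) (u v : α) (φ : Finset α → QZ)
    (T : Finset (Finset α)) (x : Finset α → ℂ), IsCx K → u ≠ v → {u, v} ∈ K →
    Z1 (Fu K u v) φ → T ⊆ Ed (Fu K u v) → Conn K v T → (∀ σ ∈ T, φ σ = 0) →
    (∃ σ ∈ Ed (LD K {v} ∅), φ σ ≠ 0) →
    (∀ τ ∈ K, τ.card = 3 → dt u v φ x τ = 0) → (∀ σ ∈ T, x σ = 0) → (∃ σ ∈ Ed K, x σ ≠ 0) →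
    ∃ s : ℂ, Good K u v φ T x s

/-- C7: the vector of an unramified cocycle. -/
def UnrStmt : Prop :=
  ∀ (α : Type) [LinearOrder α] (K : Finset (Finset α)) (u v : α) (φ ψ : Finset α → QZ)
    (T : Finset (Finset α)), IsCx K → u ≠ v → {u, v} ∈ K → Z1 (LD K ∅ {v}) ψ →
    (∀ σ ∈ Ed (Fu K u v), ψ σ = φ σ) → T ⊆ Ed (Fu K u v) → (∀ σ ∈ T, φ σ = 0) →
    (∃ σ ∈ Ed (Fu K u v), φ σ ≠ 0) → ∃ (x : Finset α → ℂ) (s : ℂ), Good K u v φ T x s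

/-- C9: connectivity and extension of cocycles. -/
def ConnStmt : Prop :=
  ∀ (α : Type) [LinearOrder α] (X : Finset (Finset α)) (B : Type) (g : α → B), IsCx X →
    Ex ℚ X 1 → (∀ a c : α, {a, c} ∈ X → g a = g c) → ∀ a c : α, {a} ∈ X → {c} ∈ X → g a = g c

def GlueStmt : Prop :=
  ∀ (α : Type) [LinearOrder α] (A : Type) [AddCommGroup A] (K : Finset (Finset α)) (u v : α)
    (φ ψ s : Finset α → A), IsCx K → u ≠ v → {u, v} ∈ K → Z1 (LD K ∅ {v}) ψ →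
    (∀ σ ∈ Ed (Fu K u v), ψ σ = φ σ) → (∀ σ ∈ Ed (LD K {v} ∅), φ σ = dl s σ) →
    ∃ κ : Finset α → A, Z1 K κ ∧ κ {u, v} = 0 ∧ ∀ σ ∈ Ed (Fu K u v), κ σ = φ σ

def InjStmt : Prop :=
  ∀ (α : Type) [LinearOrder α] (A : Type) [AddCommGroup A] (K : Finset (Finset α)) (u v : α)
    (ψ : Finset α → A), IsCx K → u ≠ v → {u, v} ∈ K → Ex ℚ (LD K {u} ∅) 1 →
    Z1 (LD K ∅ {v}) ψ → (∀ σ ∈ Ed (Fu K u v), ψ σ = 0) → ∀ σ ∈ Ed K, v ∉ σ → ψ σ = 0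

def SepStmt : Prop :=
  ∀ (α : Type) [LinearOrder α] (A : Type) [AddCommGroup A] (K : Finset (Finset α)) (u v : α)
    (κ : Finset α → A), IsCx K → u ≠ v → {u, v} ∈ K → Ex ℚ (LD K {u} ∅) 1 →
    Ex ℚ (LD K {v} ∅) 1 → Z1 K κ → κ {u, v} = 0 → (∀ σ ∈ Ed (Fu K u v), κ σ = 0) →
    ∀ σ ∈ Ed K, κ σ = 0

/-- C8: the choice of `T`. -/
def SelStmt : Prop :=
  ∀ (α : Type) [LinearOrder α] (K : Finset (Finset α)) (u v : α), IsCx K → u ≠ v → {u, v} ∈ K →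
    Ex ℚ (LD K {u} ∅) 1 → Ex ℚ (LD K {v} ∅) 1 →
    ∃ T : Finset (Finset α), T ⊆ Ed (Fu K u v) ∧ Indep K u v T ∧ Conn K v T ∧
      ∀ κ : Finset α → ℚ, Z1 K κ → κ {u, v} = 0 → (∀ σ ∈ T, κ σ = 0) → ∀ σ ∈ Ed K, κ σ = 0

/-- The cochain is unramified at `u`. -/
def inZu {α : Type} [LinearOrder α] (K : Finset (Finset α)) (u v : α) (φ : Finset α → QZ) :
    Prop :=
  ∃ ψ : Finset α → QZ, Z1 (LD K ∅ {v}) ψ ∧ ∀ σ ∈ Ed (Fu K u v), ψ σ = φ σ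

/-- The cochain is unramified at `v`. -/
def inZv {α : Type} [LinearOrder α] (K : Finset (Finset α)) (v : α) (φ : Finset α → QZ) :
    Prop :=
  ∃ s : Finset α → QZ, ∀ σ ∈ Ed (LD K {v} ∅), φ σ = dl s σ

/-- C10: the core. -/
def CoreStmt : Prop :=
  ∀ (α : Type) [LinearOrder α] (K : Finset (Finset α)) (u v : α) (φ : Finset α → QZ), IsCx K →
    Ler K → u ≠ v → {u, v} ∈ K → Ex ℚ (LD K {u} ∅) 1 → Ex ℚ (LD K {v} ∅) 1 →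
    Z1 (Fu K u v) φ →
    (∀ m : ℕ, inZv K v (fun σ => m • φ σ) → inZu K u v (fun σ => m • φ σ)) →
    ∃ φ₁ φ₂ : Finset α → QZ, Z1 (Fu K u v) φ₁ ∧ Z1 (Fu K u v) φ₂ ∧ inZu K u v φ₁ ∧
      inZv K v φ₂ ∧ ∀ σ ∈ Ed (Fu K u v), φ σ = φ₁ σ + φ₂ σ

/-- Decomposition of the pairs `(f, ξ)`. -/
def Dec {α : Type} [LinearOrder α] (A : Type) [AddCommGroup A] (K : Finset (Finset α))
    (u v : α) : Prop :=
  ∀ f ξ : Finset α → A, Z1 (LD K ∅ {u, v}) f → (∀ ρ ∈ Ed (LD K {u, v} ∅), f ρ = dl ξ ρ) →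
    ∃ f₁ s₁ f₂ s₂ : Finset α → A, Z1 (LD K ∅ {u, v}) f₁ ∧ Z1 (LD K ∅ {u, v}) f₂ ∧
      (∀ ρ ∈ Ed (LD K {u} {v}), f₁ ρ = dl s₁ ρ) ∧ (∀ ρ ∈ Ed (LD K {v} {u}), f₂ ρ = dl s₂ ρ) ∧
      (∀ ρ ∈ Ed (LD K ∅ {u, v}), f ρ = f₁ ρ + f₂ ρ) ∧
      ∀ a : α, {a} ∈ LD K {u, v} ∅ → ξ {a} = s₁ {a} + s₂ {a}

/-- C11: the decomposition. -/
def DecStmt : Prop :=
  ∀ (α : Type) [LinearOrder α] (K : Finset (Finset α)) (u v : α), IsCx K →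
    Ler K → u ≠ v → {u, v} ∈ K → Ex ℚ (LD K {u} ∅) 1 → Ex ℚ (LD K {v} ∅) 1 → Dec QZ K u v

/-- C12: gluing. -/
def T1Stmt : Prop :=
  ∀ (α : Type) [LinearOrder α] (A : Type) [AddCommGroup A] (K : Finset (Finset α)) (u v : α),
    IsCx K → u ≠ v → {u, v} ∈ K → Dec A K u v → Ex A (LD K ∅ {u}) 3 → Ex A (LD K ∅ {v}) 3 →
    Ex A K 3

/-- C13: `p` folds `X'` onto `X`, bijectively on the faces with at least `m` vertices. -/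
def Fold {α β : Type} [LinearOrder α] [LinearOrder β] (p : β → α) (m : ℕ)
    (X' : Finset (Finset β)) (X : Finset (Finset α)) : Prop :=
  (∀ τ ∈ X', StrictMonoOn p τ ∧ τ.image p ∈ X) ∧
    ∀ σ ∈ X, m ≤ σ.card → ∃! τ, τ ∈ X' ∧ τ.image p = σ

def FoldStmt : Prop :=
  ∀ (α β : Type) [LinearOrder α] [LinearOrder β] (p : β → α) (m k : ℕ)
    (X' : Finset (Finset β)) (X : Finset (Finset α)) (A : Type) [AddCommGroup A],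
    IsCx X' → IsCx X → Fold p m X' X → m + 1 ≤ k → (Ex A X k ↔ Ex A X' k)

/-- C14: splitting a vertex whose link is not connected. -/
def SplitStmt : Prop :=
  ∀ (K : Finset (Finset ℚ)) (v : ℚ), IsCx K → Ler K → ¬ Ex ℚ (LD K {v} ∅) 1 →
    ∃ K' : Finset (Finset ℚ), IsCx K' ∧ Ler K' ∧ (Ed K').card = (Ed K).card ∧
      ((Ed K').biUnion id).card = ((Ed K).biUnion id).card + 1 ∧ (Ex QZ K' 3 → Ex QZ K 3)

/-- C15: 2-Leray complexes over the rationals have no cohomology in degree 2 with coefficients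
in `ℚ / ℤ`. -/
def MainStmt : Prop :=
  ∀ K : Finset (Finset ℚ), IsCx K → Ler K → Ex QZ K 3

/-- C16: higher degrees and integer coefficients. -/
def IntStmt : Prop :=
  ∀ K : Finset (Finset ℚ), IsCx K → Ler K → ∀ k : ℕ, 4 ≤ k → Ex ℤ K k

end Pool.Agent.Lib.MP_db6a6f_al
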