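import Pool.Agent.Lib.MP_db6a6f_al.Main

set_option autoImplicit false

/-! Transport to arbitrary finite vertex sets. -/

namespace Pool.Agent.Lib.MP_db6a6f_al

open Finset

variable {α : Type} [LinearOrder α]

theorem isCx_image {p : α → ℚ} {K : Finset (Finset α)} (hK : IsCx K) :
    IsCx (K.image (fun τ => τ.image p)) := by
  intro σ hσ ρ hρ
  obtain ⟨τ, hτ, rfl⟩ := mem_image.mp hσ
  obtain ⟨τ', hτ', rfl⟩ := subset_image_iff.mp hρ
  exact mem_image.mpr ⟨τ', hK _ hτ _ (by exact_mod_cast hτ'), rfl⟩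

theorem fold_image {p : α → ℚ} (hp : StrictMono p) (K : Finset (Finset α)) (σ : Finset α) :
    Fold p 0 (LD K ∅ σ) (LD (K.image (fun τ => τ.image p)) ∅ (σ.image p)) := by
  have hinj : Function.Injective (fun τ : Finset α => τ.image p) :=
    image_injective hp.injective
  have hdis : ∀ τ : Finset α, Disjoint (τ.image p) (σ.image p) ↔ Disjoint τ σ := fun τ =>
    disjoint_image hp.injective
  constructor
  · intro τ hτ
    refine ⟨hp.strictMonoOn _, ?_⟩
    rw [mem_LD] at hτ ⊢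
    refine ⟨mem_image_of_mem _ hτ.1, by simp, (hdis τ).mpr hτ.2.2.1, ?_⟩
    rw [union_empty]; exact mem_image_of_mem _ hτ.1
  · intro ρ hρ _
    rw [mem_LD] at hρ
    obtain ⟨τ, hτ, rfl⟩ := mem_image.mp hρ.1
    refine ⟨τ, ⟨?_, rfl⟩, fun τ' h => hinj h.2⟩
    rw [mem_LD]
    exact ⟨hτ, by simp, (hdis τ).mp hρ.2.2.1, by rwa [union_empty]⟩

/-- 2-Leray complexes over the rationals on any finite vertex set: if the deletions of all faces
have vanishing rational cohomology in degrees `≥ 2`, then they have vanishing integral cohomology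
in degrees `≥ 3`. -/
theorem int_of_rat (hFold : FoldStmt) (hHer : HerStmt) (hInt : IntStmt) {p : α → ℚ}
    (hp : StrictMono p) {K : Finset (Finset α)} (hK : IsCx K)
    (h : ∀ σ ∈ K, ∀ k : ℕ, 3 ≤ k → Ex ℚ (LD K ∅ σ) k) :
    ∀ σ ∈ K, ∀ k : ℕ, 4 ≤ k → Ex ℤ (LD K ∅ σ) k := by
  intro σ _ k hk
  have hK' := isCx_image (p := p) hK
  have hL : Ler (K.image (fun τ => τ.image p)) := by
    apply (hHer ℚ _ hK').1
    intro ρ hρ k hk
    obtain ⟨τ, hτ, rfl⟩ := mem_image.mp hρ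
    exact (hFold ℚ α p 0 k _ _ ℚ (isCx_LD hK _ _) (isCx_LD hK' _ _) (fold_image hp K τ)
      (by omega)).mpr (h τ hτ k hk)
  exact (hFold ℚ α p 0 k _ _ ℤ (isCx_LD hK _ _) (isCx_LD hK' _ _) (fold_image hp K σ)
    (by omega)).mp (hInt _ (isCx_LD hK' _ _) (ler_LD hK' hL _ _) k hk)

end Pool.Agent.Lib.MP_db6a6f_al
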