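import Pool.Agent.Lib.MP_db6a6f_al.Exp

set_option autoImplicit false

/-! Base points and the twisted coboundary. -/

namespace Pool.Agent.Lib.MP_db6a6f_al

open Finset

variable {α : Type} [LinearOrder α]

theorem bp_of_nonempty {u v : α} {σ : Finset α} (h : ((σ.erase u).erase v).Nonempty) :
    bp u v σ ∈ (σ.erase u).erase v := by
  unfold bp; rw [dif_pos h]; exact min'_mem _ h

theorem bp_of_empty {u v : α} {σ : Finset α} (h : ¬ ((σ.erase u).erase v).Nonempty) :
    bp u v σ = u := by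
  unfold bp; rw [dif_neg h]

/-- The base point only depends on the vertices different from `u` and `v`. -/
theorem bp_congr {u v : α} {σ τ : Finset α} (h : (σ.erase u).erase v = (τ.erase u).erase v) :
    bp u v σ = bp u v τ := by
  unfold bp; simp only [h]

theorem bp_insert_v (u v : α) (σ : Finset α) : bp u v (insert v σ) = bp u v σ := by
  apply bp_congr
  ext x; simp only [mem_erase, mem_insert]; tauto

theorem bp_insert_u (u v : α) (σ : Finset α) : bp u v (insert u σ) = bp u v σ := by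
  apply bp_congr
  ext x; simp only [mem_erase, mem_insert]; tauto

theorem bp_singleton {u v w : α} (h : w ≠ v) : bp u v {w} = w := by
  by_cases hu : w = u
  · subst hu
    rw [bp_of_empty]
    rintro ⟨x, hx⟩
    simp only [mem_erase, mem_singleton] at hx
    exact hx.2.1 hx.2.2
  · have : bp u v {w} ∈ (({w} : Finset α).erase u).erase v := by
      apply bp_of_nonempty
      exact ⟨w, by simp [h, hu]⟩
    simp only [mem_erase, mem_singleton] at this
    exact this.2.2

/-- For a vertex `a ≠ v`, the base point of `{v, a}` is `a` (also for `a = u`). -/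
theorem bp_pair {u v a : α} (h : a ≠ v) : bp u v (insert v {a}) = a := by
  rw [bp_insert_v, bp_singleton h]

/-- The faces at which the local system is defined. -/
def Gd (u v : α) (σ : Finset α) : Prop := (∃ w ∈ σ, w ≠ u ∧ w ≠ v) ∨ (u ∈ σ ∧ v ∈ σ)

theorem gd_of_card {u v : α} {σ : Finset α} (h : 2 ≤ σ.card) : Gd u v σ := by
  unfold Gd
  by_contra hn
  push Not at hn
  obtain ⟨h1, h2⟩ := hn
  have hs : σ ⊆ {u, v} := by
    intro w hw
    by_cases hu : w = u
    · simp [hu]
    · simp [h1 w hw hu]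
  have hc : ({u, v} : Finset α).card ≤ 2 := card_le_two
  have hσ : σ = {u, v} := eq_of_subset_of_card_le hs (hc.trans h)
  exact h2 (by rw [hσ]; simp) (by rw [hσ]; simp)

theorem gd_singleton {u v w : α} (h1 : w ≠ u) (h2 : w ≠ v) : Gd u v {w} :=
  Or.inl ⟨w, by simp, h1, h2⟩

theorem Gd.mono {u v : α} {σ τ : Finset α} (h : Gd u v σ) (hs : σ ⊆ τ) : Gd u v τ := by
  rcases h with ⟨w, hw, h1, h2⟩ | ⟨h1, h2⟩
  · exact Or.inl ⟨w, hs hw, h1, h2⟩
  · exact Or.inr ⟨hs h1, hs h2⟩

theorem gd_bp {u v : α} (huv : u ≠ v) {σ : Finset α} (h : Gd u v σ) :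
    bp u v σ ∈ σ ∧ bp u v σ ≠ v ∧ (bp u v σ = u → v ∈ σ) := by
  by_cases hn : ((σ.erase u).erase v).Nonempty
  · have hm := bp_of_nonempty hn
    simp only [mem_erase] at hm
    exact ⟨hm.2.2, hm.1, fun h => absurd h hm.2.1⟩
  · have hb := bp_of_empty hn
    have hno : ∀ w ∈ σ, w ≠ u → w = v := by
      intro w hw hwu
      by_contra hwv
      exact hn ⟨w, by simp [hw, hwu, hwv]⟩
    rcases h with ⟨w, hw, h1, h2⟩ | ⟨h1, h2⟩
    · exact absurd (hno w hw h1) h2
    · rw [hb]; exact ⟨h1, huv, fun _ => h2⟩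

/-- Base points of a chain of faces form a face of `Fu K u v`. -/
theorem bp_mem_Fu {K : Finset (Finset α)} (hK : IsCx K) {u v : α} (huv : u ≠ v)
    {ρ σ τ : Finset α} (hρ : Gd u v ρ) (h1 : ρ ⊆ σ) (h2 : σ ⊆ τ) (hτ : τ ∈ K) :
    ({bp u v ρ, bp u v σ, bp u v τ} : Finset α) ∈ Fu K u v := by
  have g1 := gd_bp huv hρ
  have g2 := gd_bp huv (hρ.mono h1)
  have g3 := gd_bp huv ((hρ.mono h1).mono h2)
  have hsub : ({bp u v ρ, bp u v σ, bp u v τ} : Finset α) ⊆ τ := by
    intro x hx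
    simp only [mem_insert, mem_singleton] at hx
    rcases hx with rfl | rfl | rfl
    · exact h2 (h1 g1.1)
    · exact h2 g2.1
    · exact g3.1
  rw [mem_Fu]
  refine ⟨hK _ hτ _ hsub, ?_, ?_⟩
  · simp only [mem_insert, mem_singleton, not_or]
    exact ⟨g1.2.1.symm, g2.2.1.symm, g3.2.1.symm⟩
  · intro hu
    have hv : v ∈ τ := by
      simp only [mem_insert, mem_singleton] at hu
      rcases hu with hu | hu | hu
      · exact h2 (h1 (g1.2.2 hu.symm))
      · exact h2 (g2.2.2 hu.symm)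
      · exact g3.2.2 hu.symm
    exact hK _ hτ _ (insert_subset hv hsub)

/-- Composition of transports. -/
theorem tr_add {K : Finset (Finset α)} (hK : IsCx K) {u v : α} (huv : u ≠ v) {φ : Finset α → QZ}
    (hφ : Z1 (Fu K u v) φ) {ρ σ τ : Finset α} (hρ : Gd u v ρ) (h1 : ρ ⊆ σ) (h2 : σ ⊆ τ)
    (hτ : τ ∈ K) :
    asy φ (bp u v ρ) (bp u v σ) + asy φ (bp u v σ) (bp u v τ) = asy φ (bp u v ρ) (bp u v τ) :=
  asy_add _ φ hφ (bp_mem_Fu hK huv hρ h1 h2 hτ)

theorem tr_mul {K : Finset (Finset α)} (hK : IsCx K) {u v : α} (huv : u ≠ v) {φ : Finset α → QZ}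
    (hφ : Z1 (Fu K u v) φ) {ρ σ τ : Finset α} (hρ : Gd u v ρ) (h1 : ρ ⊆ σ) (h2 : σ ⊆ τ)
    (hτ : τ ∈ K) :
    eQ (asy φ (bp u v σ) (bp u v τ)) * eQ (asy φ (bp u v ρ) (bp u v σ)) =
      eQ (asy φ (bp u v ρ) (bp u v τ)) := by
  rw [← tr_add hK huv hφ hρ h1 h2 hτ, eQ_add, mul_comm]

theorem dt_congr {u v : α} {φ : Finset α → QZ} {f g : Finset α → ℂ} {τ : Finset α}
    (h : ∀ a ∈ τ, f (τ.erase a) = g (τ.erase a)) : dt u v φ f τ = dt u v φ g τ := by
  unfold dt; exact sum_congr rfl (fun a ha => by rw [h a ha])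

theorem dt_add (u v : α) (φ : Finset α → QZ) (f g : Finset α → ℂ) (τ : Finset α) :
    dt u v φ (fun σ => f σ + g σ) τ = dt u v φ f τ + dt u v φ g τ := by
  unfold dt; rw [← sum_add_distrib]; exact sum_congr rfl (fun a _ => by ring)

theorem dt_sub (u v : α) (φ : Finset α → QZ) (f g : Finset α → ℂ) (τ : Finset α) :
    dt u v φ (fun σ => f σ - g σ) τ = dt u v φ f τ - dt u v φ g τ := by
  unfold dt; rw [← sum_sub_distrib]; exact sum_congr rfl (fun a _ => by ring)

theorem dt_mul (u v : α) (φ : Finset α → QZ) (c : ℂ) (f : Finset α → ℂ) (τ : Finset α) :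
    dt u v φ (fun σ => c * f σ) τ = c * dt u v φ f τ := by
  unfold dt; rw [mul_sum]; exact sum_congr rfl (fun a _ => by ring)

/-- The sign of an old vertex after an insertion. -/
theorem sg_insert_rel {a w : α} {ρ : Finset α} (ha : a ∈ ρ) (hw : w ∉ ρ) :
    sg a (insert w ρ) = - (sg w (insert w ρ) * (sg a ρ * sg w (insert w (ρ.erase a)))) := by
  have haw : a ≠ w := fun h => hw (h ▸ ha)
  have h := sg_sg (mem_insert_self w ρ) (mem_insert_of_mem ha) (Ne.symm haw)
  rw [erase_insert hw, erase_insert_of_ne (Ne.symm haw)] at h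
  have h4 := sg_mul_self w (insert w (ρ.erase a))
  linear_combination sg w (insert w (ρ.erase a)) * h - sg a (insert w ρ) * h4

/-- The twisted coboundary at a face containing `w`. -/
theorem dt_insert {u v : α} (φ : Finset α → QZ) (f : Finset α → ℂ) {w : α} {ρ : Finset α}
    (hw : w ∉ ρ) :
    dt u v φ f (insert w ρ) = (sg w (insert w ρ) : ℂ) *
      (eQ (asy φ (bp u v ρ) (bp u v (insert w ρ))) * f ρ -
        ∑ a ∈ ρ, (sg a ρ : ℂ) * ((sg w (insert w (ρ.erase a)) : ℂ) *
          (eQ (asy φ (bp u v (insert w (ρ.erase a))) (bp u v (insert w ρ))) *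
            f (insert w (ρ.erase a))))) := by
  unfold dt
  rw [sum_insert hw, erase_insert hw, mul_sub, mul_sum, sub_eq_add_neg, ← sum_neg_distrib]
  congr 1
  apply sum_congr rfl
  intro a ha
  have haw : a ≠ w := fun h => hw (h ▸ ha)
  rw [erase_insert_of_ne (Ne.symm haw), sg_insert_rel ha hw]
  push_cast; ring

/-- The twisted coboundary squares to zero on faces with at least four vertices. -/
theorem dt_dt {K : Finset (Finset α)} (hK : IsCx K) {u v : α} (huv : u ≠ v)
    {φ : Finset α → QZ} (hφ : Z1 (Fu K u v) φ) (f : Finset α → ℂ) {τ : Finset α} (hτ : τ ∈ K)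
    (hc : 4 ≤ τ.card) : dt u v φ (dt u v φ f) τ = 0 := by
  unfold dt
  have h1 : ∀ a ∈ τ, (sg a τ : ℂ) * (eQ (asy φ (bp u v (τ.erase a)) (bp u v τ)) *
      ∑ b ∈ τ.erase a, (sg b (τ.erase a) : ℂ) * (eQ (asy φ (bp u v ((τ.erase a).erase b))
        (bp u v (τ.erase a))) * f ((τ.erase a).erase b))) =
      ∑ b ∈ τ.erase a, ((sg a τ * sg b (τ.erase a) : ℤ) : ℂ) *
        (eQ (asy φ (bp u v ((τ.erase a).erase b)) (bp u v τ)) * f ((τ.erase a).erase b)) := by
    intro a ha
    rw [mul_sum, mul_sum]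
    apply sum_congr rfl
    intro b hb
    have hcard : 2 ≤ ((τ.erase a).erase b).card := by
      rw [card_erase_of_mem hb, card_erase_of_mem ha]; omega
    rw [← tr_mul hK huv hφ (gd_of_card hcard) (erase_subset b (τ.erase a)) (erase_subset a τ) hτ]
    push_cast; ring
  rw [sum_congr rfl h1]
  apply sum_antisymm_zero
  intro a ha b hb hab
  rw [sg_sg ha hb hab, erase_right_comm]
  push_cast; ring

end Pool.Agent.Lib.MP_db6a6f_al
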