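import Pool.Agent.Lib.MP_db6a6f_al.Tw
import Pool.Agent.Lib.MP_db6a6f_al.Stmts

set_option autoImplicit false

/-! A twisted cocycle vanishing on an independent set of edges, by a dimension count. -/

namespace Pool.Agent.Lib.MP_db6a6f_al

open Finset

namespace TwD

variable {α : Type} [LinearOrder α]

/-- Cochains of size `k` on `K`. -/
abbrev Ck (K : Finset (Finset α)) (k : ℕ) : Type := {σ : Finset α // σ ∈ K ∧ σ.card = k} → ℂ

instance (K : Finset (Finset α)) (k : ℕ) : Finite {σ : Finset α // σ ∈ K ∧ σ.card = k} :=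
  Finite.of_injective (β := {σ : Finset α // σ ∈ K}) (fun σ => ⟨σ.1, σ.2.1⟩)
    (fun a b h => Subtype.ext (congrArg (fun x : {σ : Finset α // σ ∈ K} => x.1) h))

/-- Extension by zero. -/
noncomputable def extL (K : Finset (Finset α)) (k : ℕ) : Ck K k →ₗ[ℂ] (Finset α → ℂ) where
  toFun x σ := if h : σ ∈ K ∧ σ.card = k then x ⟨σ, h⟩ else 0
  map_add' x y := by
    funext σ
    simp only [Pi.add_apply]
    split_ifs <;> simp
  map_smul' c x := by
    funext σ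
    simp only [Pi.smul_apply, RingHom.id_apply]
    split_ifs <;> simp

/-- Restriction. -/
def resL (K : Finset (Finset α)) (k : ℕ) : (Finset α → ℂ) →ₗ[ℂ] Ck K k where
  toFun f σ := f σ.1
  map_add' _ _ := rfl
  map_smul' _ _ := rfl

theorem extL_apply {K : Finset (Finset α)} {k : ℕ} (x : Ck K k) {σ : Finset α}
    (h : σ ∈ K ∧ σ.card = k) : extL K k x σ = x ⟨σ, h⟩ := by
  show (if h : σ ∈ K ∧ σ.card = k then x ⟨σ, h⟩ else 0) = _
  rw [dif_pos h]

/-- Local operators. -/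
def Loc (d : (Finset α → ℂ) →ₗ[ℂ] (Finset α → ℂ)) : Prop :=
  ∀ (f g : Finset α → ℂ) (τ : Finset α), (∀ a ∈ τ, f (τ.erase a) = g (τ.erase a)) → d f τ = d g τ

/-- The differential on the cochains of size `k`. -/
noncomputable def Dk (K : Finset (Finset α)) (d : (Finset α → ℂ) →ₗ[ℂ] (Finset α → ℂ)) (k : ℕ) :
    Ck K k →ₗ[ℂ] Ck K (k + 1) :=
  resL K (k + 1) ∘ₗ d ∘ₗ extL K k

theorem Dk_apply (K : Finset (Finset α)) (d : (Finset α → ℂ) →ₗ[ℂ] (Finset α → ℂ)) (k : ℕ)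
    (x : Ck K k) (τ : {σ : Finset α // σ ∈ K ∧ σ.card = k + 1}) :
    Dk K d k x τ = d (extL K k x) τ.1 := rfl

theorem Dk_res {K : Finset (Finset α)} (hK : IsCx K) {d : (Finset α → ℂ) →ₗ[ℂ] (Finset α → ℂ)}
    (hd : Loc d) (k : ℕ) (f : Finset α → ℂ) (τ : {σ : Finset α // σ ∈ K ∧ σ.card = k + 1}) :
    Dk K d k (resL K k f) τ = d f τ.1 := by
  rw [Dk_apply]
  apply hd
  intro a ha
  have h : τ.1.erase a ∈ K ∧ (τ.1.erase a).card = k :=
    ⟨hK _ τ.2.1 _ (erase_subset _ _), by rw [card_erase_of_mem ha, τ.2.2]; rfl⟩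
  rw [extL_apply _ h]; rfl

/-- The differential squares to zero at level `k`. -/
def Sq (K : Finset (Finset α)) (d : (Finset α → ℂ) →ₗ[ℂ] (Finset α → ℂ)) (k : ℕ) : Prop :=
  ∀ (g : Finset α → ℂ), ∀ τ ∈ K, τ.card = k + 1 → d (d g) τ = 0

/-- Exactness at level `k`. -/
def Exa (K : Finset (Finset α)) (d : (Finset α → ℂ) →ₗ[ℂ] (Finset α → ℂ)) (k : ℕ) : Prop :=
  ∀ f : Finset α → ℂ, (∀ τ ∈ K, τ.card = k + 1 → d f τ = 0) →
    ∃ g : Finset α → ℂ, ∀ σ ∈ K, σ.card = k → f σ = d g σ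

theorem range_le_ker {K : Finset (Finset α)} {d : (Finset α → ℂ) →ₗ[ℂ] (Finset α → ℂ)}
    (hK : IsCx K) (hd : Loc d) {k : ℕ} (h : Sq K d (k + 1)) :
    LinearMap.range (Dk K d k) ≤ LinearMap.ker (Dk K d (k + 1)) := by
  rintro _ ⟨x, rfl⟩
  rw [LinearMap.mem_ker]
  funext τ
  have h1 : Dk K d k x = resL K (k + 1) (d (extL K k x)) := rfl
  rw [h1, Dk_res hK hd]
  exact h _ _ τ.2.1 τ.2.2

theorem ker_le_range {K : Finset (Finset α)} {d : (Finset α → ℂ) →ₗ[ℂ] (Finset α → ℂ)}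
    (hK : IsCx K) (hd : Loc d) {k : ℕ} (h : Exa K d (k + 1)) :
    LinearMap.ker (Dk K d (k + 1)) ≤ LinearMap.range (Dk K d k) := by
  intro x hx
  rw [LinearMap.mem_ker] at hx
  obtain ⟨g, hg⟩ := h (extL K (k + 1) x) (by
    intro τ hτ hc
    have := congrFun hx ⟨τ, hτ, hc⟩
    rw [Dk_apply] at this
    exact this)
  refine ⟨resL K k g, ?_⟩
  funext τ
  rw [Dk_res hK hd, ← hg τ.1 τ.2.1 τ.2.2, extL_apply _ τ.2]

/-- The rank of the differential. -/
noncomputable def rk (K : Finset (Finset α)) (d : (Finset α → ℂ) →ₗ[ℂ] (Finset α → ℂ)) (k : ℕ) :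
    ℕ := Module.finrank ℂ (LinearMap.range (Dk K d k))

/-- The nullity of the differential. -/
noncomputable def nl (K : Finset (Finset α)) (d : (Finset α → ℂ) →ₗ[ℂ] (Finset α → ℂ)) (k : ℕ) :
    ℕ := Module.finrank ℂ (LinearMap.ker (Dk K d k))

theorem rk_add_nl (K : Finset (Finset α)) (d : (Finset α → ℂ) →ₗ[ℂ] (Finset α → ℂ)) (k : ℕ) :
    rk K d k + nl K d k = Module.finrank ℂ (Ck K k) :=
  LinearMap.finrank_range_add_finrank_ker (Dk K d k)

theorem rk_eq_nl {K : Finset (Finset α)} {d : (Finset α → ℂ) →ₗ[ℂ] (Finset α → ℂ)}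
    (hK : IsCx K) (hd : Loc d) {k : ℕ} (h : Sq K d (k + 1)) (h' : Exa K d (k + 1)) :
    rk K d k = nl K d (k + 1) := by
  unfold rk nl
  rw [le_antisymm (range_le_ker hK hd h) (ker_le_range hK hd h')]

theorem rk_le_nl {K : Finset (Finset α)} {d : (Finset α → ℂ) →ₗ[ℂ] (Finset α → ℂ)}
    (hK : IsCx K) (hd : Loc d) {k : ℕ} (h : Sq K d (k + 1)) :
    rk K d k ≤ nl K d (k + 1) :=
  Submodule.finrank_mono (range_le_ker hK hd h)

theorem rk_large {K : Finset (Finset α)} {d : (Finset α → ℂ) →ₗ[ℂ] (Finset α → ℂ)} {k : ℕ}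
    (h : ∀ σ ∈ K, σ.card ≤ k) : rk K d k = 0 := by
  have he : IsEmpty {σ : Finset α // σ ∈ K ∧ σ.card = k + 1} :=
    ⟨fun τ => by have := h τ.1 τ.2.1; have := τ.2.2; omega⟩
  have hs : Subsingleton (Ck K (k + 1)) := inferInstance
  unfold rk
  have : LinearMap.range (Dk K d k) = ⊥ := Subsingleton.elim _ _
  rw [this, finrank_bot]

/-- Ranks of two exact differentials agree. -/
theorem rk_eq {K : Finset (Finset α)} {d d' : (Finset α → ℂ) →ₗ[ℂ] (Finset α → ℂ)}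
    (hK : IsCx K) (hd : Loc d) (hd' : Loc d')
    (h1 : ∀ k, 4 ≤ k → Sq K d k ∧ Exa K d k) (h2 : ∀ k, 4 ≤ k → Sq K d' k ∧ Exa K d' k) :
    ∀ n k : ℕ, 3 ≤ k → K.sup Finset.card ≤ k + n → rk K d k = rk K d' k := by
  intro n
  induction n with
  | zero =>
    intro k _ hk
    have hc : ∀ σ ∈ K, σ.card ≤ k := fun σ hσ => (le_sup (f := Finset.card) hσ).trans hk
    rw [rk_large hc, rk_large hc]
  | succ n ih =>
    intro k hk hn
    have e := ih (k + 1) (by omega) (by omega)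
    have a1 := rk_add_nl K d (k + 1)
    have a2 := rk_add_nl K d' (k + 1)
    rw [rk_eq_nl hK hd (h1 (k + 1) (by omega)).1 (h1 (k + 1) (by omega)).2,
      rk_eq_nl hK hd' (h2 (k + 1) (by omega)).1 (h2 (k + 1) (by omega)).2]
    omega

theorem nl_two_le {K : Finset (Finset α)} {d d' : (Finset α → ℂ) →ₗ[ℂ] (Finset α → ℂ)}
    (hK : IsCx K) (hd : Loc d) (hd' : Loc d')
    (h0 : Sq K d 3) (h0' : Sq K d' 3) (h0'' : Exa K d' 3)
    (h1 : ∀ k, 4 ≤ k → Sq K d k ∧ Exa K d k) (h2 : ∀ k, 4 ≤ k → Sq K d' k ∧ Exa K d' k) :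
    nl K d' 2 ≤ nl K d 2 := by
  have e := rk_eq hK hd hd' h1 h2 (K.sup Finset.card) 3 le_rfl (by omega)
  have a1 := rk_add_nl K d 3
  have a2 := rk_add_nl K d' 3
  have b1 : rk K d 2 ≤ nl K d 3 := rk_le_nl hK hd (k := 2) h0
  have b2 : rk K d' 2 = nl K d' 3 := rk_eq_nl hK hd' (k := 2) h0' h0''
  have c1 := rk_add_nl K d 2
  have c2 := rk_add_nl K d' 2
  omega

/-- The twisted coboundary as a linear map. -/
noncomputable def dtL (u v : α) (φ : Finset α → QZ) : (Finset α → ℂ) →ₗ[ℂ] (Finset α → ℂ) where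
  toFun f τ := dt u v φ f τ
  map_add' f g := by funext τ; exact dt_add u v φ f g τ
  map_smul' c f := by funext τ; exact dt_mul u v φ c f τ

/-- The coboundary as a linear map. -/
noncomputable def dlL : (Finset α → ℂ) →ₗ[ℂ] (Finset α → ℂ) where
  toFun f τ := dl f τ
  map_add' f g := by funext τ; exact dl_add f g τ
  map_smul' c f := by
    funext τ
    exact dl_map (AddMonoidHom.mulLeft c) f τ

theorem dtL_apply (u v : α) (φ : Finset α → QZ) (f : Finset α → ℂ) (τ : Finset α) :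
    dtL u v φ f τ = dt u v φ f τ := rfl

theorem dlL_apply (f : Finset α → ℂ) (τ : Finset α) : dlL f τ = dl f τ := rfl

/-- Values on `T` and on the edge `{u, v}` of the complex 1-cocycles. -/
theorem surj {K : Finset (Finset α)} (hK : IsCx K) {u v : α} (huv : u ≠ v)
    (T : Finset (Finset α)) (hT : T ⊆ Ed (Fu K u v)) (hI : Indep K u v T)
    (c : Finset α → ℂ) (c0 : ℂ) :
    ∃ x : Finset α → ℂ, (∀ τ ∈ K, τ.card = 3 → dl x τ = 0) ∧ x {u, v} = c0 ∧
      ∀ σ ∈ T, x σ = c σ := by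
  classical
  -- rational cocycles dual to the elements of `T`
  have hdual : ∀ σ : Finset α, ∃ κ : Finset α → ℚ, Z1 K κ ∧ κ {u, v} = 0 ∧
      ∀ τ ∈ T, κ τ = if τ = σ then 1 else 0 := fun σ => hI (fun τ => if τ = σ then 1 else 0)
  choose κ hκ1 hκ2 hκ3 using hdual
  have hall : ∀ b : Finset α → ℂ, ∃ y : Finset α → ℂ, (∀ τ ∈ K, τ.card = 3 → dl y τ = 0) ∧
      y {u, v} = 0 ∧ ∀ σ ∈ T, y σ = b σ := by
    intro b
    refine ⟨fun τ => ∑ σ ∈ T, b σ * ((κ σ τ : ℚ) : ℂ), ?_, ?_, ?_⟩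
    · intro τ hτ hc
      rw [dl_sum]
      apply sum_eq_zero
      intro σ _
      have h1 : dl (fun ρ => b σ * ((κ σ ρ : ℚ) : ℂ)) τ =
          b σ * dl (fun ρ => ((κ σ ρ : ℚ) : ℂ)) τ :=
        dl_map (AddMonoidHom.mulLeft (b σ)) (fun ρ => ((κ σ ρ : ℚ) : ℂ)) τ
      have h2 : dl (fun ρ => ((κ σ ρ : ℚ) : ℂ)) τ = ((dl (κ σ) τ : ℚ) : ℂ) :=
        dl_map (algebraMap ℚ ℂ).toAddMonoidHom (κ σ) τ
      rw [h1, h2, hκ1 σ τ hτ hc]
      simp
    · show ∑ σ ∈ T, b σ * ((κ σ {u, v} : ℚ) : ℂ) = 0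
      apply sum_eq_zero
      intro σ _
      rw [hκ2]; simp
    · intro ρ hρ
      show ∑ σ ∈ T, b σ * ((κ σ ρ : ℚ) : ℂ) = b ρ
      rw [sum_eq_single_of_mem ρ hρ]
      · rw [hκ3 ρ ρ hρ]; simp
      · intro σ _ hσ
        rw [hκ3 σ ρ hρ, if_neg (Ne.symm hσ)]; simp
  -- a coboundary with a nonzero value at `{u, v}`
  have hcob : ∃ y : Finset α → ℂ, (∀ τ ∈ K, τ.card = 3 → dl y τ = 0) ∧ y {u, v} = c0 := by
    rcases lt_or_gt_of_ne huv with h | h
    · refine ⟨dl (fun σ => if σ = {v} then c0 else 0), fun τ _ _ => dl_dl _ _, ?_⟩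
      rw [dl_pair _ h]
      have : ({u} : Finset α) ≠ {v} := fun h => huv (singleton_injective h)
      simp [this]
    · refine ⟨dl (fun σ => if σ = {u} then c0 else 0), fun τ _ _ => dl_dl _ _, ?_⟩
      rw [pair_comm, dl_pair _ h]
      have : ({v} : Finset α) ≠ {u} := fun h => huv (singleton_injective h).symm
      simp [this]
  obtain ⟨y, hy1, hy2⟩ := hcob
  obtain ⟨z, hz1, hz2, hz3⟩ := hall (fun σ => c σ - y σ)
  refine ⟨fun σ => y σ + z σ, ?_, ?_, ?_⟩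
  · intro τ hτ hc
    rw [dl_add, hy1 τ hτ hc, hz1 τ hτ hc, add_zero]
  · show y {u, v} + z {u, v} = c0
    rw [hy2, hz2, add_zero]
  · intro σ hσ
    show y σ + z σ = c σ
    rw [hz3 σ hσ]; ring

/-- The number of independent cocycles. -/
theorem card_le_nl {K : Finset (Finset α)} (hK : IsCx K) {u v : α} (huv : u ≠ v)
    (he : {u, v} ∈ K) (T : Finset (Finset α)) (hT : T ⊆ Ed (Fu K u v)) (hI : Indep K u v T) :
    T.card + 1 ≤ nl K (dlL : (Finset α → ℂ) →ₗ[ℂ] (Finset α → ℂ)) 2 := by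
  classical
  have hT' : ∀ σ ∈ T, σ ∈ K ∧ σ.card = 2 := fun σ hσ => by
    have h := mem_Ed.mp (hT hσ)
    exact ⟨(mem_Fu.mp h.1).1, h.2⟩
  have hnT : ({u, v} : Finset α) ∉ T := fun h => by
    have h := mem_Ed.mp (hT h)
    exact (mem_Fu.mp h.1).2.1 (by simp)
  have he2 : ({u, v} : Finset α) ∈ K ∧ ({u, v} : Finset α).card = 2 := ⟨he, card_pair huv⟩
  -- the restriction map
  let T' : Finset (Finset α) := insert {u, v} T
  have hT'' : ∀ σ ∈ T', σ ∈ K ∧ σ.card = 2 := by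
    intro σ hσ
    rcases mem_insert.mp hσ with rfl | hσ
    · exact he2
    · exact hT' σ hσ
  let R : LinearMap.ker (Dk K (dlL : (Finset α → ℂ) →ₗ[ℂ] (Finset α → ℂ)) 2) →ₗ[ℂ]
      ({σ // σ ∈ T'} → ℂ) :=
    { toFun := fun x σ => x.1 ⟨σ.1, hT'' σ.1 σ.2⟩
      map_add' := fun _ _ => rfl
      map_smul' := fun _ _ => rfl }
  have hR : Function.Surjective R := by
    intro c
    obtain ⟨x, hx1, hx2, hx3⟩ := surj hK huv T hT hI
      (fun σ => if h : σ ∈ T' then c ⟨σ, h⟩ else 0) (c ⟨{u, v}, mem_insert_self _ _⟩)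
    refine ⟨⟨resL K 2 x, ?_⟩, ?_⟩
    · rw [LinearMap.mem_ker]
      funext τ
      rw [Dk_res hK (fun f g τ h => dl_congr h)]
      exact hx1 _ τ.2.1 τ.2.2
    · funext σ
      show x σ.1 = c σ
      obtain ⟨σ, hσ⟩ := σ
      rcases mem_insert.mp hσ with h | h
      · subst h; exact hx2
      · have := hx3 σ h
        simp only at this ⊢
        rw [this, dif_pos hσ]
  have hle := LinearMap.finrank_le_finrank_of_surjective hR
  rw [Module.finrank_fintype_fun_eq_card, Fintype.card_coe] at hle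
  have hc : T'.card = T.card + 1 := card_insert_of_notMem hnT
  rw [hc] at hle
  exact hle

end TwD

theorem twDim (h4 : TwExStmt) (h3 : ScalarStmt) : TwDimStmt := by
  classical
  intro α _ K u v φ hK hL huv he hφ T hT hI
  -- exactness of the untwisted complex
  have hLoc1 : TwD.Loc (TwD.dtL u v φ) := fun f g τ h => dt_congr h
  have hLoc2 : TwD.Loc (TwD.dlL : (Finset α → ℂ) →ₗ[ℂ] (Finset α → ℂ)) := fun f g τ h => dl_congr h
  have hEx : ∀ k, 3 ≤ k → Ex ℂ K k := by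
    intro k hk
    have := h3 α (LD K ∅ ∅) k ℂ (hL ∅ ∅ k hk)
    rwa [LD_empty] at this
  have hnl : TwD.nl K (TwD.dlL : (Finset α → ℂ) →ₗ[ℂ] (Finset α → ℂ)) 2 ≤
      TwD.nl K (TwD.dtL u v φ) 2 := by
    apply TwD.nl_two_le hK hLoc1 hLoc2
    · intro g τ hτ hc
      exact dt_dt hK huv hφ g hτ (by omega)
    · intro g τ _ _
      exact dl_dl g τ
    · exact hEx 3 le_rfl
    · intro k hk
      refine ⟨fun g τ hτ hc => dt_dt hK huv hφ g hτ (by omega), ?_⟩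
      exact h4 α K u v φ hK huv hφ
        (fun w A _ _ k hk => h3 α (LD K {w} A) k ℂ (hL {w} A k hk)) k hk
    · intro k hk
      exact ⟨fun g τ _ _ => dl_dl g τ, hEx k (by omega)⟩
  have hcard := TwD.card_le_nl hK huv he T hT hI
  have hT' : ∀ σ ∈ T, σ ∈ K ∧ σ.card = 2 := fun σ hσ => by
    have h := mem_Ed.mp (hT hσ)
    exact ⟨(mem_Fu.mp h.1).1, h.2⟩
  let R : LinearMap.ker (TwD.Dk K (TwD.dtL u v φ) 2) →ₗ[ℂ] ({σ // σ ∈ T} → ℂ) :=
    { toFun := fun x σ => x.1 ⟨σ.1, hT' σ.1 σ.2⟩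
      map_add' := fun _ _ => rfl
      map_smul' := fun _ _ => rfl }
  have hlt : Module.finrank ℂ ({σ // σ ∈ T} → ℂ) <
      Module.finrank ℂ (LinearMap.ker (TwD.Dk K (TwD.dtL u v φ) 2)) := by
    rw [Module.finrank_fintype_fun_eq_card, Fintype.card_coe]
    have : T.card + 1 ≤ TwD.nl K (TwD.dtL u v φ) 2 := hcard.trans hnl
    unfold TwD.nl at this
    omega
  have hne : LinearMap.ker R ≠ ⊥ := LinearMap.ker_ne_bot_of_finrank_lt hlt
  obtain ⟨y, hy, hy0⟩ := Submodule.exists_mem_ne_zero_of_ne_bot hne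
  refine ⟨TwD.extL K 2 y.1, ?_, ?_, ?_⟩
  · intro τ hτ hc
    have := congrFun (LinearMap.mem_ker.mp y.2) ⟨τ, hτ, hc⟩
    rw [TwD.Dk_apply] at this
    exact this
  · intro σ hσ
    rw [TwD.extL_apply _ (hT' σ hσ)]
    exact congrFun (LinearMap.mem_ker.mp hy) ⟨σ, hσ⟩
  · by_contra hcon
    push Not at hcon
    apply hy0
    apply Subtype.ext
    funext σ
    have := hcon σ.1 (mem_Ed.mpr σ.2)
    rw [TwD.extL_apply _ σ.2] at this
    exact this

end Pool.Agent.Lib.MP_db6a6f_al
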